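import Pool.Agent.Lib.MP_ca56d1_nt.Loc2

/-! The Hilbert symbol of a nonarchimedean local field. -/

namespace Pool.Agent.Stark

variable {k : Type*} [Field k] {w : Valuation k (WithZero (Multiplicative ℤ))}

theorem IsLoc.exists_ord (L : IsLoc w) (n : ℤ) : ∃ x : k, x ≠ 0 ∧ ord w x = n :=
  LocAux.exists_ord L n

theorem pw_anti {i j : ℤ} (h : j ≤ i) : pw w i ≤ pw w j := fun _ => LocAux.anti h

theorem IsLoc.relIndex_pw (L : IsLoc w) (j : ℤ) (n : ℕ) :
    (pw w (j + n)).relIndex (pw w j) = rc w ^ n := LocAux.relIndex_pw L j n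

theorem IsLoc.two_le_rc (L : IsLoc w) : 2 ≤ rc w := by
  have h1 : rc w ≠ 1 := fun h =>
    LocAux.one_not_mem (AddSubgroup.relIndex_eq_one.1 h LocAux.one_mem)
  have h2 := L.fin
  omega

theorem ord_two_nonneg : 0 ≤ ord w (2 : k) := LocAux.two_nonneg

theorem IsLoc.card_sqCl (L : IsLoc w) :
    Nat.card (SqCl k) = 4 * rc w ^ (ord w (2 : k)).toNat :=
  LocAux.sq_index L

theorem IsLoc.hs_mul_right (L : IsLoc w) {a b c : k} (ha : a ≠ 0) (hb : b ≠ 0) (hc : c ≠ 0) :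
    hs a (b * c) = hs a b + hs a c := by
  by_cases hn : IsSquare a
  · simp [hs_of_isSquare_left L.two ha hn]
  have h := Subgroup.mul_mem_iff_of_index_two (LocAux.norm_index L hn) (a := Units.mk0 b hb)
    (b := Units.mk0 c hc)
  rw [← Units.mk0_mul _ _ (mul_ne_zero hb hc), LocAux.mem_nm, LocAux.mem_nm, LocAux.mem_nm] at h
  revert h
  generalize hs a (b * c) = x, hs a b = y, hs a c = z
  revert x y z
  decide

theorem IsLoc.hs_mul_left (L : IsLoc w) {a b c : k} (ha : a ≠ 0) (hb : b ≠ 0) (hc : c ≠ 0) :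
    hs (a * b) c = hs a c + hs b c := by
  rw [hs_comm L.two (mul_ne_zero ha hb) hc, L.hs_mul_right hc ha hb, hs_comm L.two hc ha,
    hs_comm L.two hc hb]

theorem IsLoc.exists_hs_one (L : IsLoc w) {a : k} (ha : a ≠ 0) (hn : ¬ IsSquare a) :
    ∃ b : k, b ≠ 0 ∧ hs a b = 1 := by
  have _ := ha
  by_contra! h
  have h1 : (LocAux.nm a).range = ⊤ := eq_top_iff.2 fun b _ => by
    rw [← Units.mk0_val b b.ne_zero, LocAux.mem_nm]
    exact (zmod2_cases _).resolve_right (h b b.ne_zero)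
  have := LocAux.norm_index L hn
  rw [h1, Subgroup.index_top] at this
  omega

namespace LocAux

theorem hs_even (L : IsLoc w) {a y : k} (hu : Unr w a) (hy : y ≠ 0) (he : Even (ord w y)) :
    hs a y = 0 := by
  obtain ⟨m, hm⟩ := he
  obtain ⟨t, ht, h⟩ := exists_ord L m
  have h1 := pow_ne_zero 2 ht
  rw [← div_mul_cancel₀ y h1, hs_mul_sq_right _ _ ht]
  exact hu _ (div_ne_zero hy h1) (by rw [ord_div hy h1, ord_pow, h, hm]; ring)

end LocAux

open scoped Classical in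
theorem IsLoc.hs_of_unr (L : IsLoc w) {a y : k} (ha : a ≠ 0) (hu : Unr w a) (hy : y ≠ 0) :
    hs a y = if IsSquare a then 0 else (ord w y : ZMod 2) := by
  split_ifs with hn
  · exact hs_of_isSquare_left L.two ha hn y
  refine zmod2_ext ?_
  rw [ZMod.intCast_eq_zero_iff_even]
  refine ⟨fun h => by_contra fun h1 => ?_, LocAux.hs_even L hu hy⟩
  obtain ⟨b, hb, h2⟩ := L.exists_hs_one ha hn
  have h3 : ¬ Even (ord w b) := fun h3 => by simp [LocAux.hs_even L hu hb h3] at h2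
  have h4 := LocAux.hs_even L hu (mul_ne_zero hy hb) (by
    rw [ord_mul hy hb, Int.even_add]; tauto)
  rw [L.hs_mul_right ha hy hb, h, h2] at h4
  simp at h4

theorem IsLoc.even_of_unr (L : IsLoc w) {a : k} (ha : a ≠ 0) (hu : Unr w a) : Even (ord w a) := by
  have h := L.hs_of_unr ha hu (neg_ne_zero.2 ha)
  rw [hs_neg_self, ord_neg] at h
  split_ifs at h with hn
  · obtain ⟨r, rfl⟩ := hn
    rw [ord_mul (left_ne_zero_of_mul ha) (left_ne_zero_of_mul ha)]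
    exact ⟨_, rfl⟩
  · exact ZMod.intCast_eq_zero_iff_even.1 h.symm

theorem IsLoc.unr_mul (L : IsLoc w) {a b : k} (ha : a ≠ 0) (hb : b ≠ 0) (hu : Unr w a)
    (hv : Unr w b) : Unr w (a * b) := fun y hy h => by
  rw [L.hs_mul_left ha hb hy, hu y hy h, hv y hy h, add_zero]

theorem IsLoc.isSquare_mul_of_unr (L : IsLoc w) {a b : k} (ha : a ≠ 0) (hb : b ≠ 0) (hu : Unr w a)
    (hv : Unr w b) (ha' : ¬ IsSquare a) (hb' : ¬ IsSquare b) : IsSquare (a * b) := by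
  by_contra hn
  obtain ⟨y, hy, h⟩ := L.exists_hs_one (mul_ne_zero ha hb) hn
  rw [L.hs_mul_left ha hb hy, L.hs_of_unr ha hu hy, L.hs_of_unr hb hv hy, if_neg ha', if_neg hb',
    CharTwo.add_self_eq_zero] at h
  exact zero_ne_one h

theorem IsLoc.unr_of_norm_even (L : IsLoc w) {a : k} (ha : a ≠ 0) (hn : ¬ IsSquare a)
    (h : ∀ x z : k, x ^ 2 - a * z ^ 2 ≠ 0 → Even (ord w (x ^ 2 - a * z ^ 2))) : Unr w a := by
  have _ := hn
  have key : ∀ y : k, y ≠ 0 → ord w y = 1 → hs a y = 1 := fun y hy h1 => by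
    rw [hs_eq_one]
    rintro ⟨x, z, rfl⟩
    have := h x z hy
    rw [h1] at this
    exact Int.not_even_one this
  intro y hy h0
  obtain ⟨π, hπ, h1⟩ := L.exists_ord 1
  have h2 := key (y * π) (mul_ne_zero hy hπ) (by rw [ord_mul hy hπ, h0, h1, zero_add])
  rw [L.hs_mul_right ha hy hπ, key π hπ h1] at h2
  exact add_eq_right.1 h2

namespace LocAux

theorem exists_irr (L : IsLoc w) : ∃ n ∈ pw w 0, ∀ r ∈ pw w 0, r ^ 2 + r + n ∉ pw w 1 := by
  have := fin_pw L 0 1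
  have h1 : ∀ r ∈ pw w 0, -(r ^ 2 + r) ∈ pw w 0 := fun r hr =>
    neg_mem (add_mem (sq r ▸ pw_mul hr hr le_rfl) hr)
  let F : pw w 0 ⧸ (pw w 1).addSubgroupOf (pw w 0) → pw w 0 ⧸ (pw w 1).addSubgroupOf (pw w 0) :=
    Quotient.map' (fun r => ⟨_, h1 r.1 r.2⟩) fun r s h => by
      rw [QuotientAddGroup.leftRel_apply] at h ⊢
      have h2 : -(-r.1 + s.1) * (r.1 + s.1 + 1) ∈ pw w 1 :=
        pw_mul (neg_mem h) (add_mem (add_mem r.2 s.2) one_mem) le_rfl
      have h3 : -(-(r.1 ^ 2 + r.1)) + -(s.1 ^ 2 + s.1) = -(-r.1 + s.1) * (r.1 + s.1 + 1) := by ring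
      exact (congrArg (· ∈ pw w 1) h3).mpr h2
  have h2 : ¬ Function.Injective F := fun h => by
    have h3 := @h (QuotientAddGroup.mk ⟨-1, neg_mem one_mem⟩) (QuotientAddGroup.mk 0)
      (congrArg QuotientAddGroup.mk (Subtype.ext (by simp)))
    have h4 := QuotientAddGroup.eq.1 h3
    exact one_not_mem (by simpa [AddSubgroup.mem_addSubgroupOf] using h4)
  rw [Finite.injective_iff_surjective] at h2
  by_contra! h
  refine h2 ?_
  rintro ⟨n⟩
  obtain ⟨r, hr, h3⟩ := h n n.2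
  refine ⟨QuotientAddGroup.mk ⟨r, hr⟩, QuotientAddGroup.eq.2 ?_⟩
  simpa [AddSubgroup.mem_addSubgroupOf, add_comm r] using h3

end LocAux

open LocAux in
/-- A quadratic form that is anisotropic modulo the prime; its discriminant is the unramified
class. -/
theorem IsLoc.exists_aniso (L : IsLoc w) : ∃ t n : k, t ∈ pw w 0 ∧ n ∈ pw w 0 ∧
    (∀ x ∈ pw w 0, ∀ z ∈ pw w 0, x ^ 2 + t * x * z + n * z ^ 2 ∈ pw w 1 →
      x ∈ pw w 1 ∧ z ∈ pw w 1) ∧
    t ^ 2 - 4 * n ≠ 0 ∧ ord w (t ^ 2 - 4 * n) = 0 ∧ ¬ IsSquare (t ^ 2 - 4 * n) ∧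
    Unr w (t ^ 2 - 4 * n) := by
  obtain ⟨n, hn, h⟩ := exists_irr L
  have unit : ∀ {x : k}, x ∈ pw w 0 → x ∉ pw w 1 → x ≠ 0 ∧ ord w x = 0 := fun hx hx' => by
    have h1 := not_mem.1 hx'
    have h2 := (mem_pw_iff.1 hx).resolve_left h1.1
    exact ⟨h1.1, by omega⟩
  have h4 : 1 ^ 2 - 4 * n = 1 - 2 * (2 * n) := by ring
  have h1 : 1 ^ 2 - 4 * n ≠ 0 ∧ ord w (1 ^ 2 - 4 * n) = 0 := by
    have h2 : 2 * n ∈ pw w 0 := pw_mul two_mem hn le_rfl
    refine unit (h4 ▸ sub_mem one_mem (pw_mul two_mem h2 le_rfl)) fun h3 => h _ (neg_mem h2) ?_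
    rw [show (-(2 * n)) ^ 2 + -(2 * n) + n = (1 ^ 2 - 4 * n) * -n by ring]
    exact pw_mul h3 (neg_mem hn) le_rfl
  have h2 : ∀ r : k, r ^ 2 + r + n ≠ 0 ∧ Even (ord w (r ^ 2 + r + n)) := fun r => by
    by_cases hr : r ∈ pw w 0
    · have := unit (add_mem (add_mem (sq r ▸ pw_mul hr hr le_rfl) hr) hn) (h r hr)
      exact ⟨this.1, this.2 ▸ Even.zero⟩
    · have h3 := not_mem.1 hr
      have h5 : ord w (r ^ 2) = 2 * ord w r := ord_pow r 2
      have := add_high (w := w) (pow_ne_zero 2 h3.1) (y := r + n)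
        (add_mem (mem_of_le (by omega)) (anti (by omega) hn))
      rw [← add_assoc, h5] at this
      exact ⟨this.1, this.2 ▸ even_two_mul _⟩
  have h3 : ∀ x z : k, z ≠ 0 → x ^ 2 - (1 ^ 2 - 4 * n) * z ^ 2
      = (2 * z) ^ 2 * (((x / z - 1) / 2) ^ 2 + (x / z - 1) / 2 + n) := fun x z hz => by
    have := L.two
    field_simp
    ring
  have h5 : ¬ IsSquare (1 ^ 2 - 4 * n) := by
    rintro ⟨s, hs⟩
    have := h3 s 1 one_ne_zero
    rw [hs, show s ^ 2 - s * s * 1 ^ 2 = 0 by ring] at this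
    exact mul_ne_zero (pow_ne_zero 2 (mul_ne_zero L.two one_ne_zero)) (h2 _).1 this.symm
  refine ⟨1, n, one_mem, hn, fun x hx z hz h6 => ?_, h1.1, h1.2, h5,
    L.unr_of_norm_even h1.1 h5 fun x z _ => ?_⟩
  · have h7 : z ∈ pw w 1 := by_contra fun h7 => by
      have h8 := unit hz h7
      refine h (x / z) (pw_div hx (by omega)) ?_
      rw [show (x / z) ^ 2 + x / z + n = (x ^ 2 + 1 * x * z + n * z ^ 2) / z ^ 2 by
        have := h8.1; field_simp]
      exact pw_div h6 (by rw [ord_pow]; omega)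
    refine ⟨by_contra fun h8 => ?_, h7⟩
    have h9 := unit hx h8
    have h10 : x ^ 2 ∈ pw w 1 := by
      rw [show x ^ 2 = x ^ 2 + 1 * x * z + n * z ^ 2 - (x + n * z) * z by ring]
      exact sub_mem h6 (pw_mul (add_mem hx (pw_mul hn hz le_rfl)) h7 le_rfl)
    exact not_mem.2 ⟨pow_ne_zero 2 h9.1, by rw [ord_pow]; omega⟩ h10
  · rcases eq_or_ne z 0 with rfl | hz
    · rw [show x ^ 2 - (1 ^ 2 - 4 * n) * 0 ^ 2 = x ^ 2 by ring, ord_pow]
      exact even_two_mul _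
    · rw [h3 x z hz, ord_mul (pow_ne_zero 2 (mul_ne_zero L.two hz)) (h2 _).1, ord_pow]
      exact (even_two_mul _).add (h2 _).2

theorem IsLoc.unr_of_odd (L : IsLoc w) (h2 : ord w (2 : k) = 0) {a : k} (ha : a ≠ 0)
    (he : Even (ord w a)) : Unr w a := by
  obtain ⟨t, n, -, -, -, h3, h4, h5, h6⟩ := L.exists_aniso
  obtain ⟨m, hm⟩ := he
  obtain ⟨c, hc, h⟩ := L.exists_ord m
  have h1 := pow_ne_zero 2 hc
  have h7 := div_ne_zero ha h1
  have h8 : ord w (a / c ^ 2) = 0 := by rw [ord_div ha h1, ord_pow, h, hm]; ring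
  have h9 := LocAux.units_index L
  rw [h2, Int.toNat_zero, pow_zero, mul_one] at h9
  have key : ∀ (x : k) (hx : x ≠ 0), Units.mk0 x hx ∈ (powMonoidHom 2 : kˣ →* kˣ).range ↔
      IsSquare x := fun x hx => by
    constructor
    · rintro ⟨u, hu⟩
      exact ⟨u, by simpa [sq] using (congrArg Units.val hu).symm⟩
    · rintro ⟨r, rfl⟩
      exact ⟨Units.mk0 r (left_ne_zero_of_mul hx), Units.ext (by simp [sq])⟩
  have h10 := Subgroup.mul_mem_iff_of_index_two h9 (a := ⟨Units.mk0 _ h7, h8⟩)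
    (b := ⟨Units.mk0 _ h3, h4⟩)
  simp only [Subgroup.mem_subgroupOf, Subgroup.coe_mul] at h10
  rw [← Units.mk0_mul _ _ (mul_ne_zero h7 h3), key, key, key] at h10
  intro y hy h0
  rw [← div_mul_cancel₀ a h1, hs_mul_sq_left _ _ hc]
  by_cases h11 : IsSquare (a / c ^ 2)
  · exact hs_of_isSquare_left L.two h7 h11 y
  · rw [hs_congr_left y h7 h3 (h10.2 (iff_of_false h11 h5))]
    exact h6 y hy h0

theorem IsLoc.hs_units (L : IsLoc w) (h2 : ord w (2 : k) = 0) {a b : k} (ha : a ≠ 0) (hb : b ≠ 0)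
    (ha' : Even (ord w a)) (hb' : Even (ord w b)) : hs a b = 0 :=
  LocAux.hs_even L (L.unr_of_odd h2 ha ha') hb hb'

end Pool.Agent.Stark
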