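import Pool.Agent.Lib.MP_ca56d1_nt.Compl
import Pool.Agent.Lib.MP_ca56d1_nt.Loc

/-! Decomposition of primes and infinite places in a quadratic extension. -/

set_option linter.unusedSectionVars false

namespace Pool.Agent.Stark

open NumberField IsDedekindDomain

variable {F K : Type*} [Field F] [NumberField F] [Field K] [NumberField K] [Algebra F K]

namespace SplitAux

theorem lies (Q : Pr K) : Q.asIdeal.LiesOver (below F Q).asIdeal := ⟨rfl⟩

theorem lies_of {Q : Pr K} {q : Pr F} (h : below F Q = q) : Q.asIdeal.LiesOver q.asIdeal :=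
  h ▸ lies Q

theorem of_mem {q : Pr F} {P : Ideal (𝓞 K)} (h : P ∈ q.asIdeal.primesOver (𝓞 K)) :
    ∃ Q : Pr K, Q.asIdeal = P ∧ below F Q = q := by
  have := h.2
  exact ⟨⟨P, h.1, Ideal.ne_bot_of_liesOver_of_ne_bot q.ne_bot P⟩, rfl,
    HeightOneSpectrum.ext h.2.over.symm⟩

theorem eI_pos (Q : Pr K) : 0 < eI F Q := Ideal.ramificationIdx_pos _ _

theorem fibre {α β : Type*} [DecidableEq α] [DecidableEq β] (f : α → β) (i : α → α) (P : β → Prop)
    [DecidablePred P] (s : Finset α) (t : Finset β) (hs : ∀ x, x ∈ s ↔ f x ∈ t)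
    (hf : ∀ y, ∃ x, f x = y) (hi : ∀ x x', f x' = f x ↔ x' = x ∨ x' = i x)
    (hP : ∀ x, i x = x ↔ P (f x)) : s.card + (t.filter P).card = 2 * t.card := by
  rw [Finset.card_eq_sum_card_fiberwise (f := f) (t := t) fun x hx => (hs x).1 hx,
    Finset.card_filter, ← Finset.sum_add_distrib, Finset.card_eq_sum_ones t, Finset.mul_sum]
  refine Finset.sum_congr rfl fun y hy => ?_
  obtain ⟨x, rfl⟩ := hf y
  have h : s.filter (fun z => f z = f x) = {x, i x} := by
    ext z
    rw [Finset.mem_filter, Finset.mem_insert, Finset.mem_singleton, ← hi, hs]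
    exact ⟨fun h => h.2, fun h => ⟨h ▸ hy, h⟩⟩
  rw [h]
  by_cases hx : i x = x
  · rw [if_pos ((hP x).1 hx), hx]; simp
  · rw [if_neg fun h => hx ((hP x).2 h), Finset.card_pair (Ne.symm hx), mul_one]

end SplitAux

open SplitAux

theorem below_surj (q : Pr F) : ∃ Q : Pr K, below F Q = q := by
  obtain ⟨P⟩ : Nonempty (q.asIdeal.primesOver (𝓞 K)) := inferInstance
  obtain ⟨Q, -, h⟩ := of_mem P.2
  exact ⟨Q, h⟩

theorem og_algebraMap (Q : Pr K) (t : F) :
    og Q (algebraMap F K t) = eI F Q * og (below F Q) t := by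
  have := lies (F := F) Q
  have h := HeightOneSpectrum.valuation_liesOver K (below F Q) Q t
  rw [Ideal.ramificationIdx'_eq_ramificationIdx _ _ (below F Q).ne_bot] at h
  rw [og, og, ord, ord, ← h, WithZero.log_pow, eI]
  simp

theorem below_finite (q : Pr F) : {Q : Pr K | below F Q = q}.Finite := by
  refine Set.Finite.of_finite_image (f := fun Q : Pr K => Q.asIdeal)
    ((IsDedekindDomain.primesOver_finite q.asIdeal (𝓞 K)).subset ?_)
    fun _ _ _ _ h => HeightOneSpectrum.ext h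
  rintro _ ⟨Q, hQ, rfl⟩
  exact ⟨Q.isPrime, lies_of hQ⟩

theorem exists_above (S : Finset (Pr F)) : ∃ SK : Finset (Pr K), ∀ Q, Q ∈ SK ↔ below F Q ∈ S := by
  classical
  exact ⟨S.biUnion fun q => (below_finite q).toFinset, fun Q => by simp⟩

theorem ram_finite : {Q : Pr K | eI F Q ≠ 1}.Finite := by
  let _ : Algebra (FractionRing (𝓞 F)) (FractionRing (𝓞 K)) := FractionRing.liftAlgebra _ _
  refine (Ideal.finite_factors (differentIdeal_ne_bot (A := 𝓞 F) (B := 𝓞 K))).subset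
    fun Q hQ => ?_
  refine dvd_differentIdeal_iff.2 fun h => hQ ?_
  exact Ideal.ramificationIdx_eq_one _ _

namespace Quad

variable {a : F} (E : Quad F K a)

/-- The conjugation on integers. -/
noncomputable abbrev sg : 𝓞 K ≃+* 𝓞 K := RingOfIntegers.mapRingEquiv E.tau.toRingEquiv

omit [NumberField F] [NumberField K] in
theorem coe_sg (x : 𝓞 K) : (E.sg x : K) = E.tau x := rfl

theorem mem_act {Q : Pr K} {x : 𝓞 K} : x ∈ (E.act Q).asIdeal ↔ E.sg x ∈ Q.asIdeal := Iff.rfl

theorem mem_act_pow {Q : Pr K} {x : 𝓞 K} (n : ℕ) :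
    x ∈ (E.act Q).asIdeal ^ n ↔ E.sg x ∈ Q.asIdeal ^ n := by
  have h : (E.act Q).asIdeal = Q.asIdeal.map E.sg.symm := (Ideal.map_symm E.sg).symm
  rw [h, ← Ideal.map_pow, Ideal.map_symm]
  rfl

theorem og_act_int (Q : Pr K) (x : 𝓞 K) : og (E.act Q) (x : K) = og Q (E.tau x) := by
  by_cases hx : x = 0
  · simp [hx, og]
  have hx' : E.sg x ≠ 0 := by simpa using hx
  have h : ∀ n : ℕ, (n : ℤ) ≤ og (E.act Q) (x : K) ↔ (n : ℤ) ≤ og Q (E.tau x) := fun n => by
    rw [le_og_iff _ hx, mem_act_pow, ← le_og_iff _ hx', coe_sg]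
  have h1 := og_nonneg (E.act Q) x
  have h2 : 0 ≤ og Q (E.tau x) := og_nonneg Q (E.sg x)
  have h3 := (h (og (E.act Q) (x : K)).toNat).1 (by omega)
  have h4 := (h (og Q (E.tau x)).toNat).2 (by omega)
  omega

theorem og_act (Q : Pr K) (z : K) : og (E.act Q) z = og Q (E.tau z) := by
  obtain ⟨x, y, hy, rfl⟩ := IsFractionRing.div_surjective (A := 𝓞 K) z
  by_cases hx : x = 0
  · simp [hx, og]
  have hx' : (x : K) ≠ 0 := by simpa using hx
  have hy' : (y : K) ≠ 0 := by simpa using nonZeroDivisors.ne_zero hy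
  have h1 := E.og_act_int Q x
  have h2 := E.og_act_int Q y
  change og (E.act Q) ((x : K) / (y : K)) = og Q (E.tau ((x : K) / (y : K)))
  rw [og, og] at h1 h2
  rw [map_div₀, og, og, ord_div hx' hy', ord_div (by simpa using hx') (by simpa using hy'), h1, h2]

@[simp] theorem act_act (Q : Pr K) : E.act (E.act Q) = Q := by
  ext x
  rw [mem_act, mem_act, show E.sg (E.sg x) = x from RingOfIntegers.ext (E.tau_tau x)]

@[simp] theorem below_act (Q : Pr K) : below F (E.act Q) = below F Q := by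
  ext x
  change E.sg (algebraMap (𝓞 F) (𝓞 K) x) ∈ Q.asIdeal ↔ algebraMap (𝓞 F) (𝓞 K) x ∈ Q.asIdeal
  rw [show E.sg (algebraMap (𝓞 F) (𝓞 K) x) = algebraMap (𝓞 F) (𝓞 K) x from
    RingOfIntegers.ext (E.tau.commutes (x : F))]

omit [NumberField F] [NumberField K] in
theorem tau_inv : E.tau⁻¹ = E.tau :=
  inv_eq_of_mul_eq_one_right (AlgEquiv.ext fun z => E.tau_tau z)

theorem below_eq_iff (Q Q' : Pr K) : below F Q' = below F Q ↔ Q' = Q ∨ Q' = E.act Q := by
  refine ⟨fun h => ?_, ?_⟩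
  · have := E.isGalois
    have := lies (F := F) Q
    have := lies_of h
    obtain ⟨σ, hσ⟩ := Ideal.exists_smul_eq_of_isGaloisGroup (below F Q).asIdeal Q.asIdeal
      Q'.asIdeal Gal(K/F)
    rcases E.aut_eq σ with rfl | rfl
    · exact Or.inl (HeightOneSpectrum.ext (by rw [← hσ, one_smul]))
    · refine Or.inr (HeightOneSpectrum.ext (Ideal.ext fun x => ?_))
      rw [← hσ, Ideal.mem_pointwise_smul_iff_inv_smul_mem, tau_inv, mem_act]
      rfl
  · rintro (rfl | rfl)
    · rfl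
    · exact E.below_act Q

theorem og_norm (Q : Pr K) {g h : F} (hy : g ^ 2 - a * h ^ 2 ≠ 0) :
    algebraMap F K g + algebraMap F K h * E.rt ≠ 0 ∧
      E.tau (algebraMap F K g + algebraMap F K h * E.rt) ≠ 0 ∧
      eI F Q * og (below F Q) (g ^ 2 - a * h ^ 2)
        = og Q (algebraMap F K g + algebraMap F K h * E.rt)
          + og Q (E.tau (algebraMap F K g + algebraMap F K h * E.rt)) := by
  have h1 := E.mul_tau_mk g h
  have h2 := mul_ne_zero_iff.1 (h1 ▸ (map_ne_zero (algebraMap F K)).2 hy)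
  refine ⟨h2.1, h2.2, ?_⟩
  rw [← og_algebraMap, ← h1, og, ord_mul h2.1 h2.2]
  rfl

theorem og_trace (Q : Pr K) (g h : F) : eI F Q * og (below F Q) (2 * g)
    = og Q (algebraMap F K g + algebraMap F K h * E.rt
      + E.tau (algebraMap F K g + algebraMap F K h * E.rt)) := by
  rw [← og_algebraMap, E.add_tau_mk]

theorem lsq_of_ne {Q : Pr K} (hQ : E.act Q ≠ Q) : LSq (below F Q) a := by
  have h1 : ¬ Q.asIdeal ≤ (E.act Q).asIdeal := fun h =>
    hQ (HeightOneSpectrum.ext (Q.isMaximal.eq_of_le (E.act Q).isPrime.ne_top h).symm)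
  obtain ⟨z, hz, hz'⟩ := SetLike.not_le_iff_exists.1 h1
  have z0 : z ≠ 0 := fun h => hz' (h ▸ Ideal.zero_mem _)
  have h2 := (og_pos_iff Q z0).2 hz
  have h3 : og Q (E.tau z) = 0 := by
    have h4 := og_nonneg (E.act Q) z
    have h5 := (og_pos_iff (E.act Q) z0).not.2 hz'
    rw [← og_act]
    omega
  obtain ⟨g, h, e⟩ := E.span (z : K)
  rw [e] at h2 h3
  have hh : h ≠ 0 := by
    rintro rfl
    rw [map_zero, zero_mul, add_zero] at h2 h3
    rw [AlgEquiv.commutes] at h3
    omega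
  have hy := E.norm_ne (g := g) (Or.inr hh)
  obtain ⟨n1, n2, h4⟩ := E.og_norm Q hy
  have h5 := E.og_trace Q g h
  have h6 := ord_add_of_lt (w := Q.valuation K) n2 n1 (by change og Q _ < og Q _; omega)
  rw [add_comm] at h6
  have g0 : 2 * g ≠ 0 := fun h0 => h6.1 (by rw [E.add_tau_mk, h0, map_zero])
  have e0 : (0 : ℤ) < eI F Q := by exact_mod_cast eI_pos Q
  have h7 : og (below F Q) (2 * g) = 0 := by
    rw [og, og, h6.2] at h5
    exact (mul_eq_zero.1 (h5.trans h3)).resolve_left e0.ne'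
  have h8 : 0 < og (below F Q) (g ^ 2 - a * h ^ 2) := (mul_pos_iff_of_pos_left e0).1 (by omega)
  set q := below F Q
  have hx : IsSquare (emb q (1 - 4 * (g ^ 2 - a * h ^ 2) / (2 * g) ^ 2)) := by
    refine (isLoc_wv q).hens _ ?_
    have e1 : emb q (1 - 4 * (g ^ 2 - a * h ^ 2) / (2 * g) ^ 2) - 1
        = emb q (-(4 * (g ^ 2 - a * h ^ 2) / (2 * g) ^ 2)) := by
      rw [map_sub, map_one, map_neg]; ring
    have e2 : (4 : Kc q) = emb q 4 := (map_ofNat _ 4).symm
    have f4 : (4 : F) ≠ 0 := by norm_num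
    rw [e1, e2, val_lt_val ((map_ne_zero _).2 (by simp [hy, g0, -mul_eq_zero, f4, mul_ne_zero]))
      ((map_ne_zero _).2 f4), ord_emb, ord_emb]
    rw [og] at h7 h8
    rw [og, og, ord_neg, ord_div (mul_ne_zero f4 hy) (pow_ne_zero _ g0), ord_mul f4 hy, ord_pow, h7]
    omega
  have e3 : a = (1 - 4 * (g ^ 2 - a * h ^ 2) / (2 * g) ^ 2) * (g / h * (g / h)) := by
    have : g ≠ 0 := right_ne_zero_of_mul g0
    field_simp
    ring
  rw [LSq, e3, map_mul, map_mul (emb q) (g / h)]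
  exact hx.mul ⟨_, rfl⟩

theorem ne_of_lsq {Q : Pr K} (hs : LSq (below F Q) a) : E.act Q ≠ Q := by
  intro hQ
  set q := below F Q with hq
  obtain ⟨r, hr⟩ := hs
  have r0 : r ≠ 0 := by
    rintro rfl
    exact E.a_ne ((map_eq_zero (emb q)).1 (by rw [hr, mul_zero]))
  have t0 : (2 : Kc q) ≠ 0 := (isLoc_wv q).two
  have t1 := ord_two_nonneg (w := wv q)
  obtain ⟨c, hc⟩ := exists_approx q r (ord (wv q) (2 * r) + 1)
  have hy : c ^ 2 - a * (-1) ^ 2 ≠ 0 := E.norm_ne (Or.inr (by norm_num))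
  have e1 : emb q (c ^ 2 - a * (-1) ^ 2) = (emb q c - r) * (2 * r + (emb q c - r)) := by
    rw [map_sub, map_mul, map_pow, map_pow, hr, map_neg, map_one]; ring
  have d0 : emb q c - r ≠ 0 := left_ne_zero_of_mul (e1 ▸ (map_ne_zero (emb q)).2 hy)
  have h1 := (mem_pw_iff.1 hc).resolve_left d0
  have h2 := ord_mul (w := wv q) t0 r0
  have h3 := ord_add_of_lt (w := wv q) (mul_ne_zero t0 r0) d0 (by omega)
  have h4 := ord_add_of_lt (w := wv q) r0 d0 (by omega)
  rw [add_sub_cancel] at h4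
  have h5 : og q (2 * c) = ord (wv q) (2 * r) := by
    rw [← ord_emb, map_mul, map_ofNat, ord_mul t0 h4.1, h4.2, h2]
  have h6 : 2 * og q (2 * c) < og q (c ^ 2 - a * (-1) ^ 2) := by
    rw [h5, ← ord_emb, e1, ord_mul d0 h3.1, h3.2]
    omega
  obtain ⟨n1, n2, h7⟩ := E.og_norm Q hy
  have h8 := E.og_trace Q c (-1)
  have h9 := E.og_act Q (algebraMap F K c + algebraMap F K (-1) * E.rt)
  rw [hQ] at h9
  have c0 : (2 * c : F) ≠ 0 := mul_ne_zero two_ne_zero ((map_ne_zero (emb q)).1 h4.1)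
  have h10 := min_le_ord_add (w := Q.valuation K) n1 n2
    (by rw [E.add_tau_mk]; exact (map_ne_zero _).2 c0)
  change min (og Q _) (og Q _) ≤ og Q _ at h10
  have e0 : (0 : ℤ) < eI F Q := by exact_mod_cast eI_pos Q
  have h11 := mul_lt_mul_of_pos_left h6 e0
  rw [← hq] at h7 h8
  rw [← h9, min_self, ← h8] at h10
  rw [h7, ← h9] at h11
  linarith

theorem split_iff (Q : Pr K) : E.act Q ≠ Q ↔ LSq (below F Q) a :=
  ⟨E.lsq_of_ne, E.ne_of_lsq⟩

theorem efg (Q : Pr K) :
    (E.act Q ≠ Q ∧ eI F Q = 1 ∧ Ideal.absNorm Q.asIdeal = Ideal.absNorm (below F Q).asIdeal) ∨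
    (E.act Q = Q ∧ eI F Q = 1 ∧ Ideal.absNorm Q.asIdeal = Ideal.absNorm (below F Q).asIdeal ^ 2) ∨
    (E.act Q = Q ∧ eI F Q = 2 ∧ Ideal.absNorm Q.asIdeal = Ideal.absNorm (below F Q).asIdeal) := by
  have := E.isGalois
  have := lies (F := F) Q
  have h1 := Ideal.ncard_primesOver_mul_ramificationIdxIn_mul_inertiaDegIn (below F Q).asIdeal
    (𝓞 K) Gal(K/F)
  rw [Ideal.ramificationIdxIn_eq_ramificationIdx _ Q.asIdeal Gal(K/F),
    Ideal.inertiaDegIn_eq_inertiaDeg _ Q.asIdeal Gal(K/F), IsGalois.card_aut_eq_finrank,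
    E.finrank_eq] at h1
  have h2 : (below F Q).asIdeal.primesOver (𝓞 K) = {Q.asIdeal, (E.act Q).asIdeal} := by
    ext P
    refine ⟨fun hP => ?_, ?_⟩
    · obtain ⟨Q', rfl, h⟩ := of_mem hP
      exact ((E.below_eq_iff Q Q').1 h).imp (congrArg _) (congrArg _)
    · rintro (rfl | rfl)
      · exact ⟨Q.isPrime, lies Q⟩
      · exact ⟨(E.act Q).isPrime, lies_of (E.below_act Q)⟩
  have h3 := Ideal.absNorm_pow_inertiaDeg (below F Q).asIdeal Q.asIdeal
  rw [h2] at h1
  change _ * (eI F Q * _) = 2 at h1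
  generalize Q.asIdeal.inertiaDeg (𝓞 F) = f at h1 h3
  by_cases hQ : E.act Q = Q
  · rw [hQ, Set.pair_eq_singleton, Set.ncard_singleton, one_mul] at h1
    rcases (Nat.prime_two.eq_one_or_self_of_dvd _ (Dvd.intro _ h1)) with h | h
    · obtain rfl : f = 2 := by rw [h] at h1; omega
      exact Or.inr (Or.inl ⟨hQ, h, h3.symm⟩)
    · obtain rfl : f = 1 := by rw [h] at h1; omega
      exact Or.inr (Or.inr ⟨hQ, h, by rw [← h3, pow_one]⟩)
  · rw [Set.ncard_pair fun h => hQ (HeightOneSpectrum.ext h.symm)] at h1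
    obtain ⟨h4, rfl⟩ := mul_eq_one.1 (show eI F Q * f = 1 by omega)
    exact Or.inl ⟨hQ, h4, by rw [← h3, pow_one]⟩

include E in
theorem unr (Q : Pr K) (h : eI F Q = 1) : Unr (wv (below F Q)) (emb (below F Q) a) := by
  set q := below F Q with hq
  have a0 : emb q a ≠ 0 := (map_ne_zero _).2 E.a_ne
  by_cases hs : LSq q a
  · exact fun y _ _ => hs_of_isSquare_left (isLoc_wv q).two a0 hs y
  have hQ : E.act Q = Q := by
    by_contra hQ
    exact hs (E.lsq_of_ne hQ)
  refine (isLoc_wv q).unr_of_norm_even a0 hs fun x z hn => ?_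
  have hc : Continuous fun p : Kc q × Kc q => p.1 ^ 2 - emb q a * p.2 ^ 2 := by fun_prop
  have hd := (q.denseRange_algebraMap F).prodMap (q.denseRange_algebraMap F)
  have hv : wv q (x ^ 2 - emb q a * z ^ 2) ≠ 0 := by simpa using hn
  obtain ⟨⟨g, h'⟩, hgh⟩ := hd.mem_nhds (hc.continuousAt (x := (x, z)) (Valued.locally_const hv))
  have e1 : wv q (emb q (g ^ 2 - a * h' ^ 2)) = wv q (x ^ 2 - emb q a * z ^ 2) := by
    rw [map_sub, map_mul, map_pow, map_pow]
    exact hgh
  have hy : g ^ 2 - a * h' ^ 2 ≠ 0 := fun h0 => hv (by rw [← e1, h0, map_zero, map_zero])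
  have h1 := (E.og_norm Q hy).2.2
  rw [← og_act, hQ, h, Nat.cast_one, one_mul, ← hq, ← ord_emb, ord, e1] at h1
  exact ⟨_, h1⟩

theorem mn_eq (Q : Pr K) (he : eI F Q = 1) {g h : F} (hy : g ^ 2 - a * h ^ 2 ≠ 0)
    (hev : Even (og (below F Q) (g ^ 2 - a * h ^ 2))) :
    mn ((below F Q).valuation F) (2 * g) (g ^ 2 - a * h ^ 2) =
      min (og Q (algebraMap F K g + algebraMap F K h * E.rt))
        (og (E.act Q) (algebraMap F K g + algebraMap F K h * E.rt)) := by
  obtain ⟨n1, n2, h1⟩ := E.og_norm Q hy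
  have h2 := E.og_trace Q g h
  have h3 := E.add_tau_mk g h
  rw [he, Nat.cast_one, one_mul] at h1 h2
  rw [og_act]
  generalize algebraMap F K g + algebraMap F K h * E.rt = γ at *
  simp only [og] at h1 h2 ⊢
  unfold mn
  rw [h1, h2]
  rcases lt_trichotomy (ord (Q.valuation K) γ) (ord (Q.valuation K) (E.tau γ)) with h4 | h4 | h4
  · have h5 := ord_add_of_lt n1 n2 h4
    rw [if_pos ⟨fun h0 => h5.1 (by rw [h3, h0, map_zero]), by omega⟩]
    omega
  · rw [if_neg]
    · omega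
    · rintro ⟨h5, h6⟩
      have := min_le_ord_add (w := Q.valuation K) n1 n2 (by rw [h3]; exact (map_ne_zero _).2 h5)
      omega
  · have h5 := ord_add_of_lt n2 n1 h4
    rw [add_comm] at h5
    rw [if_pos ⟨fun h0 => h5.1 (by rw [h3, h0, map_zero]), by omega⟩]
    omega

/-- The conjugate infinite place. -/
noncomputable def iact (w : InfinitePlace K) : InfinitePlace K := w.comap (E.tau : K →+* K)

theorem iact_apply (w : InfinitePlace K) (z : K) : E.iact w z = w (E.tau z) := rfl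

omit [NumberField F] [NumberField K] in
theorem tau_smul (w : InfinitePlace K) : E.tau • w = E.iact w := by
  rw [← tau_inv]
  rfl

theorem comap_eq_iff (w w' : InfinitePlace K) :
    w'.comap (algebraMap F K) = w.comap (algebraMap F K) ↔ w' = w ∨ w' = E.iact w := by
  have := E.isGalois
  rw [eq_comm, ← InfinitePlace.mem_orbit_iff]
  refine ⟨fun ⟨σ, hσ⟩ => ?_, ?_⟩
  · rcases E.aut_eq σ with rfl | rfl
    · exact Or.inl (hσ.symm.trans (one_smul _ _))
    · exact Or.inr (hσ.symm.trans (E.tau_smul w))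
  · rintro (rfl | rfl)
    · exact MulAction.mem_orbit_self _
    · exact ⟨E.tau, E.tau_smul w⟩

theorem iact_eq_iff (w : InfinitePlace K) :
    E.iact w = w ↔ ∃ φ : F →+* ℝ, plc φ = w.comap (algebraMap F K) ∧ φ a < 0 := by
  obtain ⟨ψ, rfl⟩ : ∃ ψ, InfinitePlace.mk ψ = w := ⟨_, w.mk_embedding⟩
  have h0 : E.iact (InfinitePlace.mk ψ) = InfinitePlace.mk ψ ↔
      ∀ z, ψ (E.tau z) = starRingEnd ℂ (ψ z) := by
    rw [← tau_smul, ← MulAction.mem_stabilizer_iff, InfinitePlace.mem_stabilizer_mk_iff,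
      or_iff_right E.tau_ne_one]
    exact ⟨fun h z => h.eq z, fun h => RingHom.ext fun z => (h z).symm⟩
  have hsq : ψ E.rt ^ 2 = ψ (algebraMap F K a) := by rw [← map_pow, E.sq]
  have r0 : ψ E.rt ≠ 0 := (map_ne_zero ψ).2 E.rt_ne
  rw [h0, InfinitePlace.comap_mk]
  refine ⟨fun h => ?_, fun ⟨φ, h1, h2⟩ z => ?_⟩
  · have hr : ComplexEmbedding.IsReal (ψ.comp (algebraMap F K)) :=
      ComplexEmbedding.isReal_iff.2 (RingHom.ext fun t => by
        have := h (algebraMap F K t)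
        rw [AlgEquiv.commutes] at this
        exact this.symm)
    refine ⟨hr.embedding, congrArg InfinitePlace.mk (RingHom.ext fun t => hr.coe_embedding_apply t), ?_⟩
    have h1 := h E.rt
    rw [E.tau_rt, map_neg] at h1
    have h2 : (hr.embedding a : ℂ) = -(Complex.normSq (ψ E.rt) : ℂ) := by
      rw [hr.coe_embedding_apply, RingHom.comp_apply, ← hsq, ← Complex.mul_conj, ← h1]; ring
    have h3 : hr.embedding a = -Complex.normSq (ψ E.rt) := by exact_mod_cast h2
    rw [h3]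
    exact neg_neg_of_pos (Complex.normSq_pos.2 r0)
  · have h3 : ∀ t, ψ (algebraMap F K t) = (φ t : ℂ) := fun t => by
      rcases InfinitePlace.mk_eq_iff.1 h1 with h | h
      · exact (RingHom.congr_fun h t).symm
      · exact (RingHom.congr_fun h t).symm.trans (Complex.conj_ofReal _)
    have h4 : starRingEnd ℂ (ψ E.rt) = -ψ E.rt := by
      rw [h3] at hsq
      have h5 : starRingEnd ℂ (ψ E.rt) ^ 2 = ψ E.rt ^ 2 := by
        rw [← map_pow, hsq, Complex.conj_ofReal]
      refine (sq_eq_sq_iff_eq_or_eq_neg.1 h5).resolve_left fun h6 => ?_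
      obtain ⟨u, hu⟩ := Complex.conj_eq_iff_real.1 h6
      rw [hu] at hsq
      have h7 : u ^ 2 = φ a := by exact_mod_cast hsq
      nlinarith [sq_nonneg u]
    obtain ⟨g, h, rfl⟩ := E.span z
    rw [tau_mk]
    simp only [map_add, map_sub, map_mul, h3, h4, Complex.conj_ofReal]
    ring

theorem iact_ne_iff (w : InfinitePlace K) : E.iact w ≠ w ↔ w.IsUnramified F := by
  have := E.isGalois
  rw [InfinitePlace.isUnramified_iff_stabilizer_eq_bot, ← tau_smul, Subgroup.eq_bot_iff_forall]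
  exact ⟨fun h σ hσ => (E.aut_eq σ).resolve_right fun e => h (e ▸ hσ),
    fun h e => E.tau_ne_one (h _ e)⟩

theorem mult_of_iact_eq {w : InfinitePlace K} (h : E.iact w = w) :
    w.IsComplex ∧ w.mult = 2 ∧ (w.comap (algebraMap F K)).mult = 1 := by
  have h1 := InfinitePlace.not_isUnramified_iff.1 fun h2 => (E.iact_ne_iff w).2 h2 h
  exact ⟨h1.1, h1.1.mult_eq_two, h1.2.mult_eq_one⟩

theorem mult_of_iact_ne {w : InfinitePlace K} (h : E.iact w ≠ w) :
    w.mult = (w.comap (algebraMap F K)).mult := ((E.iact_ne_iff w).1 h).eq.symm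

include E in
open scoped Classical in
theorem card_infinitePlace :
    Fintype.card (InfinitePlace K) + (Finset.univ.filter fun φ : F →+* ℝ => φ a < 0).card =
      2 * Fintype.card (InfinitePlace F) := by
  have h := fibre (fun w : InfinitePlace K => w.comap (algebraMap F K)) E.iact
    (fun v => ∃ φ : F →+* ℝ, plc φ = v ∧ φ a < 0) Finset.univ Finset.univ (by simp)
    InfinitePlace.comap_surjective E.comap_eq_iff E.iact_eq_iff
  rw [← Finset.card_image_of_injective _ plc_injective, ← Finset.card_univ, ← Finset.card_univ, ← h]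
  congr 2
  ext v
  simp [and_comm]

include E in
open scoped Classical in
theorem card_above (S : Finset (Pr F)) (SK : Finset (Pr K)) (h : ∀ Q, Q ∈ SK ↔ below F Q ∈ S) :
    SK.card + (S.filter fun q => ¬ LSq q a).card = 2 * S.card :=
  fibre (below F) E.act (fun q => ¬ LSq q a) SK S h below_surj E.below_eq_iff
    fun Q => by rw [← E.split_iff, not_not]

end Quad

end Pool.Agent.Stark
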