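import Pool.Agent.Lib.MP_ca56d1_nt.Euler
import Pool.Agent.Lib.MP_ca56d1_nt.Split

/-! Factorisation of the zeta function of a quadratic extension; a density lemma. -/

namespace Pool.Agent.Stark

open NumberField

variable {F K : Type*} [Field F] [NumberField F] [Field K] [NumberField K] [Algebra F K]

open scoped Classical in
/-- The quotient of the Euler factors at `q` of `K` and of `F`. -/
noncomputable def eul (K : Type*) [Field K] [NumberField K] [Algebra F K] (a : F) (q : Pr F)
    (s : ℂ) : ℂ :=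
  if LSq q a then 1 - (Ideal.absNorm q.asIdeal : ℂ) ^ (-s)
  else if ∃ Q : Pr K, below F Q = q ∧ eI F Q = 2 then 1
  else 1 + (Ideal.absNorm q.asIdeal : ℂ) ^ (-s)

namespace EulerQuadAux

open Filter Topology

theorem one_sub_ne' (q : Pr F) {s : ℂ} (hs : 0 < s.re) :
    1 - (Ideal.absNorm q.asIdeal : ℂ) ^ (-s) ≠ 0 := by
  have := one_sub_ne q (c := 1) (by simp) hs
  simpa using this

theorem one_add_ne' (q : Pr F) {s : ℂ} (hs : 0 < s.re) :
    1 + (Ideal.absNorm q.asIdeal : ℂ) ^ (-s) ≠ 0 := by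
  have := one_sub_ne q (c := -1) (by simp) hs
  simpa using this

theorem eul_ne (a : F) (q : Pr F) {s : ℂ} (hs : 0 < s.re) : eul K a q s ≠ 0 := by
  unfold eul
  split_ifs
  · exact one_sub_ne' q hs
  · exact one_ne_zero
  · exact one_add_ne' q hs

theorem cont_cpow (q : Pr F) : Continuous fun s : ℂ => (Ideal.absNorm q.asIdeal : ℂ) ^ (-s) := by
  refine Continuous.const_cpow continuous_neg (Or.inl ?_)
  have : Ideal.absNorm q.asIdeal ≠ 0 := by
    rw [Ne, Ideal.absNorm_eq_zero_iff]
    exact q.ne_bot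
  exact_mod_cast this

theorem cont_eul (a : F) (q : Pr F) : Continuous fun s : ℂ => eul K a q s := by
  unfold eul
  split_ifs
  · exact continuous_const.sub (cont_cpow q)
  · exact continuous_const
  · exact continuous_const.add (cont_cpow q)

/-- The product of the Euler factors of the primes above `q`. -/
theorem fibre {a : F} (E : Quad F K a) (q : Pr F) {s : ℂ} (hs : 0 < s.re) :
    HasProd (fun Q : {Q : Pr K // below F Q = q} => (1 - (Ideal.absNorm Q.1.asIdeal : ℂ) ^ (-s))⁻¹)
      ((1 - (Ideal.absNorm q.asIdeal : ℂ) ^ (-s))⁻¹ * (eul K a q s)⁻¹) := by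
  classical
  obtain ⟨Q, rfl⟩ := below_surj (K := K) q
  rcases E.efg Q with ⟨h1, _, h3⟩ | ⟨h1, h2, h3⟩ | ⟨h1, h2, h3⟩
  · have hsq : LSq (below F Q) a := (E.split_iff Q).1 h1
    have h4 : Ideal.absNorm (E.act Q).asIdeal = Ideal.absNorm (below F Q).asIdeal := by
      rcases E.efg (E.act Q) with ⟨_, _, h⟩ | ⟨h, _, _⟩ | ⟨h, _, _⟩
      · rw [h, E.below_act]
      · rw [E.act_act] at h
        exact absurd h.symm h1
      · rw [E.act_act] at h
        exact absurd h.symm h1
    have hne : (⟨Q, rfl⟩ : {Q' : Pr K // below F Q' = below F Q}) ≠ ⟨E.act Q, E.below_act Q⟩ :=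
      fun h => h1 (congrArg Subtype.val h).symm
    have := hasProd_prod_of_ne_finset_one (L := SummationFilter.unconditional _)
      (f := fun Q' : {Q' : Pr K // below F Q' = below F Q} =>
        (1 - (Ideal.absNorm Q'.1.asIdeal : ℂ) ^ (-s))⁻¹)
      (s := {⟨Q, rfl⟩, ⟨E.act Q, E.below_act Q⟩}) (by
        rintro ⟨Q', hQ'⟩ hn
        exfalso
        apply hn
        rcases (E.below_eq_iff Q Q').1 hQ' with rfl | rfl <;> simp)
    rw [Finset.prod_pair hne] at this
    simp only [h3, h4] at this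
    rw [eul, if_pos hsq]
    exact this
  · have hsq : ¬ LSq (below F Q) a := fun h => (E.split_iff Q).2 h h1
    have hall : ∀ Q' : Pr K, below F Q' = below F Q → Q' = Q := fun Q' h => by
      rcases (E.below_eq_iff Q Q').1 h with h | h
      · exact h
      · rw [h, h1]
    have hr : ¬ ∃ Q' : Pr K, below F Q' = below F Q ∧ eI F Q' = 2 := by
      rintro ⟨Q', h, h'⟩
      rw [hall Q' h, h2] at h'
      exact absurd h' (by decide)
    have := hasProd_single (L := SummationFilter.unconditional _)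
      (f := fun Q' : {Q' : Pr K // below F Q' = below F Q} =>
        (1 - (Ideal.absNorm Q'.1.asIdeal : ℂ) ^ (-s))⁻¹) ⟨Q, rfl⟩ (by
        rintro ⟨Q', hQ'⟩ hn
        exact absurd (Subtype.ext (hall Q' hQ')) hn)
    rw [eul, if_neg hsq, if_neg hr]
    convert this using 1
    simp only [h3]
    rw [sq, Nat.cast_mul, Complex.natCast_mul_natCast_cpow, ← mul_inv]
    congr 1
    ring
  · have hsq : ¬ LSq (below F Q) a := fun h => (E.split_iff Q).2 h h1
    have hall : ∀ Q' : Pr K, below F Q' = below F Q → Q' = Q := fun Q' h => by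
      rcases (E.below_eq_iff Q Q').1 h with h | h
      · exact h
      · rw [h, h1]
    have hr : ∃ Q' : Pr K, below F Q' = below F Q ∧ eI F Q' = 2 := ⟨Q, rfl, h2⟩
    have := hasProd_single (L := SummationFilter.unconditional _)
      (f := fun Q' : {Q' : Pr K // below F Q' = below F Q} =>
        (1 - (Ideal.absNorm Q'.1.asIdeal : ℂ) ^ (-s))⁻¹) ⟨Q, rfl⟩ (by
        rintro ⟨Q', hQ'⟩ hn
        exact absurd (Subtype.ext (hall Q' hQ')) hn)
    rw [eul, if_neg hsq, if_pos hr]
    convert this using 1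
    simp only [h3, inv_one, mul_one]

theorem zK_hasProd {a : F} (E : Quad F K a) {s : ℂ} (hs : 1 < s.re) :
    HasProd (fun q : Pr F => (1 - (Ideal.absNorm q.asIdeal : ℂ) ^ (-s))⁻¹ * (eul K a q s)⁻¹)
      (zI K s) := by
  have h1 := (Equiv.sigmaFiberEquiv (below F : Pr K → Pr F)).hasProd_iff.2 (zI_hasProd (F := K) hs)
  exact h1.sigma fun q => fibre E q (by linarith)

end EulerQuadAux

open EulerQuadAux in
theorem Quad.Lfun_mul {a : F} (E : Quad F K a) (S : Finset (Pr F))
    (hram : ∀ Q : Pr K, below F Q ∉ S → eI F Q = 1) (c : Ideal (𝓞 F) → ℂ)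
    (hc : ∀ q ∉ S, c q.asIdeal = chi a q) {s : ℂ} (hs : 1 < s.re) :
    Lfun S c s * zI F s = zI K s * ∏ q ∈ S, eul K a q s := by
  classical
  have hs0 : 0 < s.re := by linarith
  have hc1 : ∀ q ∉ S, ‖c q.asIdeal‖ ≤ 1 := fun q hq => by
    rw [hc q hq, chi]
    split_ifs <;> simp
  have h1 := (Lfun_hasProd S c hc1 hs).mul (zI_hasProd (F := F) hs)
  have h2 : HasProd (fun q : Pr F => if q ∈ S then eul K a q s else 1)
      (∏ q ∈ S, eul K a q s) := by
    have := hasProd_prod_of_ne_finset_one (L := SummationFilter.unconditional _)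
      (f := fun q : Pr F => if q ∈ S then eul K a q s else 1) (s := S)
      (fun q hq => if_neg hq)
    rwa [Finset.prod_congr rfl (fun q hq => if_pos hq)] at this
  have h3 := (zK_hasProd E hs).mul h2
  refine h1.unique ?_
  convert h3 using 2 with q
  by_cases hq : q ∈ S
  · rw [if_pos hq, if_pos hq, one_mul, mul_assoc, inv_mul_cancel₀ (eul_ne a q hs0), mul_one]
  · rw [if_neg hq, if_neg hq, mul_one, mul_comm, hc q hq, chi, eul]
    congr 2
    by_cases hsq : LSq q a
    · rw [if_pos hsq, if_pos hsq, one_mul]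
    · have hr : ¬ ∃ Q : Pr K, below F Q = q ∧ eI F Q = 2 := by
        rintro ⟨Q, h, h'⟩
        rw [hram Q (h ▸ hq)] at h'
        exact absurd h' (by decide)
      rw [if_neg hsq, if_neg hsq, if_neg hr]
      ring

namespace EulerQuadAux

open Filter Topology

open scoped Classical in
/-- The quadratic character as a function on ideals. -/
noncomputable def cc (a : F) (I : Ideal (𝓞 F)) : ℂ :=
  if ∃ q : Pr F, q.asIdeal = I ∧ LSq q a then 1 else -1

theorem cc_eq (a : F) (q : Pr F) : cc a q.asIdeal = chi a q := by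
  unfold cc chi
  by_cases h : LSq q a
  · rw [if_pos h, if_pos ⟨q, rfl, h⟩]
  · rw [if_neg h, if_neg]
    rintro ⟨q', h1, h2⟩
    rw [IsDedekindDomain.HeightOneSpectrum.ext h1] at h2
    exact h h2

theorem norm_cc (a : F) (I : Ideal (𝓞 F)) : ‖cc a I‖ ≤ 1 := by
  unfold cc
  split_ifs <;> simp

theorem ev_re : ∀ᶠ s : ℝ in 𝓝[>] 1, 1 < (s : ℂ).re := by
  filter_upwards [self_mem_nhdsWithin] with s hs
  simpa using hs

variable (F) in
theorem tendsto_zI : ∃ r : ℂ, r ≠ 0 ∧
    Tendsto (fun s : ℝ => ((s : ℂ) - 1) * zI F s) (𝓝[>] 1) (𝓝 r) := by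
  refine ⟨dedekindZeta_residue F, by exact_mod_cast dedekindZeta_residue_ne_zero F, ?_⟩
  refine (tendsto_sub_one_mul_dedekindZeta_nhdsGT F).congr' ?_
  filter_upwards [ev_re] with s hs
  rw [zI_eq hs]

theorem tendsto_of_cont {f : ℂ → ℂ} (hf : Continuous f) :
    Tendsto (fun s : ℝ => f s) (𝓝[>] 1) (𝓝 (f 1)) := by
  have : Tendsto (fun s : ℝ => f s) (𝓝 1) (𝓝 (f ((1 : ℝ) : ℂ))) :=
    (hf.comp Complex.continuous_ofReal).tendsto 1
  simpa using this.mono_left nhdsWithin_le_nhds

theorem tendsto_sub_one : Tendsto (fun s : ℝ => (s : ℂ) - 1) (𝓝[>] 1) (𝓝 0) := by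
  simpa using tendsto_of_cont (f := fun s : ℂ => s - 1) (by fun_prop)

/-- The truncated series of the trivial character has a pole at one. -/
theorem tendsto_triv (S : Finset (Pr F)) (c : Ideal (𝓞 F) → ℂ) (hc : ∀ q ∉ S, c q.asIdeal = 1) :
    ∃ r : ℂ, r ≠ 0 ∧ Tendsto (fun s : ℝ => ((s : ℂ) - 1) * Lfun S c s) (𝓝[>] 1) (𝓝 r) := by
  obtain ⟨r, hr, h⟩ := tendsto_zI F
  have h2 := tendsto_of_cont
    (f := fun s : ℂ => ∏ q ∈ S, (1 - (Ideal.absNorm q.asIdeal : ℂ) ^ (-s)))
    (continuous_finsetProd _ fun q _ => continuous_const.sub (cont_cpow q))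
  refine ⟨_, mul_ne_zero hr (Finset.prod_ne_zero_iff.2 fun q _ => one_sub_ne' q (s := 1) (by simp)),
    (h.mul h2).congr' ?_⟩
  filter_upwards [ev_re] with s hs
  rw [Lfun_one S c hc hs, mul_assoc]

/-- The truncated series of a nontrivial quadratic character has a nonzero limit at one. -/
theorem tendsto_nontriv {a : F} (ha : ¬ IsSquare a) : ∃ R : Finset (Pr F), ∀ S : Finset (Pr F),
    R ⊆ S → (∀ q ∉ S, Unr (wv q) (emb q a)) ∧
      ∃ r : ℂ, r ≠ 0 ∧ Tendsto (fun s : ℝ => Lfun S (cc a) s) (𝓝[>] 1) (𝓝 r) := by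
  classical
  obtain ⟨K, _, _, _, ⟨E⟩⟩ := exists_quad ha
  refine ⟨(ram_finite (F := F) (K := K)).toFinset.image (below F), fun S hS => ?_⟩
  have hram : ∀ Q : Pr K, below F Q ∉ S → eI F Q = 1 := fun Q hQ => by
    by_contra h
    exact hQ (hS (Finset.mem_image_of_mem _ ((Set.Finite.mem_toFinset _).2 h)))
  refine ⟨fun q hq => ?_, ?_⟩
  · obtain ⟨Q, rfl⟩ := below_surj (K := K) q
    exact E.unr Q (hram Q hq)
  · obtain ⟨r, hr, h⟩ := tendsto_zI F
    obtain ⟨r', hr', h'⟩ := tendsto_zI K
    have h2 := tendsto_of_cont (f := fun s : ℂ => ∏ q ∈ S, eul K a q s)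
      (continuous_finsetProd _ fun q _ => cont_eul a q)
    refine ⟨_, div_ne_zero (mul_ne_zero hr'
      (Finset.prod_ne_zero_iff.2 fun q _ => eul_ne (K := K) a q (s := 1) (by simp))) hr,
      ((h'.mul h2).div h hr).congr' ?_⟩
    filter_upwards [ev_re] with s hs
    have h3 := E.Lfun_mul S hram (cc a) (fun q _ => cc_eq a q) hs
    have h4 : (s : ℂ) - 1 ≠ 0 := fun h0 => by
      rw [sub_eq_zero.1 h0] at hs
      simp at hs
    have h5 := zI_ne_zero (F := F) hs
    simp only [Pi.div_apply]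
    rw [mul_assoc, ← h3]
    field_simp

end EulerQuadAux

open EulerQuadAux Filter Topology in
theorem density {a b : F} (ha : a ≠ 0) (hb : b ≠ 0) (P : Finset (Pr F))
    (h : ∀ q ∉ P, LSq q a → LSq q b) : IsSquare b ∨ IsSquare (a * b) := by
  classical
  by_contra hcon
  obtain ⟨hb', hab⟩ := not_or.1 hcon
  obtain ⟨Rb, hRb⟩ := tendsto_nontriv hb'
  by_cases ha' : IsSquare a
  · obtain ⟨-, r, -, hr⟩ := hRb (Rb ∪ P) Finset.subset_union_left
    obtain ⟨r', hr', h'⟩ := tendsto_triv (Rb ∪ P) (cc b) fun q hq => by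
      rw [cc_eq, chi, if_pos (h q (fun hp => hq (Finset.mem_union_right _ hp)) (ha'.map (emb q)))]
    have := tendsto_nhds_unique h' (tendsto_sub_one.mul hr)
    exact hr' (by simpa using this)
  · obtain ⟨Ra, hRa⟩ := tendsto_nontriv ha'
    obtain ⟨Rc, hRc⟩ := tendsto_nontriv hab
    set S := Ra ∪ Rb ∪ Rc ∪ P with hS
    obtain ⟨ua, ra, hra, ta⟩ := hRa S fun q hq => by simp [hS, hq]
    obtain ⟨ub, rb, -, tb⟩ := hRb S fun q hq => by simp [hS, hq]
    obtain ⟨-, rc', -, tc⟩ := hRc S fun q hq => by simp [hS, hq]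
    obtain ⟨r1, hr1, t1⟩ := tendsto_triv S (fun _ => 1) fun _ _ => rfl
    have key : ∀ s : ℂ, 1 < s.re →
        Lfun S (fun _ => 1) s * Lfun S (cc a) s = Lfun S (cc b) s * Lfun S (cc (a * b)) s := by
      intro s hs
      have h1 := (Lfun_hasProd S (fun _ => 1) (fun _ _ => by simp) hs).mul
        (Lfun_hasProd S (cc a) (fun _ _ => norm_cc _ _) hs)
      have h2 := (Lfun_hasProd S (cc b) (fun _ _ => norm_cc _ _) hs).mul
        (Lfun_hasProd S (cc (a * b)) (fun _ _ => norm_cc _ _) hs)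
      refine h1.unique ?_
      convert h2 using 2 with q
      by_cases hq : q ∈ S
      · simp [hq]
      · have hP : q ∉ P := fun hp => hq (by simp [hS, hp])
        have ea : emb q a ≠ 0 := by simpa using ha
        have eb : emb q b ≠ 0 := by simpa using hb
        simp only [if_neg hq, cc_eq, chi]
        by_cases sa : LSq q a
        · have sb := h q hP sa
          have sc : LSq q (a * b) := by
            rw [LSq, map_mul]
            exact IsSquare.mul sa sb
          rw [if_pos sa, if_pos sb, if_pos sc]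
        · by_cases sb : LSq q b
          · have sc : ¬ LSq q (a * b) := fun sc => by
              rw [LSq, map_mul] at sc
              have := sc.div sb
              rw [mul_div_cancel_right₀ _ eb] at this
              exact sa this
            rw [if_neg sa, if_pos sb, if_neg sc]
          · have sc : LSq q (a * b) := by
              rw [LSq, map_mul]
              exact (isLoc_wv q).isSquare_mul_of_unr ea eb (ua q hq) (ub q hq) sa sb
            rw [if_neg sa, if_neg sb, if_pos sc, mul_comm]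
    have t2 : Tendsto (fun s : ℝ => ((s : ℂ) - 1) * Lfun S (fun _ => 1) s * Lfun S (cc a) s)
        (𝓝[>] 1) (𝓝 (0 * (rb * rc'))) := by
      refine (tendsto_sub_one.mul (tb.mul tc)).congr' ?_
      filter_upwards [ev_re] with s hs
      rw [mul_assoc, key s hs]
    have := tendsto_nhds_unique (t1.mul ta) t2
    exact mul_ne_zero hr1 hra (by simpa using this)

end Pool.Agent.Stark
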