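import Pool.Agent.Lib.MP_ca56d1_nt.Poisson

/-! Lattices attached to ideals, and the decomposition of an ideal under the units. -/

namespace Pool.Agent.Stark.ZetaZeroAux

open NumberField NumberField.mixedEmbedding NumberField.InfinitePlace NumberField.Units
open scoped nonZeroDivisors Classical

variable (K : Type*) [Field K] [NumberField K]

/-- The place of a coordinate. -/
def pl : index K → InfinitePlace K := Sum.elim (fun w => w.1) fun w => w.1.1

theorem sum_pl (c : InfinitePlace K → ℝ) : ∑ i, c (pl K i) = ∑ w, (mult w : ℝ) * c w := by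
  simp [pl, Fintype.sum_prod_type, sum_eq_sum_add_sum, mult_isReal, mult_isComplex]

theorem sum_pl_sq (c : InfinitePlace K → ℝ) (x : K) :
    ∑ i, c (pl K i) * (stdBasis K).repr (mixedEmbedding K x) i ^ 2 = ∑ w, c w * w x ^ 2 := by
  rw [Fintype.sum_sum_type, Fintype.sum_prod_type, sum_eq_sum_add_sum]
  congr 1 <;> refine Finset.sum_congr rfl fun w _ => ?_
  · rw [stdBasis_apply_isReal, mixedEmbedding_apply_isReal, ← norm_embedding_of_isReal w.2,
      Real.norm_eq_abs, sq_abs]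
    rfl
  · rw [Fin.sum_univ_two, stdBasis_apply_isComplex_fst, stdBasis_apply_isComplex_snd,
      mixedEmbedding_apply_isComplex, ← norm_embedding_eq, Complex.sq_norm, Complex.normSq_apply]
    change c w.1 * _ + c w.1 * _ = _
    ring

theorem card_index : Fintype.card (index K) = Module.finrank ℚ K := by
  rw [← Module.finrank_eq_card_basis (stdBasis K), mixedEmbedding.finrank]

variable {K}

theorem exists_basis (b : (Ideal (𝓞 K))⁰) : ∃ γ : Module.Basis (index K) ℝ (mixedSpace K),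
    ∀ z, (∃ k : index K → ℤ, ∑ i, (k i : ℝ) • γ i = z) ↔
      ∃ x : 𝓞 K, x ∈ b.1 ∧ mixedEmbedding K x = z := by
  refine ⟨(fractionalIdealLatticeBasis K (FractionalIdeal.mk0 K b)).reindex
    (Fintype.equivOfCardEq (by rw [← Module.finrank_eq_card_basis (fractionalIdealLatticeBasis K _),
      Module.finrank_eq_card_basis (stdBasis K)])), fun z => ?_⟩
  simp only [Int.cast_smul_eq_zsmul]
  rw [← Submodule.mem_span_range_iff_exists_fun, Module.Basis.range_reindex,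
    mem_span_fractionalIdealLatticeBasis]
  refine ⟨fun ⟨y, h1, h2⟩ => ?_, fun ⟨x, h1, h2⟩ => ⟨_, FractionalIdeal.mem_coeIdeal_of_mem _ h1, h2⟩⟩
  obtain ⟨x, h3, rfl⟩ := (FractionalIdeal.mem_coeIdeal _).1 h1
  exact ⟨x, h3, h2⟩

theorem exists_lattice (b : (Ideal (𝓞 K))⁰) : ∃ (B : Matrix (index K) (index K) ℝ)
    (v : {x : 𝓞 K // x ∈ b.1 ∧ x ≠ 0} ≃ {k : index K → ℤ // k ≠ 0}), B.det ≠ 0 ∧
      ∀ x i, lpt B (v x).1 i = (stdBasis K).repr (mixedEmbedding K x.1) i := by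
  obtain ⟨γ, hγ⟩ := exists_basis b
  choose v hv using fun x : {x : 𝓞 K // x ∈ b.1 ∧ x ≠ 0} => (hγ _).2 ⟨x.1, x.2.1, rfl⟩
  have inj : ∀ x y : 𝓞 K, mixedEmbedding K x = mixedEmbedding K y → x = y := fun x y h =>
    RingOfIntegers.coe_injective (mixedEmbedding_injective K h)
  have li : ∀ k k' : index K → ℤ, ∑ i, (k i : ℝ) • γ i = ∑ i, (k' i : ℝ) • γ i → k = k' :=
    fun k k' h => funext fun i => by
      exact_mod_cast γ.linearIndependent.eq_coords_of_eq h i
  refine ⟨(stdBasis K).toMatrix γ, Equiv.ofBijective (fun x => ⟨v x, fun h => x.2.2 (inj _ _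
    (by simpa [h] using (hv x).symm))⟩) ⟨fun x y h => Subtype.ext (inj _ _ ?_), fun k => ?_⟩,
    ((stdBasis K).isUnit_det _).ne_zero, fun x i => ?_⟩
  · rw [← hv, ← hv, show v x = v y from congrArg Subtype.val h]
  · obtain ⟨x, h1, h2⟩ := (hγ _).1 ⟨k.1, rfl⟩
    exact ⟨⟨x, h1, fun h => k.2 (li _ _ (by simpa [h] using h2.symm))⟩,
      Subtype.ext (li _ _ ((hv _).trans h2))⟩
  · rw [← hv]
    simp [lpt, Matrix.mulVec, dotProduct, Module.Basis.toMatrix_apply, mul_comm]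

/-- The class of a nonzero ideal. -/
noncomputable def cls (I : {I : Ideal (𝓞 K) // I ≠ ⊥}) : ClassGroup (𝓞 K) :=
  ClassGroup.mk0 ⟨I.1, mem_nonZeroDivisors_of_ne_zero I.2⟩

theorem cls_iff {I : {I : Ideal (𝓞 K) // I ≠ ⊥}} {b : (Ideal (𝓞 K))⁰} :
    cls I = (ClassGroup.mk0 b)⁻¹ ↔ ∃ x, x ≠ 0 ∧ I.1 * b.1 = Ideal.span {x} :=
  ClassGroup.mk0_eq_mk0_inv_iff

theorem exists_orbits (b : (Ideal (𝓞 K))⁰) : ∃ (g : {I // cls I = (ClassGroup.mk0 b)⁻¹} → 𝓞 K)
    (f : ({I // cls I = (ClassGroup.mk0 b)⁻¹} × torsion K) × (Fin (rank K) → ℤ)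
      ≃ {x : 𝓞 K // x ∈ b.1 ∧ x ≠ 0}),
    (∀ I, g I ≠ 0 ∧ I.1.1 * b.1 = Ideal.span {g I}) ∧
      ∀ a k, (f (a, k)).1 = (a.2 * ∏ j, fundSystem K j ^ k j : (𝓞 K)ˣ) * g a.1 := by
  choose g hg using fun I : {I // cls I = (ClassGroup.mk0 b)⁻¹} => cls_iff.1 I.2
  have hb : b.1 ≠ 0 := nonZeroDivisors.ne_zero b.2
  have hm : ∀ I, g I ∈ b.1 := fun I =>
    Ideal.mul_le_right (I := I.1.1) (by rw [(hg I).2]; exact Ideal.mem_span_singleton_self _)
  let f : ({I // cls I = (ClassGroup.mk0 b)⁻¹} × torsion K) × (Fin (rank K) → ℤ)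
      → {x : 𝓞 K // x ∈ b.1 ∧ x ≠ 0} := fun q =>
    ⟨(q.1.2 * ∏ j, fundSystem K j ^ q.2 j : (𝓞 K)ˣ) * g q.1.1, Ideal.mul_mem_left _ _ (hm _),
      mul_ne_zero (Units.ne_zero _) (hg _).1⟩
  have hf : ∀ a k, (f (a, k)).1 = (a.2 * ∏ j, fundSystem K j ^ k j : (𝓞 K)ˣ) * g a.1 :=
    fun _ _ => rfl
  clear_value f
  refine ⟨g, Equiv.ofBijective f ⟨?_, ?_⟩, hg, hf⟩
  · rintro ⟨⟨I, ζ⟩, k⟩ ⟨⟨I', ζ'⟩, k'⟩ h
    replace h := congrArg Subtype.val h
    rw [hf, hf] at h
    have h1 := congrArg (fun x => Ideal.span {x}) h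
    simp only [Ideal.span_singleton_mul_left_unit (Units.isUnit _), ← (hg _).2] at h1
    obtain rfl : I = I' := Subtype.ext (Subtype.ext (mul_right_cancel₀ hb h1))
    have h2 := (exist_unique_eq_mul_prod K _).unique (y₁ := (ζ, k)) (y₂ := (ζ', k')) rfl
      (Units.ext (mul_right_cancel₀ (hg I).1 h))
    rw [Prod.mk.injEq] at h2
    rw [h2.1, h2.2]
  · rintro ⟨x, h1, h2⟩
    obtain ⟨I, hI⟩ := Ideal.dvd_span_singleton.2 h1
    have h3 : I ≠ ⊥ := by
      rintro rfl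
      exact h2 (by simpa using hI)
    have h4 : cls ⟨I, h3⟩ = (ClassGroup.mk0 b)⁻¹ :=
      cls_iff.2 ⟨x, h2, by rw [hI]; exact mul_comm _ _⟩
    obtain ⟨u, hu⟩ := Ideal.span_singleton_eq_span_singleton.1
      ((hg ⟨_, h4⟩).2.symm.trans ((mul_comm _ _).trans hI.symm))
    obtain ⟨⟨ζ, k⟩, h5, -⟩ := exist_unique_eq_mul_prod K u
    refine ⟨((⟨_, h4⟩, ζ), k), Subtype.ext ?_⟩
    rw [hf, ← h5, mul_comm]
    exact hu

theorem place_unit (w : InfinitePlace K) (ζ : torsion K) (k : Fin (rank K) → ℤ) (x : 𝓞 K) :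
    w (((ζ * ∏ j, fundSystem K j ^ k j : (𝓞 K)ˣ) * x : 𝓞 K) : K)
      = Real.exp (∑ j, k j * Real.log (w (fundSystem K j))) * w x := by
  have h : ∀ s : Finset (Fin (rank K)), w ((∏ j ∈ s, fundSystem K j ^ k j : (𝓞 K)ˣ) : K)
      = Real.exp (∑ j ∈ s, k j * Real.log (w (fundSystem K j))) := fun s => by
    induction s using Finset.induction with
    | empty => simp
    | insert j s hj ih =>
      rw [Finset.prod_insert hj, Finset.sum_insert hj, coe_mul, map_mul, ih, Real.exp_add, coe_zpow,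
        map_zpow₀, ← Real.log_zpow, Real.exp_log (zpow_pos (pos_at_place _ w) _)]
  rw [← h, RingOfIntegers.coe_eq_algebraMap, map_mul, map_mul]
  congr 1
  rw [Units.val_mul, map_mul, map_mul, (mem_torsion K).1 ζ.2 w, one_mul]

theorem prod_place {I b : Ideal (𝓞 K)} {x : 𝓞 K} (h : I * b = Ideal.span {x}) :
    ∏ w : InfinitePlace K, w x ^ mult w = Ideal.absNorm I * Ideal.absNorm b := by
  rw [prod_eq_abs_norm, ← Nat.cast_mul, ← map_mul, h, Ideal.absNorm_span_singleton,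
    ← Algebra.coe_norm_int]
  simp

variable (K) in
theorem exists_J : ∃ (e : Option (Fin (rank K)) ≃ InfinitePlace K),
    |(Matrix.of fun i j : Option (Fin (rank K)) =>
      i.elim 1 fun i' => Real.log (e j (fundSystem K i'))).det| * ∏ w : InfinitePlace K, (mult w : ℝ)
      = Module.finrank ℚ K * regulator K := by
  let e := (equivFinRank K).optionCongr.trans (Equiv.optionSubtypeNe dirichletUnitTheorem.w₀)
  refine ⟨e, ?_⟩
  rw [finrank_mul_regulator_eq_det K _ (equivFinRank K).symm, ← Matrix.det_submatrix_equiv_self e,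
    ← e.prod_comp, ← abs_of_nonneg (a := ∏ _, _) (by positivity), ← abs_mul, mul_comm,
    ← Matrix.det_mul_row]
  congr 2
  ext i j
  rcases i with _ | i
  · simp [e]
  · have := (equivFinRank K i).2
    simp [e, this]

end Pool.Agent.Stark.ZetaZeroAux
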