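import Pool.Agent.Lib.MP_ca56d1_nt.Base
import Pool.Agent.Shared.PrimeZeta

/-! Euler products over the primes of a number field. -/

namespace Pool.Agent.Stark

open NumberField IsDedekindDomain

variable {F : Type*} [Field F] [NumberField F]

namespace EulerAux

open Filter Topology Pool.Agent.Shared.PrimeZeta

theorem summable_nI {σ : ℝ} (hσ : 1 < σ) :
    Summable fun n : ℕ => (nI F n : ℝ) * (n : ℝ) ^ (-σ) := by
  have h1 := (zeta_real F).1
  have h2 : ∀ᶠ t : ℝ in 𝓝[>] 1, t < σ := nhdsWithin_le_nhds (Iio_mem_nhds hσ)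
  obtain ⟨t, ⟨ht, ht2⟩, ht1⟩ := ((h1.and h2).and self_mem_nhdsWithin).exists
  have ht1' : (1 : ℝ) < t := ht1
  refine Summable.of_nonneg_of_le (fun n => by positivity) (fun n => ?_) ht
  refine mul_le_mul_of_nonneg_left ?_ (by positivity)
  rcases Nat.eq_zero_or_pos n with rfl | hn
  · rw [Nat.cast_zero, Real.zero_rpow (by linarith), Real.zero_rpow (by linarith)]
  · exact Real.rpow_le_rpow_of_exponent_le (by exact_mod_cast hn) (by linarith)

theorem summable_real {σ : ℝ} (hσ : 1 < σ) :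
    Summable fun I : Ideal (𝓞 F) => ((Ideal.absNorm I : ℕ) : ℝ) ^ (-σ) :=
  summable_of_sum_le (fun _ => by positivity) fun T =>
    sum_le_tsum_idl T (fun n => (n : ℝ) ^ (-σ)) (fun _ => by positivity) (summable_nI hσ)

theorem norm_cpow (n : ℕ) {s : ℂ} (hs : 0 < s.re) : ‖(n : ℂ) ^ (-s)‖ = (n : ℝ) ^ (-s.re) := by
  rw [Complex.norm_natCast_cpow_of_re_ne_zero _ (by simpa using hs.ne')]
  simp

theorem summable_all {s : ℂ} (hs : 1 < s.re) :
    Summable fun I : Ideal (𝓞 F) => ‖(Ideal.absNorm I : ℂ) ^ (-s)‖ := by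
  refine (summable_real (F := F) hs).congr fun I => ?_
  rw [norm_cpow _ (by linarith)]

end EulerAux

open EulerAux

theorem summable_zI {s : ℂ} (hs : 1 < s.re) :
    Summable fun I : {I : Ideal (𝓞 F) // I ≠ ⊥} => ‖(Ideal.absNorm I.1 : ℂ) ^ (-s)‖ :=
  (summable_all (F := F) hs).subtype _

theorem zI_eq {s : ℂ} (hs : 1 < s.re) : zI F s = dedekindZeta F s := by
  have hs0 : -s ≠ 0 := by
    intro h
    have : s = 0 := neg_eq_zero.1 h
    rw [this] at hs
    norm_num at hs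
  have h1 : zI F s = ∑' I : Ideal (𝓞 F), (Ideal.absNorm I : ℂ) ^ (-s) := by
    refine tsum_subtype_eq_of_support_subset (s := {I : Ideal (𝓞 F) | I ≠ ⊥})
      (f := fun I : Ideal (𝓞 F) => (Ideal.absNorm I : ℂ) ^ (-s)) fun I hI => ?_
    rintro rfl
    exact hI (by simp [Complex.zero_cpow hs0])
  have h2 := ((summable_all (F := F) hs).of_norm.hasSum.tsum_fiberwise Ideal.absNorm).tsum_eq
  rw [h1, ← h2, dedekindZeta, LSeries]
  refine tsum_congr fun n => ?_
  have h3 : ∀ I : (Ideal.absNorm : Ideal (𝓞 F) → ℕ) ⁻¹' {n},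
      (Ideal.absNorm I.1 : ℂ) ^ (-s) = (n : ℂ) ^ (-s) := fun I => by
    have : Ideal.absNorm I.1 = n := I.2
    rw [this]
  rw [tsum_congr h3, tsum_const, LSeries.term_def]
  split_ifs with h0
  · simp [h0, Complex.zero_cpow hs0]
  · rw [Complex.cpow_neg, div_eq_mul_inv, nsmul_eq_mul]
    rfl

theorem summable_pr {s : ℂ} (hs : 1 < s.re) :
    Summable fun q : Pr F => ‖(Ideal.absNorm q.asIdeal : ℂ) ^ (-s)‖ :=
  (summable_all (F := F) hs).comp_injective
    (i := fun q : Pr F => q.asIdeal) fun _ _ h => HeightOneSpectrum.ext h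

theorem one_sub_ne (q : Pr F) {c s : ℂ} (hc : ‖c‖ ≤ 1) (hs : 0 < s.re) :
    1 - c * (Ideal.absNorm q.asIdeal : ℂ) ^ (-s) ≠ 0 := by
  intro h
  have h1 : c * (Ideal.absNorm q.asIdeal : ℂ) ^ (-s) = 1 := by linear_combination -h
  have h2 := congrArg norm h1
  rw [norm_mul, norm_cpow _ hs, norm_one] at h2
  have h3 : (2 : ℝ) ≤ (Ideal.absNorm q.asIdeal : ℕ) := by
    exact_mod_cast Pool.Agent.Shared.PrimeZeta.two_le_absNorm q.asIdeal q.isMaximal
  have h4 : ((Ideal.absNorm q.asIdeal : ℕ) : ℝ) ^ (-s.re) < 1 :=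
    Real.rpow_lt_one_of_one_lt_of_neg (by linarith) (by linarith)
  have h5 : 0 ≤ ((Ideal.absNorm q.asIdeal : ℕ) : ℝ) ^ (-s.re) := by positivity
  nlinarith [norm_nonneg c]

theorem mem_factors {S : Finset (Pr F)} {I P : Ideal (𝓞 F)} (hI : StarkStmt.PrimeTo S I)
    (hP : P ∈ UniqueFactorizationMonoid.normalizedFactors I) :
    ∃ q : Pr F, q ∉ S ∧ q.asIdeal = P := by
  have hp : Prime P := UniqueFactorizationMonoid.prime_of_normalized_factor P hP
  have hd : P ∣ I := UniqueFactorizationMonoid.dvd_of_mem_normalizedFactors hP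
  refine ⟨⟨P, Ideal.isPrime_of_prime hp, hp.ne_zero⟩, fun hq => ?_, rfl⟩
  exact hp.not_isUnit ((hI.2 _ hq).isUnit_of_dvd' hd dvd_rfl)

theorem norm_cm_le (S : Finset (Pr F)) (c : Ideal (𝓞 F) → ℂ) (hc : ∀ q ∉ S, ‖c q.asIdeal‖ ≤ 1)
    {I : Ideal (𝓞 F)} (hI : StarkStmt.PrimeTo S I) : ‖cm c I‖ ≤ 1 := by
  unfold cm
  refine Multiset.prod_induction (fun z : ℂ => ‖z‖ ≤ 1) _ (fun a b ha hb => ?_) (by simp)
    fun a ha => ?_
  · rw [norm_mul]
    exact mul_le_one₀ ha (norm_nonneg _) hb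
  · obtain ⟨P, hP, rfl⟩ := Multiset.mem_map.1 ha
    obtain ⟨q, hq, rfl⟩ := mem_factors hI hP
    exact hc q hq

theorem summable_Lfun (S : Finset (Pr F)) (c : Ideal (𝓞 F) → ℂ)
    (hc : ∀ q ∉ S, ‖c q.asIdeal‖ ≤ 1) {s : ℂ} (hs : 1 < s.re) :
    Summable fun I : {I : Ideal (𝓞 F) // StarkStmt.PrimeTo S I} =>
      ‖cm c I.1 * (Ideal.absNorm I.1 : ℂ) ^ (-s)‖ := by
  refine Summable.of_nonneg_of_le (fun _ => norm_nonneg _) (fun I => ?_)
    ((summable_all (F := F) hs).subtype {I | StarkStmt.PrimeTo S I})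
  rw [norm_mul]
  exact mul_le_of_le_one_left (norm_nonneg _) (norm_cm_le S c hc I.2)

namespace EulerAux

open Filter Topology

open scoped Classical in
/-- The terms of the truncated series, extended by zero. -/
noncomputable def tm (S : Finset (Pr F)) (c : Ideal (𝓞 F) → ℂ) (s : ℂ) (I : Ideal (𝓞 F)) : ℂ :=
  if StarkStmt.PrimeTo S I then cm c I * (Ideal.absNorm I : ℂ) ^ (-s) else 0

theorem Lfun_eq (S : Finset (Pr F)) (c : Ideal (𝓞 F) → ℂ) (s : ℂ) :
    Lfun S c s = ∑' I, tm S c s I := by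
  have := tsum_subtype {I : Ideal (𝓞 F) | StarkStmt.PrimeTo S I}
    fun I => cm c I * (Ideal.absNorm I : ℂ) ^ (-s)
  refine this.trans (tsum_congr fun I => ?_)
  unfold tm
  by_cases h : StarkStmt.PrimeTo S I
  · rw [if_pos h, Set.indicator_of_mem (by exact h)]
  · rw [if_neg h, Set.indicator_of_notMem (by exact h)]

theorem norm_tm_le (S : Finset (Pr F)) (c : Ideal (𝓞 F) → ℂ)
    (hc : ∀ q ∉ S, ‖c q.asIdeal‖ ≤ 1) (s : ℂ) (I : Ideal (𝓞 F)) :
    ‖tm S c s I‖ ≤ ‖(Ideal.absNorm I : ℂ) ^ (-s)‖ := by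
  unfold tm
  split_ifs with h
  · rw [norm_mul]
    exact mul_le_of_le_one_left (norm_nonneg _) (norm_cm_le S c hc h)
  · simp

theorem summable_tm (S : Finset (Pr F)) (c : Ideal (𝓞 F) → ℂ)
    (hc : ∀ q ∉ S, ‖c q.asIdeal‖ ≤ 1) {s : ℂ} (hs : 1 < s.re) : Summable (tm S c s) :=
  Summable.of_norm_bounded (summable_all hs) (norm_tm_le S c hc s)

theorem cm_mul_prime (c : Ideal (𝓞 F) → ℂ) (q : Pr F) {J : Ideal (𝓞 F)} (hJ : J ≠ ⊥) :
    cm c (q.asIdeal * J) = c q.asIdeal * cm c J := by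
  unfold cm
  rw [UniqueFactorizationMonoid.normalizedFactors_mul q.ne_bot hJ,
    UniqueFactorizationMonoid.normalizedFactors_irreducible q.irreducible, normalize_eq,
    Multiset.map_add, Multiset.prod_add, Multiset.map_singleton, Multiset.prod_singleton]

theorem cm_top (c : Ideal (𝓞 F) → ℂ) : cm c ⊤ = 1 := by
  unfold cm
  rw [← Ideal.one_eq_top, UniqueFactorizationMonoid.normalizedFactors_one]
  simp

theorem coprime_iff (q : Pr F) (I : Ideal (𝓞 F)) : IsCoprime I q.asIdeal ↔ ¬ q.asIdeal ∣ I := by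
  constructor
  · intro h hd
    exact q.prime.not_isUnit (h.isUnit_of_dvd' hd dvd_rfl)
  · intro h
    rw [Ideal.isCoprime_iff_sup_eq]
    by_contra h1
    have h2 := q.isMaximal.eq_of_le h1 le_sup_right
    exact h (Ideal.dvd_iff_le.2 (h2 ▸ le_sup_left))

theorem primeTo_mul {S : Finset (Pr F)} {q : Pr F} (hq : q ∉ S) (J : Ideal (𝓞 F)) :
    StarkStmt.PrimeTo S (q.asIdeal * J) ↔ StarkStmt.PrimeTo S J := by
  constructor
  · rintro ⟨h1, h2⟩
    exact ⟨fun h => h1 (by simp [h]), fun p hp => (h2 p hp).of_mul_left_right⟩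
  · rintro ⟨h1, h2⟩
    refine ⟨mul_ne_zero q.ne_bot h1, fun p hp => IsCoprime.mul_left ?_ (h2 p hp)⟩
    rw [coprime_iff]
    intro hd
    have h3 : q.asIdeal ≤ p.asIdeal := Ideal.dvd_iff_le.1 hd
    have h4 : q = p := HeightOneSpectrum.ext (q.isMaximal.eq_of_le p.isPrime.ne_top h3)
    exact hq (h4 ▸ hp)

open scoped Classical in
theorem primeTo_insert {S : Finset (Pr F)} {q : Pr F} (I : Ideal (𝓞 F)) :
    StarkStmt.PrimeTo (insert q S) I ↔ StarkStmt.PrimeTo S I ∧ ¬ q.asIdeal ∣ I := by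
  unfold StarkStmt.PrimeTo
  rw [Finset.forall_mem_insert, coprime_iff]
  tauto

open scoped Classical in
theorem step {S : Finset (Pr F)} (c : Ideal (𝓞 F) → ℂ) (hc : ∀ q ∉ S, ‖c q.asIdeal‖ ≤ 1)
    {s : ℂ} (hs : 1 < s.re) {q : Pr F} (hq : q ∉ S) :
    Lfun (insert q S) c s =
      Lfun S c s * (1 - c q.asIdeal * (Ideal.absNorm q.asIdeal : ℂ) ^ (-s)) := by
  have hc' : ∀ p ∉ insert q S, ‖c p.asIdeal‖ ≤ 1 := fun p hp =>
    hc p fun h => hp (Finset.mem_insert_of_mem h)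
  have h1 := (summable_tm S c hc hs).tsum_sub (summable_tm (insert q S) c hc' hs)
  have hinj : Function.Injective fun J : Ideal (𝓞 F) => q.asIdeal * J :=
    mul_right_injective₀ q.ne_bot
  have h2 := hinj.tsum_eq (f := fun I => tm S c s I - tm (insert q S) c s I) (by
    intro I hI
    by_contra h
    apply hI
    have hd : ¬ q.asIdeal ∣ I := by
      rintro ⟨J, rfl⟩
      exact h ⟨J, rfl⟩
    unfold tm
    simp only [primeTo_insert, hd, not_false_eq_true, and_true, sub_self])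
  have h3 : ∀ J : Ideal (𝓞 F), tm S c s (q.asIdeal * J) - tm (insert q S) c s (q.asIdeal * J) =
      c q.asIdeal * (Ideal.absNorm q.asIdeal : ℂ) ^ (-s) * tm S c s J := by
    intro J
    unfold tm
    rw [if_neg (c := StarkStmt.PrimeTo (insert q S) _)
      fun h => ((primeTo_insert _).1 h).2 (dvd_mul_right _ _), sub_zero]
    by_cases hJ : StarkStmt.PrimeTo S J
    · rw [if_pos hJ, if_pos ((primeTo_mul hq J).2 hJ), cm_mul_prime c q hJ.1, map_mul,
        Nat.cast_mul, Complex.natCast_mul_natCast_cpow]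
      ring
    · rw [if_neg hJ, if_neg fun h => hJ ((primeTo_mul hq J).1 h), mul_zero]
  rw [tsum_congr h3, tsum_mul_left, h1] at h2
  rw [Lfun_eq, Lfun_eq]
  linear_combination h2

open scoped Classical in
theorem union_eq (S : Finset (Pr F)) (c : Ideal (𝓞 F) → ℂ) (hc : ∀ q ∉ S, ‖c q.asIdeal‖ ≤ 1)
    {s : ℂ} (hs : 1 < s.re) (T : Finset (Pr F)) :
    Lfun (T ∪ S) c s = Lfun S c s * ∏ q ∈ T, if q ∈ S then (1 : ℂ) else
      (1 - c q.asIdeal * (Ideal.absNorm q.asIdeal : ℂ) ^ (-s)) := by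
  induction T using Finset.induction_on with
  | empty => simp
  | insert q T hq ih =>
    rw [Finset.prod_insert hq, Finset.insert_union]
    by_cases h : q ∈ S
    · rw [if_pos h, one_mul, Finset.insert_eq_of_mem (Finset.mem_union_right _ h), ih]
    · rw [if_neg h, step c (fun p hp => hc p fun h' => hp (Finset.mem_union_right _ h')) hs
        (by simp [hq, h]), ih]
      ring

open scoped Classical in
theorem tendsto_one (S : Finset (Pr F)) (c : Ideal (𝓞 F) → ℂ) (hc : ∀ q ∉ S, ‖c q.asIdeal‖ ≤ 1)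
    {s : ℂ} (hs : 1 < s.re) :
    Tendsto (fun T : Finset (Pr F) => Lfun (T ∪ S) c s) atTop (𝓝 1) := by
  have h := tendsto_tsum_of_dominated_convergence (𝓕 := atTop)
    (f := fun (T : Finset (Pr F)) I => tm (T ∪ S) c s I)
    (g := fun I : Ideal (𝓞 F) => if I = ⊤ then (1 : ℂ) else 0) (summable_all (F := F) hs)
    (fun I => ?_) (Eventually.of_forall fun T I =>
      norm_tm_le _ c (fun p hp => hc p fun h' => hp (Finset.mem_union_right _ h')) s I)
  · rw [tsum_ite_eq] at h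
    simpa only [Lfun_eq] using h
  · by_cases h1 : I = ⊤
    · subst h1
      rw [if_pos rfl]
      refine tendsto_const_nhds.congr fun T => ?_
      unfold tm
      rw [if_pos ⟨top_ne_bot, fun p _ => by rw [← Ideal.one_eq_top]; exact isCoprime_one_left⟩,
        cm_top]
      simp
    · rw [if_neg h1]
      by_cases h0 : I = ⊥
      · refine tendsto_const_nhds.congr fun T => ?_
        unfold tm
        rw [if_neg fun h => h.1 h0]
      · obtain ⟨P, hP, hle⟩ := Ideal.exists_le_maximal I h1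
        have hP0 : P ≠ ⊥ := fun h => h0 (le_bot_iff.1 (h ▸ hle))
        let q : Pr F := ⟨P, hP.isPrime, hP0⟩
        refine tendsto_const_nhds.congr' ?_
        filter_upwards [eventually_ge_atTop ({q} : Finset (Pr F))] with T hT
        unfold tm
        rw [if_neg]
        intro h
        exact (coprime_iff q I).1
          (h.2 q (Finset.mem_union_left _ (hT (Finset.mem_singleton_self q))))
          (Ideal.dvd_iff_le.2 hle)

theorem zI_eq_Lfun (s : ℂ) : zI F s = Lfun (∅ : Finset (Pr F)) (fun _ => 1) s := by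
  rw [Lfun_eq]
  have := tsum_subtype {I : Ideal (𝓞 F) | I ≠ ⊥} fun I => (Ideal.absNorm I : ℂ) ^ (-s)
  refine this.trans (tsum_congr fun I => ?_)
  unfold tm
  by_cases h : I = ⊥
  · rw [if_neg fun h' => h'.1 h, Set.indicator_of_notMem (by simpa using h)]
  · rw [if_pos ⟨h, by simp⟩, Set.indicator_of_mem (by exact h)]
    simp [cm]

end EulerAux

open scoped Classical in
theorem Lfun_hasProd (S : Finset (Pr F)) (c : Ideal (𝓞 F) → ℂ)
    (hc : ∀ q ∉ S, ‖c q.asIdeal‖ ≤ 1) {s : ℂ} (hs : 1 < s.re) :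
    HasProd (fun q : Pr F => if q ∈ S then (1 : ℂ) else
      (1 - c q.asIdeal * (Ideal.absNorm q.asIdeal : ℂ) ^ (-s))⁻¹) (Lfun S c s) := by
  have h1 := tendsto_one S c hc hs
  have h2 := (h1.inv₀ one_ne_zero).const_mul (Lfun S c s)
  rw [inv_one, mul_one] at h2
  refine h2.congr' ?_
  filter_upwards [h1.eventually_ne one_ne_zero] with T hT
  rw [union_eq S c hc hs] at hT ⊢
  rw [mul_inv, ← mul_assoc, mul_inv_cancel₀ (left_ne_zero_of_mul hT), one_mul,
    ← Finset.prod_inv_distrib]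
  refine Finset.prod_congr rfl fun q _ => ?_
  split_ifs <;> simp

theorem zI_hasProd {s : ℂ} (hs : 1 < s.re) :
    HasProd (fun q : Pr F => (1 - (Ideal.absNorm q.asIdeal : ℂ) ^ (-s))⁻¹) (zI F s) := by
  have := Lfun_hasProd (∅ : Finset (Pr F)) (fun _ => 1) (by simp) hs
  rw [zI_eq_Lfun]
  simpa using this

theorem Lfun_ne_zero (S : Finset (Pr F)) (c : Ideal (𝓞 F) → ℂ)
    (hc : ∀ q ∉ S, ‖c q.asIdeal‖ ≤ 1) {s : ℂ} (hs : 1 < s.re) : Lfun S c s ≠ 0 := by
  obtain ⟨T, hT⟩ := ((tendsto_one S c hc hs).eventually_ne one_ne_zero).exists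
  rw [union_eq S c hc hs] at hT
  exact left_ne_zero_of_mul hT

theorem zI_ne_zero {s : ℂ} (hs : 1 < s.re) : zI F s ≠ 0 := by
  rw [zI_eq_Lfun]
  exact Lfun_ne_zero _ _ (by simp) hs

theorem Lfun_one (S : Finset (Pr F)) (c : Ideal (𝓞 F) → ℂ) (hc : ∀ q ∉ S, c q.asIdeal = 1)
    {s : ℂ} (hs : 1 < s.re) :
    Lfun S c s = zI F s * ∏ q ∈ S, (1 - (Ideal.absNorm q.asIdeal : ℂ) ^ (-s)) := by
  classical
  have h1 : Lfun S c s = Lfun S (fun _ => 1) s := by
    refine tsum_congr fun I => ?_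
    congr 1
    unfold cm
    congr 1
    refine Multiset.map_congr rfl fun P hP => ?_
    obtain ⟨q, hq, rfl⟩ := mem_factors I.2 hP
    exact hc q hq
  have h2 := union_eq (∅ : Finset (Pr F)) (fun _ => 1) (by simp) hs S
  rw [h1, zI_eq_Lfun]
  simpa using h2

end Pool.Agent.Stark
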