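import Mathlib

/-! Counting squares in finitely generated abelian groups. -/

namespace Pool.Agent.Stark.SUnitAux

open Module

section Add

variable {A B C : Type*} [AddCommGroup A] [AddCommGroup B] [AddCommGroup C]

/-- additivity of the rank -/
lemma rk_exact [Module.Finite ℤ B] (i : A →+ B) (p : B →+ C) (hi : Function.Injective i)
    (hp : Function.Surjective p) (h : Function.Exact i p) :
    finrank ℤ C + finrank ℤ A = finrank ℤ B := by
  have h' : Function.Exact i.toIntLinearMap p.toIntLinearMap := h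
  rw [← (LinearMap.ker p.toIntLinearMap).finrank_quotient_add_finrank,
    (p.toIntLinearMap.quotKerEquivOfSurjective hp).finrank_eq, h'.linearMap_ker_eq,
    LinearMap.finrank_range_of_inj hi]

/-- a subgroup containing all multiples of `n` has full rank -/
lemma rk_of_nsmul [Module.Finite ℤ B] (i : A →+ B) (hi : Function.Injective i) {n : ℕ}
    (hn : n ≠ 0) (h : ∀ b, n • b ∈ i.range) : finrank ℤ A = finrank ℤ B := by
  have h1 := rk_exact i (QuotientAddGroup.mk' i.range) hi (QuotientAddGroup.mk'_surjective _)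
    fun b => QuotientAddGroup.eq_zero_iff b
  have : Module.Finite ℤ (B ⧸ i.range) := Module.Finite.of_surjective
    (QuotientAddGroup.mk' i.range).toIntLinearMap (QuotientAddGroup.mk'_surjective _)
  have h2 : finrank ℤ (B ⧸ i.range) = 0 := by
    refine Module.finrank_eq_zero_iff.2 fun x => ⟨n, by exact_mod_cast hn, ?_⟩
    obtain ⟨b, rfl⟩ := QuotientAddGroup.mk_surjective x
    rw [natCast_zsmul, ← QuotientAddGroup.mk_nsmul, QuotientAddGroup.eq_zero_iff]
    exact h b
  omega

/-- the index of the doubles in a finitely generated abelian group -/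
lemma index_dbl (B : Type*) [AddCommGroup B] [Module.Finite ℤ B] :
    (nsmulAddMonoidHom 2 : B →+ B).range.index =
      2 ^ finrank ℤ B * Nat.card (nsmulAddMonoidHom 2 : B →+ B).ker := by
  let T : Submodule ℤ B := Submodule.torsion ℤ B
  have hT : ∀ b : B, 2 • b ∈ T → b ∈ T := by
    rintro b ⟨⟨a, ha⟩, h⟩
    refine ⟨⟨a * 2, mul_mem ha (mem_nonZeroDivisors_of_ne_zero two_ne_zero)⟩, ?_⟩
    change (a * 2) • b = 0
    rw [mul_smul, ofNat_zsmul]
    exact h
  have : Finite T := Module.finite_of_fg_torsion T (Submodule.torsion_isTorsion)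
  have h1 : (T.toAddSubgroup ⊔ (nsmulAddMonoidHom 2 : B →+ B).range).index = 2 ^ finrank ℤ B := by
    rw [← finrank_quotient_eq_of_le_torsion (le_refl T), ← AddSubgroup.index_range_nsmul,
      ← AddSubgroup.index_comap_of_surjective _ (f := T.mkQ.toAddMonoidHom) T.mkQ_surjective]
    congr 1
    ext b
    rw [AddSubgroup.mem_sup, AddSubgroup.mem_comap]
    constructor
    · rintro ⟨t, ht, _, ⟨c, rfl⟩, rfl⟩
      refine ⟨T.mkQ c, ?_⟩
      have : T.mkQ t = 0 := (Submodule.Quotient.mk_eq_zero T).2 ht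
      change 2 • T.mkQ c = T.mkQ (t + 2 • c)
      rw [map_add, this, zero_add, map_nsmul]
    · rintro ⟨c, hc⟩
      obtain ⟨c, rfl⟩ := T.mkQ_surjective c
      refine ⟨b - 2 • c, (Submodule.Quotient.mk_eq_zero T).1 ?_, _, ⟨c, rfl⟩, sub_add_cancel _ _⟩
      change T.mkQ (b - 2 • c) = 0
      rw [map_sub, map_nsmul, sub_eq_zero]
      exact hc.symm
  have h2 : (nsmulAddMonoidHom 2 : B →+ B).range.addSubgroupOf T.toAddSubgroup =
      (nsmulAddMonoidHom 2 : T.toAddSubgroup →+ T.toAddSubgroup).range := by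
    ext t
    constructor
    · rintro ⟨b, hb⟩
      have hb' : 2 • b = (t : B) := hb
      exact ⟨⟨b, hT b (hb' ▸ t.2)⟩, Subtype.ext hb⟩
    · rintro ⟨b, rfl⟩
      exact ⟨b, rfl⟩
  have : Finite T.toAddSubgroup := this
  rw [← AddSubgroup.relIndex_mul_index (le_sup_right (a := T.toAddSubgroup)), h1,
    AddSubgroup.relIndex_sup_right, AddSubgroup.relIndex, h2, AddSubgroup.index_range, mul_comm]
  congr 1
  refine Nat.card_congr ⟨fun x => ⟨x.1.1, congrArg Subtype.val x.2⟩,
    fun x => ⟨⟨x.1, hT _ ?_⟩, Subtype.ext x.2⟩, fun _ => rfl, fun _ => rfl⟩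
  have : 2 • x.1 = 0 := x.2
  rw [this]
  exact T.zero_mem

/-- homomorphisms which kill a subgroup -/
lemma card_hom_quot (N : AddSubgroup A) :
    Nat.card {φ : A →+ B // N ≤ φ.ker} = Nat.card (A ⧸ N →+ B) :=
  Nat.card_congr
    { toFun := fun φ => QuotientAddGroup.lift N φ.1 φ.2
      invFun := fun ψ => ⟨ψ.comp (QuotientAddGroup.mk' N), fun x hx => by
        rw [AddMonoidHom.mem_ker, AddMonoidHom.comp_apply, QuotientAddGroup.mk'_apply,
          (QuotientAddGroup.eq_zero_iff x).2 hx, map_zero]⟩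
      left_inv := fun _ => rfl
      right_inv := fun _ => QuotientAddGroup.addMonoidHom_ext _ rfl }

/-- quadratic characters of a finite abelian group -/
lemma card_hom_two (C : Type*) [AddCommGroup C] [Finite C] :
    Nat.card (C →+ ZMod 2) = Nat.card (nsmulAddMonoidHom 2 : C →+ C).ker := by
  rw [← AddSubgroup.index_range, AddSubgroup.index]
  set N := (nsmulAddMonoidHom 2 : C →+ C).range with hN
  let _ : Module (ZMod 2) (C ⧸ N) := AddCommGroup.zmodModule fun x => by
    obtain ⟨b, rfl⟩ := QuotientAddGroup.mk_surjective x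
    rw [← QuotientAddGroup.mk_nsmul, QuotientAddGroup.eq_zero_iff]
    exact ⟨b, rfl⟩
  have h1 : ∀ φ : C →+ ZMod 2, N ≤ φ.ker := by
    rintro φ _ ⟨b, rfl⟩
    rw [AddMonoidHom.mem_ker, nsmulAddMonoidHom_apply, map_nsmul, two_nsmul]
    exact CharTwo.add_self_eq_zero _
  rw [← Nat.card_congr (Equiv.subtypeUnivEquiv h1), card_hom_quot,
    Nat.card_congr (AddMonoidHom.toZModLinearMapEquiv 2).toEquiv,
    Module.natCard_eq_pow_finrank (K := ZMod 2), Module.natCard_eq_pow_finrank (K := ZMod 2)
      (V := C ⧸ N), Subspace.dual_finrank_eq]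

end Add

section Mul

variable {G k : Type*} [CommGroup G] [Field k]

/-- the index of the squares in a finitely generated group of field elements containing `-1` -/
lemma index_sq [Module.Finite ℤ (Additive G)] (h2 : (2 : k) ≠ 0) (j : G →* k)
    (hj : Function.Injective j) {m : G} (hm : j m = -1) :
    (powMonoidHom 2 : G →* G).range.index = 2 ^ (finrank ℤ (Additive G) + 1) := by
  have h1 : (powMonoidHom 2 : G →* G).range.index =
      2 ^ finrank ℤ (Additive G) * Nat.card (powMonoidHom 2 : G →* G).ker :=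
    index_dbl (Additive G)
  rw [h1, pow_succ]
  congr 1
  refine Nat.card_eq_two_iff.2 ⟨1, ⟨m, hj ?_⟩, fun e => h2 ?_, Set.eq_univ_of_forall fun x => ?_⟩
  · rw [powMonoidHom_apply, map_pow, hm, map_one, neg_one_sq]
  · have : j 1 = j m := congrArg (fun x : (powMonoidHom 2 : G →* G).ker => j x) e
    rw [map_one, hm] at this
    linear_combination this
  · have h3 : j x ^ 2 = 1 := by
      rw [← map_pow, ← map_one j]
      exact congrArg j x.2
    rcases sq_eq_one_iff.1 h3 with h | h
    · exact Or.inl (Subtype.ext (hj (h.trans (map_one j).symm)))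
    · exact Or.inr (Subtype.ext (hj (h.trans hm.symm)))

end Mul

end Pool.Agent.Stark.SUnitAux
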