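import Pool.Agent.Lib.MP_ca56d1_nt.Split
import Pool.Agent.Lib.MP_ca56d1_nt.SUnit1

/-! `S`-units modulo squares, the Selmer group, and the norm index of `S`-units. -/

namespace Pool.Agent.Stark

open NumberField

variable {F K : Type*} [Field F] [NumberField F] [Field K] [NumberField K] [Algebra F K]

namespace SUnitAux

open Module

lemma og_mul (q : Pr F) {x y : F} (hx : x ≠ 0) (hy : y ≠ 0) : og q (x * y) = og q x + og q y :=
  ord_mul hx hy

lemma og_div (q : Pr F) {x y : F} (hx : x ≠ 0) (hy : y ≠ 0) : og q (x / y) = og q x - og q y :=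
  ord_div hx hy

lemma og_sq (q : Pr F) (x : F) : og q (x ^ 2) = 2 * og q x := ord_pow x 2

/-- the units inside the `S`-units -/
noncomputable def incl (S : Finset (Pr F)) : (𝓞 F)ˣ →* SU S :=
  (Units.map (algebraMap (𝓞 F) F : 𝓞 F →* F)).codRestrict (SU S) fun u q _ =>
    (isU_iff.2 ⟨u, rfl⟩).2 q

/-- the valuations at the primes of `S` -/
noncomputable def valS (S : Finset (Pr F)) : Additive (SU S) →+ (S → ℤ) :=
  AddMonoidHom.mk' (fun u q => og q.1 ((Additive.toMul u : SU S) : Fˣ)) fun _ _ =>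
    funext fun _ => og_mul _ (Units.ne_zero _) (Units.ne_zero _)

lemma exact_SU (S : Finset (Pr F)) :
    Function.Exact (MonoidHom.toAdditive (incl S)) (valS S).rangeRestrict := by
  intro u
  constructor
  · intro h
    have h1 : valS S u = 0 := congrArg Subtype.val h
    obtain ⟨v, hv⟩ := isU_iff.1 (⟨Units.ne_zero _, fun q => by
      by_cases hq : q ∈ S
      · exact congrFun h1 ⟨q, hq⟩
      · exact (Additive.toMul u).2 q hq⟩ : IsU (((Additive.toMul u : SU S) : Fˣ) : F))
    exact ⟨Additive.ofMul v, Subtype.ext (Units.ext hv)⟩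
  · rintro ⟨v, rfl⟩
    exact Subtype.ext (funext fun q => (isU_iff.2 ⟨Additive.toMul v, rfl⟩).2 q)

instance finite_SU (S : Finset (Pr F)) : Module.Finite ℤ (Additive (SU S)) :=
  have : Module.Finite ℤ (valS S).range :=
    Module.Finite.of_injective (valS S).range.subtype.toIntLinearMap Subtype.val_injective
  Module.Finite.of_exact (f := (MonoidHom.toAdditive (incl S)).toIntLinearMap)
    (g := (valS S).rangeRestrict.toIntLinearMap) (exact_SU S) (valS S).rangeRestrict_surjective

lemma index_prin_ne : (prin F).index ≠ 0 := index_prin (F := F) ▸ classNumber_ne_zero F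

lemma rk_SU (S : Finset (Pr F)) :
    finrank ℤ (Additive (SU S)) + 1 = Fintype.card (InfinitePlace F) + S.card := by
  classical
  have hi : Function.Injective (incl S) := fun u v e => Units.ext (RingOfIntegers.coe_injective
    (congrArg (fun x : SU S => ((x : Fˣ) : F)) e))
  have h1 := rk_exact (MonoidHom.toAdditive (incl S)) (valS S).rangeRestrict hi
    (valS S).rangeRestrict_surjective (exact_SU S)
  have h2 := rk_of_nsmul (valS S).range.subtype Subtype.val_injective index_prin_ne fun v => by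
    obtain ⟨x, hx, e⟩ := mem_prin.1 ((prin F).nsmul_index_mem
      (Finsupp.onFinset S (fun q => if h : q ∈ S then v ⟨q, h⟩ else 0) fun q hq => by
        by_contra h
        exact hq (dif_neg h)))
    have e' := fun q => DFunLike.congr_fun e q
    rw [AddSubgroup.range_subtype]
    refine ⟨Additive.ofMul ⟨Units.mk0 x hx, fun q hq => ?_⟩, funext fun q => ?_⟩
    · simpa [hq] using e' q
    · change og q.1 x = _
      simpa [q.2] using e' q
  have h3 : 0 < Fintype.card (InfinitePlace F) := Fintype.card_pos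
  rw [h2, Units.finrank_eq, Units.rank, Module.finrank_fintype_fun_eq_card, Fintype.card_coe] at h1
  omega

/-- the embedding of a group of units in the field -/
def val {k : Type*} [Field k] (U : Subgroup kˣ) : U →* k := (Units.coeHom k).comp U.subtype

lemma val_inj {k : Type*} [Field k] (U : Subgroup kˣ) : Function.Injective (val U) :=
  Units.val_injective.comp Subtype.val_injective

lemma neg_one_mem (S : Finset (Pr F)) : (-1 : Fˣ) ∈ SU S := fun q _ => by simp [og]

/-- divisors supported on `S` -/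
def onS (S : Finset (Pr F)) : AddSubgroup (Dv F) where
  carrier := {D | ∀ q ∉ S, D q = 0}
  add_mem' := fun {D D'} h h' q hq => by simp [h q hq, h' q hq]
  zero_mem' := fun _ _ => rfl
  neg_mem' := fun {D} h q hq => by simp [h q hq]

/-- the `S`-class group -/
abbrev ClS (S : Finset (Pr F)) : Type _ := Dv F ⧸ (prin F ⊔ onS S)

instance (S : Finset (Pr F)) : Finite (ClS S) :=
  have : (prin F).FiniteIndex := ⟨index_prin_ne⟩
  have : (prin F ⊔ onS S).FiniteIndex := AddSubgroup.finiteIndex_of_le le_sup_left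
  inferInstance

lemma mem_PS {S : Finset (Pr F)} {D : Dv F} :
    D ∈ prin F ⊔ onS S ↔ ∃ x : F, x ≠ 0 ∧ ∀ q ∉ S, og q x = D q := by
  rw [AddSubgroup.mem_sup]
  constructor
  · rintro ⟨_, hy, z, hz, rfl⟩
    obtain ⟨x, hx, rfl⟩ := mem_prin.1 hy
    exact ⟨x, hx, fun q hq => by simp [hz q hq]⟩
  · rintro ⟨x, hx, h⟩
    exact ⟨dv x, mem_prin.2 ⟨x, hx, rfl⟩, D - dv x, fun q hq => by simp [h q hq], by simp⟩

omit [NumberField F] in
lemma pair_single (ψ : Pr F → ZMod 2) (q : Pr F) : pair ψ (Finsupp.single q 1) = ψ q := by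
  simp [pair]

lemma card_Chr (S : Finset (Pr F)) :
    Nat.card (Chr S) = Nat.card (nsmulAddMonoidHom 2 : ClS S →+ ClS S).ker := by
  rw [← card_hom_two, ← card_hom_quot]
  refine Nat.card_congr (Equiv.ofBijective (fun ψ => ⟨AddMonoidHom.mk' (pair ψ.1) (pair_add ψ.1),
    sup_le ((AddSubgroup.closure_le _).2 ?_) fun D hD => ?_⟩) ⟨fun ψ ψ' e => ?_, fun φ => ?_⟩)
  · rintro _ ⟨x, rfl⟩
    exact ψ.2.2 x
  · change pair ψ.1 D = 0
    rw [pair_eq_sum ψ.1 D S fun q hq => by simp [hD q hq]]
    exact Finset.sum_eq_zero fun q hq => by simp [ψ.2.1 q hq]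
  · refine Subtype.ext (funext fun q => ?_)
    rw [← pair_single ψ.1, ← pair_single ψ'.1]
    exact DFunLike.congr_fun (congrArg Subtype.val e) _
  · have e : AddMonoidHom.mk' (pair fun q => φ.1 (Finsupp.single q 1)) (pair_add _) = φ.1 :=
      Finsupp.addHom_ext' fun q => AddMonoidHom.ext_int (pair_single _ q)
    refine ⟨⟨fun q => φ.1 (Finsupp.single q 1), fun q hq => φ.2 (le_sup_right (a := prin F) ?_),
      fun x => ?_⟩, Subtype.ext e⟩
    · intro q' hq'
      exact Finsupp.single_eq_of_ne fun h => hq' (h ▸ hq)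
    · exact (DFunLike.congr_fun e _).trans
        (φ.2 (le_sup_left (b := onS S) (AddSubgroup.subset_closure ⟨x, rfl⟩)))

/-- elements with even valuation outside `S` -/
def selU (S : Finset (Pr F)) : Subgroup Fˣ where
  carrier := {x | ∀ q ∉ S, Even (og q (x : F))}
  mul_mem' := fun {a b} ha hb q hq => by
    rw [Units.val_mul, og_mul q a.ne_zero b.ne_zero]
    exact (ha q hq).add (hb q hq)
  one_mem' := fun q _ => by simp [og]
  inv_mem' := fun {a} ha q hq => by
    rw [Units.val_inv_eq_inv_val, og, ord_inv]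
    exact (ha q hq).neg

lemma card_Sel_eq (S : Finset (Pr F)) :
    Nat.card (Sel S) = (powMonoidHom 2 : Fˣ →* Fˣ).range.relIndex (selU S) := by
  let f := (QuotientGroup.mk' (powMonoidHom 2 : Fˣ →* Fˣ).range).comp (selU S).subtype
  have h1 : (powMonoidHom 2 : Fˣ →* Fˣ).range.subgroupOf (selU S) = f.ker :=
    Subgroup.ext fun x =>
      (QuotientGroup.eq_one_iff (N := (powMonoidHom 2 : Fˣ →* Fˣ).range) (x : Fˣ)).symm
  rw [Subgroup.relIndex, h1, Subgroup.index_ker]
  refine Nat.card_congr (Equiv.subtypeEquiv Additive.toMul fun c => ⟨?_, ?_⟩)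
  · rintro ⟨x, hx, rfl⟩
    refine ⟨⟨Units.mk0 x hx.1, hx.2⟩, ?_⟩
    rw [cl, dif_neg hx.1]
    rfl
  · rintro ⟨x, hx⟩
    refine ⟨(x : Fˣ), ⟨Units.ne_zero _, x.2⟩, ?_⟩
    rw [cl, dif_neg (Units.ne_zero _), Units.mk0_val]
    exact congrArg Additive.ofMul hx

/-- the class of half the divisor -/
noncomputable def half (S : Finset (Pr F)) : selU S →* Multiplicative (ClS S) :=
  MonoidHom.mk' (fun x => Multiplicative.ofAdd (QuotientAddGroup.mk (hD ((x : Fˣ) : F))))
    fun x y => by
      rw [← ofAdd_add, ← QuotientAddGroup.mk_add]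
      refine congrArg _ (QuotientAddGroup.eq.2 (le_sup_right (a := prin F) fun q hq => ?_))
      obtain ⟨m, hm⟩ := x.2 q hq
      obtain ⟨n, hn⟩ := y.2 q hq
      have := og_mul q (x : Fˣ).ne_zero (y : Fˣ).ne_zero
      simp only [Finsupp.add_apply, Finsupp.neg_apply, hD_apply, Subgroup.coe_mul, Units.val_mul]
      omega

lemma ker_half (S : Finset (Pr F)) :
    (SU S ⊔ (powMonoidHom 2 : Fˣ →* Fˣ).range).subgroupOf (selU S) = (half S).ker := by
  ext x
  have h : x ∈ (half S).ker ↔ hD ((x : Fˣ) : F) ∈ prin F ⊔ onS S := QuotientAddGroup.eq_zero_iff _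
  rw [h, mem_PS, Subgroup.mem_subgroupOf, Subgroup.mem_sup]
  constructor
  · rintro ⟨u, hu, _, ⟨t, rfl⟩, e⟩
    refine ⟨t, t.ne_zero, fun q hq => ?_⟩
    rw [hD_apply, ← e, powMonoidHom_apply, Units.val_mul, Units.val_pow_eq_pow_val,
      og_mul q u.ne_zero (pow_ne_zero 2 t.ne_zero), og_sq, hu q hq]
    omega
  · rintro ⟨t, ht, h⟩
    refine ⟨x / Units.mk0 t ht ^ 2, fun q hq => ?_, _, ⟨Units.mk0 t ht, rfl⟩, div_mul_cancel _ _⟩
    obtain ⟨m, hm⟩ := x.2 q hq
    rw [Units.val_div_eq_div_val, Units.val_pow_eq_pow_val, Units.val_mk0,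
      og_div q (Units.ne_zero _) (pow_ne_zero 2 ht), og_sq, h q hq, hD_apply]
    omega

lemma card_range_half (S : Finset (Pr F)) :
    Nat.card (half S).range = Nat.card (nsmulAddMonoidHom 2 : ClS S →+ ClS S).ker := by
  refine Nat.card_congr (Equiv.subtypeEquiv Multiplicative.toAdd fun c => ?_)
  obtain ⟨D, rfl⟩ : ∃ D : Dv F, Multiplicative.ofAdd (QuotientAddGroup.mk D) = c :=
    QuotientAddGroup.mk_surjective (Multiplicative.toAdd c)
  have h : Multiplicative.toAdd (Multiplicative.ofAdd (QuotientAddGroup.mk D : ClS S)) ∈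
      (nsmulAddMonoidHom 2 : ClS S →+ ClS S).ker ↔ 2 • D ∈ prin F ⊔ onS S :=
    QuotientAddGroup.eq_zero_iff (2 • D)
  rw [h, mem_PS]
  constructor
  · rintro ⟨x, hx⟩
    obtain ⟨t, ht, h1⟩ := mem_PS.1 (QuotientAddGroup.eq.1 (Multiplicative.ofAdd.injective hx))
    refine ⟨(x : Fˣ) * t ^ 2, mul_ne_zero (Units.ne_zero _) (pow_ne_zero 2 ht), fun q hq => ?_⟩
    obtain ⟨m, hm⟩ := x.2 q hq
    rw [og_mul q (Units.ne_zero _) (pow_ne_zero 2 ht), og_sq, h1 q hq]
    simp only [Finsupp.add_apply, Finsupp.neg_apply, hD_apply, two_nsmul]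
    omega
  · rintro ⟨x, hx, h1⟩
    have h2 : ∀ q ∉ S, og q x = D q + D q := fun q hq => by rw [h1 q hq, two_nsmul]; rfl
    refine ⟨⟨Units.mk0 x hx, fun q hq => ⟨D q, h2 q hq⟩⟩, congrArg Multiplicative.ofAdd
      (QuotientAddGroup.eq.2 (le_sup_right (a := prin F) fun q hq => ?_))⟩
    have := h2 q hq
    simp only [Finsupp.add_apply, Finsupp.neg_apply, hD_apply, Units.val_mk0]
    omega

lemma sq_subgroupOf (S : Finset (Pr F)) :
    (powMonoidHom 2 : Fˣ →* Fˣ).range.subgroupOf (SU S) =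
      (powMonoidHom 2 : SU S →* SU S).range := by
  ext u
  constructor
  · rintro ⟨t, ht⟩
    refine ⟨⟨t, fun q hq => ?_⟩, Subtype.ext ht⟩
    have h1 : (t : F) ^ 2 = ((u : Fˣ) : F) := by
      rw [← Units.val_pow_eq_pow_val]
      exact congrArg Units.val ht
    have h2 := u.2 q hq
    rw [← h1, og_sq] at h2
    omega
  · rintro ⟨t, rfl⟩
    exact ⟨t, rfl⟩

end SUnitAux

open SUnitAux

theorem index_sq_SU (S : Finset (Pr F)) :
    (powMonoidHom 2 : SU S →* SU S).range.index =
      2 ^ (Fintype.card (InfinitePlace F) + S.card) := by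
  rw [← rk_SU]
  exact index_sq two_ne_zero (val (SU S)) (val_inj _) (m := ⟨-1, neg_one_mem S⟩) rfl

theorem SUnitAux.card_Sel (S : Finset (Pr F)) : Nat.card (Sel S) =
    2 ^ (Fintype.card (InfinitePlace F) + S.card) * Nat.card (Chr S) := by
  have h : SU S ⊔ (powMonoidHom 2 : Fˣ →* Fˣ).range ≤ selU S := by
    refine sup_le (fun u hu q hq => by simp [hu q hq]) ?_
    rintro _ ⟨t, rfl⟩ q _
    rw [powMonoidHom_apply, Units.val_pow_eq_pow_val, og_sq]
    exact even_two_mul _
  rw [card_Sel_eq, ← Subgroup.relIndex_mul_relIndex _ _ _ le_sup_right h,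
    Subgroup.relIndex_sup_right, Subgroup.relIndex, Subgroup.relIndex, sq_subgroupOf, index_sq_SU,
    ker_half, Subgroup.index_ker, card_range_half, card_Chr]

theorem SUnitAux.card_Chr_ne (S : Finset (Pr F)) : Nat.card (Chr S) ≠ 0 := by
  rw [card_Chr]
  exact Nat.card_pos.ne'

theorem finite_Chr (S : Finset (Pr F)) : Module.Finite (ZMod 2) (Chr S) := by
  have := Nat.finite_of_card_ne_zero (card_Chr_ne S)
  exact Module.Finite.of_finite

theorem finite_Sel (S : Finset (Pr F)) : Module.Finite (ZMod 2) (Sel S) := by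
  have : Finite (Sel S) := Nat.finite_of_card_ne_zero (by
    rw [card_Sel]
    exact mul_ne_zero (pow_ne_zero _ two_ne_zero) (card_Chr_ne S))
  exact Module.Finite.of_finite

theorem finrank_Sel (S : Finset (Pr F)) : Module.finrank (ZMod 2) (Sel S) =
    Fintype.card (InfinitePlace F) + S.card + Module.finrank (ZMod 2) (Chr S) := by
  have := finite_Chr S
  have := finite_Sel S
  have h := card_Sel S
  rw [Module.natCard_eq_pow_finrank (K := ZMod 2), Module.natCard_eq_pow_finrank (K := ZMod 2)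
    (V := Chr S), Nat.card_zmod, ← pow_add] at h
  exact Nat.pow_right_injective le_rfl h

/-- The group of norms of `S`-units of `K`. -/
def Quad.normSU {a : F} (E : Quad F K a) (SK : Finset (Pr K)) : Subgroup Fˣ where
  carrier := {y | ∃ z ∈ SU SK, algebraMap F K (y : F) = (z : K) * E.tau (z : K)}
  mul_mem' := by
    rintro y y' ⟨z, hz, h⟩ ⟨z', hz', h'⟩
    exact ⟨z * z', mul_mem hz hz', by
      rw [Units.val_mul, map_mul, h, h', Units.val_mul, map_mul]; ring⟩
  one_mem' := ⟨1, one_mem _, by simp⟩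
  inv_mem' := by
    rintro y ⟨z, hz, h⟩
    exact ⟨z⁻¹, inv_mem hz, by
      rw [Units.val_inv_eq_inv_val, map_inv₀, h, Units.val_inv_eq_inv_val, map_inv₀, mul_inv]⟩

namespace SUnitAux

variable {a : F} (E : Quad F K a) {S : Finset (Pr F)} {SK : Finset (Pr K)}
  (hSK : ∀ Q, Q ∈ SK ↔ below F Q ∈ S) (hram : ∀ Q : Pr K, below F Q ∉ S → eI F Q = 1)

include hSK hram

lemma og_up {t : F} : (∀ Q ∉ SK, og Q (algebraMap F K t) = 0) ↔ ∀ q ∉ S, og q t = 0 := by
  refine ⟨fun h q hq => ?_, fun h Q hQ => ?_⟩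
  · obtain ⟨Q, rfl⟩ := below_surj (K := K) q
    simpa [og_algebraMap, hram Q hq] using h Q ((hSK Q).not.2 hq)
  · rw [og_algebraMap, h _ ((hSK Q).not.1 hQ), mul_zero]

omit hram in
lemma og_tau (z : SU SK) (Q : Pr K) (hQ : Q ∉ SK) : og Q (E.tau (val _ z)) = 0 := by
  rw [← E.og_act]
  exact z.2 _ (by rwa [hSK, E.below_act, ← hSK])

lemma exists_N : ∃ N : SU SK →* SU S, ∀ z,
    algebraMap F K (val _ (N z)) = val _ z * E.tau (val _ z) := by
  have h : ∀ z : SU SK, ∃ n : SU S, algebraMap F K (val _ n) = val _ z * E.tau (val _ z) := by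
    intro z
    obtain ⟨n, hn⟩ := E.exists_norm (val _ z)
    have hz : val _ z ≠ 0 := Units.ne_zero _
    have hz' : E.tau (val _ z) ≠ 0 := (map_ne_zero _).2 hz
    have h0 : n ≠ 0 := by
      rintro rfl
      exact mul_ne_zero hz hz' (by rw [← hn, map_zero])
    refine ⟨⟨Units.mk0 n h0, (og_up hSK hram).1 fun Q hQ => ?_⟩, hn⟩
    rw [Units.val_mk0, hn, og_mul Q hz hz', og_tau E hSK z Q hQ, add_zero]
    exact z.2 Q hQ
  choose n hn using h
  refine ⟨MonoidHom.mk' n fun x y => val_inj _ ((algebraMap F K).injective ?_), hn⟩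
  simp only [map_mul, hn]
  ring

lemma exists_up (t : F) (ht : t ≠ 0) (h : ∀ q ∉ S, og q t = 0) :
    ∃ z : SU SK, val _ z = algebraMap F K t :=
  ⟨⟨Units.mk0 _ ((map_ne_zero (algebraMap F K)).2 ht), (og_up hSK hram).2 h⟩, rfl⟩

/-- Hilbert 90 for `S`-units -/
lemma h90 (hcl : ClTriv S) (v : SU SK) (hv : val _ v * E.tau (val _ v) = 1) :
    ∃ u : SU SK, val _ u = val _ v * E.tau (val _ u) := by
  obtain ⟨β, hβ, e⟩ := E.hilbert90 hv
  choose up hup using below_surj (F := F) (K := K)
  have hfin : (Function.support fun q => og (up q) β).Finite :=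
    (og_finite β).preimage (Function.LeftInverse.injective hup).injOn
  obtain ⟨x, hx, h⟩ := hcl (Finsupp.ofSupportFinite _ hfin)
  have hx' : algebraMap F K x ≠ 0 := (map_ne_zero _).2 hx
  refine ⟨⟨Units.mk0 (β / algebraMap F K x) (div_ne_zero hβ hx'), fun Q hQ => ?_⟩, ?_⟩
  · have hq := (hSK Q).not.1 hQ
    rw [Units.val_mk0, og_div Q hβ hx', og_algebraMap, hram Q hq, h _ hq, Nat.cast_one, one_mul,
      sub_eq_zero]
    change _ = og (up (below F Q)) β
    rcases (E.below_eq_iff Q _).1 (hup (below F Q)) with h1 | h1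
    · rw [h1]
    · have h2 := og_mul Q (x := val _ v) (Units.ne_zero _) ((map_ne_zero E.tau).2 hβ)
      rw [h1, E.og_act, ← zero_add (og Q (E.tau β)), ← v.2 Q hQ]
      exact (congrArg (og Q) e).trans h2
  · change β / algebraMap F K x = val _ v * E.tau (β / algebraMap F K x)
    rw [map_div₀, AlgEquiv.commutes, ← mul_div_assoc, ← e]

lemma relIndex_norm (hcl : ClTriv S) (N : SU SK →* SU S)
    (hN : ∀ z, algebraMap F K (val _ (N z)) = val _ z * E.tau (val _ z)) :
    (powMonoidHom 2 : SU S →* SU S).range.relIndex N.range =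
      (powMonoidHom 2 : N.ker →* N.ker).range.index := by
  have h0 : ∀ z : SU SK, val _ z ≠ 0 := fun z => Units.ne_zero _
  have h0' : ∀ z : SU SK, E.tau (val _ z) ≠ 0 := fun z => (map_ne_zero _).2 (h0 z)
  have hker : ∀ z, z ∈ N.ker ↔ val _ z * E.tau (val _ z) = 1 := fun z => by
    rw [← hN, MonoidHom.mem_ker, ← (val_inj _).eq_iff, ← (algebraMap F K).injective.eq_iff,
      map_one, map_one]
  have h : ∀ z : SU SK, ∃ d : N.ker, val _ d.1 = val _ z / E.tau (val _ z) := fun z =>
    ⟨⟨⟨Units.mk0 _ (div_ne_zero (h0 z) (h0' z)), fun Q hQ => by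
      rw [Units.val_mk0, og_div Q (h0 z) (h0' z), og_tau E hSK z Q hQ, sub_zero]
      exact z.2 Q hQ⟩, (hker _).2 (by
      change val _ z / E.tau (val _ z) * E.tau (val _ z / E.tau (val _ z)) = 1
      rw [map_div₀, E.tau_tau, div_mul_div_cancel₀ (h0' z), div_self (h0 z)])⟩, rfl⟩
  choose d hd using h
  have hinj : Function.Injective fun x : N.ker => val _ x.1 :=
    (val_inj _).comp Subtype.val_injective
  let δ : SU SK →* N.ker := MonoidHom.mk' d fun x y => hinj (by
    simp only [Subgroup.coe_mul, map_mul, hd]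
    exact (div_mul_div_comm _ _ _ _).symm)
  have hδ : Function.Surjective δ := fun v => by
    obtain ⟨u, hu⟩ := h90 E hSK hram hcl v.1 ((hker _).1 v.2)
    exact ⟨u, hinj ((hd u).trans (div_eq_of_eq_mul (h0' u) hu))⟩
  rw [← Subgroup.index_comap, ← Subgroup.index_comap_of_surjective _ hδ]
  congr 1
  ext u
  have hu := h0 u
  have hu' := h0' u
  constructor
  · rintro ⟨t, ht⟩
    obtain ⟨z, hz⟩ := exists_up hSK hram (val _ t) (Units.ne_zero _) t.2
    have h1 : val _ z ^ 2 = val _ u * E.tau (val _ u) := by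
      rw [← hN, ← ht, powMonoidHom_apply, map_pow, map_pow, hz]
    have h2 : E.tau (val _ z) = val _ z := by rw [hz, AlgEquiv.commutes]
    have h3 := h0 z
    refine ⟨⟨u / z, (hker _).2 ?_⟩, hinj ((map_pow (val _) _ 2).trans (Eq.trans ?_ (hd u).symm))⟩
    · rw [map_div, map_div₀, h2]
      field_simp
      exact h1.symm
    · rw [map_div, div_pow, h1]
      field_simp
  · rintro ⟨v, hv⟩
    have h1 : val _ v.1 ^ 2 = val _ u / E.tau (val _ u) :=
      (map_pow (val _) _ 2).symm.trans ((congrArg (fun x : N.ker => val _ x.1) hv).trans (hd u))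
    have h2 := (hker _).1 v.2
    have h3 := h0 v.1
    have h4 : E.tau (val _ v.1) = (val _ v.1)⁻¹ := eq_inv_of_mul_eq_one_right h2
    rw [eq_div_iff hu'] at h1
    obtain ⟨t, ht⟩ := E.fixed (z := val _ (u / v.1)) (by
      rw [map_div, map_div₀, h4]
      field_simp
      linear_combination h1)
    have ht0 : t ≠ 0 := by
      rintro rfl
      exact h0 _ (ht.trans (map_zero _))
    refine ⟨⟨Units.mk0 t ht0, (og_up hSK hram).1 fun Q hQ => ?_⟩,
      val_inj _ ((algebraMap F K).injective ?_)⟩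
    · exact ht ▸ (u / v.1).2 Q hQ
    · rw [hN, powMonoidHom_apply, map_pow, map_pow]
      change algebraMap F K t ^ 2 = _
      rw [← ht, map_div]
      field_simp
      linear_combination -h1

end SUnitAux

open scoped Classical in
theorem Quad.norm_index {a : F} (E : Quad F K a) (S : Finset (Pr F)) (SK : Finset (Pr K))
    (hSK : ∀ Q, Q ∈ SK ↔ below F Q ∈ S) (hram : ∀ Q : Pr K, below F Q ∉ S → eI F Q = 1)
    (hcl : ClTriv S) :
    2 * (E.normSU SK).relIndex (SU S) =
      2 ^ ((Finset.univ.filter fun φ : F →+* ℝ => φ a < 0).card +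
        (S.filter fun q => ¬ LSq q a).card) := by
  obtain ⟨N, hN⟩ := exists_N E hSK hram
  have h1 : (E.normSU SK).subgroupOf (SU S) = N.range := by
    ext y
    constructor
    · rintro ⟨z, hz, h⟩
      exact ⟨⟨z, hz⟩, val_inj _ ((algebraMap F K).injective ((hN _).trans h.symm))⟩
    · rintro ⟨z, rfl⟩
      exact ⟨z.1, z.2, hN z⟩
  have h2 : (powMonoidHom 2 : SU S →* SU S).range ≤ N.range := by
    rintro _ ⟨t, rfl⟩
    obtain ⟨z, hz⟩ := exists_up hSK hram (val _ t) (Units.ne_zero _) t.2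
    refine ⟨z, val_inj _ ((algebraMap F K).injective ?_)⟩
    rw [hN, hz, AlgEquiv.commutes, powMonoidHom_apply, map_pow, map_pow, _root_.sq]
  have : Module.Finite ℤ (Additive N.ker) := Module.Finite.of_injective
    (MonoidHom.toAdditive N.ker.subtype).toIntLinearMap Subtype.val_injective
  have h3 := index_sq (G := N.ker) two_ne_zero ((val _).comp N.ker.subtype)
    ((val_inj _).comp Subtype.val_injective)
    (m := ⟨⟨-1, neg_one_mem SK⟩, val_inj _ ((algebraMap F K).injective (by
      rw [hN, map_one, map_one]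
      change (-1 : K) * E.tau (-1) = 1
      simp))⟩) rfl
  have h4 := rk_exact (MonoidHom.toAdditive N.ker.subtype) (MonoidHom.toAdditive N.rangeRestrict)
    Subtype.val_injective N.rangeRestrict_surjective fun z =>
      ⟨fun h => ⟨Additive.ofMul ⟨Additive.toMul z, congrArg Subtype.val h⟩, rfl⟩,
        fun ⟨x, hx⟩ => hx ▸ Subtype.ext (Additive.toMul x).2⟩
  have h5 := rk_of_nsmul (MonoidHom.toAdditive N.range.subtype) Subtype.val_injective two_ne_zero
    fun b => ⟨Additive.ofMul ⟨_, h2 ⟨Additive.toMul b, rfl⟩⟩, rfl⟩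
  have h6 := Subgroup.relIndex_mul_index h2
  rw [relIndex_norm E hSK hram hcl N hN, h3, index_sq_SU] at h6
  have h7 := rk_SU S
  have h8 := rk_SU SK
  have h9 := E.card_infinitePlace
  have h10 := E.card_above S SK hSK
  rw [Subgroup.relIndex, h1]
  refine Nat.eq_of_mul_eq_mul_left (pow_pos two_pos (Module.finrank ℤ (Additive N.ker))) ?_
  rw [← mul_assoc, ← pow_succ, h6, ← pow_add]
  congr 1
  omega

end Pool.Agent.Stark
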