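import Pool.Agent.Lib.MP_ca56d1_nt.LocE1

/-! The projection formula for the Hilbert symbol of the unramified quadratic extension. -/

namespace Pool.Agent.Stark.LocEAux

open QuadraticAlgebra

variable {k : Type*} [Field k] {w : Valuation k (WithZero (Multiplicative ℤ))} {s : k}

theorem zmod2_add_self (c : ZMod 2) : c + c = 0 := by revert c; decide

theorem zmod2_ne_zero {c : ZMod 2} (h : c ≠ 0) : c = 1 := by revert c; decide

open scoped Classical in
/-- The indicator of the non-squares. -/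
noncomputable def io (a : k) : ZMod 2 := if IsSquare a then 0 else 1

theorem hs_unr (L : IsLoc w) {a y : k} (ha : a ≠ 0) (hu : Unr w a) (hy : y ≠ 0) :
    hs a y = io a * (ord w y : ZMod 2) := by
  rw [L.hs_of_unr ha hu hy, io]
  split_ifs <;> simp

theorem io_mul (L : IsLoc w) {a b : k} (ha : a ≠ 0) (hb : b ≠ 0) (hu : Unr w a) (hv : Unr w b) :
    io (a * b) = io a + io b := by
  obtain ⟨π, hπ, h1⟩ := L.exists_ord 1
  have h := L.hs_mul_left ha hb hπ
  rw [hs_unr L (mul_ne_zero ha hb) (L.unr_mul ha hb hu hv) hπ, hs_unr L ha hu hπ,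
    hs_unr L hb hv hπ, h1] at h
  simpa using h

variable [hF : Fact (∀ r : k, r ^ 2 ≠ s + 0 * r)]

omit hF in
theorem exists_nrm (H : Hyp w s) {y : k} (hy : y ≠ 0) (he : Even (ord w y)) :
    ∃ γ : E s, norm γ = y := by
  obtain ⟨x, z, h⟩ := hs_eq_zero.1 ((hs_even H hy).2 he)
  exact ⟨⟨x, z⟩, by rw [nrm_mk, h]⟩

omit hF in
theorem ne_of_nrm {z : E s} (h : norm z ≠ 0) : z ≠ 0 := by
  rintro rfl
  simp at h

theorem proj_ker (t : k) (z : E s) (h : hs (algebraMap k (E s) t) z = 0) : hs t (norm z) = 0 := by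
  obtain ⟨p, r, rfl⟩ := hs_eq_zero.1 h
  refine hs_eq_zero.2 ⟨norm p + t * norm r, 2 * (p * star r).re, ?_⟩
  rw [nrm_eq, nrm_eq, nrm_eq]
  simp [sq]
  ring

/-- The projection formula. -/
theorem proj (H : Hyp w s) {t : k} (ht : t ≠ 0) {z : E s} (hz : z ≠ 0) :
    hs (algebraMap k (E s) t) z = hs t (norm z) := by
  have LE := isLocE H
  by_cases h1 : IsSquare t
  · rw [hs_of_isSquare_left H.L.two ht h1,
      hs_of_isSquare_left LE.two (alg_ne ht) (h1.map (algebraMap k (E s)))]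
  by_cases h2 : IsSquare (t * s)
  · rw [hs_congr_left _ ht H.s0 h2, nrm_eq, hs_norm]
    refine hs_of_isSquare_left LE.two (alg_ne ht) ?_ _
    obtain ⟨r, hr⟩ := h2
    refine ⟨⟨0, r / s⟩, ?_⟩
    have := H.s0
    ext
    · simp only [algebraMap_re, re_mul]
      field_simp
      linear_combination hr
    · simp
  obtain ⟨y, hy, hy0, hy1⟩ : ∃ y : k, y ≠ 0 ∧ ord w y = 0 ∧ hs t y ≠ 0 := by
    by_contra h
    push Not at h
    exact h2 (H.L.isSquare_mul_of_unr ht H.s0 h H.u h1 H.ns)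
  obtain ⟨γ, rfl⟩ := exists_nrm H hy (by simp [hy0])
  have hγ := ne_of_nrm hy
  have h3 : hs (algebraMap k (E s) t) γ ≠ 0 := fun h => hy1 (proj_ker t γ h)
  rcases zmod2_cases (hs (algebraMap k (E s) t) z) with h | h
  · rw [h, proj_ker t z h]
  · have h4 : hs (algebraMap k (E s) t) (z * γ) = 0 := by
      rw [LE.hs_mul_right (alg_ne ht) hz hγ, h, zmod2_ne_zero h3]
      rfl
    have h5 := proj_ker t _ h4
    rw [map_mul, H.L.hs_mul_right ht (nrm_ne hz) hy, zmod2_ne_zero hy1] at h5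
    rw [h]
    revert h5
    generalize hs t (norm z) = c
    revert c
    decide

theorem proj' (H : Hyp w s) {t : k} (ht : t ≠ 0) {z : E s} (hz : z ≠ 0) :
    hs z (algebraMap k (E s) t) = hs (norm z) t := by
  rw [hs_comm (isLocE H).two hz (alg_ne ht), proj H ht hz, hs_comm H.L.two ht (nrm_ne hz)]

theorem hilbert {u : E s} (hu : norm u = 1) :
    ∃ β : E s, β ≠ 0 ∧ u * algebraMap k (E s) (norm β) = β * β := by
  have h1 : u * star u = 1 := by rw [← algebraMap_norm_eq_mul_star, hu, map_one]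
  by_cases h : 1 + u = 0
  · refine ⟨⟨0, 1⟩, fun h0 => by simpa using congrArg QuadraticAlgebra.im h0, ?_⟩
    have : u = -1 := by linear_combination h
    rw [this, nrm_mk]
    ext <;> simp
  · refine ⟨1 + u, h, ?_⟩
    rw [algebraMap_norm_eq_mul_star, star_add, star_one]
    linear_combination (1 + u) * h1

/-- The symbol only depends on the norm of the second argument. -/
theorem hsE_congr (H : Hyp w s) {α γ γ' : E s} (hα : α ≠ 0) (hu : Unr w (norm α)) (hγ : γ ≠ 0)
    (h : norm γ = norm γ') : hs α γ = hs α γ' := by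
  have LE := isLocE H
  have hγ' : γ' ≠ 0 := ne_of_nrm (h ▸ nrm_ne hγ)
  obtain ⟨β, hβ, hb⟩ := hilbert (u := γ / γ') (by rw [nrm_div, h, div_self (nrm_ne hγ')])
  have h1 : hs α (algebraMap k (E s) (norm β)) = 0 := by
    rw [proj' H (nrm_ne hβ) hα, hs_unr H.L (nrm_ne hα) hu (nrm_ne hβ),
      ZMod.intCast_eq_zero_iff_even.2 (nrm_even H hβ), mul_zero]
  have h2 : γ * algebraMap k (E s) (norm β) = γ' * β ^ 2 := by
    rw [sq, ← hb]
    field_simp
  have h3 := LE.hs_mul_right hα hγ (alg_ne (s := s) (nrm_ne hβ))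
  rw [h2, hs_mul_sq_right _ _ hβ, h1, add_zero] at h3
  exact h3.symm

open scoped Classical in
/-- An element of given norm. -/
noncomputable def gam (s y : k) : E s := if h : ∃ γ : E s, norm γ = y then h.choose else 0

theorem nrm_gam (H : Hyp w s) {y : k} (hy : y ≠ 0) (he : Even (ord w y)) : norm (gam s y) = y := by
  have h := exists_nrm H hy he
  rw [gam, dif_pos h]
  exact h.choose_spec

/-- The local factor. -/
noncomputable def lam (w : Valuation k (WithZero (Multiplicative ℤ))) (s : k)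
    [Fact (∀ r : k, r ^ 2 ≠ s + 0 * r)] (x z y : k) : ZMod 2 :=
  hs (⟨x, z⟩ : E s) (gam s y) + io (x ^ 2 - s * z ^ 2) * ((ord w y / 2 : ℤ) : ZMod 2)

theorem mk_ne {x z : k} (h : x ^ 2 - s * z ^ 2 ≠ 0) : (⟨x, z⟩ : E s) ≠ 0 :=
  ne_of_nrm (by rwa [nrm_mk])

theorem lam_eq (H : Hyp w s) {x z : k} (h : x ^ 2 - s * z ^ 2 ≠ 0)
    (hu : Unr w (x ^ 2 - s * z ^ 2)) {γ : E s} (hγ : γ ≠ 0) :
    lam w s x z (norm γ) =
      hs (⟨x, z⟩ : E s) γ + io (x ^ 2 - s * z ^ 2) * (ord (wE H) γ : ZMod 2) := by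
  rw [lam, ordE, hsE_congr H (mk_ne h) (by rwa [nrm_mk]) hγ
    (nrm_gam H (nrm_ne hγ) (nrm_even H hγ)).symm]

end Pool.Agent.Stark.LocEAux
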