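import Pool.Agent.Lib.MP_ca56d1_nt.RecipA

/-! Hilbert's reciprocity law. -/

namespace Pool.Agent.Stark

open NumberField

variable {F : Type*} [Field F] [NumberField F]

namespace RecipAux

/-- Elements with valuation at least `i` on `P` and integral elsewhere. -/
def lt (P : Finset (Pr F)) (i : ℤ) : AddSubgroup F where
  carrier := {x | (∀ q ∈ P, x ∈ pw (q.valuation F) i) ∧ ∀ q ∉ P, x ∈ pw (q.valuation F) 0}
  add_mem' := fun h h' => ⟨fun q hq => add_mem (h.1 q hq) (h'.1 q hq),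
    fun q hq => add_mem (h.2 q hq) (h'.2 q hq)⟩
  zero_mem' := ⟨fun _ _ => zero_mem _, fun _ _ => zero_mem _⟩
  neg_mem' := fun h => ⟨fun q hq => neg_mem (h.1 q hq), fun q hq => neg_mem (h.2 q hq)⟩

theorem self_mem (q : Pr F) (x : F) : x ∈ pw (q.valuation F) (og q x) :=
  mem_pw_iff.2 (Or.inr le_rfl)

theorem eTr_of_pw {x : F} (h : ∀ q : Pr F, x ∈ pw (q.valuation F) 0) : eTr x = 1 := by
  obtain ⟨y, rfl⟩ := exists_int_of_og fun q => ComplAux.mem_pw_zero.1 (h q)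
  exact eTr_int y

omit [NumberField F] in
theorem exists_bound (P : Finset (Pr F)) (f : Pr F → ℤ) : ∃ M : ℤ, 0 ≤ M ∧ ∀ q ∈ P, |f q| ≤ M :=
  ⟨∑ q ∈ P, |f q|, Finset.sum_nonneg fun _ _ => abs_nonneg _,
    fun _ hq => Finset.single_le_sum (f := fun q => |f q|) (fun _ _ => abs_nonneg _) hq⟩

/-- Representatives of a global quotient from local representatives. -/
theorem crt (P : Finset (Pr F)) {i j : ℤ} (hij : j ≤ i) (R : ∀ q : Pr F, Finset (Kc q))
    (hR : ∀ q, IsRep (pw (wv q) i) (pw (wv q) j) (R q)) (g : ∀ q : Pr F, Kc q → ℂ)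
    (hg : ∀ q ∈ P, ∀ x ∈ pw (wv q) j, ∀ y ∈ pw (wv q) i, g q (x + y) = g q x) :
    ∃ R' : Finset F, IsRep (lt P i) (lt P j) R' ∧
      ∑ x ∈ R', ∏ q ∈ P, g q (emb q x) = ∏ q ∈ P, ∑ t ∈ R q, g q t := by
  classical
  choose y hy1 hy2 using fun t : ∀ q : P, Kc q.1 =>
    approx_strong P (fun q => if h : q ∈ P then t ⟨q, h⟩ else 0) i
  have hy : ∀ t (q : P), emb q.1 (y t) - t q ∈ pw (wv q.1) i := fun t q => by
    simpa [q.2] using hy1 t q.1 q.2
  set T := Fintype.piFinset fun q : P => R q.1 with hT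
  have inj : ∀ t ∈ T, ∀ t' ∈ T, y t - y t' ∈ lt P i → t = t' := by
    intro t ht t' ht' h
    funext q
    refine (hR q.1).eq_of_sub (Fintype.mem_piFinset.1 ht q) (Fintype.mem_piFinset.1 ht' q) ?_
    have h1 := (ComplAux.emb_mem_pw q.1 _ _).2 (h.1 q.1 q.2)
    have h2 := add_mem (sub_mem h1 (hy t q)) (hy t' q)
    convert h2 using 1
    rw [map_sub]
    ring
  have mem : ∀ t ∈ T, y t ∈ lt P j := fun t ht =>
    ⟨fun q hq => (ComplAux.emb_mem_pw q _ _).1 (by
      have := add_mem (pw_anti hij (hy t ⟨q, hq⟩))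
        ((hR q).1 _ (Fintype.mem_piFinset.1 ht ⟨q, hq⟩))
      simpa using this), fun q hq => ComplAux.mem_pw_zero.2 (hy2 t q hq)⟩
  refine ⟨T.image y, ⟨fun x hx => ?_, fun x hx => ?_⟩, ?_⟩
  · obtain ⟨t, ht, rfl⟩ := Finset.mem_image.1 hx
    exact mem t ht
  · choose t ht1 ht2 using fun q : P =>
      ((hR q.1).2 (emb q.1 x) ((ComplAux.emb_mem_pw q.1 _ _).2 (hx.1 q.1 q.2))).exists
    have htT : t ∈ T := Fintype.mem_piFinset.2 ht1
    have hxt : x - y t ∈ lt P i :=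
      ⟨fun q hq => (ComplAux.emb_mem_pw q _ _).1 (by
        have := sub_mem (ht2 ⟨q, hq⟩) (hy t ⟨q, hq⟩)
        convert this using 1
        rw [map_sub]
        ring), fun q hq => sub_mem (hx.2 q hq) ((mem t htT).2 q hq)⟩
    refine ⟨y t, ⟨Finset.mem_image_of_mem _ htT, hxt⟩, ?_⟩
    rintro z ⟨hz, hz'⟩
    obtain ⟨t', ht', rfl⟩ := Finset.mem_image.1 hz
    rw [inj t' ht' t htT (by
      have := sub_mem hxt hz'
      convert this using 1
      ring)]
  · rw [Finset.sum_image fun t ht t' ht' h => inj t ht t' ht' (by rw [h, sub_self]; exact zero_mem _),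
      ← Finset.prod_coe_sort P fun q => ∑ t ∈ R q, g q t, Finset.prod_univ_sum]
    refine Finset.sum_congr rfl fun t ht => ?_
    rw [← Finset.prod_coe_sort P]
    refine Finset.prod_congr rfl fun q _ => ?_
    rw [← hg q.1 q.2 (t q) ((hR q.1).1 _ (Fintype.mem_piFinset.1 ht q)) _ (hy t q)]
    congr 1
    ring

theorem gauss_prod (ψ : ∀ q : Pr F, AddChar (Kc q) ℂ) (j : Pr F → ℤ)
    (h1 : ∀ q, IsCond (wv q) (ψ q) (j q)) (h2 : ∀ q, j q ≤ 0)
    (h3 : ∀ (x : F) (P : Finset (Pr F)), (∀ q ∉ P, 0 ≤ og q x) →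
      ∏ q ∈ P, ψ q (emb q x) = eTr x)
    {c : 𝓞 F} (hc0 : c ≠ 0)
    (hc : ∀ x : F, (∀ y : 𝓞 F, eTr (x * y) = 1) → ∃ z : 𝓞 F, (z : F) = c * x)
    {d : F} (hd : d ≠ 0) {N : ℕ} (hN : N ≠ 0) (hdN : ∃ z : 𝓞 F, (z : F) = N * d)
    (P : Finset (Pr F)) (hPd : ∀ q ∉ P, og q d = 0) (hPN : ∀ q ∉ P, og q (N : F) = 0)
    (hPc : ∀ q ∉ P, og q (c * (2 * d * N) : F) = 0) (G : Pr F → ℂ) (J : Pr F → ℤ)
    (hG : ∀ q, ∀ j i : ℤ, j ≤ -J q → J q ≤ i + j → ∀ R : Finset (Kc q),
      IsRep (pw (wv q) i) (pw (wv q) j) R →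
        ∃ r : ℝ, 0 < r ∧ ∑ x ∈ R, ψ q (emb q d * x ^ 2) = r * G q) :
    ∃ r : ℝ, 0 < r ∧ ∏ q ∈ P, G q = r * ∏ φ : F →+* ℝ, e8 (φ d) := by
  classical
  have hN' : (N : F) ≠ 0 := by exact_mod_cast hN
  have hc' : (c : F) ≠ 0 := by exact_mod_cast hc0
  have hcd : (c * (2 * d * N) : F) ≠ 0 :=
    mul_ne_zero hc' (mul_ne_zero (mul_ne_zero two_ne_zero hd) hN')
  obtain ⟨M1, p1, b1⟩ := exists_bound P J
  obtain ⟨M2, p2, b2⟩ := exists_bound P fun q => og q d
  obtain ⟨M3, p3, b3⟩ := exists_bound P fun q => og q (N : F)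
  obtain ⟨M4, p4, b4⟩ := exists_bound P fun q => og q (c * (2 * d * N) : F)
  obtain ⟨M, hM⟩ : ∃ M : ℕ, (M : ℤ) = M1 + M2 + M3 + M4 := ⟨(M1 + M2 + M3 + M4).toNat, by omega⟩
  have two : ∀ q : Pr F, (2 : F) ∈ pw (q.valuation F) 0 := fun q =>
    ComplAux.mem_pw_zero.2 ord_two_nonneg
  choose R hR using fun q : Pr F => exists_isRep (A := pw (wv q) (-M + (3 * M : ℕ)))
    (B := pw (wv q) (-M)) (by
      rw [(isLoc_wv q).relIndex_pw]
      exact pow_ne_zero _ (isLoc_wv q).fin)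
  obtain ⟨R', hR', hsum⟩ := crt P (by omega) R hR (fun q x => ψ q (emb q d * x ^ 2)) (by
    intro q hq x hx y hy
    have e : emb q d * (x + y) ^ 2 = emb q d * x ^ 2 + emb q d * (y * (x + (x + y))) := by ring
    have hb := abs_le.1 (b2 q hq)
    have hj := h2 q
    rw [e, AddChar.map_add_eq_mul, (h1 q).triv _ (LocAux.pw_mul
      ((ComplAux.emb_mem_pw q _ _).2 (self_mem q d)) (LocAux.pw_mul hy
        (add_mem hx (add_mem hx (pw_anti (by omega) hy))) le_rfl) (by omega)), mul_one])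
  let L : AddSubgroup F :=
    { carrier := {x | ∃ z : 𝓞 F, x = N * (z : F)}
      add_mem' := by
        rintro _ _ ⟨z, rfl⟩ ⟨z', rfl⟩
        exact ⟨z + z', by push_cast; ring⟩
      zero_mem' := ⟨0, by simp⟩
      neg_mem' := by
        rintro _ ⟨z, rfl⟩
        exact ⟨-z, by push_cast; ring⟩ }
  let L' : AddSubgroup F :=
    { carrier := {y | ∀ x ∈ L, eTr (2 * d * y * x) = 1}
      add_mem' := fun {a b} ha hb x hx => by
        rw [mul_add, add_mul, eTr_add, ha x hx, hb x hx, mul_one]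
      zero_mem' := fun x _ => by simpa using eTr_int (0 : 𝓞 F)
      neg_mem' := fun {a} ha x hx => by
        rw [← ha (-x) (neg_mem hx)]
        congr 1
        ring }
  obtain ⟨z₀, hz₀⟩ := hdN
  have hz₁ : algebraMap (𝓞 F) F z₀ = N * d := hz₀
  have hAL : lt P (-M + (3 * M : ℕ)) ≤ L := by
    intro x hx
    obtain ⟨z, hz⟩ := exists_int_of_og (x := x / N) fun q => ComplAux.mem_pw_zero.1 (by
      by_cases hq : q ∈ P
      · have hb := abs_le.1 (b3 q hq)
        exact LocAux.pw_div (hx.1 q hq) (by change 0 + og q (N : F) ≤ _; omega)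
      · exact LocAux.pw_div (hx.2 q hq) (by change 0 + og q (N : F) ≤ _; rw [hPN q hq]; rfl))
    exact ⟨z, by rw [hz]; field_simp⟩
  have hLL : L ≤ L' := by
    rintro _ ⟨z, rfl⟩ _ ⟨z', rfl⟩
    rw [← eTr_int (2 * z₀ * (N : 𝓞 F) * z * z')]
    congr 1
    simp only [RingOfIntegers.coe_eq_algebraMap, map_mul, map_natCast, map_ofNat, hz₁]
    ring
  have hLB : L' ≤ lt P (-M) := by
    intro x hx
    obtain ⟨z, hz⟩ := hc (2 * d * N * x) fun y => by
      rw [← hx (N * y) ⟨y, rfl⟩]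
      congr 1
      ring
    have e : x = z / (c * (2 * d * N)) := by rw [hz]; field_simp
    have hz0 : ∀ q : Pr F, (z : F) ∈ pw (q.valuation F) 0 := fun q =>
      ComplAux.mem_pw_zero.2 (og_nonneg q z)
    refine ⟨fun q hq => ?_, fun q hq => ?_⟩
    · have hb := abs_le.1 (b4 q hq)
      rw [e]
      exact LocAux.pw_div (hz0 q) (by change _ + og q (c * (2 * d * N) : F) ≤ _; omega)
    · rw [e]
      exact LocAux.pw_div (hz0 q)
        (by change _ + og q (c * (2 * d * N) : F) ≤ _; rw [hPc q hq]; rfl)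
  have n1 : L.relIndex L' ≠ 0 := fun h0 => hR'.relIndex_ne
    (AddSubgroup.relIndex_eq_zero_of_le_left hAL (AddSubgroup.relIndex_eq_zero_of_le_right hLB h0))
  have n2 : (lt P (-M + (3 * M : ℕ))).relIndex L ≠ 0 := fun h0 => hR'.relIndex_ne
    (AddSubgroup.relIndex_eq_zero_of_le_right (hLL.trans hLB) h0)
  obtain ⟨R₀, hR₀⟩ := exists_isRep n1
  have st := stab hAL hLL hLB (fun x => eTr (d * x ^ 2)) (fun x y => eTr (2 * d * x * y))
    (fun x y => by rw [← eTr_add, ← eTr_add]; congr 1; ring)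
    (fun x y z => by rw [← eTr_add]; congr 1; ring)
    (by
      rintro _ ⟨z, rfl⟩
      rw [← eTr_int (z₀ * (N : 𝓞 F) * z * z)]
      congr 1
      simp only [RingOfIntegers.coe_eq_algebraMap, map_mul, map_natCast, hz₁]
      ring)
    (fun x _ => Iff.rfl)
    (fun x hx h hh => eTr_of_pw fun q => by
      by_cases hq : q ∈ P
      · have hb := abs_le.1 (b2 q hq)
        exact LocAux.pw_mul (LocAux.pw_mul (LocAux.pw_mul (two q) (self_mem q d) le_rfl)
          (hx.1 q hq) le_rfl) (hh.1 q hq) (by omega)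
      · exact LocAux.pw_mul (LocAux.pw_mul (LocAux.pw_mul (two q) (self_mem q d) le_rfl)
          (hx.2 q hq) le_rfl) (hh.2 q hq) (by rw [hPd q hq]; rfl))
    hR' hR₀
  obtain ⟨r, hr, hg⟩ := hecke_gauss hd hN ⟨z₀, hz₀⟩ L L' (fun _ => Iff.rfl) (fun _ => Iff.rfl)
    R₀ hR₀
  have e1 : ∑ x ∈ R', eTr (d * x ^ 2) = ∑ x ∈ R', ∏ q ∈ P, ψ q (emb q d * emb q x ^ 2) := by
    refine Finset.sum_congr rfl fun x hx => ?_
    rw [← h3 _ P fun q hq => ComplAux.mem_pw_zero.1 (by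
      rw [sq]
      exact LocAux.pw_mul (self_mem q d) (LocAux.pw_mul ((hR'.1 x hx).2 q hq)
        ((hR'.1 x hx).2 q hq) le_rfl) (by rw [hPd q hq]; rfl))]
    simp only [map_mul, map_pow]
  choose! ρ hρ hρ' using fun q (hq : q ∈ P) => hG q (-M) (-M + (3 * M : ℕ))
    (by have := abs_le.1 (b1 q hq); omega) (by have := abs_le.1 (b1 q hq); omega) (R q) (hR q)
  rw [e1, hsum, Finset.prod_congr rfl hρ', Finset.prod_mul_distrib, hg] at st
  have hp : 0 < ∏ q ∈ P, ρ q := Finset.prod_pos hρ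
  have hp' : (∏ q ∈ P, (ρ q : ℂ)) ≠ 0 := by exact_mod_cast hp.ne'
  generalize (lt P (-M + (3 * M : ℕ))).relIndex L = n at st n2
  refine ⟨n * r / ∏ q ∈ P, ρ q, by positivity, ?_⟩
  push_cast
  field_simp
  linear_combination st

theorem e8_prod {a b : ℝ} (ha : a ≠ 0) (hb : b ≠ 0) :
    e8 1 * e8 (-a) * e8 (-b) * e8 (a * b) = if hs a b = 0 then 1 else -1 := by
  have key : ∀ t : ℂ, Complex.exp (2 * Real.pi * Complex.I * 1 / 8) *
      Complex.exp (2 * Real.pi * Complex.I * t / 8) =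
      Complex.exp (2 * Real.pi * Complex.I * (1 + t) / 8) := fun t => by
    rw [← Complex.exp_add]; congr 1; ring
  have h0 : Complex.exp (2 * Real.pi * Complex.I * 1 / 8) *
      Complex.exp (2 * Real.pi * Complex.I * (-1) / 8) = 1 := by rw [key]; simp
  have h4 : Complex.exp (2 * Real.pi * Complex.I * 1 / 8) ^ 4 = -1 := by
    rw [← Complex.exp_nat_mul, ← Complex.exp_pi_mul_I]; congr 1; push_cast; ring
  rw [hs_real ha hb]
  rcases lt_or_gt_of_ne ha with ha | ha <;> rcases lt_or_gt_of_ne hb with hb | hb <;>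
    simp only [e8, ha, hb, ha.not_gt, hb.not_gt, mul_pos_iff, Left.neg_pos_iff, zero_lt_one,
      if_true, if_false, and_true, and_false, or_true, or_false, one_ne_zero]
  · linear_combination h4
  all_goals linear_combination (Complex.exp (2 * Real.pi * Complex.I * 1 / 8) *
      Complex.exp (2 * Real.pi * Complex.I * (-1) / 8) + 1) * h0

/-- The sign attached to an element of `ZMod 2`. -/
noncomputable def sg' (x : ZMod 2) : ℂ := if x = 0 then 1 else -1

theorem sg'_sum {ι : Type*} (s : Finset ι) (f : ι → ZMod 2) :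
    sg' (∑ i ∈ s, f i) = ∏ i ∈ s, sg' (f i) := by
  classical
  have h : (1 + 1 : ZMod 2) = 0 := by decide
  induction s using Finset.induction_on with
  | empty => simp [sg']
  | insert a s ha ih =>
    rw [Finset.sum_insert ha, Finset.prod_insert ha, ← ih]
    generalize ∑ i ∈ s, f i = y
    generalize f a = x
    rcases zmod2_cases x with rfl | rfl <;> rcases zmod2_cases y with rfl | rfl <;> simp [sg', h]

end RecipAux

open RecipAux

theorem hq_eq_zero (q : Pr F) (h2 : og q (2 : F) = 0) {a b : F} (ha : a ≠ 0) (hb : b ≠ 0)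
    (ha' : Even (og q a)) (hb' : Even (og q b)) : hq q a b = 0 := by
  refine (isLoc_wv q).hs_units ?_ (by simpa using ha) (by simpa using hb)
    (by rwa [ord_emb]) (by rwa [ord_emb])
  rw [← h2, ← ord_emb, map_ofNat]

theorem hq_finite {a b : F} (ha : a ≠ 0) (hb : b ≠ 0) : {q : Pr F | hq q a b ≠ 0}.Finite := by
  refine (((og_finite (2 : F)).union (og_finite a)).union (og_finite b)).subset fun q h => ?_
  by_contra hn
  simp only [Set.mem_union, Set.mem_ofPred_eq, not_or, not_not] at hn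
  exact h (hq_eq_zero q hn.1.1 ha hb (by simp [hn.1.2]) (by simp [hn.2]))

/-- The product formula for the Hilbert symbol. -/
theorem reciprocity {a b : F} (ha : a ≠ 0) (hb : b ≠ 0) (P : Finset (Pr F))
    (hP : ∀ q ∉ P, hq q a b = 0) :
    ∑ φ : F →+* ℝ, hs (φ a) (φ b) + ∑ q ∈ P, hq q a b = 0 := by
  classical
  obtain ⟨ψ, j, h1, h2, h3⟩ := exists_localChar (F := F)
  obtain ⟨c, hc0, hc⟩ := exists_codiff (F := F)
  have hc' : (c : F) ≠ 0 := by exact_mod_cast hc0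
  choose gam hg1 hg2 using fun q : Pr F => (isLoc_wv q).weil (h1 q)
  have den : ∀ x : F, ∃ n : ℕ, n ≠ 0 ∧ ∃ z : 𝓞 F, (z : F) = n * x := fun x => by
    obtain ⟨n, hn, h⟩ := exists_integral_multiples ℤ ℚ ({x} : Finset F)
    refine ⟨n.natAbs, by simpa using hn, ?_⟩
    have h' := h x (Finset.mem_singleton_self x)
    rcases Int.natAbs_eq n with e | e
    · exact ⟨⟨n • x, h'⟩, by rw [← Int.cast_natCast, ← e, ← zsmul_eq_mul]; rfl⟩
    · exact ⟨-⟨n • x, h'⟩, by
        rw [← Int.cast_natCast, ← neg_neg (n.natAbs : ℤ), ← e, Int.cast_neg, neg_mul,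
          ← zsmul_eq_mul]; rfl⟩
  obtain ⟨m, hm, za, hza⟩ := den a
  obtain ⟨n, hn, zb, hzb⟩ := den b
  have hza' : algebraMap (𝓞 F) F za = m * a := hza
  have hzb' : algebraMap (𝓞 F) F zb = n * b := hzb
  have hN : m * n ≠ 0 := mul_ne_zero hm hn
  have hN' : ((m * n : ℕ) : F) ≠ 0 := by exact_mod_cast hN
  obtain ⟨P1, hPP, hP1⟩ : ∃ P1 : Finset (Pr F), P ⊆ P1 ∧ ∀ q ∉ P1, og q (2 : F) = 0 ∧
      og q a = 0 ∧ og q b = 0 ∧ og q ((m * n : ℕ) : F) = 0 ∧ og q (c : F) = 0 := by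
    refine ⟨P ∪ (((((og_finite (2 : F)).union (og_finite a)).union (og_finite b)).union
      (og_finite ((m * n : ℕ) : F))).union (og_finite (c : F))).toFinset,
      Finset.subset_union_left, fun q h => ?_⟩
    simp only [Finset.mem_union, Set.Finite.mem_toFinset, Set.mem_union, Set.mem_ofPred_eq,
      not_or, not_not] at h
    tauto
  have key : ∀ d : F, d ≠ 0 → (∃ z : 𝓞 F, (z : F) = (m * n : ℕ) * d) → (∀ q ∉ P1, og q d = 0) →
      ∃ r : ℝ, 0 < r ∧ ∏ q ∈ P1, gam q (emb q d) = r * ∏ φ : F →+* ℝ, e8 (φ d) := by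
    intro d hd hz hq
    choose J hJ using fun q : Pr F => hg1 q (emb q d) (by simpa using hd)
    refine gauss_prod ψ j h1 h2 h3 hc0 hc hd hN hz P1 hq (fun q h => (hP1 q h).2.2.2.1)
      (fun q h => ?_) _ J hJ
    obtain ⟨e1, -, -, e2, e3⟩ := hP1 q h
    have e4 := hq q h
    rw [og] at e1 e2 e3 e4
    rw [og, ord_mul hc' (mul_ne_zero (mul_ne_zero two_ne_zero hd) hN'),
      ord_mul (mul_ne_zero two_ne_zero hd) hN', ord_mul two_ne_zero hd,
      e1, e2, e3, e4]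
    rfl
  obtain ⟨r1, p1, g1⟩ := key 1 one_ne_zero ⟨(m * n : ℕ), by simp⟩ fun q _ => by simp [og]
  obtain ⟨r2, p2, g2⟩ := key (-a) (neg_ne_zero.2 ha)
    ⟨-(n * za), by
      simp only [RingOfIntegers.coe_eq_algebraMap, map_mul, map_neg, map_natCast, hza', hzb',
        Nat.cast_mul]
      ring⟩ fun q h => by rw [og, ord_neg]; exact (hP1 q h).2.1
  obtain ⟨r3, p3, g3⟩ := key (-b) (neg_ne_zero.2 hb)
    ⟨-(m * zb), by
      simp only [RingOfIntegers.coe_eq_algebraMap, map_mul, map_neg, map_natCast, hza', hzb',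
        Nat.cast_mul]
      ring⟩ fun q h => by
      rw [og, ord_neg]; exact (hP1 q h).2.2.1
  obtain ⟨r4, p4, g4⟩ := key (a * b) (mul_ne_zero ha hb)
    ⟨za * zb, by
      simp only [RingOfIntegers.coe_eq_algebraMap, map_mul, map_neg, map_natCast, hza', hzb',
        Nat.cast_mul]
      ring⟩ fun q h => by
      have e1 := (hP1 q h).2.1
      have e2 := (hP1 q h).2.2.1
      rw [og] at e1 e2
      rw [og, ord_mul ha hb, e1, e2, add_zero]
  have e1 : sg' (∑ q ∈ P1, hq q a b) = ((r1 * r2 * r3 * r4 : ℝ) : ℂ) *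
      sg' (∑ φ : F →+* ℝ, hs (φ a) (φ b)) := by
    rw [sg'_sum, sg'_sum]
    have l : ∏ q ∈ P1, sg' (hq q a b) = (∏ q ∈ P1, gam q (emb q 1)) *
        (∏ q ∈ P1, gam q (emb q (-a))) * (∏ q ∈ P1, gam q (emb q (-b))) *
        ∏ q ∈ P1, gam q (emb q (a * b)) := by
      simp only [← Finset.prod_mul_distrib, map_one, map_neg, map_mul]
      exact Finset.prod_congr rfl fun q _ =>
        (hg2 q _ _ (by simpa using ha) (by simpa using hb)).symm
    have r : ∏ φ : F →+* ℝ, sg' (hs (φ a) (φ b)) = (∏ φ : F →+* ℝ, e8 (φ 1)) *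
        (∏ φ : F →+* ℝ, e8 (φ (-a))) * (∏ φ : F →+* ℝ, e8 (φ (-b))) *
        ∏ φ : F →+* ℝ, e8 (φ (a * b)) := by
      simp only [← Finset.prod_mul_distrib, map_one, map_neg, map_mul]
      exact Finset.prod_congr rfl fun φ _ =>
        (e8_prod (by simpa using ha) (by simpa using hb)).symm
    rw [l, r, g1, g2, g3, g4]
    push_cast
    ring
  rw [Finset.sum_subset hPP fun q _ h => hP q h]
  have hp : 0 < r1 * r2 * r3 * r4 := by positivity
  generalize r1 * r2 * r3 * r4 = r at e1 hp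
  generalize ∑ q ∈ P1, hq q a b = x at e1
  generalize ∑ φ : F →+* ℝ, hs (φ a) (φ b) = y at e1
  rcases zmod2_cases x with rfl | rfl <;> rcases zmod2_cases y with rfl | rfl
  · rfl
  · have : (1 : ℝ) = -r := by
      have h : ((1 : ℝ) : ℂ) = ((-r : ℝ) : ℂ) := by simpa [sg'] using e1
      exact_mod_cast h
    linarith
  · have : (-1 : ℝ) = r := by
      have h : ((-1 : ℝ) : ℂ) = ((r : ℝ) : ℂ) := by simpa [sg'] using e1
      exact_mod_cast h
    linarith
  · decide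

end Pool.Agent.Stark
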