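import Pool.Agent.Lib.MP_ca56d1_nt.Abel
import Pool.Agent.Lib.MP_ca56d1_nt.Euler

/-! Kummer theory in exponent two and the decomposition of the zeta functions of Artin classes. -/

namespace Pool.Agent.Stark

open NumberField StarkStmt

section Rep

variable {k : Type*} [Field k]

/-- A representative of a square class. -/
noncomputable def rep (c : SqCl k) : k := (cl_surj c).choose

theorem rep_ne (c : SqCl k) : rep c ≠ 0 := (cl_surj c).choose_spec.1

theorem cl_rep (c : SqCl k) : cl (rep c) = c := (cl_surj c).choose_spec.2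

theorem exists_sq_of_cl {a b : k} (ha : a ≠ 0) (hb : b ≠ 0) (h : cl a = cl b) :
    ∃ t : k, t ≠ 0 ∧ a = b * t ^ 2 := by
  obtain ⟨r, hr⟩ := (cl_eq_cl ha hb).1 h
  have hr0 : r ≠ 0 := by rintro rfl; exact mul_ne_zero ha hb (by simpa using hr)
  refine ⟨r / b, div_ne_zero hr0 hb, ?_⟩
  field_simp
  rw [hr, sq]

theorem cl_mul_sq {a t : k} (ha : a ≠ 0) (ht : t ≠ 0) : cl (a * t ^ 2) = cl a := by
  rw [cl_mul ha (pow_ne_zero 2 ht), (cl_eq_zero (pow_ne_zero 2 ht)).2 ⟨t, sq t⟩, add_zero]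

theorem cl_one : cl (1 : k) = 0 := (cl_eq_zero one_ne_zero).2 ⟨1, by simp⟩

theorem rep_add (c c' : SqCl k) : ∃ t : k, t ≠ 0 ∧ rep (c + c') = rep c * rep c' * t ^ 2 :=
  exists_sq_of_cl (rep_ne _) (mul_ne_zero (rep_ne _) (rep_ne _))
    (by rw [cl_mul (rep_ne _) (rep_ne _), cl_rep, cl_rep, cl_rep])

theorem rep_cl {a : k} (ha : a ≠ 0) : ∃ t : k, t ≠ 0 ∧ rep (cl a) = a * t ^ 2 :=
  exists_sq_of_cl (rep_ne _) ha (cl_rep _)

end Rep

section SqA

variable (F L : Type*) [Field F] [Field L] [Algebra F L]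

/-- The square classes of `F` that become trivial in `L`. -/
noncomputable def SqA : Submodule (ZMod 2) (SqCl F) where
  carrier := {c | ∃ a, a ≠ 0 ∧ IsSquare (algebraMap F L a) ∧ cl a = c}
  add_mem' := by
    rintro _ _ ⟨x, hx, hx', rfl⟩ ⟨y, hy, hy', rfl⟩
    exact ⟨x * y, mul_ne_zero hx hy, by rw [map_mul]; exact hx'.mul hy', cl_mul hx hy⟩
  zero_mem' := ⟨1, one_ne_zero, by simp, cl_one⟩
  smul_mem' := by
    rintro c _ ⟨x, hx, hx', rfl⟩
    rcases zmod2_cases c with rfl | rfl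
    · exact ⟨1, one_ne_zero, by simp, by rw [zero_smul]; exact cl_one⟩
    · exact ⟨x, hx, hx', (one_smul _ _).symm⟩

variable {F L}

theorem cl_mem_SqA {a : F} (ha : a ≠ 0) : cl a ∈ SqA F L ↔ IsSquare (algebraMap F L a) := by
  refine ⟨?_, fun h => ⟨a, ha, h, rfl⟩⟩
  rintro ⟨b, hb, hb', h⟩
  obtain ⟨t, -, rfl⟩ := exists_sq_of_cl ha hb h.symm
  rw [map_mul, map_pow]
  exact hb'.mul ⟨_, sq _⟩

theorem rep_sq (c : SqA F L) : IsSquare (algebraMap F L (rep c.1)) :=
  (cl_mem_SqA (rep_ne _)).1 (by rw [cl_rep]; exact c.2)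

variable [CharZero L]

theorem xs_rep_add (g : L ≃ₐ[F] L) (c c' : SqA F L) :
    xs g (rep (c + c').1) = xs g (rep c.1) + xs g (rep c'.1) := by
  obtain ⟨t, ht, h⟩ := rep_add c.1 c'.1
  rw [Submodule.coe_add, h, xs_mul_sq g (mul_ne_zero (rep_ne _) (rep_ne _)) ht
    (by rw [map_mul]; exact (rep_sq c).mul (rep_sq c')),
    xs_mul g (rep_ne _) (rep_ne _) (rep_sq c) (rep_sq c')]

theorem comm_of_sq {G : Type*} [Group G] (hG : ∀ g : G, g * g = 1) (g h : G) : g * h = h * g := by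
  have e : ∀ x : G, x⁻¹ = x := fun x => inv_eq_of_mul_eq_one_right (hG x)
  rw [← e (g * h), mul_inv_rev, e, e]

theorem exists_char {G : Type*} [Group G] (hG : ∀ g : G, g * g = 1) {g : G} (hg : g ≠ 1) :
    ∃ χ : G → ZMod 2, (∀ x y, χ (x * y) = χ x + χ y) ∧ χ g = 1 := by
  let _ : CommGroup G := { (inferInstance : Group G) with mul_comm := comm_of_sq hG }
  let _ : Module (ZMod 2) (Additive G) :=
    AddCommGroup.zmodModule fun c => by rw [two_nsmul]; exact hG c.toMul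
  obtain ⟨f, hf⟩ := Module.Projective.exists_dual_eq_one (ZMod 2)
    (x := Additive.ofMul g) hg
  exact ⟨fun x => f (Additive.ofMul x), fun x y => map_add f (Additive.ofMul x) (Additive.ofMul y), hf⟩

theorem exists_sep [FiniteDimensional F L] [IsGalois F L] (hG : ∀ g : L ≃ₐ[F] L, g * g = 1)
    {g : L ≃ₐ[F] L} (hg : g ≠ 1) : ∃ c : SqA F L, xs g (rep c.1) = 1 := by
  obtain ⟨χ, hχ, hg1⟩ := exists_char hG hg
  set x := IsGalois.normalBasis F L 1
  set r : L := ∑ σ : L ≃ₐ[F] L, sg F (χ σ) • σ x with hr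
  have hr0 : r ≠ 0 := by
    intro h0
    have li := Fintype.linearIndependent_iff.1 (IsGalois.normalBasis F L).linearIndependent
      (fun σ => sg F (χ σ)) (by
        rw [← h0, hr]
        exact Finset.sum_congr rfl fun σ _ => by rw [IsGalois.normalBasis_apply σ]) 1
    exact sg_ne_zero _ li
  have act : ∀ τ : L ≃ₐ[F] L, τ r = sg L (χ τ) * r := by
    intro τ
    rw [hr, map_sum, Finset.mul_sum, ← Equiv.sum_comp (Equiv.mulLeft τ)
      fun σ => sg L (χ τ) * sg F (χ σ) • σ x]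
    refine Finset.sum_congr rfl fun σ _ => ?_
    rw [Equiv.coe_mulLeft, hχ, AlgEquiv.mul_apply, Algebra.smul_def, Algebra.smul_def, map_mul,
      AlgEquiv.commutes, map_sg, map_sg, sg_add]
    linear_combination (-(sg L (χ σ) * τ (σ x))) * sg_mul_self (R := L) (χ τ)
  obtain ⟨a, ha⟩ := (IsGalois.mem_range_algebraMap_iff_fixed (F := F) (r ^ 2)).2 fun τ => by
    rw [map_pow, act]
    linear_combination r ^ 2 * sg_mul_self (R := L) (χ τ)
  have ha0 : a ≠ 0 := by
    rintro rfl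
    exact pow_ne_zero 2 hr0 (by rw [← ha, map_zero])
  have hsq : IsSquare (algebraMap F L a) := ⟨r, by rw [ha, sq]⟩
  refine ⟨⟨cl a, (cl_mem_SqA ha0).2 hsq⟩, ?_⟩
  obtain ⟨t, ht, h⟩ := rep_cl ha0
  rw [h, xs_mul_sq g ha0 ht hsq, xs_eq g ha.symm hr0 (act g), hg1]

open scoped Classical in
theorem orth [FiniteDimensional F L] [IsGalois F L] (hG : ∀ g : L ≃ₐ[F] L, g * g = 1)
    [Fintype (SqA F L)] (g h : L ≃ₐ[F] L) :
    ∑ c : SqA F L, sg ℂ (xs g (rep c.1)) * sg ℂ (xs h (rep c.1)) =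
      if h = g then (Fintype.card (SqA F L) : ℂ) else 0 := by
  split_ifs with e
  · simp [e, sg_mul_self]
  · have hne : g * h ≠ 1 := fun h1 => e (mul_left_cancel (h1.trans (hG g).symm))
    obtain ⟨c₀, hc₀⟩ := exists_sep hG hne
    have e1 : ∀ c : SqA F L, sg ℂ (xs g (rep c.1)) * sg ℂ (xs h (rep c.1)) =
        sg ℂ (xs (g * h) (rep c.1)) := fun c => by
      rw [xs_comp g h (rep_ne _) (rep_sq c), sg_add]
    simp only [e1]
    have e2 := Equiv.sum_comp (Equiv.addRight c₀) fun c : SqA F L => sg ℂ (xs (g * h) (rep c.1))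
    simp only [Equiv.coe_addRight, xs_rep_add, hc₀, sg_add, sg_one, mul_neg, mul_one,
      Finset.sum_neg_distrib] at e2
    linear_combination (-1 / 2 : ℂ) * e2

end SqA

section Zeta

variable {F L : Type*} [Field F] [NumberField F] [Field L] [NumberField L] [Algebra F L]

variable (L) in
/-- The values on primes of the character attached to `a`. -/
noncomputable def cf (a : F) (P : Ideal (𝓞 F)) : ℂ := sg ℂ (xs (frob F L P) a)

omit [NumberField L] in
theorem norm_cf (a : F) (P : Ideal (𝓞 F)) : ‖cf L a P‖ ≤ 1 := by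
  unfold cf
  rcases zmod2_cases (xs (frob F L P) a) with h | h <;> simp [h]

theorem cm_cf {a : F} (ha : a ≠ 0) (ha' : IsSquare (algebraMap F L a)) (I : Ideal (𝓞 F)) :
    cm (cf L a) I = sg ℂ (xs (artin F L I) a) := by
  rw [cm, artin, ← Multiset.coe_toList (UniqueFactorizationMonoid.normalizedFactors I),
    Multiset.map_coe, Multiset.prod_coe, Multiset.coe_toList]
  generalize (UniqueFactorizationMonoid.normalizedFactors I).toList = l
  induction l with
  | nil => simp [xs_one]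
  | cons P l ih => rw [List.map_cons, List.map_cons, List.prod_cons, List.prod_cons, ih,
      xs_comp _ _ ha ha', sg_add, cf]

theorem pzeta_eq [IsGalois F L] (hG : ∀ g : L ≃ₐ[F] L, g * g = 1) [Fintype (SqA F L)]
    (S : Finset (Pr F)) (g : L ≃ₐ[F] L) {s : ℂ} (hs : 1 < s.re) :
    pzeta F L S g s = (Fintype.card (SqA F L) : ℂ)⁻¹ *
      ∑ c : SqA F L, sg ℂ (xs g (rep c.1)) * Lfun S (cf L (rep c.1)) s := by
  classical
  have hc : (Fintype.card (SqA F L) : ℂ) ≠ 0 := by exact_mod_cast Fintype.card_ne_zero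
  have sm : ∀ c : SqA F L, Summable fun I : {I : Ideal (𝓞 F) // PrimeTo S I} =>
      sg ℂ (xs g (rep c.1)) * (cm (cf L (rep c.1)) I.1 * (Ideal.absNorm I.1 : ℂ) ^ (-s)) :=
    fun c => (summable_Lfun S _ (fun q _ => norm_cf _ _) hs).of_norm.mul_left _
  simp only [Lfun, ← tsum_mul_left]
  rw [← Summable.tsum_finsetSum fun c _ => sm c, ← tsum_mul_left]
  have e1 : ∀ I : {I : Ideal (𝓞 F) // PrimeTo S I}, (Fintype.card (SqA F L) : ℂ)⁻¹ *
      ∑ c : SqA F L, sg ℂ (xs g (rep c.1)) *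
        (cm (cf L (rep c.1)) I.1 * (Ideal.absNorm I.1 : ℂ) ^ (-s)) =
      if artin F L I.1 = g then (Ideal.absNorm I.1 : ℂ) ^ (-s) else 0 := by
    intro I
    simp only [cm_cf (rep_ne _) (rep_sq _), ← mul_assoc]
    rw [← Finset.sum_mul, orth hG]
    split_ifs
    · field_simp
    · simp
  rw [tsum_congr e1, pzeta]
  have e2 := tsum_subtype {I | PrimeTo S I ∧ artin F L I = g}
    fun I : Ideal (𝓞 F) => (Ideal.absNorm I : ℂ) ^ (-s)
  have e3 := tsum_subtype {I | PrimeTo S I}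
    fun I : Ideal (𝓞 F) => if artin F L I = g then (Ideal.absNorm I : ℂ) ^ (-s) else 0
  refine e2.trans (Eq.trans (tsum_congr fun I => ?_) e3.symm)
  by_cases h1 : PrimeTo S I <;> by_cases h2 : artin F L I = g <;> simp [h1, h2]

theorem exists_prim (K : Type*) [Field K] [NumberField K] :
    ∃ ζ : K, IsPrimitiveRoot ζ (Units.torsionOrder K) ∧
      ∀ ξ : K, IsOfFinOrder ξ → ∃ n : ℕ, ξ = ζ ^ n := by
  obtain ⟨g, hg⟩ := IsCyclic.exists_generator (α := Units.torsion K)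
  have h1 : orderOf g = Units.torsionOrder K := orderOf_eq_card_of_forall_mem_zpowers hg
  let f : Units.torsion K →* K :=
    ((algebraMap (𝓞 K) K).toMonoidHom.comp (Units.coeHom _)).comp (Units.torsion K).subtype
  have hf : Function.Injective f := fun x y h => Subtype.ext (Units.coe_injective K h)
  refine ⟨f g, ?_, fun ξ hξ => ?_⟩
  · rw [← h1, ← orderOf_injective f hf g]
    exact IsPrimitiveRoot.orderOf _
  · obtain ⟨n, hn, hξn⟩ := isOfFinOrder_iff_pow_eq_one.1 hξ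
    have hint : IsIntegral ℤ ξ := IsIntegral.of_pow hn (by rw [hξn]; exact isIntegral_one)
    obtain ⟨y, rfl⟩ : ∃ y : 𝓞 K, algebraMap (𝓞 K) K y = ξ := ⟨⟨ξ, hint⟩, rfl⟩
    have hu : y ^ n = 1 :=
      RingOfIntegers.coe_injective (K := K) (by rw [map_pow, map_one]; exact hξn)
    let u : (𝓞 K)ˣ := Units.ofPowEqOne _ n hu hn.ne'
    have hut : u ∈ Units.torsion K := by
      refine (CommGroup.mem_torsion _).2 (isOfFinOrder_iff_pow_eq_one.2 ⟨n, hn, ?_⟩)
      exact Units.pow_ofPowEqOne hu hn.ne'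
    obtain ⟨j, hj⟩ := (mem_powers_iff_mem_zpowers.2 (hg ⟨u, hut⟩) : _)
    exact ⟨j, by rw [← map_pow]; exact (congrArg f hj).symm⟩

theorem prim_of_sq {Ω : Type*} [Field Ω] {ω : Ω} {w : ℕ} (hw : Even w)
    (h : IsPrimitiveRoot (ω ^ 2) w) : IsPrimitiveRoot ω (2 * w) := by
  have h1 := h.eq_orderOf
  rw [orderOf_pow' ω two_ne_zero] at h1
  have h2 : orderOf ω = 2 * w := by
    rcases Nat.even_or_odd (orderOf ω) with ⟨j, hj⟩ | ho
    · rw [Nat.gcd_eq_right ⟨j, by omega⟩] at h1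
      omega
    · rw [(Nat.coprime_two_right.2 ho).gcd_eq_one, Nat.div_one] at h1
      exact absurd (h1 ▸ hw) (Nat.not_even_iff_odd.2 ho)
  rw [← h2]
  exact IsPrimitiveRoot.orderOf _

theorem dvd_torsionOrder {ω : L} {w : ℕ} (hw : w ≠ 0) (h : IsPrimitiveRoot ω w) :
    w ∣ Units.torsionOrder L := by
  obtain ⟨ζ, h1, h2⟩ := exists_prim L
  obtain ⟨n, hn⟩ := h2 ω (h.isOfFinOrder hw)
  exact h.dvd_of_pow_eq_one _ (by rw [hn, ← pow_mul, mul_comm, pow_mul, h1.pow_eq_one, one_pow])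

end Zeta

end Pool.Agent.Stark
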