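import Pool.Agent.Lib.MP_ca56d1_nt.Poisson

/-! The Mellin transform of an averaged theta function (Hecke). -/

namespace Pool.Agent.Stark

open Complex MeasureTheory

variable {ι κ : Type*} [Fintype ι] [DecidableEq ι] {r : ℕ}

/-- The theta series without its constant term. -/
noncomputable def theta (B : Matrix ι ι ℝ) (pl : ι → κ) (y : κ → ℝ) : ℝ :=
  ∑' k : {k : ι → ℤ // k ≠ 0},
    Real.exp (-Real.pi * ∑ i, Real.exp (2 * y (pl i)) * lpt B k.1 i ^ 2)

/-- The unit cube. -/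
def box (r : ℕ) : Set (Fin r → ℝ) := Set.pi Set.univ fun _ => Set.Ico 0 1

/-- The theta series averaged over a fundamental domain of the unit lattice. -/
noncomputable def fth (B : Matrix ι ι ℝ) (pl : ι → κ) (l : Fin r → κ → ℝ) (τ : ℝ) : ℝ :=
  ∫ t in box r, theta B pl fun w => ∑ j, t j * l j w + τ

namespace ThetaAux

open Filter Topology Asymptotics

/-- One term of the theta series. -/
noncomputable def tm (B : Matrix ι ι ℝ) (a : ι → ℝ) (k : ι → ℤ) : ℝ :=
  Real.exp (-Real.pi * ∑ i, Real.exp (2 * a i) * lpt B k i ^ 2)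

/-- The theta series as a function of the exponents. -/
noncomputable def th (B : Matrix ι ι ℝ) (a : ι → ℝ) : ℝ :=
  ∑' k : {k : ι → ℤ // k ≠ 0}, tm B a k.1

omit [DecidableEq ι] in
theorem theta_eq (B : Matrix ι ι ℝ) (pl : ι → κ) (y : κ → ℝ) :
    theta B pl y = th B fun i => y (pl i) := rfl

omit [DecidableEq ι] in
theorem tm_pos (B : Matrix ι ι ℝ) (a : ι → ℝ) (k : ι → ℤ) : 0 < tm B a k := Real.exp_pos _

omit [DecidableEq ι] in
theorem tm_zero (B : Matrix ι ι ℝ) (a : ι → ℝ) : tm B a 0 = 1 := by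
  have : lpt B 0 = 0 := by
    unfold lpt
    have : (fun j : ι => (((0 : ι → ℤ) j : ℤ) : ℝ)) = 0 := by
      funext j; simp
    rw [this, Matrix.mulVec_zero]
  simp [tm, this]

omit [DecidableEq ι] in
theorem tm_cast (B : Matrix ι ι ℝ) (a : ι → ℝ) (k : ι → ℤ) :
    (tm B a k : ℂ) = cexp (-Real.pi * ∑ i, ((Real.exp (2 * a i) : ℝ) : ℂ) *
      ((lpt B k i + (0 : ι → ℝ) i : ℝ) : ℂ) ^ 2) := by
  simp [tm]

theorem summable_tm {B : Matrix ι ι ℝ} (hB : B.det ≠ 0) (a : ι → ℝ) : Summable (tm B a) := by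
  have h := summable_gauss B hB (fun i => ((Real.exp (2 * a i) : ℝ) : ℂ))
    (fun i => by rw [ofReal_re]; exact Real.exp_pos _) 0
  refine h.congr fun k => ?_
  rw [← tm_cast, Complex.norm_real, Real.norm_of_nonneg (tm_pos B a k).le]

theorem one_add_th {B : Matrix ι ι ℝ} (hB : B.det ≠ 0) (a : ι → ℝ) :
    1 + th B a = ∑' k, tm B a k := by
  classical
  have h := (summable_tm hB a).sum_add_tsum_subtype_compl {0}
  rw [Finset.sum_singleton, tm_zero] at h
  rw [← h, th]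
  congr 1
  exact (Equiv.subtypeEquivRight (p := fun k : ι → ℤ => k ≠ 0)
    (q := fun k : ι → ℤ => k ∉ ({0} : Finset (ι → ℤ))) (fun k => by simp)).tsum_eq
      (fun k => tm B a k.1)

theorem det_inv_ne {B : Matrix ι ι ℝ} (hB : B.det ≠ 0) : ((B⁻¹).transpose).det ≠ 0 := by
  rw [Matrix.det_transpose, Matrix.det_nonsing_inv, Ring.inverse_eq_inv']
  exact inv_ne_zero hB

theorem th_fe {B : Matrix ι ι ℝ} (hB : B.det ≠ 0) (a : ι → ℝ) :
    1 + th B a = (1 / |B.det|) * Real.exp (-∑ i, a i) * (1 + th (B⁻¹).transpose (-a)) := by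
  rw [one_add_th hB, one_add_th (det_inv_ne hB)]
  have h := poisson_gauss B hB (fun i => ((Real.exp (2 * a i) : ℝ) : ℂ))
    (fun i => by rw [ofReal_re]; exact Real.exp_pos _) 0
  apply Complex.ofReal_injective
  rw [Complex.ofReal_mul, Complex.ofReal_mul, Complex.ofReal_tsum, Complex.ofReal_tsum]
  simp_rw [tm_cast B]
  rw [h]
  congr 1
  · congr 1
    rw [← Finset.sum_neg_distrib, Real.exp_sum, Complex.ofReal_prod]
    refine Finset.prod_congr rfl fun i _ => ?_
    have h1 : ((1 / 2 : ℂ)) = ((1 / 2 : ℝ) : ℂ) := by push_cast; ring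
    rw [h1, ← Complex.ofReal_cpow (Real.exp_pos _).le, ← Real.exp_mul, Real.exp_neg]
    have h2 : 2 * a i * (1 / 2) = a i := by ring
    rw [h2]
    push_cast
    rw [one_div]
  · refine tsum_congr fun k => ?_
    rw [tm, Complex.ofReal_exp]
    congr 1
    simp only [Pi.zero_apply, mul_zero, Finset.sum_const_zero, Complex.ofReal_zero, add_zero]
    push_cast
    congr 1
    refine Finset.sum_congr rfl fun i _ => ?_
    have h3 : (2 : ℂ) * ((-a) i : ℝ) = -(2 * (a i : ℂ)) := by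
      rw [Pi.neg_apply]; push_cast; ring
    rw [h3, Complex.exp_neg, div_eq_mul_inv, mul_comm]

omit [DecidableEq ι] in
theorem tm_mono (B : Matrix ι ι ℝ) {a b : ι → ℝ} (h : ∀ i, a i ≤ b i) (k : ι → ℤ) :
    tm B b k ≤ tm B a k := by
  unfold tm
  apply Real.exp_le_exp.2
  have : ∑ i, Real.exp (2 * a i) * lpt B k i ^ 2 ≤ ∑ i, Real.exp (2 * b i) * lpt B k i ^ 2 :=
    Finset.sum_le_sum fun i _ => mul_le_mul_of_nonneg_right
      (Real.exp_le_exp.2 (by linarith [h i])) (sq_nonneg _)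
  nlinarith [Real.pi_pos]

omit [DecidableEq ι] in
theorem continuous_tm (B : Matrix ι ι ℝ) (k : ι → ℤ) : Continuous fun a => tm B a k := by
  unfold tm
  fun_prop

theorem continuous_th {B : Matrix ι ι ℝ} (hB : B.det ≠ 0) : Continuous (th B) := by
  rw [continuous_iff_continuousAt]
  intro a₀
  have hopen : IsOpen {a : ι → ℝ | ∀ i, a₀ i - 1 < a i} := by
    have : {a : ι → ℝ | ∀ i, a₀ i - 1 < a i} = ⋂ i, {a : ι → ℝ | a₀ i - 1 < a i} := by
      ext a; simp
    rw [this]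
    exact isOpen_iInter_of_finite fun i => isOpen_lt continuous_const (continuous_apply i)
  have hmem : a₀ ∈ {a : ι → ℝ | ∀ i, a₀ i - 1 < a i} := fun i => by linarith
  refine ContinuousOn.continuousAt ?_ (hopen.mem_nhds hmem)
  refine continuousOn_tsum (u := fun k : {k : ι → ℤ // k ≠ 0} => tm B (fun i => a₀ i - 1) k.1)
    (fun k => (continuous_tm B k.1).continuousOn) ((summable_tm hB _).subtype _) ?_
  intro k a ha
  rw [Real.norm_of_nonneg (tm_pos _ _ _).le]
  exact tm_mono B (fun i => (ha i).le) _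

theorem exists_lower {B : Matrix ι ι ℝ} (hB : B.det ≠ 0) :
    ∃ μ : ℝ, 0 < μ ∧ ∀ k : ι → ℤ, k ≠ 0 → μ ≤ ∑ i, lpt B k i ^ 2 := by
  set M : ℝ := ∑ i, ∑ j, B⁻¹ i j ^ 2 + 1 with hM
  have hM0 : 0 ≤ ∑ i, ∑ j, B⁻¹ i j ^ 2 :=
    Finset.sum_nonneg fun i _ => Finset.sum_nonneg fun j _ => sq_nonneg _
  have hMpos : 0 < M := by linarith
  refine ⟨1 / M, by positivity, fun k hk => ?_⟩
  obtain ⟨i, hi⟩ : ∃ i, k i ≠ 0 := by
    by_contra hne
    push Not at hne
    exact hk (funext hne)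
  have hinv : B⁻¹.mulVec (lpt B k) = fun j => (k j : ℝ) := by
    unfold lpt
    rw [Matrix.mulVec_mulVec, Matrix.nonsing_inv_mul B (Ne.isUnit hB), Matrix.one_mulVec]
  have hki : (k i : ℝ) = ∑ j, B⁻¹ i j * lpt B k j := by
    have := congrFun hinv i
    simpa [Matrix.mulVec, dotProduct] using this.symm
  have h1 : (1 : ℝ) ≤ (k i : ℝ) ^ 2 := by
    have : (1 : ℤ) ≤ k i ^ 2 := by
      have := sq_pos_of_ne_zero hi
      omega
    exact_mod_cast this
  have h2 := Finset.sum_mul_sq_le_sq_mul_sq Finset.univ (fun j => B⁻¹ i j) (lpt B k)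
  have h3 : ∑ j, B⁻¹ i j ^ 2 ≤ M := by
    have := Finset.single_le_sum (f := fun i => ∑ j, B⁻¹ i j ^ 2)
      (fun i _ => Finset.sum_nonneg fun j _ => sq_nonneg _) (Finset.mem_univ i)
    linarith
  have h4 : 0 ≤ ∑ i, lpt B k i ^ 2 := Finset.sum_nonneg fun j _ => sq_nonneg _
  rw [← hki] at h2
  rw [div_le_iff₀ hMpos]
  nlinarith

omit [DecidableEq ι] in
theorem th_nonneg (B : Matrix ι ι ℝ) (a : ι → ℝ) : 0 ≤ th B a :=
  tsum_nonneg fun _ => (tm_pos _ _ _).le

/-- Decay of the theta series. -/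
theorem th_decay {B : Matrix ι ι ℝ} (hB : B.det ≠ 0) (L : ℝ) :
    ∃ C δ : ℝ, 0 < δ ∧ ∀ τ : ℝ, 0 ≤ τ → ∀ a : ι → ℝ, (∀ i, τ - L ≤ a i) →
      th B a ≤ C * Real.exp (-δ * Real.exp τ ^ 2) := by
  obtain ⟨μ, hμ, hk⟩ := exists_lower hB
  set E : ℝ := Real.exp (2 * -L) with hE
  have hEpos : 0 < E := Real.exp_pos _
  refine ⟨th B (fun _ => -L) * Real.exp (Real.pi * E * μ), Real.pi * E * μ,
    by have := Real.pi_pos; positivity, fun τ hτ a ha => ?_⟩
  have hterm : ∀ k : {k : ι → ℤ // k ≠ 0}, tm B a k.1 ≤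
      tm B (fun _ => -L) k.1 * (Real.exp (Real.pi * E * μ) *
        Real.exp (-(Real.pi * E * μ) * Real.exp τ ^ 2)) := by
    intro k
    refine (tm_mono B (a := fun _ => τ - L) ha k.1).trans ?_
    unfold tm
    rw [← Real.exp_add, ← Real.exp_add]
    apply Real.exp_le_exp.2
    rw [← Finset.mul_sum, ← Finset.mul_sum]
    have h1 : Real.exp (2 * (τ - L)) = E * Real.exp τ ^ 2 := by
      rw [hE, sq, ← Real.exp_add, ← Real.exp_add]
      congr 1
      ring
    have h2 : 1 ≤ Real.exp τ ^ 2 := one_le_pow₀ (Real.one_le_exp hτ)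
    have h3 := hk k.1 k.2
    rw [h1, ← hE]
    have h4 : 0 ≤ Real.pi * E * ((Real.exp τ ^ 2 - 1) * (∑ i, lpt B k.1 i ^ 2 - μ)) := by
      have := Real.pi_pos
      have h5 : 0 ≤ Real.exp τ ^ 2 - 1 := by linarith
      have h6 : 0 ≤ ∑ i, lpt B k.1 i ^ 2 - μ := by linarith
      positivity
    nlinarith
  have hs1 : Summable fun k : {k : ι → ℤ // k ≠ 0} => tm B a k.1 := (summable_tm hB _).subtype _
  have hs2 : Summable fun k : {k : ι → ℤ // k ≠ 0} => tm B (fun _ => -L) k.1 :=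
    (summable_tm hB _).subtype _
  have := hs1.tsum_le_tsum hterm (hs2.mul_right _)
  rw [tsum_mul_right] at this
  rw [mul_assoc]
  exact this

theorem box_ae (r : ℕ) : box r =ᵐ[volume] Set.Icc (0 : Fin r → ℝ) 1 :=
  Measure.univ_pi_Ico_ae_eq_Icc (μ := fun _ : Fin r => (volume : Measure ℝ))
    (f := fun _ => 0) (g := fun _ => 1)

theorem vol_Icc (r : ℕ) : (volume : Measure (Fin r → ℝ)).real (Set.Icc 0 1) = 1 := by
  rw [Measure.real, Real.volume_Icc_pi]
  simp

omit [DecidableEq ι] in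
theorem fth_eq (B : Matrix ι ι ℝ) (pl : ι → κ) (l : Fin r → κ → ℝ) (τ : ℝ) :
    fth B pl l τ = ∫ t in Set.Icc (0 : Fin r → ℝ) 1, th B fun i => ∑ j, t j * l j (pl i) + τ := by
  unfold fth
  rw [setIntegral_congr_set (box_ae r)]
  rfl

theorem cont2 {B : Matrix ι ι ℝ} (hB : B.det ≠ 0) (pl : ι → κ) (l : Fin r → κ → ℝ) :
    Continuous fun p : ℝ × (Fin r → ℝ) => th B fun i => ∑ j, p.2 j * l j (pl i) + p.1 := by
  refine (continuous_th hB).comp ?_
  fun_prop

theorem continuous_fth {B : Matrix ι ι ℝ} (hB : B.det ≠ 0) (pl : ι → κ) (l : Fin r → κ → ℝ) :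
    Continuous (fth B pl l) := by
  have : fth B pl l = fun τ =>
      ∫ t in Set.Icc (0 : Fin r → ℝ) 1, th B fun i => ∑ j, t j * l j (pl i) + τ :=
    funext (fth_eq B pl l)
  rw [this]
  exact continuous_parametric_integral_of_continuous
    (f := fun (τ : ℝ) (t : Fin r → ℝ) => th B fun i => ∑ j, t j * l j (pl i) + τ)
    (cont2 hB pl l) isCompact_Icc

theorem one_add_fth {B : Matrix ι ι ℝ} (hB : B.det ≠ 0) (pl : ι → κ) (l : Fin r → κ → ℝ) (τ : ℝ) :
    1 + fth B pl l τ =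
      ∫ t in Set.Icc (0 : Fin r → ℝ) 1, (1 + th B fun i => ∑ j, t j * l j (pl i) + τ) := by
  have hc : Continuous fun t : Fin r → ℝ => th B fun i => ∑ j, t j * l j (pl i) + τ := by
    refine (continuous_th hB).comp ?_
    fun_prop
  rw [integral_add (continuous_const.continuousOn.integrableOn_compact isCompact_Icc)
    (hc.continuousOn.integrableOn_compact isCompact_Icc), fth_eq, setIntegral_const, vol_Icc,
    one_smul]

theorem fth_fe {B : Matrix ι ι ℝ} (hB : B.det ≠ 0) (pl : ι → κ) (l : Fin r → κ → ℝ)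
    (hl : ∀ j, ∑ i, l j (pl i) = 0) (τ : ℝ) :
    1 + fth B pl l τ = (1 / |B.det|) * Real.exp (-(Fintype.card ι * τ)) *
      (1 + fth (B⁻¹).transpose pl (-l) (-τ)) := by
  rw [one_add_fth hB, one_add_fth (det_inv_ne hB), ← integral_const_mul]
  refine integral_congr_ae (Eventually.of_forall fun t => ?_)
  beta_reduce
  rw [th_fe hB]
  have h1 : ∑ i, (∑ j, t j * l j (pl i) + τ) = Fintype.card ι * τ := by
    rw [Finset.sum_add_distrib, Finset.sum_comm]
    simp_rw [← Finset.mul_sum, hl]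
    simp
  rw [h1]
  congr 3
  funext i
  simp only [Pi.neg_apply, mul_neg, Finset.sum_neg_distrib]
  ring

theorem fth_decay {B : Matrix ι ι ℝ} (hB : B.det ≠ 0) (pl : ι → κ) (l : Fin r → κ → ℝ) :
    ∃ C δ : ℝ, 0 < δ ∧ ∀ τ : ℝ, 0 ≤ τ →
      ‖fth B pl l τ‖ ≤ C * Real.exp (-δ * Real.exp τ ^ 2) := by
  obtain ⟨C, δ, hδ, h⟩ := th_decay hB (∑ i, ∑ j, |l j (pl i)|)
  refine ⟨C, δ, hδ, fun τ hτ => ?_⟩
  rw [fth_eq]
  have := norm_setIntegral_le_of_norm_le_const (μ := (volume : Measure (Fin r → ℝ)))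
    (s := Set.Icc 0 1) (f := fun t => th B fun i => ∑ j, t j * l j (pl i) + τ)
    (C := C * Real.exp (-δ * Real.exp τ ^ 2)) isCompact_Icc.measure_lt_top ?_
  · rwa [vol_Icc, mul_one] at this
  intro t ht
  rw [Real.norm_of_nonneg (th_nonneg _ _)]
  refine h τ hτ _ fun i => ?_
  have h1 : ∑ j, |l j (pl i)| ≤ ∑ i, ∑ j, |l j (pl i)| :=
    Finset.single_le_sum (f := fun i => ∑ j, |l j (pl i)|)
      (fun i _ => Finset.sum_nonneg fun j _ => abs_nonneg _) (Finset.mem_univ i)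
  have h2 : -∑ j, |l j (pl i)| ≤ ∑ j, t j * l j (pl i) := by
    rw [← Finset.sum_neg_distrib]
    refine Finset.sum_le_sum fun j _ => ?_
    have h3 : 0 ≤ t j := ht.1 j
    have h4 : t j ≤ 1 := ht.2 j
    have h5 := neg_abs_le (l j (pl i))
    have h6 := abs_nonneg (l j (pl i))
    nlinarith
  linarith

theorem fth_top {B : Matrix ι ι ℝ} (hB : B.det ≠ 0) (pl : ι → κ) (l : Fin r → κ → ℝ) (ρ : ℝ) :
    (fun x : ℝ => ((1 + fth B pl l (Real.log x) : ℝ) : ℂ) - 1) =O[atTop] (· ^ ρ) := by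
  obtain ⟨C, δ, hδ, h⟩ := fth_decay hB pl l
  have h1 := (rexp_neg_quadratic_isLittleO_rpow_atTop (a := -δ) (by linarith) 0 ρ).isBigO
  refine IsBigO.trans (IsBigO.of_bound C ?_) h1
  filter_upwards [eventually_ge_atTop 1] with x hx
  have h2 := h (Real.log x) (Real.log_nonneg hx)
  rw [Real.exp_log (by linarith)] at h2
  have h3 : ((1 + fth B pl l (Real.log x) : ℝ) : ℂ) - 1 = ((fth B pl l (Real.log x) : ℝ) : ℂ) := by
    push_cast; ring
  rw [h3, Complex.norm_real, zero_mul, add_zero, Real.norm_of_nonneg (Real.exp_pos _).le]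
  exact h2

theorem fth_int {B : Matrix ι ι ℝ} (hB : B.det ≠ 0) (pl : ι → κ) (l : Fin r → κ → ℝ) :
    LocallyIntegrableOn (fun x : ℝ => ((1 + fth B pl l (Real.log x) : ℝ) : ℂ)) (Set.Ioi 0) := by
  refine ContinuousOn.locallyIntegrableOn ?_ measurableSet_Ioi
  refine Complex.continuous_ofReal.comp_continuousOn (continuousOn_const.add ?_)
  exact (continuous_fth hB pl l).comp_continuousOn
    (Real.continuousOn_log.mono fun x hx => ne_of_gt hx)

/-- The pair of theta functions. -/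
noncomputable def pair [Nonempty ι] {B : Matrix ι ι ℝ} (hB : B.det ≠ 0) (pl : ι → κ)
    (l : Fin r → κ → ℝ) (hl : ∀ j, ∑ i, l j (pl i) = 0) : WeakFEPair ℂ where
  f := fun x => ((1 + fth B pl l (Real.log x) : ℝ) : ℂ)
  g := fun x => ((1 + fth (B⁻¹).transpose pl (-l) (Real.log x) : ℝ) : ℂ)
  k := Fintype.card ι
  ε := ((1 / |B.det| : ℝ) : ℂ)
  f₀ := 1
  g₀ := 1
  hf_int := fth_int hB pl l
  hg_int := fth_int (det_inv_ne hB) pl (-l)
  hk := by exact_mod_cast Fintype.card_pos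
  hε := by
    have : (1 / |B.det| : ℝ) ≠ 0 := one_div_ne_zero (abs_ne_zero.2 hB)
    exact_mod_cast this
  h_feq := fun x hx => by
    have hx' : 0 < x := hx
    rw [fth_fe hB pl l hl, one_div x, Real.log_inv, neg_neg, smul_eq_mul, ← Complex.ofReal_mul,
      ← Complex.ofReal_mul, Real.rpow_def_of_pos hx']
    congr 4
    ring
  hf_top := fth_top hB pl l
  hg_top := fth_top (det_inv_ne hB) pl (-l)

theorem mellin_log (F : ℝ → ℂ) (z : ℂ) :
    mellin (fun x => F (Real.log x)) z = ∫ τ : ℝ, F τ * cexp (z * τ) := by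
  have h := integral_image_eq_integral_abs_deriv_smul (s := Set.univ) (f := Real.exp)
    (f' := Real.exp) MeasurableSet.univ (fun x _ => (Real.hasDerivAt_exp x).hasDerivWithinAt)
    Real.exp_injective.injOn (fun x : ℝ => (x : ℂ) ^ (z - 1) • F (Real.log x))
  rw [Set.image_univ, Real.range_exp, Measure.restrict_univ] at h
  rw [mellin, h]
  refine integral_congr_ae (Eventually.of_forall fun τ => ?_)
  beta_reduce
  rw [Real.log_exp, abs_of_pos (Real.exp_pos τ), smul_eq_mul, Complex.real_smul,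
    Complex.cpow_def_of_ne_zero (Complex.ofReal_ne_zero.2 (Real.exp_pos τ).ne'),
    ← Complex.ofReal_log (Real.exp_pos τ).le, Real.log_exp, Complex.ofReal_exp, ← mul_assoc,
    ← Complex.exp_add, mul_comm]
  congr 2
  ring

end ThetaAux

theorem theta_mellin [Nonempty ι] (B : Matrix ι ι ℝ) (hB : B.det ≠ 0) (pl : ι → κ)
    (l : Fin r → κ → ℝ) (hl : ∀ j, ∑ i, l j (pl i) = 0) :
    ∃ h : ℂ → ℂ, MeromorphicOn h Set.univ ∧ AnalyticAt ℂ h 0 ∧
      h 0 = -1 / (Fintype.card ι : ℂ) ∧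
      ∀ s : ℂ, 1 < s.re →
        s * ∫ τ : ℝ, (fth B pl l τ : ℂ) * cexp ((Fintype.card ι : ℂ) * s * τ) = h s := by
  set P := ThetaAux.pair hB pl l hl with hP
  set n : ℂ := (Fintype.card ι : ℂ) with hn
  have hn0 : n ≠ 0 := by
    rw [hn]; exact_mod_cast Fintype.card_ne_zero
  have hΛ : ∀ z : ℂ, AnalyticAt ℂ (fun s : ℂ => s * P.Λ₀ (n * s) - 1 / n) z := fun z => by
    refine Differentiable.analyticAt ?_ z
    have := P.differentiable_Λ₀
    fun_prop
  have hnum : ∀ z : ℂ, AnalyticAt ℂ (fun s : ℂ => s * P.ε) z := fun z => by fun_prop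
  have hden : ∀ z : ℂ, AnalyticAt ℂ (fun s : ℂ => n - n * s) z := fun z => by fun_prop
  refine ⟨fun s => (s * P.Λ₀ (n * s) - 1 / n) - s * P.ε / (n - n * s), ?_, ?_, ?_, ?_⟩
  · intro z _
    exact (hΛ z).meromorphicAt.sub ((hnum z).meromorphicAt.div (hden z).meromorphicAt)
  · exact (hΛ 0).sub ((hnum 0).div (hden 0) (by simpa using hn0))
  · simp [neg_div]
  · intro s hs
    have hk : (P.k : ℂ) = n := by
      rw [hn]; exact Complex.ofReal_natCast _
    have hkre : P.k < (n * s).re := by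
      have h1 : (0 : ℝ) < Fintype.card ι := by exact_mod_cast Fintype.card_pos
      have h2 : (n * s).re = Fintype.card ι * s.re := by
        rw [hn, ← Complex.ofReal_natCast, Complex.re_ofReal_mul]
      have h3 : P.k = Fintype.card ι := rfl
      rw [h2, h3]
      nlinarith
    have hm := (P.hasMellin hkre).2
    have hf : (fun x => P.f x - P.f₀) = fun x => ((fth B pl l (Real.log x) : ℝ) : ℂ) := by
      funext x
      change ((1 + fth B pl l (Real.log x) : ℝ) : ℂ) - 1 = _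
      push_cast; ring
    rw [hf, ThetaAux.mellin_log (fun τ => ((fth B pl l τ : ℝ) : ℂ))] at hm
    rw [hm, WeakFEPair.Λ, hk]
    have hs0 : s ≠ 0 := by
      rintro rfl
      simp at hs
      linarith
    have h0 : P.f₀ = 1 := rfl
    have h1 : P.g₀ = 1 := rfl
    rw [h0, h1, smul_eq_mul, smul_eq_mul]
    field_simp

end Pool.Agent.Stark
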