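import Mathlib

/-! The Gamma integral over all archimedean places. -/

namespace Pool.Agent.Stark

open Complex MeasureTheory

variable {κ : Type*} [Fintype κ] {r : ℕ}

/-- The integrand of the Gamma integral. -/
noncomputable def phiI (m : κ → ℕ) (l : Fin r → κ → ℝ) (x : κ → ℝ) (s : ℂ)
    (p : (Fin r → ℝ) × ℝ) : ℂ :=
  (Real.exp (-Real.pi * ∑ w, Real.exp (2 * (∑ j, p.1 j * l j w + p.2)) * x w ^ 2) : ℂ) *
    cexp (((∑ w, m w : ℕ) : ℂ) * s * p.2)

namespace PhiAux

/-- The one dimensional integrand. -/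
noncomputable def f1 (x : ℝ) (z : ℂ) (y : ℝ) : ℂ :=
  (Real.exp (-Real.pi * (Real.exp (2 * y) * x ^ 2)) : ℂ) * cexp (z * y)

theorem continuous_f1 (x : ℝ) (z : ℂ) : Continuous (f1 x z) := by
  unfold f1
  fun_prop

theorem ofReal_cpow_eq {a : ℝ} (ha : 0 < a) (z : ℂ) :
    (a : ℂ) ^ z = cexp ((Real.log a : ℂ) * z) := by
  rw [cpow_def_of_ne_zero (ofReal_ne_zero.mpr ha.ne'), ofReal_log ha.le]

theorem integral_f1 {x : ℝ} (hx : 0 < x) {z : ℂ} (hz : 0 < z.re) :
    ∫ y, f1 x z y = Gammaℝ z / 2 * (x : ℂ) ^ (-z) := by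
  have hr : 0 < Real.pi * x ^ 2 := by positivity
  have hz2 : 0 < (z / 2).re := by
    have : (z / 2).re = z.re / 2 := by simp
    rw [this]; positivity
  have h1 := integral_cpow_mul_exp_neg_mul_Ioi hz2 hr
  have him : (fun y : ℝ => Real.exp (2 * y)) '' Set.univ = Set.Ioi 0 := by
    ext u
    simp only [Set.image_univ, Set.mem_range, Set.mem_Ioi]
    constructor
    · rintro ⟨y, rfl⟩
      exact Real.exp_pos _
    · intro hu
      refine ⟨Real.log u / 2, ?_⟩
      rw [show 2 * (Real.log u / 2) = Real.log u by ring, Real.exp_log hu]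
  have hder : ∀ y ∈ (Set.univ : Set ℝ), HasDerivWithinAt (fun y : ℝ => Real.exp (2 * y))
      (Real.exp (2 * y) * 2) Set.univ y := by
    intro y _
    have h : HasDerivAt (fun y : ℝ => Real.exp (2 * y)) (Real.exp (2 * y) * 2) y := by
      simpa using ((hasDerivAt_id y).const_mul 2).exp
    exact h.hasDerivWithinAt
  have hinj : Set.InjOn (fun y : ℝ => Real.exp (2 * y)) Set.univ := by
    intro a _ b _ hab
    have := Real.exp_injective hab
    linarith
  have h2 := integral_image_eq_integral_abs_deriv_smul MeasurableSet.univ hder hinj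
    (fun t : ℝ => (t : ℂ) ^ (z / 2 - 1) * cexp (-(((Real.pi * x ^ 2 : ℝ) : ℂ) * t)))
  rw [him, h1, Measure.restrict_univ] at h2
  have h3 : ∀ y : ℝ, |Real.exp (2 * y) * 2| • (((Real.exp (2 * y) : ℝ) : ℂ) ^ (z / 2 - 1) *
      cexp (-(((Real.pi * x ^ 2 : ℝ) : ℂ) * ((Real.exp (2 * y) : ℝ) : ℂ)))) = 2 * f1 x z y := by
    intro y
    rw [abs_of_pos (by positivity), ofReal_cpow_eq (Real.exp_pos _), Real.log_exp, real_smul]
    unfold f1
    rw [ofReal_mul (Real.exp (2 * y)), ofReal_exp (2 * y), ofReal_exp (-Real.pi * _)]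
    have e1 : cexp (z * y) = cexp (((2 * y : ℝ) : ℂ)) * cexp (((2 * y : ℝ) : ℂ) * (z / 2 - 1)) := by
      rw [← Complex.exp_add]
      congr 1
      push_cast
      ring
    have e2 : ((-Real.pi * (Real.exp (2 * y) * x ^ 2) : ℝ) : ℂ) =
        -(((Real.pi * x ^ 2 : ℝ) : ℂ) * cexp (((2 * y : ℝ) : ℂ))) := by
      rw [← ofReal_exp]
      push_cast
      ring
    rw [e1, e2]
    push_cast
    ring
  simp only [h3] at h2
  rw [integral_const_mul] at h2
  have h4 : (1 / ((Real.pi * x ^ 2 : ℝ) : ℂ)) ^ (z / 2) =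
      (Real.pi : ℂ) ^ (-z / 2) * (x : ℂ) ^ (-z) := by
    have : (1 / ((Real.pi * x ^ 2 : ℝ) : ℂ)) = ((1 / (Real.pi * x ^ 2) : ℝ) : ℂ) := by
      push_cast; ring
    rw [this, ofReal_cpow_eq (by positivity), ofReal_cpow_eq Real.pi_pos, ofReal_cpow_eq hx,
      ← Complex.exp_add, one_div, Real.log_inv, Real.log_mul Real.pi_pos.ne' (by positivity),
      Real.log_pow]
    congr 1
    push_cast
    ring
  rw [h4] at h2
  rw [Gammaℝ_def]
  linear_combination (-1 / 2 : ℂ) * h2

theorem integral_comp_matrix {ι : Type*} [Fintype ι] [DecidableEq ι] (M : Matrix ι ι ℝ)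
    (hM : M.det ≠ 0) (F : (ι → ℝ) → ℂ) (hF : Continuous F) :
    ∫ v, F (M.mulVec v) = ((|M.det|⁻¹ : ℝ) : ℂ) * ∫ y, F y := by
  have h1 := Real.map_matrix_volume_pi_eq_smul_volume_pi hM
  have hc : Continuous (Matrix.toLin' M) := LinearMap.continuous_of_finiteDimensional _
  have h2 : ∫ y, F y ∂(Measure.map (Matrix.toLin' M) volume) =
      ∫ v, F (Matrix.toLin' M v) := integral_map hc.aemeasurable hF.aestronglyMeasurable
  rw [h1, integral_smul_measure, ENNReal.toReal_ofReal (abs_nonneg _), abs_inv] at h2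
  simp only [Matrix.toLin'_apply] at h2
  rw [← h2, real_smul]

theorem integral_option {ι : Type*} [Fintype ι] (F : (Option ι → ℝ) → ℂ) :
    ∫ p : (ι → ℝ) × ℝ, F (fun i => i.elim p.2 p.1) = ∫ v, F v := by
  have h1 := Measure.pi_map_piOptionEquivProd (ι := ι) (β := fun _ => ℝ) (fun _ => volume)
  have h2 : ∫ v, F v = ∫ v, F v ∂(Measure.pi fun _ : Option ι => (volume : Measure ℝ)) := rfl
  rw [h2, ← h1, integral_map_equiv]
  refine integral_congr_ae (Filter.Eventually.of_forall fun p => ?_)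
  show F _ = F _
  congr 1
  funext i
  cases i <;> rfl

theorem integral_phiI (m : κ → ℕ) (hm : ∀ w, 0 < m w) (l : Fin r → κ → ℝ)
    (hl : ∀ j, ∑ w, (m w : ℝ) * l j w = 0) (e : Option (Fin r) ≃ κ) (J : ℝ)
    (hJ : J = |(Matrix.of fun i j : Option (Fin r) => i.elim 1 fun i' => l i' (e j)).det|)
    (hJ0 : J ≠ 0) (x : κ → ℝ) (hx : ∀ w, 0 < x w) (s : ℂ) (hs : 0 < s.re) :
    ∫ p, phiI m l x s p =
      (∏ w, Gammaℝ (m w * s) / 2) / J * ((∏ w, x w ^ m w : ℝ) : ℂ) ^ (-s) := by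
  set M : Matrix (Option (Fin r)) (Option (Fin r)) ℝ :=
    Matrix.of fun i j : Option (Fin r) => i.elim 1 fun i' => l i' (e j) with hMdef
  have hdet : M.transpose.det ≠ 0 := by
    rw [Matrix.det_transpose]
    intro h
    apply hJ0
    rw [hJ, h, abs_zero]
  let F : (Option (Fin r) → ℝ) → ℂ := fun y => ∏ j, f1 (x (e j)) (m (e j) * s) (y j)
  have hF : Continuous F := by
    refine continuous_finsetProd _ fun j _ => ?_
    exact (continuous_f1 _ _).comp (continuous_apply j)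
  have hmv : ∀ (p : (Fin r → ℝ) × ℝ) (j : Option (Fin r)),
      M.transpose.mulVec (fun i => i.elim p.2 p.1) j = ∑ i, p.1 i * l i (e j) + p.2 := by
    intro p j
    simp only [Matrix.mulVec, dotProduct, Matrix.transpose_apply, hMdef, Matrix.of_apply,
      Fintype.sum_option, Option.elim]
    rw [one_mul, add_comm]
    congr 1
    exact Finset.sum_congr rfl fun i _ => mul_comm _ _
  have key : ∀ p : (Fin r → ℝ) × ℝ,
      phiI m l x s p = F (M.transpose.mulVec (fun i => i.elim p.2 p.1)) := by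
    intro p
    have a1 : F (M.transpose.mulVec (fun i => i.elim p.2 p.1)) =
        ∏ w, f1 (x w) (m w * s) (∑ i, p.1 i * l i w + p.2) := by
      rw [← e.prod_comp]
      exact Finset.prod_congr rfl fun j _ => by rw [hmv]
    rw [a1]
    unfold phiI f1
    rw [Finset.prod_mul_distrib, ← ofReal_prod, ← Real.exp_sum, ← Complex.exp_sum,
      Finset.mul_sum]
    congr 2
    have a2 : ∑ w, (m w : ℝ) * (∑ i, p.1 i * l i w + p.2) = (∑ w, (m w : ℝ)) * p.2 := by
      simp only [mul_add, Finset.sum_add_distrib, Finset.mul_sum, Finset.sum_mul]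
      rw [Finset.sum_comm]
      have : ∀ i, ∑ w, (m w : ℝ) * (p.1 i * l i w) = 0 := by
        intro i
        have h := hl i
        calc ∑ w, (m w : ℝ) * (p.1 i * l i w) = p.1 i * ∑ w, (m w : ℝ) * l i w := by
              rw [Finset.mul_sum]
              exact Finset.sum_congr rfl fun w _ => by ring
          _ = 0 := by rw [h, mul_zero]
      simp only [this, Finset.sum_const_zero, zero_add]
    have a3 : ((∑ w, (m w : ℝ) * (∑ i, p.1 i * l i w + p.2) : ℝ) : ℂ) =
        (((∑ w, (m w : ℝ)) * p.2 : ℝ) : ℂ) := by rw [a2]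
    rw [ofReal_sum] at a3
    have a4 : ∑ w, (m w : ℂ) * s * ((∑ i, p.1 i * l i w + p.2 : ℝ) : ℂ) =
        s * ∑ w, (((m w : ℝ) * (∑ i, p.1 i * l i w + p.2) : ℝ) : ℂ) := by
      rw [Finset.mul_sum]
      refine Finset.sum_congr rfl fun w _ => ?_
      rw [ofReal_mul, ofReal_natCast]
      ring
    rw [a4, a3]
    push_cast
    ring
  simp only [key]
  rw [integral_option (fun v => F (M.transpose.mulVec v)), integral_comp_matrix _ hdet F hF,
    Matrix.det_transpose, ← hJ]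
  have hI : ∫ y, F y = ∏ w, (Gammaℝ (m w * s) / 2 * (x w : ℂ) ^ (-(m w * s))) := by
    rw [← e.prod_comp]
    simp only [F]
    rw [integral_fintype_prod_volume_eq_prod (fun j => f1 (x (e j)) (m (e j) * s))]
    refine Finset.prod_congr rfl fun j _ => integral_f1 (hx _) ?_
    have : ((m (e j) : ℂ) * s).re = m (e j) * s.re := by simp
    rw [this]
    have := hm (e j)
    positivity
  have hP : ((∏ w, x w ^ m w : ℝ) : ℂ) ^ (-s) = ∏ w, (x w : ℂ) ^ (-(m w * s)) := by
    rw [ofReal_cpow_eq (Finset.prod_pos fun w _ => pow_pos (hx w) _),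
      Real.log_prod (fun w _ => (pow_pos (hx w) _).ne'), ofReal_sum, Finset.sum_mul,
      Complex.exp_sum]
    refine Finset.prod_congr rfl fun w _ => ?_
    rw [ofReal_cpow_eq (hx w), Real.log_pow]
    congr 1
    push_cast
    ring
  rw [hI, hP, Finset.prod_mul_distrib]
  push_cast
  ring

end PhiAux

theorem phi_mellin (m : κ → ℕ) (hm : ∀ w, 0 < m w) (l : Fin r → κ → ℝ)
    (hl : ∀ j, ∑ w, (m w : ℝ) * l j w = 0) (e : Option (Fin r) ≃ κ) (J : ℝ)
    (hJ : J = |(Matrix.of fun i j : Option (Fin r) => i.elim 1 fun i' => l i' (e j)).det|)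
    (hJ0 : J ≠ 0) (x : κ → ℝ) (hx : ∀ w, 0 < x w) (s : ℂ) (hs : 0 < s.re) :
    Integrable (phiI m l x s) ∧
      ∫ p, phiI m l x s p =
        (∏ w, Gammaℝ (m w * s) / 2) / J * ((∏ w, x w ^ m w : ℝ) : ℂ) ^ (-s) := by
  have h := PhiAux.integral_phiI m hm l hl e J hJ hJ0 x hx s hs
  refine ⟨Integrable.of_integral_ne_zero ?_, h⟩
  rw [h]
  refine mul_ne_zero (div_ne_zero (Finset.prod_ne_zero_iff.mpr fun w _ => ?_)
    (ofReal_ne_zero.mpr hJ0)) ?_
  · refine div_ne_zero (Gammaℝ_ne_zero_of_re_pos ?_) two_ne_zero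
    have : ((m w : ℂ) * s).re = m w * s.re := by simp
    rw [this]
    have := hm w
    positivity
  · rw [PhiAux.ofReal_cpow_eq (Finset.prod_pos fun w _ => pow_pos (hx w) _)]
    exact Complex.exp_ne_zero _

end Pool.Agent.Stark
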