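import Pool.Agent.Lib.MP_ca56d1_nt.Theta
import Pool.Agent.Lib.MP_ca56d1_nt.Phi

/-! Unfolding of the averaged theta function. -/

namespace Pool.Agent.Stark.ZetaZeroAux

open Complex MeasureTheory

theorem integrable_tsum {α ι : Type*} [MeasurableSpace α] {μ : Measure α} [Countable ι]
    {F : ι → α → ℂ} (h1 : ∀ i, Integrable (F i) μ) (h2 : Summable fun i => ∫ a, ‖F i a‖ ∂μ) :
    Integrable (fun a => ∑' i, F i a) μ := by
  refine ⟨AEStronglyMeasurable.tsum fun i => (h1 i).1, ?_⟩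
  refine lt_of_le_of_lt (lintegral_mono fun a => enorm_tsum_le_tsum_enorm) ?_
  rw [lintegral_tsum fun i => (h1 i).1.enorm]
  simp_rw [← ofReal_integral_norm_eq_lintegral_enorm (h1 _)]
  exact h2.tsum_ofReal_lt_top

variable {r : ℕ}

/-- Translation by an integer vector. -/
def sh (k : Fin r → ℤ) (p : (Fin r → ℝ) × ℝ) : (Fin r → ℝ) × ℝ := p + (fun j => (k j : ℝ), 0)

theorem vol_inv : (volume : Measure ((Fin r → ℝ) × ℝ)).IsAddRightInvariant :=
  inferInstanceAs ((volume : Measure (Fin r → ℝ)).prod (volume : Measure ℝ)).IsAddRightInvariant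

theorem unfold_box {E : Type*} [NormedAddCommGroup E] [NormedSpace ℝ E]
    {f : (Fin r → ℝ) × ℝ → E} (hf : Integrable f) :
    HasSum (fun k : Fin r → ℤ => ∫ p in box r ×ˢ Set.univ, f (sh k p)) (∫ p, f p) := by
  have hm : ∀ k : Fin r → ℤ, MeasurableSet {p : (Fin r → ℝ) × ℝ | ∀ j, ⌊p.1 j⌋ = k j} :=
    fun k => by measurability
  have hu : ⋃ k : Fin r → ℤ, {p : (Fin r → ℝ) × ℝ | ∀ j, ⌊p.1 j⌋ = k j} = Set.univ :=
    Set.eq_univ_of_forall fun p => Set.mem_iUnion.2 ⟨fun j => ⌊p.1 j⌋, fun _ => rfl⟩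
  have := hasSum_integral_iUnion hm (fun k k' h => Set.disjoint_left.2 fun p h1 h2 =>
    h (funext fun j => (h1 j).symm.trans (h2 j))) hf.integrableOn
  rw [hu, Measure.restrict_univ] at this
  convert this using 2 with k
  have := vol_inv (r := r)
  refine Eq.trans ?_ ((measurePreserving_add_right volume
    (fun j => (k j : ℝ), 0)).setIntegral_preimage_emb (measurableEmbedding_addRight _) f _)
  congr 2
  ext p
  simp [box, Int.floor_eq_zero_iff]

variable {κ : Type*} [Fintype κ]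

theorem norm_phiI (m : κ → ℕ) (l : Fin r → κ → ℝ) (x : κ → ℝ) (s : ℂ) (p : (Fin r → ℝ) × ℝ) :
    ‖phiI m l x s p‖ = (phiI m l x s.re p).re := by
  rw [phiI, phiI, norm_mul, norm_real, norm_exp, Real.norm_of_nonneg (Real.exp_pos _).le,
    re_ofReal_mul, ← ofReal_natCast, ← ofReal_mul, ← ofReal_mul, exp_ofReal_re]
  simp

theorem unfold_theta {ι A : Type*} [Fintype ι] [DecidableEq ι] (B : Matrix ι ι ℝ) (pl : ι → κ)
    (m : κ → ℕ) (hm : ∀ w, 0 < m w) (hn : ∑ w, m w = Fintype.card ι) (l : Fin r → κ → ℝ)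
    (hl : ∀ j, ∑ w, (m w : ℝ) * l j w = 0) (e : Option (Fin r) ≃ κ) (J : ℝ)
    (hJ : J = |(Matrix.of fun i j : Option (Fin r) => i.elim 1 fun i' => l i' (e j)).det|)
    (hJ0 : J ≠ 0) (x : A → κ → ℝ) (hx : ∀ a w, 0 < x a w)
    (f : A × (Fin r → ℤ) ≃ {k : ι → ℤ // k ≠ 0})
    (hf : ∀ a k (c : κ → ℝ), ∑ i, c (pl i) * lpt B (f (a, k)).1 i ^ 2
      = ∑ w, c w * (Real.exp (∑ j, k j * l j w) * x a w) ^ 2)
    (s : ℂ) (hs : 0 < s.re) (hS : Summable fun a => (∏ w, x a w ^ m w) ^ (-s.re)) :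
    ∫ τ : ℝ, (fth B pl l τ : ℂ) * cexp ((Fintype.card ι : ℂ) * s * τ)
      = (∏ w, Gammaℝ (m w * s) / 2) / J * ∑' a, ((∏ w, x a w ^ m w : ℝ) : ℂ) ^ (-s) := by
  have : Countable (A × (Fin r → ℤ)) := f.injective.countable
  have := vol_inv (r := r)
  have hI := fun a => phi_mellin m hm l hl e J hJ hJ0 (x a) (hx a) s hs
  have hR := fun a => (phi_mellin m hm l hl e J hJ hJ0 (x a) (hx a) s.re hs)
  let F : A × (Fin r → ℤ) → (Fin r → ℝ) × ℝ → ℂ := fun q p => phiI m l (x q.1) s (sh q.2 p)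
  have h1 : ∀ q, Integrable (F q) (volume.restrict (box r ×ˢ Set.univ)) := fun q =>
    ((hI q.1).1.comp_add_right _).integrableOn
  have h2 : Summable fun q => ∫ p in box r ×ˢ Set.univ, ‖F q p‖ := by
    refine (summable_prod_of_nonneg fun q => integral_nonneg fun _ => norm_nonneg _).2
      ⟨fun a => (unfold_box (hI a).1.norm).summable, ?_⟩
    refine (hS.mul_left ((∏ w, Gammaℝ (m w * s.re) / 2) / J).re).congr fun a => ?_
    rw [(unfold_box (hI a).1.norm).tsum_eq]
    simp_rw [norm_phiI]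
    have := integral_re (hR a).1
    simp only [RCLike.re_to_complex] at this
    rw [this, (hR a).2, ← ofReal_neg, ← ofReal_cpow (Finset.prod_nonneg fun w _ =>
      pow_nonneg (hx a w).le _), re_mul_ofReal]
  have h3 : ∀ p : (Fin r → ℝ) × ℝ, ∑' q, F q p
      = (theta B pl fun w => ∑ j, p.1 j * l j w + p.2 : ℝ) * cexp (Fintype.card ι * s * p.2) := by
    intro p
    rw [theta, ofReal_tsum, ← tsum_mul_right, ← f.tsum_eq]
    refine tsum_congr fun ⟨a, k⟩ => ?_
    rw [hf a k fun w => Real.exp (2 * (∑ j, p.1 j * l j w + p.2))]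
    simp only [F, phiI, sh, hn, Prod.fst_add, Prod.snd_add, add_zero, Pi.add_apply]
    congr 5
    ext w
    rw [mul_pow, ← mul_assoc, ← Real.exp_nat_mul, ← Real.exp_add]
    simp only [add_mul, Finset.sum_add_distrib]
    congr 2
    push_cast
    ring
  have h4 := hasSum_integral_of_summable_integral_norm h1 h2
  have h5 := (h4.prod_fiberwise fun a => unfold_box (hI a).1).tsum_eq
  have h6 := integrable_tsum h1 h2
  have h7 : (volume : Measure ((Fin r → ℝ) × ℝ)).restrict (box r ×ˢ Set.univ)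
      = (volume.restrict (box r)).prod volume := by
    rw [Measure.volume_eq_prod, ← Measure.prod_restrict, Measure.restrict_univ]
  rw [h7] at h5 h6
  rw [integral_prod_symm _ h6] at h5
  simp_rw [(hI _).2, h3, integral_mul_const, integral_complex_ofReal] at h5
  rw [← tsum_mul_left, h5]
  rfl

end Pool.Agent.Stark.ZetaZeroAux
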