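import Pool.Agent.Lib.MP_ca56d1_nt.Euler
import Pool.Agent.Lib.MP_ca56d1_nt.Theta
import Pool.Agent.Lib.MP_ca56d1_nt.Phi
import Pool.Agent.Lib.MP_ca56d1_nt.ZetaZero1
import Pool.Agent.Lib.MP_ca56d1_nt.ZetaZero2

/-! Continuation of the Dedekind zeta function and the class number formula at `s = 0`. -/

namespace Pool.Agent.Stark

open NumberField

namespace ZetaZeroAux

open Complex NumberField.mixedEmbedding NumberField.InfinitePlace NumberField.Units
open scoped nonZeroDivisors Classical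

variable {K : Type*} [Field K] [NumberField K]

theorem class_sum (e : Option (Fin (rank K)) ≃ InfinitePlace K) (J : ℝ)
    (hJ : J = |(Matrix.of fun i j : Option (Fin (rank K)) =>
      i.elim 1 fun i' => Real.log (e j (fundSystem K i'))).det|) (hJ0 : J ≠ 0)
    (c : ClassGroup (𝓞 K)) : ∃ (h : ℂ → ℂ) (N : ℕ), N ≠ 0 ∧ MeromorphicOn h Set.univ ∧
      AnalyticAt ℂ h 0 ∧ h 0 = -1 / (Module.finrank ℚ K : ℂ) ∧ ∀ s : ℂ, 1 < s.re →
        s * ((∏ w : InfinitePlace K, Gammaℝ (mult w * s) / 2) / J *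
          ((∑' I : {I // cls I = c}, (Ideal.absNorm I.1.1 : ℂ) ^ (-s))
            * (torsionOrder K * (N : ℂ) ^ (-s)))) = h s := by
  obtain ⟨b, hb⟩ := ClassGroup.mk0_surjective c⁻¹
  obtain rfl : c = (ClassGroup.mk0 b)⁻¹ := by rw [hb, inv_inv]
  obtain ⟨B, v, hB, hv⟩ := exists_lattice b
  obtain ⟨g, f, hg, hf⟩ := exists_orbits b
  have : Nonempty (index K) := Fintype.card_pos_iff.1 (by
    rw [card_index]; exact Module.finrank_pos)
  obtain ⟨h, h1, h2, h3, h4⟩ := theta_mellin B hB (pl K) (fun j w => Real.log (w (fundSystem K j)))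
    fun j => (sum_pl K fun w => Real.log (w (fundSystem K j))).trans (sum_mult_mul_log _)
  refine ⟨h, Ideal.absNorm b.1, Ideal.absNorm_eq_zero_iff.not.2 (nonZeroDivisors.ne_zero b.2),
    h1, h2, by rw [h3, card_index], fun s hs => ?_⟩
  have hx : ∀ I (w : InfinitePlace K), 0 < w (g I) := fun I w =>
    pos_iff.2 (RingOfIntegers.coe_ne_zero_iff.2 (hg I).1)
  have e1 : ∀ I, ((∏ w : InfinitePlace K, w (g I) ^ mult w : ℝ) : ℂ) ^ (-s)
      = (Ideal.absNorm I.1.1 : ℂ) ^ (-s) * (Ideal.absNorm b.1 : ℂ) ^ (-s) := fun I => by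
    rw [prod_place (hg I).2, ← natCast_mul_natCast_cpow]
    simp
  have s1 : Summable fun I : {I // cls I = (ClassGroup.mk0 b)⁻¹} =>
      ‖(Ideal.absNorm I.1.1 : ℂ) ^ (-s)‖ := (summable_zI hs).subtype _
  have s2 : Summable fun _ : torsion K => ‖(Ideal.absNorm b.1 : ℂ) ^ (-s)‖ := .of_finite
  rw [← h4 s hs, unfold_theta B (pl K) mult (fun _ => mult_pos) (by rw [sum_mult_eq, card_index])
    _ (fun j => sum_mult_mul_log _) e J hJ hJ0 (fun a w => w (g a.1)) (fun a => hx a.1) (f.trans v)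
    (fun a k c => ?_) s (by linarith) ((s1.mul_norm s2).congr fun a => ?_)]
  · simp_rw [e1]
    rw [← tsum_mul_tsum_of_summable_norm s1 s2, tsum_const, nsmul_eq_mul, torsionOrder]
  · simp only [Equiv.trans_apply, hv, sum_pl_sq, hf, place_unit]
  · rw [← e1, norm_cpow_eq_rpow_re_of_pos (Finset.prod_pos fun w _ => pow_pos (hx _ w) _), neg_re]

end ZetaZeroAux

open ZetaZeroAux Complex NumberField.InfinitePlace in
theorem zeta_zero (K : Type*) [Field K] [NumberField K] :
    ∃ g : ℂ → ℂ, MeromorphicOn g Set.univ ∧ AnalyticAt ℂ g 0 ∧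
      g 0 = -((classNumber K * Units.regulator K / Units.torsionOrder K : ℝ) : ℂ) ∧
      ∀ s : ℂ, 1 < s.re → zI K s = s ^ Units.rank K * g s := by
  obtain ⟨e, he⟩ := exists_J K
  have hn : (Module.finrank ℚ K : ℝ) ≠ 0 := Nat.cast_ne_zero.2 Module.finrank_pos.ne'
  have hw : (Units.torsionOrder K : ℂ) ≠ 0 := Nat.cast_ne_zero.2 (Units.torsionOrder_ne_zero K)
  have hπ : (Real.pi : ℂ) ≠ 0 := ofReal_ne_zero.2 Real.pi_ne_zero
  have hc := class_sum e _ rfl fun h => by
    rw [h, zero_mul] at he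
    exact mul_ne_zero hn (Units.regulator_ne_zero K) he.symm
  generalize |(_ : ℝ)| = J at he hc
  have hJ : (J : ℂ) ≠ 0 := ofReal_ne_zero.2 fun h => by
    rw [h, zero_mul] at he
    exact mul_ne_zero hn (Units.regulator_ne_zero K) he.symm
  choose h N hN h1 h2 h3 h4 using hc
  let E : ClassGroup (𝓞 K) → ℂ → ℂ := fun c s => (N c : ℂ) ^ s * J / Units.torsionOrder K *
    ∏ w : InfinitePlace K, (mult w / Real.pi * (Gammaℝ (mult w * s + 2))⁻¹)
  have hE : ∀ c s, AnalyticAt ℂ (E c) s := fun c => Differentiable.analyticAt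
    ((((differentiable_id.const_cpow (Or.inl (Nat.cast_ne_zero.2 (hN c)))).mul_const _).div_const
      _).mul (Differentiable.fun_finsetProd fun w _ =>
        (differentiable_Gammaℝ_inv.comp (by fun_prop)).const_mul _))
  refine ⟨fun s => ∑ c, E c s * h c s, MeromorphicOn.fun_sum fun c s hs =>
    (hE c s).meromorphicAt.mul (h1 c s hs), Finset.analyticAt_fun_sum _ fun c _ =>
      (hE c 0).mul (h2 c), ?_, fun s hs => ?_⟩
  · have g2 : Gammaℝ 2 = (Real.pi : ℂ)⁻¹ := by
      rw [Gammaℝ_def]; norm_num [cpow_neg_one]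
    have he' : (J : ℂ) * ∏ w : InfinitePlace K, (mult w : ℂ)
        = Module.finrank ℚ K * Units.regulator K := by exact_mod_cast he
    have hn' : (Module.finrank ℚ K : ℂ) ≠ 0 := by exact_mod_cast hn
    simp only [E, h3, cpow_zero, mul_zero, zero_add, g2, inv_inv, div_mul_cancel₀ _ hπ,
      Finset.sum_const, Finset.card_univ, nsmul_eq_mul, classNumber]
    push_cast
    field_simp
    linear_combination (-1 : ℂ) * he'
  · have hs0 : s ≠ 0 := fun h => by rw [h, zero_re] at hs; linarith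
    rw [zI, ← ((summable_zI hs).of_norm.hasSum.tsum_fiberwise cls).tsum_eq, tsum_fintype,
      Finset.mul_sum]
    refine Finset.sum_congr rfl fun c _ => ?_
    have e1 : (∏ w : InfinitePlace K, (mult w / Real.pi * (Gammaℝ (mult w * s + 2))⁻¹))
        * (∏ w : InfinitePlace K, Gammaℝ (mult w * s) / 2) * (s ^ Units.rank K * s) = 1 := by
      rw [← pow_succ, Units.rank, Nat.sub_add_cancel Fintype.card_pos, ← Finset.card_univ,
        ← Finset.prod_const, ← Finset.prod_mul_distrib, ← Finset.prod_mul_distrib]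
      refine Finset.prod_eq_one fun w _ => ?_
      have m0 : (mult w : ℂ) ≠ 0 := Nat.cast_ne_zero.2 mult_ne_zero
      have g0 : Gammaℝ (mult w * s) ≠ 0 := Gammaℝ_ne_zero_of_re_pos (by
        have : (0 : ℝ) < mult w := Nat.cast_pos.2 mult_pos
        simp only [mul_re, natCast_re, natCast_im, zero_mul, sub_zero]
        positivity)
      rw [Gammaℝ_add_two (mul_ne_zero m0 hs0)]
      field_simp
    have e2 : (N c : ℂ) ^ s * (N c : ℂ) ^ (-s) = 1 := by
      rw [← cpow_add _ _ (Nat.cast_ne_zero.2 (hN c)), add_neg_cancel, cpow_zero]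
    rw [← h4 c s hs]
    change ∑' I : {I // cls I = c}, (Ideal.absNorm I.1.1 : ℂ) ^ (-s) = _
    simp only [E]
    generalize ∑' I : {I // cls I = c}, (Ideal.absNorm I.1.1 : ℂ) ^ (-s) = Z
    generalize ∏ w : InfinitePlace K, Gammaℝ (mult w * s) / 2 = G at e1 ⊢
    generalize ∏ w : InfinitePlace K, (mult w / Real.pi * (Gammaℝ (mult w * s + 2))⁻¹) = P at e1 ⊢
    field_simp
    linear_combination (-Z) * e1 - Z * (P * G * (s ^ Units.rank K * s)) * e2

end Pool.Agent.Stark
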