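import Mathlib

/-! Sums over systems of representatives and the stabilisation lemma for Gauss sums. -/

namespace Pool.Agent.Stark

open Finset

variable {G : Type*} [AddCommGroup G]

/-- `R` is a system of representatives of `B` modulo `A`. -/
def IsRep (A B : AddSubgroup G) (R : Finset G) : Prop :=
  (∀ x ∈ R, x ∈ B) ∧ ∀ y ∈ B, ∃! x, x ∈ R ∧ y - x ∈ A

namespace IsRep

variable {A B C : AddSubgroup G} {R R' : Finset G}

theorem eq_of_sub (h : IsRep A B R) {x y : G} (hx : x ∈ R) (hy : y ∈ R) (hxy : x - y ∈ A) :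
    x = y :=
  (h.2 x (h.1 x hx)).unique ⟨hx, by simp⟩ ⟨hy, hxy⟩

theorem bij (h : IsRep A B R) : Function.Bijective
    fun x : R => (QuotientAddGroup.mk ⟨x.1, h.1 x.1 x.2⟩ : B ⧸ A.addSubgroupOf B) := by
  constructor
  · intro x y hxy
    have := QuotientAddGroup.eq.1 hxy
    rw [AddSubgroup.mem_addSubgroupOf] at this
    refine Subtype.ext (h.eq_of_sub y.2 x.2 ?_).symm
    simpa [neg_add_eq_sub] using this
  · intro c
    obtain ⟨y, rfl⟩ := QuotientAddGroup.mk_surjective c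
    obtain ⟨x, ⟨hx, hyx⟩, -⟩ := h.2 y y.2
    refine ⟨⟨x, hx⟩, QuotientAddGroup.eq.2 ?_⟩
    rw [AddSubgroup.mem_addSubgroupOf]
    simpa [neg_add_eq_sub] using hyx

theorem card (h : IsRep A B R) : R.card = A.relIndex B := by
  rw [AddSubgroup.relIndex, AddSubgroup.index, ← Nat.card_eq_of_bijective _ h.bij]
  simp

theorem relIndex_ne (h : IsRep A B R) : A.relIndex B ≠ 0 := by
  obtain ⟨x, ⟨hx, -⟩, -⟩ := h.2 0 B.zero_mem
  rw [← h.card]
  exact card_ne_zero.2 ⟨x, hx⟩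

theorem sum_eq {M : Type*} [AddCommMonoid M] (h : IsRep A B R) (h' : IsRep A B R') (f : G → M)
    (hf : ∀ x ∈ B, ∀ a ∈ A, f (x + a) = f x) : ∑ x ∈ R, f x = ∑ x ∈ R', f x := by
  choose! g hg using fun y hy => (h'.2 y hy).exists
  choose! g' hg' using fun y hy => (h.2 y hy).exists
  refine sum_nbij' g g' (fun x hx => (hg x (h.1 x hx)).1) (fun x hx => (hg' x (h'.1 x hx)).1)
    (fun x hx => ?_) (fun x hx => ?_) fun x hx => ?_
  · have h1 := hg x (h.1 x hx)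
    have h2 := hg' _ (h'.1 _ h1.1)
    refine (h.eq_of_sub hx h2.1 ?_).symm
    simpa using A.add_mem h1.2 h2.2
  · have h1 := hg' x (h'.1 x hx)
    have h2 := hg _ (h.1 _ h1.1)
    refine (h'.eq_of_sub hx h2.1 ?_).symm
    simpa using A.add_mem h1.2 h2.2
  · have h1 := hg x (h.1 x hx)
    rw [← hf (g x) (h'.1 _ h1.1) _ h1.2]
    simp

/-- Translating a system of representatives. -/
theorem sum_add {M : Type*} [AddCommMonoid M] (h : IsRep A B R) (f : G → M)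
    (hf : ∀ x ∈ B, ∀ a ∈ A, f (x + a) = f x) {b : G} (hb : b ∈ B) :
    ∑ x ∈ R, f (x + b) = ∑ x ∈ R, f x := by
  classical
  have h' : IsRep A B (R.image (· + b)) := by
    refine ⟨fun x hx => ?_, fun y hy => ?_⟩
    · obtain ⟨x', hx', rfl⟩ := mem_image.1 hx
      exact B.add_mem (h.1 x' hx') hb
    · obtain ⟨x, ⟨hx, hyx⟩, hu⟩ := h.2 (y - b) (B.sub_mem hy hb)
      refine ⟨x + b, ⟨mem_image_of_mem _ hx, by convert hyx using 1; abel⟩, ?_⟩
      rintro z ⟨hz, hz'⟩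
      obtain ⟨z', hz1, rfl⟩ := mem_image.1 hz
      rw [hu z' ⟨hz1, by convert hz' using 1; abel⟩]
  rw [h.sum_eq h' f hf, sum_image fun x _ y _ hxy => add_right_cancel hxy]

/-- Representatives in a tower. -/
theorem tower [DecidableEq G] (hAB : A ≤ B) (hBC : B ≤ C) (h : IsRep A B R) (h' : IsRep B C R') :
    IsRep A C ((R' ×ˢ R).image fun p => p.1 + p.2) ∧
      Set.InjOn (fun p : G × G => p.1 + p.2) (R' ×ˢ R : Finset (G × G)) := by
  have inj : ∀ p ∈ R' ×ˢ R, ∀ p' ∈ R' ×ˢ R, (p.1 + p.2) - (p'.1 + p'.2) ∈ A → p = p' := by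
    intro p hp p' hp' hA
    obtain ⟨h1, h2⟩ := mem_product.1 hp
    obtain ⟨h1', h2'⟩ := mem_product.1 hp'
    have e1 : p.1 = p'.1 := h'.eq_of_sub h1 h1' (by
      have := B.sub_mem (hAB hA) (B.sub_mem (h.1 _ h2) (h.1 _ h2'))
      convert this using 1
      abel)
    refine Prod.ext e1 (h.eq_of_sub h2 h2' ?_)
    rw [e1] at hA
    convert hA using 1
    abel
  refine ⟨⟨fun x hx => ?_, fun y hy => ?_⟩, fun p hp p' hp' e => inj p hp p' hp' ?_⟩
  · obtain ⟨p, hp, rfl⟩ := mem_image.1 hx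
    obtain ⟨h1, h2⟩ := mem_product.1 hp
    exact C.add_mem (h'.1 _ h1) (hBC (h.1 _ h2))
  · obtain ⟨x, ⟨hx, hyx⟩, -⟩ := h'.2 y hy
    obtain ⟨z, ⟨hz, hyz⟩, -⟩ := h.2 _ hyx
    refine ⟨x + z, ⟨mem_image.2 ⟨(x, z), mem_product.2 ⟨hx, hz⟩, rfl⟩,
      by convert hyz using 1; abel⟩, ?_⟩
    rintro t ⟨ht, ht'⟩
    obtain ⟨p, hp, rfl⟩ := mem_image.1 ht
    rw [inj p hp (x, z) (mem_product.2 ⟨hx, hz⟩) (by
      have := A.sub_mem hyz ht'
      convert this using 1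
      abel)]
  · have e' : p.1 + p.2 = p'.1 + p'.2 := e
    rw [e', sub_self]
    exact A.zero_mem

end IsRep

theorem exists_isRep {A B : AddSubgroup G} (h : A.relIndex B ≠ 0) : ∃ R, IsRep A B R := by
  classical
  have : Finite (B ⧸ A.addSubgroupOf B) := Nat.finite_of_card_ne_zero h
  have := Fintype.ofFinite (B ⧸ A.addSubgroupOf B)
  refine ⟨univ.image fun c : B ⧸ A.addSubgroupOf B => ((c.out : B) : G), fun x hx => ?_,
    fun y hy => ?_⟩
  · obtain ⟨c, -, rfl⟩ := mem_image.1 hx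
    exact c.out.2
  · have key : ∀ c : B ⧸ A.addSubgroupOf B,
        y - ((c.out : B) : G) ∈ A ↔ c = QuotientAddGroup.mk ⟨y, hy⟩ := by
      intro c
      conv_rhs => rw [← c.out_eq']
      rw [QuotientAddGroup.eq, AddSubgroup.mem_addSubgroupOf]
      simp [neg_add_eq_sub]
    refine ⟨_, ⟨mem_image_of_mem _ (mem_univ (QuotientAddGroup.mk ⟨y, hy⟩)), (key _).2 rfl⟩, ?_⟩
    rintro z ⟨hz, hz'⟩
    obtain ⟨c, -, rfl⟩ := mem_image.1 hz
    rw [(key c).1 hz']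

/-- Stabilisation: a Gauss sum over a large lattice reduces to the dual of an isotropic lattice. -/
theorem stab {A L L' B : AddSubgroup G} (hAL : A ≤ L) (hLL : L ≤ L') (hLB : L' ≤ B)
    (f : G → ℂ) (β : G → G → ℂ) (hf : ∀ x y, f (x + y) = f x * f y * β x y)
    (hβ : ∀ x y z, β x (y + z) = β x y * β x z) (hL : ∀ x ∈ L, f x = 1)
    (hL' : ∀ x ∈ B, x ∈ L' ↔ ∀ h ∈ L, β x h = 1) (hA : ∀ x ∈ B, ∀ h ∈ A, β x h = 1)
    {R R' : Finset G} (hR : IsRep A B R) (hR' : IsRep L L' R') :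
    ∑ x ∈ R, f x = (A.relIndex L : ℂ) * ∑ x ∈ R', f x := by
  classical
  have hLB' : L ≤ B := hLL.trans hLB
  have n1 : A.relIndex L ≠ 0 := fun h0 =>
    hR.relIndex_ne (AddSubgroup.relIndex_eq_zero_of_le_right hLB' h0)
  have n2 : L'.relIndex B ≠ 0 := fun h0 =>
    hR.relIndex_ne (AddSubgroup.relIndex_eq_zero_of_le_left (hAL.trans hLL) h0)
  obtain ⟨R0, h0⟩ := exists_isRep n1
  obtain ⟨R2, h2⟩ := exists_isRep n2
  have per : ∀ x ∈ B, ∀ a ∈ A, f (x + a) = f x := fun x hx a ha => by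
    rw [hf, hL a (hAL ha), hA x hx a ha, mul_one, mul_one]
  obtain ⟨t1, i1⟩ := hR'.tower hLL hLB h2
  obtain ⟨t2, i2⟩ := h0.tower hAL hLB' t1
  have inner : ∀ x ∈ B, ∑ h ∈ R0, f (x + h) = if x ∈ L' then (A.relIndex L : ℂ) * f x else 0 := by
    intro x hx
    have e : ∑ h ∈ R0, f (x + h) = f x * ∑ h ∈ R0, β x h := by
      rw [mul_sum]
      exact sum_congr rfl fun h hh => by rw [hf, hL h (h0.1 h hh), mul_one]
    rw [e]
    split_ifs with hx'
    · rw [sum_congr rfl fun h hh => (hL' x hx).1 hx' h (h0.1 h hh), sum_const, h0.card]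
      simp [mul_comm]
    · obtain ⟨b, hb, hb1⟩ : ∃ b ∈ L, β x b ≠ 1 := by
        by_contra hc
        push Not at hc
        exact hx' ((hL' x hx).2 hc)
      have e2 := h0.sum_add (β x) (fun y _ a ha => by rw [hβ, hA x hx a ha, mul_one]) hb
      simp only [hβ, ← sum_mul] at e2
      have : ∑ h ∈ R0, β x h = 0 := by
        by_contra hne
        exact hb1 (mul_left_cancel₀ hne (e2.trans (mul_one _).symm))
      rw [this, mul_zero]
  rw [hR.sum_eq t2 f per, sum_image i2, sum_product,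
    sum_congr rfl fun x hx => inner x (t1.1 x hx), ← sum_filter, ← mul_sum]
  congr 1
  refine IsRep.sum_eq (A := L) (B := L') ⟨fun x hx => (mem_filter.1 hx).2, fun y hy => ?_⟩ hR' f
    fun x hx a ha => by rw [hf, hL a ha, (hL' x (hLB hx)).1 hx a ha, mul_one, mul_one]
  obtain ⟨x, ⟨hx, hyx⟩, hu⟩ := t1.2 y (hLB hy)
  refine ⟨x, ⟨mem_filter.2 ⟨hx, ?_⟩, hyx⟩, fun z hz => hu z ⟨(mem_filter.1 hz.1).1, hz.2⟩⟩
  simpa using L'.sub_mem hy (hLL hyx)

end Pool.Agent.Stark
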