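import Pool.Agent.Lib.MP_ca56d1_nt.Poisson
import Pool.Agent.Lib.MP_ca56d1_nt.Rep

/-! The Gauss sum of an even lattice (Milgram's formula). -/

namespace Pool.Agent.Stark

open Complex

variable {ι : Type*} [Fintype ι] [DecidableEq ι]

/-- The eighth root of unity attached to the sign of `t`. -/
noncomputable def e8 (t : ℝ) : ℂ := cexp (2 * Real.pi * I * (if 0 < t then 1 else -1) / 8)

namespace MilgramAux

open Matrix Filter Topology Real

omit [DecidableEq ι] in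
theorem lpt_zero (B : Matrix ι ι ℝ) : lpt B 0 = 0 := by
  unfold lpt
  have : (fun j : ι => (((0 : ι → ℤ) j : ℤ) : ℝ)) = 0 := by
    funext j
    simp
  rw [this, mulVec_zero]

theorem lpt_inj {B : Matrix ι ι ℝ} (hB : B.det ≠ 0) : Function.Injective (lpt B) := by
  intro k l h
  have hu : IsUnit B := (Matrix.isUnit_iff_isUnit_det B).2 (isUnit_iff_ne_zero.2 hB)
  have := Matrix.mulVec_injective_iff_isUnit.2 hu h
  funext j
  have h2 := congrFun this j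
  exact_mod_cast h2

theorem dual_lim (C : Matrix ι ι ℝ) (hC : C.det ≠ 0) (u : (ι → ℤ) → ℂ) (hu : ∀ k, ‖u k‖ = 1)
    (h0 : u 0 = 1) :
    Tendsto (fun ε : ℝ => ∑' k, cexp (-π * ∑ i, ((lpt C k i : ℝ) : ℂ) ^ 2 / ε) * u k)
      (𝓝[>] 0) (𝓝 1) := by
  have nrm : ∀ (ε : ℝ) k, ‖cexp (-π * ∑ i, ((lpt C k i : ℝ) : ℂ) ^ 2 / ε) * u k‖ =
      rexp (-π * (∑ i, lpt C k i ^ 2) * ε⁻¹) := by
    intro ε k
    have : (-π * ∑ i, ((lpt C k i : ℝ) : ℂ) ^ 2 / ε : ℂ) =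
        ((-π * (∑ i, lpt C k i ^ 2) * ε⁻¹ : ℝ) : ℂ) := by
      push_cast
      rw [← Finset.sum_div]
      ring
    rw [norm_mul, hu, mul_one, this, Complex.norm_exp_ofReal]
  have sm := summable_gauss C hC (fun _ => 1) (fun _ => by simp) 0
  have sm' : Summable fun k : ι → ℤ => rexp (-π * (∑ i, lpt C k i ^ 2)) := by
    refine sm.congr fun k => ?_
    have : (-π * ∑ i, (1 : ℂ) * ((lpt C k i + (0 : ι → ℝ) i : ℝ) : ℂ) ^ 2 : ℂ) =
        ((-π * (∑ i, lpt C k i ^ 2) : ℝ) : ℂ) := by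
      push_cast
      simp
    rw [this, Complex.norm_exp_ofReal]
  have key := tendsto_tsum_of_dominated_convergence (𝓕 := 𝓝[>] (0 : ℝ))
    (f := fun (ε : ℝ) k => cexp (-π * ∑ i, ((lpt C k i : ℝ) : ℂ) ^ 2 / ε) * u k)
    (g := fun k => if k = 0 then (1 : ℂ) else 0) sm' ?_ ?_
  · simpa using key
  · intro k
    by_cases hk : k = 0
    · subst hk
      simp [lpt_zero, h0]
    · simp only [hk, if_false]
      rw [tendsto_zero_iff_norm_tendsto_zero]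
      simp only [nrm]
      have hs : 0 < ∑ i, lpt C k i ^ 2 := by
        have hne : lpt C k ≠ 0 := fun h => hk (lpt_inj hC (h.trans (lpt_zero C).symm))
        obtain ⟨i, hi⟩ := Function.ne_iff.1 hne
        exact Finset.sum_pos' (fun j _ => sq_nonneg _) ⟨i, Finset.mem_univ _, by
          have : lpt C k i ≠ 0 := hi
          positivity⟩
      refine Real.tendsto_exp_atBot.comp ?_
      exact Tendsto.const_mul_atTop_of_neg (by nlinarith [Real.pi_pos]) tendsto_inv_nhdsGT_zero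
  · have : Set.Ioo (0 : ℝ) 1 ∈ 𝓝[>] (0 : ℝ) := Ioo_mem_nhdsGT one_pos
    filter_upwards [this] with ε hε k
    rw [nrm]
    apply Real.exp_le_exp.2
    have h1 : 1 ≤ ε⁻¹ := one_le_inv_iff₀.2 ⟨hε.1, hε.2.le⟩
    have h2 : 0 ≤ π * ∑ i, lpt C k i ^ 2 :=
      mul_nonneg Real.pi_pos.le (Finset.sum_nonneg fun j _ => sq_nonneg _)
    nlinarith

theorem half_mul {ε : ℝ} (hε : 0 < ε) {w : ℂ} (hw : w ≠ 0) :
    ((ε : ℂ) * w) ^ (1 / 2 : ℂ) = (ε : ℂ) ^ (1 / 2 : ℂ) * w ^ (1 / 2 : ℂ) := by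
  have h : (ε : ℂ) ≠ 0 := by exact_mod_cast hε.ne'
  rw [cpow_def_of_ne_zero (mul_ne_zero h hw), cpow_def_of_ne_zero h, cpow_def_of_ne_zero hw,
    log_ofReal_mul hε hw, ← Complex.exp_add, ← Complex.ofReal_log hε.le]
  congr 1
  ring

theorem inv_half {d : ℝ} (hd : d ≠ 0) :
    1 / (-2 * I * d : ℂ) ^ (1 / 2 : ℂ) = ((√(2 * |d|))⁻¹ : ℝ) * e8 d := by
  have hp : 0 < 2 * |d| := by positivity
  have hs : ((2 * |d| : ℝ) : ℂ) ^ (1 / 2 : ℂ) = ((√(2 * |d|) : ℝ) : ℂ) := by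
    rw [Real.sqrt_eq_rpow, Complex.ofReal_cpow hp.le]
    norm_num
  unfold e8
  rcases lt_or_gt_of_ne hd with h | h
  · have e : (-2 * I * d : ℂ) = ((2 * |d| : ℝ) : ℂ) * I := by
      rw [abs_of_neg h]
      push_cast
      ring
    rw [e, half_mul hp I_ne_zero, hs, cpow_def_of_ne_zero I_ne_zero, log_I, if_neg h.not_gt,
      one_div, mul_inv, ← Complex.exp_neg]
    push_cast
    congr 2
    ring
  · have e : (-2 * I * d : ℂ) = ((2 * |d| : ℝ) : ℂ) * (-I) := by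
      rw [abs_of_pos h]
      push_cast
      ring
    rw [e, half_mul hp (neg_ne_zero.2 I_ne_zero), hs, cpow_def_of_ne_zero (neg_ne_zero.2 I_ne_zero),
      log_neg_I, if_pos h, one_div, mul_inv, ← Complex.exp_neg]
    push_cast
    congr 2
    ring

/-- The matrix of the dual lattice. -/
noncomputable def dm (B : Matrix ι ι ℝ) (d : ι → ℝ) : Matrix ι ι ℝ :=
  diagonal (fun i => (2 * d i)⁻¹) * (B⁻¹)ᵀ

theorem dm_inv {B : Matrix ι ι ℝ} (hB : B.det ≠ 0) {d : ι → ℝ} (hd : ∀ i, d i ≠ 0) :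
    (dm B d)⁻¹ = Bᵀ * diagonal fun i => 2 * d i := by
  apply Matrix.inv_eq_left_inv
  unfold dm
  rw [Matrix.mul_assoc, ← Matrix.mul_assoc (diagonal _), diagonal_mul_diagonal]
  have : (fun i => 2 * d i * (2 * d i)⁻¹) = fun _ => (1 : ℝ) := by
    funext i
    exact mul_inv_cancel₀ (mul_ne_zero two_ne_zero (hd i))
  rw [this, diagonal_one, Matrix.one_mul, ← transpose_mul,
    Matrix.nonsing_inv_mul _ (isUnit_iff_ne_zero.2 hB), transpose_one]

theorem det_tinv {B : Matrix ι ι ℝ} (hB : B.det ≠ 0) : ((B⁻¹)ᵀ).det ≠ 0 := by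
  rw [det_transpose, det_nonsing_inv, Ring.inverse_eq_inv']
  exact inv_ne_zero hB

theorem dm_det {B : Matrix ι ι ℝ} (hB : B.det ≠ 0) {d : ι → ℝ} (hd : ∀ i, d i ≠ 0) :
    (dm B d).det ≠ 0 := by
  unfold dm
  rw [det_mul, det_diagonal]
  exact mul_ne_zero (Finset.prod_ne_zero_iff.2 fun i _ =>
    inv_ne_zero (mul_ne_zero two_ne_zero (hd i))) (det_tinv hB)

theorem lpt_dual {B : Matrix ι ι ℝ} (hB : B.det ≠ 0) {d : ι → ℝ} (hd : ∀ i, d i ≠ 0)
    (k : ι → ℤ) (i : ι) : lpt ((dm B d)⁻¹)ᵀ k i = 2 * d i * lpt B k i := by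
  rw [dm_inv hB hd, transpose_mul, transpose_transpose, diagonal_transpose]
  unfold lpt
  rw [← mulVec_mulVec, mulVec_diagonal]

theorem mem_dual {B : Matrix ι ι ℝ} (hB : B.det ≠ 0) {d : ι → ℝ} (hd : ∀ i, d i ≠ 0)
    (y : ι → ℝ) :
    (∀ k, ∃ n : ℤ, 2 * ∑ i, d i * lpt B k i * y i = n) ↔ ∃ m, lpt (dm B d) m = y := by
  have hu : IsUnit (dm B d).det := isUnit_iff_ne_zero.2 (dm_det hB hd)
  have pair : ∀ k : ι → ℤ, 2 * ∑ i, d i * lpt B k i * y i =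
      ∑ j, (k j : ℝ) * ((dm B d)⁻¹ *ᵥ y) j := by
    intro k
    have e : ∑ j, (k j : ℝ) * ((dm B d)⁻¹ *ᵥ y) j =
        (fun j => (k j : ℝ)) ⬝ᵥ ((dm B d)⁻¹ *ᵥ y) := rfl
    rw [e, dotProduct_mulVec, ← mulVec_transpose]
    change _ = ∑ i, lpt ((dm B d)⁻¹)ᵀ k i * y i
    rw [Finset.mul_sum]
    refine Finset.sum_congr rfl fun i _ => ?_
    rw [lpt_dual hB hd]
    ring
  simp only [pair]
  constructor
  · intro h
    have h1 : ∀ j, ∃ n : ℤ, ((dm B d)⁻¹ *ᵥ y) j = n := by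
      intro j
      obtain ⟨n, hn⟩ := h (Pi.single j 1)
      refine ⟨n, ?_⟩
      rw [← hn, Finset.sum_eq_single j]
      · simp
      · intro b _ hb
        simp [hb]
      · simp
    choose m hm using h1
    refine ⟨m, ?_⟩
    unfold lpt
    have : (fun j => (m j : ℝ)) = (dm B d)⁻¹ *ᵥ y := funext fun j => (hm j).symm
    rw [this, mulVec_mulVec, Matrix.mul_nonsing_inv _ hu, one_mulVec]
  · rintro ⟨m, rfl⟩ k
    unfold lpt
    rw [mulVec_mulVec, Matrix.nonsing_inv_mul _ hu, one_mulVec]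
    exact ⟨∑ j, k j * m j, by push_cast; rfl⟩

theorem tsum_split {B B' : Matrix ι ι ℝ} (hB : B.det ≠ 0) (hB' : B'.det ≠ 0)
    {L L' : AddSubgroup (ι → ℝ)} (hL : ∀ x, x ∈ L ↔ ∃ k, lpt B k = x)
    (hL' : ∀ x, x ∈ L' ↔ ∃ k, lpt B' k = x) (hLL : L ≤ L')
    {R : Finset (ι → ℝ)} (hR : IsRep L L' R) (F : (ι → ℝ) → ℂ)
    (hF : Summable fun m => F (lpt B' m)) :
    ∑' m, F (lpt B' m) = ∑ ρ ∈ R, ∑' k, F (lpt B k + ρ) := by
  have ex : ∀ p : R × (ι → ℤ), ∃ m, lpt B' m = lpt B p.2 + p.1.1 := fun p =>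
    (hL' _).1 (L'.add_mem (hLL ((hL _).2 ⟨_, rfl⟩)) (hR.1 _ p.1.2))
  choose g hg using ex
  have bij : Function.Bijective g := by
    constructor
    · intro p q h
      have e : lpt B p.2 + p.1.1 = lpt B q.2 + q.1.1 := by rw [← hg, ← hg, h]
      have e1 : p.1.1 = q.1.1 := by
        refine hR.eq_of_sub p.1.2 q.1.2 ?_
        have : p.1.1 - q.1.1 = lpt B q.2 - lpt B p.2 := by
          rw [sub_eq_sub_iff_add_eq_add, add_comm, e]
        rw [this]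
        exact L.sub_mem ((hL _).2 ⟨_, rfl⟩) ((hL _).2 ⟨_, rfl⟩)
      rw [e1] at e
      exact Prod.ext (Subtype.ext e1) (lpt_inj hB (add_right_cancel e))
    · intro m
      obtain ⟨x, ⟨hx, hyx⟩, -⟩ := hR.2 (lpt B' m) ((hL' _).2 ⟨m, rfl⟩)
      obtain ⟨k, hk⟩ := (hL _).1 hyx
      refine ⟨(⟨x, hx⟩, k), lpt_inj hB' ?_⟩
      rw [hg, hk]
      simp
  let e := Equiv.ofBijective g bij
  have hs : Summable fun p : R × (ι → ℤ) => F (lpt B' (e p)) := (e.summable_iff).2 hF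
  rw [← e.tsum_eq, hs.tsum_prod, tsum_fintype, ← Finset.sum_coe_sort R]
  refine Finset.sum_congr rfl fun ρ _ => tsum_congr fun k => ?_
  change F (lpt B' (g (ρ, k))) = _
  rw [hg]

theorem exp_int {t : ℝ} {n : ℤ} (h : t = n) : cexp (2 * π * I * (t : ℂ)) = 1 := by
  rw [h, ← Complex.exp_int_mul_two_pi_mul_I n]
  congr 1
  push_cast
  ring

end MilgramAux

open MilgramAux Matrix Filter Topology Real in
theorem milgram (B : Matrix ι ι ℝ) (hB : B.det ≠ 0) (d : ι → ℝ) (hd : ∀ i, d i ≠ 0)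
    (L L' : AddSubgroup (ι → ℝ)) (hL : ∀ x, x ∈ L ↔ ∃ k, lpt B k = x)
    (hint : ∀ x ∈ L, ∃ n : ℤ, ∑ i, d i * x i ^ 2 = n)
    (hL' : ∀ y, y ∈ L' ↔ ∀ x ∈ L, ∃ n : ℤ, 2 * ∑ i, d i * x i * y i = n)
    (R : Finset (ι → ℝ)) (hR : IsRep L L' R) :
    ∃ r : ℝ, 0 < r ∧
      ∑ y ∈ R, cexp (2 * Real.pi * I * ((∑ i, d i * y i ^ 2 : ℝ) : ℂ)) = r * ∏ i, e8 (d i) := by
  have hB' := dm_det hB hd
  have hC := det_tinv hB
  have hL2 : ∀ y, y ∈ L' ↔ ∃ m, lpt (dm B d) m = y := by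
    intro y
    rw [hL', ← mem_dual hB hd]
    exact ⟨fun h k => h _ ((hL _).2 ⟨k, rfl⟩), fun h x hx => by
      obtain ⟨k, rfl⟩ := (hL _).1 hx
      exact h k⟩
  have hLL : L ≤ L' := by
    intro y hy
    rw [hL']
    intro x hx
    obtain ⟨n1, h1⟩ := hint _ (L.add_mem hx hy)
    obtain ⟨n2, h2⟩ := hint _ hx
    obtain ⟨n3, h3⟩ := hint _ hy
    refine ⟨n1 - n2 - n3, ?_⟩
    push_cast
    rw [← h1, ← h2, ← h3, ← Finset.sum_sub_distrib, ← Finset.sum_sub_distrib, Finset.mul_sum]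
    refine Finset.sum_congr rfl fun i _ => ?_
    simp only [Pi.add_apply]
    ring
  set eQ : (ι → ℝ) → ℂ := fun y => cexp (2 * π * I * ((∑ i, d i * y i ^ 2 : ℝ) : ℂ)) with heQ
  set S : ℝ → (ι → ℝ) → ℂ := fun ε ρ => ∑' k, cexp (-π * ∑ i, ((lpt (B⁻¹)ᵀ k i : ℝ) : ℂ) ^ 2 / ε) *
    cexp (2 * π * I * ((∑ i, lpt (B⁻¹)ᵀ k i * ρ i : ℝ) : ℂ)) with hS
  set S' : ℝ → ℂ := fun ε => ∑' k, cexp (-π * ∑ i, ((lpt (B⁻¹)ᵀ k i : ℝ) : ℂ) ^ 2 / ε) *
    cexp (2 * π * I * ((-∑ i, lpt (B⁻¹)ᵀ k i ^ 2 / (4 * d i) : ℝ) : ℂ)) with hS'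
  have nu : ∀ t : ℝ, ‖cexp (2 * π * I * (t : ℂ))‖ = 1 := by
    intro t
    have : (2 * π * I * (t : ℂ)) = ((2 * π * t : ℝ) : ℂ) * I := by
      push_cast
      ring
    rw [this, Complex.norm_exp_ofReal_mul_I]
  have lS : ∀ ρ, Tendsto (fun ε => S ε ρ) (𝓝[>] 0) (𝓝 1) := fun ρ =>
    dual_lim _ hC _ (fun k => nu _) (by simp [lpt_zero])
  have lS' : Tendsto S' (𝓝[>] 0) (𝓝 1) :=
    dual_lim _ hC _ (fun k => nu _) (by simp [lpt_zero])
  set a : ℝ → ι → ℂ := fun ε i => (ε : ℂ) - 2 * I * d i with ha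
  set w : ℝ → ι → ℂ := fun ε i => -2 * I * d i / a ε i with hw
  have main : ∀ ε : ℝ, 0 < ε → ∑ ρ ∈ R, eQ ρ * S ε ρ = ((1 / |(dm B d).det| : ℝ) : ℂ) *
      (∏ i, 1 / a ε i ^ (1 / 2 : ℂ)) * (∏ i, 1 / w ε i ^ (1 / 2 : ℂ)) * S' ε := by
    intro ε hε
    have hε' : (ε : ℂ) ≠ 0 := by exact_mod_cast hε.ne'
    have ar : ∀ i, 0 < (a ε i).re := by
      intro i
      simp [ha, hε]
    have a0 : ∀ i, a ε i ≠ 0 := fun i h => by simpa [h] using ar i
    have d0 : ∀ i, (d i : ℂ) ≠ 0 := fun i => by exact_mod_cast hd i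
    have w0 : ∀ i, w ε i ≠ 0 := fun i =>
      div_ne_zero (mul_ne_zero (mul_ne_zero (by norm_num) I_ne_zero) (d0 i)) (a0 i)
    have winv : ∀ i, ((ε : ℂ) * w ε i)⁻¹ = (ε : ℂ)⁻¹ + I / (2 * d i) := by
      intro i
      have := d0 i
      have h2 := a0 i
      simp only [hw]
      field_simp
      simp only [ha]
      linear_combination (-(ε : ℂ)) * I_mul_I
    have wr : ∀ i, 0 < ((ε : ℂ) * w ε i).re := by
      intro i
      have h1 : 0 < (((ε : ℂ) * w ε i)⁻¹).re := by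
        rw [winv]
        have : (I / (2 * (d i : ℂ))).re = 0 := by
          have : (I / (2 * (d i : ℂ))) = (((2 * d i)⁻¹ : ℝ) : ℂ) * I := by
            push_cast
            ring
          rw [this, re_ofReal_mul, I_re, mul_zero]
        rw [add_re, this, ← ofReal_inv, ofReal_re, add_zero]
        exact inv_pos.2 hε
      rw [inv_re] at h1
      exact (div_pos_iff_of_pos_right (normSq_pos.2 (mul_ne_zero hε' (w0 i)))).1 h1
    set F : (ι → ℝ) → ℂ := fun y => cexp (-π * ∑ i, a ε i * ((y i : ℝ) : ℂ) ^ 2) with hF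
    have sF : Summable fun m => F (lpt (dm B d) m) := by
      have := (summable_gauss _ hB' (a ε) ar 0).of_norm
      simpa [hF] using this
    have e1 := tsum_split hB hB' hL hL2 hLL hR F sF
    have e2 := poisson_gauss _ hB' (a ε) ar 0
    have e3 := poisson_gauss _ hB (fun i => (ε : ℂ) * w ε i) wr 0
    have e4 := fun ρ => poisson_gauss _ hB (fun _ => (ε : ℂ)) (fun _ => by simpa using hε) ρ
    have f1 : ∀ ρ ∈ R, ∑' k, F (lpt B k + ρ) = eQ ρ * (((1 / |B.det| : ℝ) : ℂ) *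
        (∏ _i : ι, 1 / (ε : ℂ) ^ (1 / 2 : ℂ)) * S ε ρ) := by
      intro ρ hρ
      simp only [hS, ← Complex.exp_add]
      rw [← e4 ρ, ← tsum_mul_left]
      refine tsum_congr fun k => ?_
      obtain ⟨n1, h1⟩ := hint _ ((hL _).2 ⟨k, rfl⟩)
      obtain ⟨n2, h2⟩ := (hL' ρ).1 (hR.1 ρ hρ) _ ((hL _).2 ⟨k, rfl⟩)
      have h3 := exp_int (t := ∑ i, d i * lpt B k i ^ 2 + 2 * ∑ i, d i * lpt B k i * ρ i)
        (n := n1 + n2) (by rw [h1, h2]; push_cast; rfl)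
      simp only [hF, heQ]
      rw [← mul_one (cexp _ * cexp _), ← h3, ← Complex.exp_add, ← Complex.exp_add]
      congr 1
      push_cast
      simp only [Finset.mul_sum, ← Finset.sum_add_distrib, mul_add, ha, Pi.add_apply]
      refine Finset.sum_congr rfl fun i _ => ?_
      push_cast
      ring
    have f2 : ∑' k : ι → ℤ, cexp (-π * ∑ i, ((lpt ((dm B d)⁻¹)ᵀ k i : ℝ) : ℂ) ^ 2 / a ε i +
          2 * π * I * ((∑ i, lpt ((dm B d)⁻¹)ᵀ k i * (0 : ι → ℝ) i : ℝ) : ℂ)) =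
        ∑' k : ι → ℤ, cexp (-π * ∑ i, (ε * w ε i) * ((lpt B k i + (0 : ι → ℝ) i : ℝ) : ℂ) ^ 2) := by
      refine tsum_congr fun k => ?_
      obtain ⟨n1, h1⟩ := hint _ ((hL _).2 ⟨k, rfl⟩)
      have h3 := exp_int (t := -∑ i, d i * lpt B k i ^ 2) (n := -n1) (by rw [h1]; push_cast; rfl)
      rw [← mul_one (cexp (-π * ∑ i, (ε * w ε i) * _)), ← h3, ← Complex.exp_add]
      congr 1
      simp only [lpt_dual hB hd, Pi.zero_apply, mul_zero, Finset.sum_const_zero, add_zero]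
      push_cast
      simp only [mul_zero, add_zero, mul_neg, Finset.mul_sum, ← Finset.sum_neg_distrib,
        ← Finset.sum_add_distrib]
      refine Finset.sum_congr rfl fun i _ => ?_
      have h2 := a0 i
      simp only [hw]
      field_simp
      simp only [ha]
      linear_combination (-2 * (d i : ℂ) ^ 2 * (lpt B k i : ℂ) ^ 2) * I_mul_I
    have f3 : ∑' k : ι → ℤ, cexp (-π * ∑ i, ((lpt (B⁻¹)ᵀ k i : ℝ) : ℂ) ^ 2 / (ε * w ε i) +
          2 * π * I * ((∑ i, lpt (B⁻¹)ᵀ k i * (0 : ι → ℝ) i : ℝ) : ℂ)) = S' ε := by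
      simp only [hS', ← Complex.exp_add]
      refine tsum_congr fun k => ?_
      congr 1
      simp only [Pi.zero_apply, mul_zero, Finset.sum_const_zero, div_eq_mul_inv _ ((ε : ℂ) * _),
        winv]
      push_cast
      simp only [mul_zero, add_zero, mul_neg, Finset.mul_sum, ← Finset.sum_neg_distrib,
        ← Finset.sum_add_distrib]
      refine Finset.sum_congr rfl fun i _ => ?_
      have := d0 i
      field_simp
      ring
    have e5 : ∑' m, F (lpt (dm B d) m) = ∑' k : ι → ℤ,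
        cexp (-π * ∑ i, a ε i * ((lpt (dm B d) k i + (0 : ι → ℝ) i : ℝ) : ℂ) ^ 2) := by
      simp [hF]
    rw [e5, e2, f2, e3, f3, Finset.sum_congr rfl f1] at e1
    simp only [half_mul hε (w0 _)] at e1
    simp only [one_div, mul_inv, Finset.prod_mul_distrib] at e1 ⊢
    have c0 : ((|B.det|⁻¹ : ℝ) : ℂ) * ∏ _i : ι, ((ε : ℂ) ^ (2⁻¹ : ℂ))⁻¹ ≠ 0 := by
      refine mul_ne_zero ?_ (Finset.prod_ne_zero_iff.2 fun i _ => inv_ne_zero ?_)
      · exact_mod_cast inv_ne_zero (abs_ne_zero.2 hB)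
      · rw [Ne, cpow_eq_zero_iff]
        exact fun h => hε' h.1
    apply mul_left_cancel₀ c0
    rw [Finset.mul_sum]
    refine (Finset.sum_congr rfl fun ρ _ => ?_).trans (e1.symm.trans ?_)
    · ring
    · ring
  have l1 : Tendsto (fun ε => ∑ ρ ∈ R, eQ ρ * S ε ρ) (𝓝[>] 0) (𝓝 (∑ ρ ∈ R, eQ ρ * 1)) :=
    tendsto_finsetSum _ fun ρ _ => (lS ρ).const_mul _
  have la : ∀ i, Tendsto (fun ε => a ε i) (𝓝[>] 0) (𝓝 (-2 * I * d i)) := by
    intro i
    have : Continuous fun ε => a ε i := by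
      simp only [ha]
      fun_prop
    have h := (this.tendsto 0).mono_left (nhdsWithin_le_nhds (s := Set.Ioi 0))
    simpa [ha] using h
  have z0 : ∀ i, (-2 * I * d i : ℂ) ≠ 0 := fun i =>
    mul_ne_zero (mul_ne_zero (by norm_num) I_ne_zero) (by exact_mod_cast hd i)
  have lw : ∀ i, Tendsto (fun ε => w ε i) (𝓝[>] 0) (𝓝 1) := by
    intro i
    have := (tendsto_const_nhds (x := (-2 * I * d i : ℂ))).div (la i) (z0 i)
    rwa [div_self (z0 i)] at this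
  have hp : ∀ {f : ℝ → ℂ} {z : ℂ}, z ∈ slitPlane → Tendsto f (𝓝[>] 0) (𝓝 z) →
      Tendsto (fun ε => 1 / f ε ^ (1 / 2 : ℂ)) (𝓝[>] 0) (𝓝 (1 / z ^ (1 / 2 : ℂ))) := by
    intro f z hz hf
    refine tendsto_const_nhds.div ((continuousAt_cpow_const hz).tendsto.comp hf) ?_
    rw [Ne, cpow_eq_zero_iff]
    exact fun h => slitPlane_ne_zero hz h.1
  have l2 : Tendsto (fun ε => ((1 / |(dm B d).det| : ℝ) : ℂ) *
      (∏ i, 1 / a ε i ^ (1 / 2 : ℂ)) * (∏ i, 1 / w ε i ^ (1 / 2 : ℂ)) * S' ε) (𝓝[>] 0)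
      (𝓝 (((1 / |(dm B d).det| : ℝ) : ℂ) * (∏ i, 1 / (-2 * I * d i : ℂ) ^ (1 / 2 : ℂ)) *
        (∏ _i : ι, 1 / (1 : ℂ) ^ (1 / 2 : ℂ)) * 1)) := by
    refine (((tendsto_finsetProd _ fun i _ => hp ?_ (la i)).const_mul _).mul
      (tendsto_finsetProd _ fun i _ => hp one_mem_slitPlane (lw i))).mul lS'
    right
    simpa using hd i
  have fin := tendsto_nhds_unique_of_eventuallyEq l1 l2
    (eventually_nhdsWithin_of_forall fun ε hε => main ε hε)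
  simp only [mul_one, one_cpow, div_one, Finset.prod_const_one, inv_half (hd _),
    Finset.prod_mul_distrib] at fin
  refine ⟨1 / |(dm B d).det| * ∏ i, (√(2 * |d i|))⁻¹, ?_, ?_⟩
  · refine mul_pos (one_div_pos.2 (abs_pos.2 hB')) (Finset.prod_pos fun i _ => ?_)
    have := abs_pos.2 (hd i)
    positivity
  · rw [fin]
    push_cast
    ring

end Pool.Agent.Stark
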