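import Pool.Agent.Lib.MP_ca56d1_nt.Base
import Pool.Agent.Lib.MP_ca56d1_nt.Milgram

/-! Hecke's evaluation of the argument of Gauss sums in a number field. -/

namespace Pool.Agent.Stark

open NumberField Complex

variable {F : Type*} [Field F] [NumberField F]

/-- The standard additive character `x ↦ e(Tr x)`. -/
noncomputable def eTr (x : F) : ℂ :=
  cexp (2 * Real.pi * I * ((Algebra.trace ℚ F x : ℚ) : ℂ))

theorem eTr_add (x y : F) : eTr (x + y) = eTr x * eTr y := by
  simp only [eTr, map_add, Rat.cast_add, mul_add, Complex.exp_add]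

theorem eTr_eq_one {x : F} : eTr x = 1 ↔ ∃ n : ℤ, Algebra.trace ℚ F x = n := by
  rw [eTr, Complex.exp_eq_one_iff]
  refine exists_congr fun n => ⟨fun h => ?_, fun h => ?_⟩
  · rw [mul_comm (n : ℂ)] at h
    exact_mod_cast mul_left_cancel₀ Complex.two_pi_I_ne_zero h
  · rw [h, mul_comm (n : ℂ)]
    norm_cast

theorem eTr_int (x : 𝓞 F) : eTr (x : F) = 1 :=
  eTr_eq_one.2 ⟨Algebra.trace ℤ _ x, (Algebra.coe_trace_int x).symm⟩

theorem norm_eTr (x : F) : ‖eTr x‖ = 1 := by
  have h : 2 * Real.pi * I * ((Algebra.trace ℚ F x : ℚ) : ℂ) =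
      ((2 * Real.pi * ((Algebra.trace ℚ F x : ℚ) : ℝ) : ℝ) : ℂ) * I := by
    push_cast
    ring
  rw [eTr, h, Complex.norm_exp_ofReal_mul_I]

/-- The inverse different is bounded. -/
theorem exists_codiff : ∃ c : 𝓞 F, c ≠ 0 ∧
    ∀ x : F, (∀ y : 𝓞 F, eTr (x * y) = 1) → ∃ z : 𝓞 F, (z : F) = c * x := by
  classical
  obtain ⟨c, hc⟩ := IsLocalization.exist_integer_multiples_of_finite (nonZeroDivisors (𝓞 F))
    (S := F) (integralBasis F).traceDual
  choose z hz using hc
  refine ⟨c, nonZeroDivisors.coe_ne_zero c, fun x hx => ?_⟩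
  choose n hn using fun i => eTr_eq_one.1 (hx (RingOfIntegers.basis F i))
  refine ⟨∑ i, n i • z i, ?_⟩
  conv_rhs => rw [← (integralBasis F).traceDual.sum_repr x]
  rw [Finset.mul_sum]
  simp only [map_sum, map_zsmul]
  refine Finset.sum_congr rfl fun i _ => ?_
  rw [hz i, Module.Basis.traceDual_repr_apply, Algebra.traceForm_apply, integralBasis_apply, hn i,
    Algebra.smul_def, Algebra.smul_def, Algebra.smul_def]
  simp only [eq_intCast, map_intCast]
  ring

namespace HeckeAux

open ComplexEmbedding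

theorem trace_eq (x : F) :
    ((Algebra.trace ℚ F x : ℚ) : ℝ) = ∑ φ : F →+* ℂ, (φ x).re := by
  have h := trace_eq_sum_embeddings ℂ (K := ℚ) (L := F) (x := x)
  have h2 : ∑ σ : F →ₐ[ℚ] ℂ, σ x = ∑ φ : F →+* ℂ, φ x :=
    (Fintype.sum_equiv (RingHom.equivRatAlgHom F ℂ) _ _ fun _ => rfl).symm
  rw [← Complex.re_sum, ← h2, ← h]
  simp

theorem e8_two : e8 2 * e8 (-2) = 1 := by
  rw [e8, e8, if_pos two_pos, if_neg (by norm_num), ← Complex.exp_add]
  convert Complex.exp_zero using 2
  ring

/-- The chosen embedding in the conjugacy class. -/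
noncomputable def ch (φ : F →+* ℂ) : F →+* ℂ := (InfinitePlace.mk φ).embedding

omit [NumberField F] in
theorem ch_conj (φ : F →+* ℂ) : ch (conjugate φ) = ch φ := by
  rw [ch, ch, InfinitePlace.mk_conjugate_eq]

omit [NumberField F] in
theorem ch_or (φ : F →+* ℂ) : ch φ = φ ∨ ch φ = conjugate φ := InfinitePlace.embedding_mk_eq φ

theorem exists_coord {d : F} (hd : d ≠ 0) :
    ∃ (j : F →+ ((F →+* ℂ) → ℝ)) (dd : (F →+* ℂ) → ℝ), (∀ i, dd i ≠ 0) ∧
      (∀ x y, ((Algebra.trace ℚ F (d * x * y) : ℚ) : ℝ) = ∑ i, dd i * j x i * j y i) ∧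
      ∏ i, e8 (dd i) = ∏ φ : F →+* ℝ, e8 (φ d) := by
  classical
  choose s hs using fun ψ : F →+* ℂ => IsAlgClosed.exists_pow_nat_eq (ψ d) two_pos
  let j : F →+ ((F →+* ℂ) → ℝ) := AddMonoidHom.mk' (fun x φ => if IsReal φ then (φ x).re else
      if ch φ = φ then (s (ch φ) * ch φ x).re else (s (ch φ) * ch φ x).im) (by
    intro x y
    funext φ
    simp only [map_add, mul_add, add_re, add_im, Pi.add_apply]
    split_ifs <;> rfl)
  let dd : (F →+* ℂ) → ℝ := fun φ => if IsReal φ then (φ d).re else if ch φ = φ then 2 else -2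
  have hj : ∀ x φ, j x φ = if IsReal φ then (φ x).re else
      if ch φ = φ then (s (ch φ) * ch φ x).re else (s (ch φ) * ch φ x).im := fun _ _ => rfl
  have hdd : ∀ φ, dd φ = if IsReal φ then (φ d).re else if ch φ = φ then 2 else -2 :=
    fun _ => rfl
  have hne : ∀ φ : F →+* ℂ, ¬ IsReal φ → (ch φ = conjugate φ ↔ ¬ ch φ = φ) := fun φ hφ =>
    ⟨fun h h' => hφ (isReal_iff.2 (h.symm.trans h')), fun h => (ch_or φ).resolve_left h⟩
  refine ⟨j, dd, fun φ => ?_, fun x y => ?_, ?_⟩
  · rw [hdd]
    split_ifs with h h'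
    · exact (map_ne_zero h.embedding).2 hd
    · exact two_ne_zero
    · norm_num
  · have key : ∀ φ : F →+* ℂ, (φ (d * x * y)).re + (conjugate φ (d * x * y)).re =
        dd φ * j x φ * j y φ +
          dd (conjugate φ) * j x (conjugate φ) * j y (conjugate φ) := by
      intro φ
      by_cases h : IsReal φ
      · rw [isReal_iff.1 h, hdd, hj, hj, if_pos h, if_pos h, if_pos h]
        have e : (φ (d * x * y)).re = (φ d).re * (φ x).re * (φ y).re := by
          have := map_mul h.embedding (d * x) y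
          rw [map_mul h.embedding d x] at this
          exact this
        rw [e]
      · have h' : ¬ IsReal (conjugate φ) := fun h2 => h (isReal_conjugate_iff.1 h2)
        have e : (φ (d * x * y)).re = (ch φ (d * x * y)).re := by
          rcases ch_or φ with h1 | h1 <;> rw [h1]
          rw [conjugate_coe_eq, conj_re]
        have e2 : ch φ (d * x * y) = (s (ch φ) * ch φ x) * (s (ch φ) * ch φ y) := by
          rw [map_mul, map_mul, ← hs (ch φ)]
          ring
        rw [conjugate_coe_eq, conj_re, e, e2, mul_re]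
        simp only [hdd, hj, if_neg h, if_neg h', ch_conj, hne φ h]
        split_ifs <;> ring
    have t := Finset.sum_congr (rfl : (Finset.univ : Finset (F →+* ℂ)) = _) fun φ _ => key φ
    rw [Finset.sum_add_distrib, Finset.sum_add_distrib] at t
    have a1 := Equiv.sum_comp (involutive_conjugate F).toPerm fun φ => (φ (d * x * y)).re
    have a2 := Equiv.sum_comp (involutive_conjugate F).toPerm fun φ => dd φ * j x φ * j y φ
    simp only [Function.Involutive.coe_toPerm] at a1 a2
    rw [a1, a2] at t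
    rw [trace_eq]
    linarith
  · rw [← Finset.prod_filter_mul_prod_filter_not Finset.univ IsReal]
    have p2 : ∏ φ ∈ Finset.univ.filter fun φ : F →+* ℂ => ¬ IsReal φ, e8 (dd φ) = 1 := by
      refine Finset.prod_involution (fun φ _ => conjugate φ) (fun φ hφ => ?_) (fun φ hφ _ h => ?_)
        (fun φ hφ => ?_) fun φ _ => involutive_conjugate F φ
      · have h := (Finset.mem_filter.1 hφ).2
        have h' : ¬ IsReal (conjugate φ) := fun h2 => h (isReal_conjugate_iff.1 h2)
        simp only [hdd, if_neg h, if_neg h', ch_conj, hne φ h]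
        split_ifs
        · exact e8_two
        · rw [mul_comm]
          exact e8_two
      · exact (Finset.mem_filter.1 hφ).2 (isReal_iff.2 h)
      · exact Finset.mem_filter.2 ⟨Finset.mem_univ _,
          fun h2 => (Finset.mem_filter.1 hφ).2 (isReal_conjugate_iff.1 h2)⟩
    rw [p2, mul_one]
    have hr : ∀ ψ : F →+* ℝ, IsReal (Complex.ofRealHom.comp ψ) := fun ψ =>
      isReal_iff.2 (RingHom.ext fun x => by simp)
    symm
    refine Finset.prod_bij (fun ψ _ => Complex.ofRealHom.comp ψ)
      (fun ψ _ => Finset.mem_filter.2 ⟨Finset.mem_univ _, hr ψ⟩) (fun ψ _ ψ' _ h => ?_)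
      (fun φ hφ => ?_) fun ψ _ => ?_
    · refine RingHom.ext fun x => ?_
      simpa using RingHom.congr_fun h x
    · have h := (Finset.mem_filter.1 hφ).2
      exact ⟨h.embedding, Finset.mem_univ _, RingHom.ext fun x => h.coe_embedding_apply x⟩
    · rw [hdd, if_pos (hr ψ)]
      simp

theorem isRep_map {G H : Type*} [AddCommGroup G] [AddCommGroup H] [DecidableEq H] (j : G →+ H)
    (hj : Function.Injective j) {A B : AddSubgroup G} {R : Finset G} (h : IsRep A B R) :
    IsRep (A.map j) (B.map j) (R.image j) := by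
  refine ⟨fun x hx => ?_, ?_⟩
  · obtain ⟨x', hx', rfl⟩ := Finset.mem_image.1 hx
    exact AddSubgroup.mem_map_of_mem j (h.1 x' hx')
  · rintro _ ⟨y, hy, rfl⟩
    obtain ⟨x, ⟨hx, hyx⟩, hu⟩ := h.2 y hy
    refine ⟨j x, ⟨Finset.mem_image_of_mem j hx, y - x, hyx, map_sub j y x⟩, ?_⟩
    rintro z ⟨hz, a, ha, hz'⟩
    obtain ⟨z', hz1, rfl⟩ := Finset.mem_image.1 hz
    rw [← map_sub] at hz'
    rw [hu z' ⟨hz1, hj hz' ▸ ha⟩]

end HeckeAux

open HeckeAux Matrix in
theorem hecke_gauss {d : F} (hd : d ≠ 0) {N : ℕ} (hN : N ≠ 0) (hdN : ∃ z : 𝓞 F, (z : F) = N * d)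
    (L L' : AddSubgroup F) (hL : ∀ x, x ∈ L ↔ ∃ z : 𝓞 F, x = N * (z : F))
    (hL' : ∀ y, y ∈ L' ↔ ∀ x ∈ L, eTr (2 * d * y * x) = 1) (R : Finset F) (hR : IsRep L L' R) :
    ∃ r : ℝ, 0 < r ∧ ∑ y ∈ R, eTr (d * y ^ 2) = r * ∏ φ : F →+* ℝ, e8 (φ d) := by
  classical
  obtain ⟨j, dd, hdd, htr, hprod⟩ := exists_coord hd
  have hN' : (N : F) ≠ 0 := Nat.cast_ne_zero.2 hN
  let w := (RingOfIntegers.basis F).reindex (NumberField.equivReindex F).symm
  let v := (integralBasis F).reindex (NumberField.equivReindex F).symm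
  have hv : ∀ k, v k = (w k : F) := fun k => by
    simp only [v, w, Module.Basis.reindex_apply, integralBasis_apply]
  let B : Matrix (F →+* ℂ) (F →+* ℂ) ℝ := Matrix.of fun i k => j (N * v k) i
  have hB : ∀ i k, B i k = j (N * v k) i := fun _ _ => rfl
  have hdet : B.det ≠ 0 := by
    refine Matrix.det_ne_zero_of_left_inverse
      (B := Matrix.of fun k i => dd i * j (v.traceDual k / (d * N)) i) ?_
    ext k l
    rw [Matrix.mul_apply]
    simp only [Matrix.of_apply, hB]
    rw [← htr, show d * (v.traceDual k / (d * N)) * (N * v l) = v.traceDual k * v l by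
      field_simp, Module.Basis.trace_traceDual_mul, Matrix.one_apply]
    by_cases h : k = l
    · simp [h]
    · simp [h, Ne.symm h]
  have hlpt : ∀ k : (F →+* ℂ) → ℤ, lpt B k = j (N * ((∑ l, k l • w l : 𝓞 F) : F)) := by
    intro k
    funext i
    simp only [lpt, Matrix.mulVec, dotProduct, hB, map_sum, map_zsmul, Finset.mul_sum,
      mul_smul_comm, Finset.sum_apply, Pi.smul_apply, hv]
    exact Finset.sum_congr rfl fun l _ => by rw [zsmul_eq_mul, mul_comm]
  have hvL : ∀ k, (N : F) * v k ∈ L := fun k => (hL _).2 ⟨w k, by rw [hv]⟩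
  have hinj : Function.Injective j := by
    rw [injective_iff_map_eq_zero]
    intro x hx
    have h0 : d * x = 0 := by
      refine v.traceDual.ext_elem fun k => ?_
      have := htr x (v k)
      rw [hx] at this
      simp only [Pi.zero_apply, mul_zero, zero_mul, Finset.sum_const_zero, Rat.cast_eq_zero] at this
      rw [Module.Basis.traceDual_repr_apply, Algebra.traceForm_apply, this]
      simp
    exact (mul_eq_zero.1 h0).resolve_left hd
  have h2 : ∀ x y : F, eTr (2 * d * y * x) = 1 ↔
      ∃ n : ℤ, 2 * ∑ i, dd i * j x i * j y i = n := fun x y => by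
    rw [eTr_eq_one, ← htr, show 2 * d * y * x = d * x * y + d * x * y by ring, map_add, ← two_mul]
    exact exists_congr fun n => by norm_cast
  refine (milgram B hdet dd hdd (L.map j) (L'.map j) ?_ ?_ ?_ _ (isRep_map j hinj hR)).imp ?_
  rotate_right
  · rintro r ⟨hr, hsum⟩
    refine ⟨hr, ?_⟩
    rw [← hprod, ← hsum, Finset.sum_image fun x _ y _ h => hinj h]
    refine Finset.sum_congr rfl fun y _ => ?_
    have := htr y y
    simp only [mul_assoc, ← sq] at this
    rw [eTr, ← this]
    norm_cast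
  · intro x
    constructor
    · rintro ⟨x, hx, rfl⟩
      obtain ⟨z, rfl⟩ := (hL x).1 hx
      exact ⟨w.repr z, by rw [hlpt, w.sum_repr]⟩
    · rintro ⟨k, rfl⟩
      exact ⟨_, (hL _).2 ⟨_, rfl⟩, (hlpt k).symm⟩
  · rintro _ ⟨x, hx, rfl⟩
    obtain ⟨z, rfl⟩ := (hL x).1 hx
    obtain ⟨u, hu⟩ := hdN
    obtain ⟨n, hn⟩ := eTr_eq_one.1 (eTr_int (u * (N : 𝓞 F) * z * z))
    refine ⟨n, ?_⟩
    have := htr (N * z) (N * z)
    simp only [mul_assoc (dd _), ← sq] at this
    rw [← this, show d * ((N : F) * z) * (N * z) = ((u * (N : 𝓞 F) * z * z : 𝓞 F) : F) by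
      simp only [map_mul, map_natCast, hu]; ring, hn]
    norm_cast
  · intro y
    constructor
    · rintro ⟨y, hy, rfl⟩ _ ⟨x, hx, rfl⟩
      exact (h2 x y).1 ((hL' y).1 hy x hx)
    · intro hy
      choose n hn using fun k => hy _ ⟨_, hvL k, rfl⟩
      have e : j ((∑ l, n l • v.traceDual l) / (2 * d * N)) = y := by
        have h0 : (fun i => dd i * (y i - j ((∑ l, n l • v.traceDual l) / (2 * d * N)) i)) ᵥ* B
            = 0 := by
          funext k
          have t := htr (N * v k) ((∑ l, n l • v.traceDual l) / (2 * d * N))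
          have t2 : Algebra.trace ℚ F (d * (N * v k) * ((∑ l, n l • v.traceDual l) / (2 * d * N)))
              = (n k : ℚ) / 2 := by
            rw [eq_div_iff two_ne_zero, mul_two, ← map_add,
              show d * (N * v k) * ((∑ l, n l • v.traceDual l) / (2 * d * N)) +
                d * (N * v k) * ((∑ l, n l • v.traceDual l) / (2 * d * N)) =
                (∑ l, n l • v.traceDual l) * v k by field_simp; ring, Finset.sum_mul, map_sum]
            simp only [smul_mul_assoc, map_zsmul, Module.Basis.trace_traceDual_mul]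
            simp
          rw [t2] at t
          have t3 := hn k
          simp only [Matrix.vecMul, dotProduct, hB, Pi.zero_apply]
          rw [Finset.sum_congr rfl fun i _ => show dd i * (y i - j ((∑ l, n l • v.traceDual l) /
            (2 * d * N)) i) * j (N * v k) i = dd i * j (N * v k) i * y i -
            dd i * j (N * v k) i * j ((∑ l, n l • v.traceDual l) / (2 * d * N)) i by ring,
            Finset.sum_sub_distrib, ← t]
          push_cast
          linarith
        funext i
        have := congrFun (Matrix.eq_zero_of_vecMul_eq_zero hdet h0) i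
        simp only [Pi.zero_apply, mul_eq_zero, hdd i, false_or] at this
        linarith
      refine ⟨_, (hL' _).2 fun x hx => (h2 x _).2 ?_, e⟩
      rw [e]
      exact hy _ ⟨x, hx, rfl⟩

end Pool.Agent.Stark
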