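import Pool.Agent.Lib.MP_ca56d1_nt.Base

/-! Kummer characters, commutators and a criterion for abelian extensions. -/

namespace Pool.Agent.Stark

/-- The sign `(-1) ^ x`. -/
def sg (R : Type*) [Ring R] (x : ZMod 2) : R := if x = 0 then 1 else -1

section Sg

variable {R : Type*} [CommRing R]

@[simp] theorem sg_zero : sg R 0 = 1 := by simp [sg]

@[simp] theorem sg_one : sg R 1 = -1 := by simp [sg]

theorem sg_add (x y : ZMod 2) : sg R (x + y) = sg R x * sg R y := by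
  have h : (1 + 1 : ZMod 2) = 0 := by decide
  rcases zmod2_cases x with rfl | rfl <;> rcases zmod2_cases y with rfl | rfl <;> simp [h]

theorem sg_mul_self (x : ZMod 2) : sg R x * sg R x = 1 := by
  rcases zmod2_cases x with rfl | rfl <;> simp

theorem sg_pow (x : ZMod 2) (n : ℕ) : sg R x ^ n = sg R (n * x) := by
  induction n with
  | zero => simp
  | succ n ih => rw [pow_succ, ih, ← sg_add]; congr 1; push_cast; ring

theorem sg_sum {ι : Type*} (s : Finset ι) (f : ι → ZMod 2) :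
    sg R (∑ i ∈ s, f i) = ∏ i ∈ s, sg R (f i) := by
  classical
  induction s using Finset.induction_on with
  | empty => simp
  | insert a s ha ih => rw [Finset.sum_insert ha, Finset.prod_insert ha, sg_add, ih]

theorem map_sg {R' G : Type*} [CommRing R'] [FunLike G R R'] [RingHomClass G R R'] (f : G)
    (x : ZMod 2) : f (sg R x) = sg R' x := by
  rcases zmod2_cases x with rfl | rfl <;> simp

theorem sg_inj [CharZero R] {x y : ZMod 2} (h : sg R x = sg R y) : x = y := by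
  rcases zmod2_cases x with rfl | rfl <;> rcases zmod2_cases y with rfl | rfl <;>
    first | rfl | (exfalso; norm_num at h)

theorem neg_one_pow_eq_sg (n : ℕ) : (-1 : R) ^ n = sg R n := by
  rw [← sg_one, sg_pow, mul_one]

end Sg

section Xs

variable {F Ω : Type*} [Field F] [Field Ω] [Algebra F Ω]

theorem sg_ne_zero (x : ZMod 2) : sg Ω x ≠ 0 := by
  rcases zmod2_cases x with rfl | rfl <;> simp

open scoped Classical in
/-- The Kummer character: `σ √a = (-1) ^ xs σ a * √a`. -/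
noncomputable def xs (σ : Ω ≃ₐ[F] Ω) (a : F) : ZMod 2 :=
  if ∃ r : Ω, r ^ 2 = algebraMap F Ω a ∧ σ r ≠ r then 1 else 0

theorem xs_spec (σ : Ω ≃ₐ[F] Ω) {a : F} {r : Ω} (hr : r ^ 2 = algebraMap F Ω a) :
    σ r = sg Ω (xs σ a) * r := by
  by_cases h : σ r = r
  · have : xs σ a = 0 := by
      rw [xs, if_neg]
      rintro ⟨r', h1, h2⟩
      rcases sq_eq_sq_iff_eq_or_eq_neg.1 (h1.trans hr.symm) with rfl | rfl
      · exact h2 h
      · exact h2 (by rw [map_neg, h])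
    rw [this, h]
    simp
  · have h1 : σ r ^ 2 = r ^ 2 := by rw [← map_pow, hr, AlgEquiv.commutes]
    have : xs σ a = 1 := by rw [xs, if_pos ⟨r, hr, h⟩]
    rw [this, (sq_eq_sq_iff_eq_or_eq_neg.1 h1).resolve_left h]
    simp

variable [CharZero Ω]

theorem xs_eq (σ : Ω ≃ₐ[F] Ω) {a : F} {r : Ω} (hr : r ^ 2 = algebraMap F Ω a) (h0 : r ≠ 0)
    {x : ZMod 2} (h : σ r = sg Ω x * r) : xs σ a = x :=
  sg_inj (R := Ω) (mul_right_cancel₀ h0 ((xs_spec σ hr).symm.trans h))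

omit [CharZero Ω] in
theorem exists_rt {a : F} (ha : a ≠ 0) (h : IsSquare (algebraMap F Ω a)) :
    ∃ r : Ω, r ≠ 0 ∧ r ^ 2 = algebraMap F Ω a := by
  obtain ⟨r, hr⟩ := h
  refine ⟨r, ?_, by rw [hr, sq]⟩
  rintro rfl
  exact ha (by simpa using hr)

theorem xs_mul (σ : Ω ≃ₐ[F] Ω) {a b : F} (ha : a ≠ 0) (hb : b ≠ 0)
    (ha' : IsSquare (algebraMap F Ω a)) (hb' : IsSquare (algebraMap F Ω b)) :
    xs σ (a * b) = xs σ a + xs σ b := by
  obtain ⟨r, hr0, hr⟩ := exists_rt ha ha'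
  obtain ⟨s, hs0, hs⟩ := exists_rt hb hb'
  refine xs_eq σ (r := r * s) (by rw [mul_pow, hr, hs, map_mul]) (mul_ne_zero hr0 hs0) ?_
  rw [map_mul, xs_spec σ hr, xs_spec σ hs, sg_add]
  ring

theorem xs_comp (σ σ' : Ω ≃ₐ[F] Ω) {a : F} (ha : a ≠ 0) (ha' : IsSquare (algebraMap F Ω a)) :
    xs (σ * σ') a = xs σ a + xs σ' a := by
  obtain ⟨r, hr0, hr⟩ := exists_rt ha ha'
  refine xs_eq _ hr hr0 ?_
  rw [AlgEquiv.mul_apply, xs_spec σ' hr, map_mul, map_sg, xs_spec σ hr, sg_add]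
  ring

omit [CharZero Ω] in
theorem xs_one (a : F) : xs (1 : Ω ≃ₐ[F] Ω) a = 0 := by
  simp [xs]

theorem xs_of_isSquare (σ : Ω ≃ₐ[F] Ω) {a : F} (ha : a ≠ 0) (h : IsSquare a) : xs σ a = 0 := by
  obtain ⟨t, rfl⟩ := h
  have ht : t ≠ 0 := by rintro rfl; simp at ha
  exact xs_eq σ (r := algebraMap F Ω t) (by rw [map_mul, sq]) (by simpa using ht) (by simp)

theorem xs_mul_sq (σ : Ω ≃ₐ[F] Ω) {a t : F} (ha : a ≠ 0) (ht : t ≠ 0)
    (ha' : IsSquare (algebraMap F Ω a)) : xs σ (a * t ^ 2) = xs σ a := by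
  rw [xs_mul σ ha (pow_ne_zero 2 ht) ha' ⟨algebraMap F Ω t, by rw [map_pow, sq]⟩,
    xs_of_isSquare σ (pow_ne_zero 2 ht) ⟨t, sq t⟩, add_zero]

theorem xs_restrict {L : Type*} [Field L] [Algebra F L] [Algebra L Ω] [IsScalarTower F L Ω]
    (σ : Ω ≃ₐ[F] Ω) (g : L ≃ₐ[F] L) (h : ∀ x, σ (algebraMap L Ω x) = algebraMap L Ω (g x))
    {a : F} (ha : a ≠ 0) (ha' : IsSquare (algebraMap F L a)) : xs σ a = xs g a := by
  obtain ⟨r, hr0, hr⟩ := exists_rt ha ha'
  refine xs_eq σ (r := algebraMap L Ω r)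
    (by rw [← map_pow, hr, ← IsScalarTower.algebraMap_apply]) (by simpa using hr0) ?_
  rw [h, xs_spec g hr, map_mul, map_sg]

end Xs

section Comm

variable {F Ω : Type*} [Field F] [Field Ω] [Algebra F Ω]

/-- `z` or `z⁻¹`. -/
def pm (e : ZMod 2) (z : Ω) : Ω := if e = 0 then z else z⁻¹

@[simp] theorem pm_zero (z : Ω) : pm 0 z = z := by simp [pm]

@[simp] theorem pm_one (z : Ω) : pm 1 z = z⁻¹ := by simp [pm]

theorem pm_mul (e : ZMod 2) (x y : Ω) : pm e (x * y) = pm e x * pm e y := by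
  rcases zmod2_cases e with rfl | rfl <;> simp [mul_comm]

theorem pm_pow (e : ZMod 2) (x : Ω) (n : ℕ) : pm e (x ^ n) = pm e x ^ n := by
  rcases zmod2_cases e with rfl | rfl <;> simp

theorem pm_comm (e e' : ZMod 2) (x : Ω) : pm e (pm e' x) = pm e' (pm e x) := by
  rcases zmod2_cases e with rfl | rfl <;> rcases zmod2_cases e' with rfl | rfl <;> simp

theorem pm_ne (e : ZMod 2) {x : Ω} (hx : x ≠ 0) : pm e x ≠ 0 := by
  rcases zmod2_cases e with rfl | rfl <;> simp [hx]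

theorem map_pm {Ω' G : Type*} [Field Ω'] [FunLike G Ω Ω'] [RingHomClass G Ω Ω'] (f : G)
    (e : ZMod 2) (x : Ω) : f (pm e x) = pm e (f x) := by
  rcases zmod2_cases e with rfl | rfl <;> simp

theorem comm_aux [CharZero Ω] (σ σ' : Ω ≃ₐ[F] Ω) {w : ℕ} (hw : w ≠ 0) {ω φ : Ω}
    (hω : IsPrimitiveRoot ω (2 * w)) (hφ : φ ≠ 0) {e e' u t' : ZMod 2}
    (h1 : σ (φ ^ w) = sg Ω u * pm e (φ ^ w)) (h2 : σ' ω = sg Ω t' * pm e' ω) :
    ∃ ξ : Ω, σ φ = ξ * pm e φ ∧ σ' ξ = sg Ω (t' * u) * pm e' ξ := by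
  have hp := pm_ne e hφ
  have hξ : (σ φ / pm e φ) ^ w = sg Ω u := by
    rw [div_pow, ← map_pow, h1, ← pm_pow, mul_div_assoc, div_self (pm_ne e (pow_ne_zero w hφ)),
      mul_one]
  have : NeZero (2 * w) := ⟨by omega⟩
  obtain ⟨j, -, hj⟩ := hω.eq_pow_of_pow_eq_one (ξ := σ φ / pm e φ)
    (by rw [mul_comm, pow_mul, hξ, sq, sg_mul_self])
  have hw1 : ω ^ w = -1 := (hω.pow (by omega) (mul_comm 2 w)).eq_neg_one_of_two_right
  have hju : (j : ZMod 2) = u := by
    apply sg_inj (R := Ω)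
    rw [← neg_one_pow_eq_sg, ← hw1, ← pow_mul, mul_comm, pow_mul, hj, hξ]
  refine ⟨σ φ / pm e φ, by field_simp, ?_⟩
  rw [← hj, map_pow, h2, mul_pow, sg_pow, hju, pm_pow, mul_comm u]

theorem comm_phi [CharZero Ω] (σ σ' : Ω ≃ₐ[F] Ω) {w : ℕ} (hw : w ≠ 0) {ω φ : Ω}
    (hω : IsPrimitiveRoot ω (2 * w)) (hφ : φ ≠ 0) {e e' u u' t t' : ZMod 2}
    (h1 : σ (φ ^ w) = sg Ω u * pm e (φ ^ w)) (h2 : σ ω = sg Ω t * pm e ω)
    (h1' : σ' (φ ^ w) = sg Ω u' * pm e' (φ ^ w)) (h2' : σ' ω = sg Ω t' * pm e' ω) :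
    σ (σ' φ) = sg Ω (t * u' + t' * u) * σ' (σ φ) := by
  obtain ⟨ξ, a1, a2⟩ := comm_aux σ σ' hw hω hφ h1 h2'
  obtain ⟨ξ', b1, b2⟩ := comm_aux σ' σ hw hω hφ h1' h2
  have c1 : σ (σ' φ) = sg Ω (t * u') * pm e ξ' * (pm e' ξ * pm e' (pm e φ)) := by
    rw [b1, map_mul, b2, map_pm, a1, pm_mul]
  have c2 : σ' (σ φ) = sg Ω (t' * u) * pm e' ξ * (pm e ξ' * pm e (pm e' φ)) := by
    rw [a1, map_mul, a2, map_pm, b1, pm_mul]
  rw [c1, c2, pm_comm e e', sg_add]
  linear_combination (-(sg Ω (t * u') * pm e ξ' * pm e' ξ * pm e' (pm e φ))) *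
    sg_mul_self (R := Ω) (t' * u)

end Comm

section Crit

variable {F L : Type*} [Field F] [Field L] [Algebra F L] [CharZero F] [Algebra.IsAlgebraic F L]

theorem abelian_of_comm (β : AlgebraicClosure L)
    (hL : ∀ (σ σ' : AlgebraicClosure L ≃ₐ[F] AlgebraicClosure L) (x : L),
      σ (σ' (algebraMap L _ x)) = σ' (σ (algebraMap L _ x)))
    (hβ : ∀ σ σ' : AlgebraicClosure L ≃ₐ[F] AlgebraicClosure L, σ (σ' β) = σ' (σ β)) :
    IsAbelianGalois F (IntermediateField.adjoin L {β}) := by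
  have : IsAlgClosure F (AlgebraicClosure L) :=
    ⟨inferInstance, Algebra.IsAlgebraic.trans F L _⟩
  have : IsGalois F (AlgebraicClosure L) := {}
  set N : IntermediateField F (AlgebraicClosure L) :=
    (IntermediateField.adjoin L {β}).restrictScalars F with hN
  have key : ∀ (σ σ' : AlgebraicClosure L ≃ₐ[F] AlgebraicClosure L), ∀ x ∈ N,
      σ (σ' x) = σ' (σ x) := by
    intro σ σ' x hx
    have hx' : x ∈ IntermediateField.adjoin L {β} := hx
    induction hx' using IntermediateField.adjoin_induction with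
    | mem x hx1 => rw [Set.mem_singleton_iff.1 hx1]; exact hβ σ σ'
    | algebraMap x => exact hL σ σ' x
    | add x y hx1 hy1 h1 h2 => simp only [map_add, h1 hx1, h2 hy1]
    | inv x hx1 h1 => simp only [map_inv₀, h1 hx1]
    | mul x y hx1 hy1 h1 h2 => simp only [map_mul, h1 hx1, h2 hy1]
  have nrm : Normal F N := by
    refine IntermediateField.normal_iff_forall_map_le'.2 fun σ => ?_
    rintro _ ⟨x, hx, rfl⟩
    rw [← InfiniteGalois.fixedField_fixingSubgroup N, IntermediateField.mem_fixedField_iff]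
    intro τ hτ
    have h1 : τ x = x := (IntermediateField.mem_fixingSubgroup_iff N τ).1 hτ x hx
    change τ (σ x) = σ x
    rw [key τ σ x hx, h1]
  have ab : IsAbelianGalois F N :=
    { is_comm := ⟨fun g h => by
        obtain ⟨σ, rfl⟩ := AlgEquiv.restrictNormalHom_surjective (F := F) (K₁ := N)
          (AlgebraicClosure L) g
        obtain ⟨σ', rfl⟩ := AlgEquiv.restrictNormalHom_surjective (F := F) (K₁ := N)
          (AlgebraicClosure L) h
        rw [← map_mul, ← map_mul]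
        ext x
        rw [AlgEquiv.restrictNormalHom_apply, AlgEquiv.restrictNormalHom_apply]
        exact key σ σ' x x.2⟩ }
  exact ab

end Crit

end Pool.Agent.Stark
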