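import Pool.Agent.Lib.MP_ca56d1_nt.Dual1

/-! Duality for `S`-units, the existence theorem and the Hasse norm theorem in degree two. -/

namespace Pool.Agent.Stark

open NumberField

variable {F : Type*} [Field F] [NumberField F]

open DualAux in
/-- The `S`-units are their own orthogonal complement. -/
theorem lagrangian (S : Finset (Pr F)) (h2 : ∀ q ∉ S, og q (2 : F) = 0) (hcl : ClTriv S)
    (xr : (F →+* ℝ) → ℝ) (hxr : ∀ φ, xr φ ≠ 0) (x : ∀ q : Pr F, Kc q) (hx : ∀ q ∈ S, x q ≠ 0)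
    (h : ∀ u ∈ SU S, ∑ φ : F →+* ℝ, hs (xr φ) (φ (u : F)) +
      ∑ q ∈ S, hs (x q) (emb q (u : F)) = 0) :
    ∃ s ∈ SU S, (∀ φ : F →+* ℝ, 0 < φ (s : F) * xr φ) ∧
      ∀ q ∈ S, IsSquare (emb q (s : F) * x q) := by
  classical
  have : ∀ q : S, Finite (SqCl (Kc q.1)) := fun q => Nat.finite_of_card_ne_zero (by
    rw [(isLoc_wv q.1).card_sqCl]
    exact mul_ne_zero (by norm_num) (pow_ne_zero _ (isLoc_wv q.1).fin))
  let f : (((F →+* ℝ) → ZMod 2) × ∀ q : S, SqCl (Kc q.1)) →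
      (((F →+* ℝ) → ZMod 2) × ∀ q : S, SqCl (Kc q.1)) → ZMod 2 := fun e e' =>
    ∑ φ, e.1 φ * e'.1 φ + ∑ q : S, hc (e.2 q) (e'.2 q)
  let l : SU S → ((F →+* ℝ) → ZMod 2) × ∀ q : S, SqCl (Kc q.1) := fun u =>
    (fun φ => sg (φ (u.1 : F)), fun q => cl (emb q.1 (u.1 : F)))
  have hφ : ∀ (φ : F →+* ℝ) (u : Fˣ), φ (u : F) ≠ 0 := fun φ u => (map_ne_zero _).2 u.ne_zero
  have hl : ∀ u v, l (u * v) = l u + l v := fun u v => by
    refine Prod.ext (funext fun φ => ?_) (funext fun q => ?_)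
    · change sg (φ ((u.1 : F) * v.1)) = sg _ + sg _
      rw [map_mul, sg_mul (hφ φ _) (hφ φ _)]
    · change cl (emb q.1 ((u.1 : F) * v.1)) = cl _ + cl _
      rw [map_mul, cl_mul (emb_ne _ u.1.ne_zero) (emb_ne _ v.1.ne_zero)]
  have hf : ∀ (yr : (F →+* ℝ) → ℝ) (y : ∀ q : Pr F, Kc q), (∀ φ, yr φ ≠ 0) → (∀ q ∈ S, y q ≠ 0) →
      ∀ u : SU S, f (fun φ => sg (yr φ), fun q => cl (y q.1)) (l u) =
        ∑ φ : F →+* ℝ, hs (yr φ) (φ (u.1 : F)) + ∑ q ∈ S, hs (y q) (emb q (u.1 : F)) := by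
    intro yr y h1 h3 u
    rw [← Finset.sum_coe_sort S]
    exact congrArg₂ (· + ·) (Finset.sum_congr rfl fun φ _ => (hs_sg (h1 φ) (hφ φ _)).symm)
      (Finset.sum_congr rfl fun q _ => hc_cl (h3 q.1 q.2) (emb_ne _ u.1.ne_zero))
  have hker : (mh l hl).ker = (powMonoidHom 2 : SU S →* SU S).range := by
    ext u
    rw [mem_ker_mh]
    constructor
    · intro hu
      obtain ⟨r, hr⟩ := isSquare_of_loc h2 hcl u.1.ne_zero u.2
        (fun φ => pos_of_sg (hφ φ _) (congrFun (congrArg Prod.fst hu) φ)) fun q hq' =>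
          (cl_eq_zero (emb_ne q u.1.ne_zero)).1 (congrFun (congrArg Prod.snd hu) ⟨q, hq'⟩)
      have hr0 : r ≠ 0 := left_ne_zero_of_mul (hr ▸ u.1.ne_zero)
      refine ⟨⟨Units.mk0 r hr0, fun q hq' => ?_⟩, Subtype.ext (Units.ext ?_)⟩
      · have := u.2 q hq'
        rw [hr, og_mul q hr0 hr0] at this
        change og q r = 0
        omega
      · simp [hr, sq]
    · rintro ⟨v, rfl⟩
      rw [powMonoidHom_apply, sq, hl, ← two_smul (ZMod 2), show (2 : ZMod 2) = 0 from rfl,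
        zero_smul]
  obtain ⟨s, hs'⟩ := mem_range_of_orth f
    (fun e e' => congrArg₂ (· + ·) (Finset.sum_congr rfl fun φ _ => mul_comm _ _)
      (Finset.sum_congr rfl fun q _ => hc_comm (isLoc_wv q.1) _ _))
    (fun e e' y => by
      simp only [f, Prod.fst_add, Prod.snd_add, Pi.add_apply, add_mul, Finset.sum_add_distrib,
        hc_add (isLoc_wv _)]
      ring)
    (fun e he => by
      refine Prod.ext (funext fun φ => ?_) (funext fun q => hc_nd (isLoc_wv q.1) fun d => ?_)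
      · simpa [f, Pi.single_apply, hc_zero (isLoc_wv _)] using he (Pi.single φ 1, 0)
      · have := he (0, Pi.single q d)
        simp only [f, Pi.zero_apply, mul_zero, Finset.sum_const_zero, zero_add] at this
        rwa [Finset.sum_eq_single q (fun q' _ h' => by
          rw [Pi.single_eq_of_ne h', hc_zero (isLoc_wv _)]) (by simp), Pi.single_eq_same] at this)
    l hl
    (fun u v => (hf (fun φ => φ (u.1 : F)) (fun q => emb q (u.1 : F)) (fun φ => hφ φ _)
      (fun q _ => emb_ne q u.1.ne_zero) v).trans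
      (reciprocity u.1.ne_zero v.1.ne_zero S fun q hq' => hq_eq_zero q (h2 q hq') u.1.ne_zero
        v.1.ne_zero (by rw [u.2 q hq']; exact Even.zero) (by rw [v.2 q hq']; exact Even.zero)))
    (by rw [hker, index_sq_SU, card_loc S h2])
    (x := (fun φ => sg (xr φ), fun q => cl (x q.1))) fun u => (hf xr x hxr hx u).trans (h u.1 u.2)
  exact ⟨s.1, s.2, fun φ => mul_pos_of_sg (hφ φ _) (hxr φ) (congrFun (congrArg Prod.fst hs') φ),
    fun q hq' => (cl_eq_cl (emb_ne q s.1.ne_zero) (hx q hq')).1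
      (congrFun (congrArg Prod.snd hs') ⟨q, hq'⟩)⟩

open DualAux in
theorem exists_of_chr (S : Finset (Pr F)) {ψ : Pr F → ZMod 2} (hψ : ψ ∈ Chr S) :
    ∃ s : F, s ≠ 0 ∧ (∀ φ : F →+* ℝ, 0 < φ s) ∧ (∀ q ∈ S, LSq q s) ∧
      ∀ q ∉ S, ∀ x : Kc q, x ≠ 0 → hs (emb q s) x = ψ q * (ord (wv q) x : ZMod 2) := by
  classical
  obtain ⟨P, hP⟩ := exists_finset (2 : F)
  obtain ⟨S1, hS1, hcl⟩ := exists_clTriv (S ∪ P)
  have h2 : ∀ q ∉ S1, og q (2 : F) = 0 := fun q h =>
    hP q fun h' => h (hS1 (Finset.mem_union_right _ h'))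
  choose x hx0 hx1 hx using fun q : Pr F => exists_unr (isLoc_wv q) (ψ q)
  obtain ⟨s, hs1, hs2, hs3⟩ := lagrangian S1 h2 hcl (fun _ => 1) (fun _ => one_ne_zero) x
    (fun q _ => hx0 q) fun u hu => by
      have h0 := hψ.2 (u : F)
      rw [pair_eq_sum ψ _ S1 fun q h => by rw [dv_apply, hu q h]; simp] at h0
      rw [Finset.sum_eq_zero fun φ _ => hs_one_left two_ne_zero _, zero_add, ← h0]
      exact Finset.sum_congr rfl fun q _ => by
        rw [hx q _ (emb_ne q u.ne_zero), ord_emb, dv_apply, mul_comm]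
  have hpos : ∀ φ : F →+* ℝ, 0 < φ (s : F) := fun φ => by simpa using hs2 φ
  have hin : ∀ q ∈ S1, ∀ y : Kc q, y ≠ 0 →
      hs (emb q (s : F)) y = ψ q * (ord (wv q) y : ZMod 2) := fun q h y hy => by
    rw [hs_congr_left y (emb_ne q s.ne_zero) (hx0 q) (hs3 q h), hx q y hy]
  refine ⟨s, s.ne_zero, hpos, fun q h => ?_, fun q _ y hy => ?_⟩
  · have := hs3 q (hS1 (Finset.mem_union_left _ h))
    rwa [hx1 q (hψ.1 q h), mul_one] at this
  · by_cases h : q ∈ S1
    · exact hin q h y hy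
    · obtain ⟨p, hp, h1, h0⟩ := exists_pi hcl h
      rw [hs_unr q (h2 q h) s.ne_zero (hs1 q h) hy, ← recip_pi h2 s.ne_zero hp hs1 h h1 h0,
        Finset.sum_eq_zero fun φ _ => hs_pos (hpos φ) _, zero_add]
      congr 1
      have h3 := hψ.2 p
      rw [pair_eq_sum ψ _ (insert q S1) fun q' h' => by
        rw [Finset.mem_insert, not_or] at h'
        rw [dv_apply, h0 q' h'.2 h'.1]; simp, Finset.sum_insert h, dv_apply, h1, Int.cast_one,
        one_mul] at h3
      have key : ∀ a b : ZMod 2, a + b = 0 → b = a := by decide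
      rw [← key _ _ h3]
      exact Finset.sum_congr rfl fun q' h' => by
        rw [hq, hin q' h' _ (emb_ne q' hp), ord_emb, dv_apply, mul_comm]

namespace DualAux

variable {K : Type*} [Field K] [NumberField K] [Algebra F K] {a : F}

omit [NumberField F] in
theorem hs_map {k : Type*} [Field k] (f : F →+* k) {a y : F} (h : hs a y = 0) :
    hs (f a) (f y) = 0 := by
  obtain ⟨x, z, rfl⟩ := hs_eq_zero.1 h
  exact hs_eq_zero.2 ⟨f x, f z, by simp⟩

omit [NumberField F] [NumberField K] in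
theorem hs_of_norm (E : Quad F K a) {y : F} {z : K} (h : algebraMap F K y = z * E.tau z) :
    hs a y = 0 := by
  obtain ⟨g, t, rfl⟩ := E.span z
  rw [E.mul_tau_mk] at h
  exact hs_eq_zero.2 ⟨g, t, (algebraMap F K).injective h⟩

/-- A split prime outside `S` is the divisor of a norm. -/
theorem exists_pi_norm (E : Quad F K a) {S : Finset (Pr F)} {SK : Finset (Pr K)}
    (hSK : ∀ Q, Q ∈ SK ↔ below F Q ∈ S) (hram : ∀ Q : Pr K, below F Q ∉ S → eI F Q = 1)
    (hclK : ClTriv SK) {q : Pr F} (hq' : q ∉ S) (hsq : LSq q a) :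
    ∃ p : F, p ≠ 0 ∧ hs a p = 0 ∧ og q p = 1 ∧ ∀ q' ∉ S, q' ≠ q → og q' p = 0 := by
  obtain ⟨Q, rfl⟩ := below_surj (K := K) q
  obtain ⟨z, hz, h1, h0⟩ := exists_pi hclK (mt (hSK Q).1 hq')
  obtain ⟨p, hp⟩ := E.exists_norm z
  have hz' : E.tau z ≠ 0 := (map_ne_zero _).2 hz
  have key : ∀ Q' : Pr K, below F Q' ∉ S → og (below F Q') p = og Q' z + og (E.act Q') z := by
    intro Q' h
    have := og_algebraMap Q' p
    rw [hram Q' h, hp, og_mul Q' hz hz', ← E.og_act] at this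
    simpa using this.symm
  refine ⟨p, fun h => mul_ne_zero hz hz' (by rw [← hp, h, map_zero]), hs_of_norm E hp, ?_,
    fun q' h hne => ?_⟩
  · rw [key Q hq', h1, h0 (E.act Q) (mt (hSK _).1 (by rwa [E.below_act]))
      ((E.split_iff Q).2 hsq), add_zero]
  · obtain ⟨Q', rfl⟩ := below_surj (K := K) q'
    rw [key Q' h, h0 Q' (mt (hSK _).1 h) fun e => hne (by rw [e]),
      h0 (E.act Q') (mt (hSK _).1 (by rwa [E.below_act])) fun e => hne (by rw [← e, E.below_act]),
      add_zero]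

/-- The only relation between the local symbols of `S`-units is the product formula. -/
theorem ann (E : Quad F K a) {S : Finset (Pr F)} {SK : Finset (Pr K)}
    (h2 : ∀ q ∉ S, og q (2 : F) = 0) (hcl : ClTriv S)
    (hSK : ∀ Q, Q ∈ SK ↔ below F Q ∈ S) (hram : ∀ Q : Pr K, below F Q ∉ S → eI F Q = 1)
    (hclK : ClTriv SK) (cr : (F →+* ℝ) → ZMod 2) (cf : Pr F → ZMod 2)
    (h : ∀ u ∈ SU S, ∑ φ : F →+* ℝ, cr φ * hs (φ a) (φ (u : F)) +
      ∑ q ∈ S, cf q * hq q a (u : F) = 0) :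
    ∃ c, (∀ φ : F →+* ℝ, φ a < 0 → cr φ = c) ∧ ∀ q ∈ S, ¬ LSq q a → cf q = c := by
  have ha := E.a_ne
  have hr : ∀ (φ : F →+* ℝ) (y : ℝ), hs (if cr φ = 0 then 1 else φ a) y = cr φ * hs (φ a) y := by
    intro φ y
    rcases zmod2_cases (cr φ) with e | e <;> simp [e, hs_one_left]
  have hf : ∀ (q : Pr F) (y : Kc q),
      hs (if cf q = 0 then 1 else emb q a) y = cf q * hs (emb q a) y := by
    intro q y
    rcases zmod2_cases (cf q) with e | e <;> simp [e, hs_one_left (isLoc_wv q).two]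
  have hx : ∀ q : Pr F, (if cf q = 0 then 1 else emb q a) ≠ 0 := fun q => by
    split_ifs
    exacts [one_ne_zero, emb_ne q ha]
  obtain ⟨b, hb1, hb2, hb3⟩ := lagrangian S h2 hcl (fun φ => if cr φ = 0 then 1 else φ a)
    (fun φ => by
      split_ifs
      exacts [one_ne_zero, (map_ne_zero _).2 ha])
    (fun q => if cf q = 0 then 1 else emb q a) (fun q _ => hx q) fun u hu => by
      simp only [hr, hf]
      exact h u hu
  have hd := density ha b.ne_zero S fun q hq' hsq => by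
    obtain ⟨p, hp, hn, h1, h0⟩ := exists_pi_norm E hSK hram hclK hq' hsq
    refine lsq_of_recip h2 b.ne_zero hp hb1 hq' h1 h0 (fun φ => ?_) fun q' h' => ?_
    · rw [hs_of_mul_pos (hb2 φ), hr, hs_map φ hn, mul_zero]
    · rw [hq, hs_congr_left _ (emb_ne q' b.ne_zero) (hx q') (hb3 q' h'), hf, hs_map _ hn, mul_zero]
  rcases hd with hd | hd
  · refine ⟨0, fun φ hφ => by_contra fun hc => ?_, fun q hq' hn => by_contra fun hc => hn ?_⟩
    · have h1 := hb2 φ
      have h3 := (hd.map φ).nonneg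
      simp only [if_neg hc] at h1
      nlinarith
    · have h1 := hb3 q hq'
      simp only [if_neg hc] at h1
      exact isSquare_of_mul (emb_ne q b.ne_zero) (hd.map _) (mul_comm (emb q a) _ ▸ h1)
  · refine ⟨1, fun φ hφ => (zmod2_cases _).resolve_left fun hc => ?_,
      fun q hq' hn => (zmod2_cases _).resolve_left fun hc => hn ?_⟩
    · have h1 := hb2 φ
      have h3 := (hd.map φ).nonneg
      simp only [if_pos hc, mul_one] at h1
      rw [map_mul] at h3
      nlinarith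
    · have h1 := hb3 q hq'
      simp only [if_pos hc, mul_one] at h1
      exact isSquare_of_mul (emb_ne q b.ne_zero) h1 (map_mul (emb q) a _ ▸ hd.map (emb q))

theorem hasse_aux (E : Quad F K a) {S : Finset (Pr F)} {SK : Finset (Pr K)}
    (h2 : ∀ q ∉ S, og q (2 : F) = 0) (hcl : ClTriv S)
    (hSK : ∀ Q, Q ∈ SK ↔ below F Q ∈ S) (hram : ∀ Q : Pr K, below F Q ∉ S → eI F Q = 1)
    (hclK : ClTriv SK) {y : Fˣ} (hy : y ∈ SU S) (hr : ∀ φ : F →+* ℝ, hs (φ a) (φ (y : F)) = 0)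
    (hf : ∀ q : Pr F, hq q a (y : F) = 0) : hs a (y : F) = 0 := by
  classical
  have ha := E.a_ne
  have hN := E.norm_index S SK hSK hram hcl
  set T1 := Finset.univ.filter fun φ : F →+* ℝ => φ a < 0 with hT1
  set T2 := S.filter fun q => ¬ LSq q a with hT2
  let l : SU S → T1 ⊕ T2 → ZMod 2 := fun u =>
    Sum.elim (fun φ => hs (φ.1 a) (φ.1 (u.1 : F))) fun q => hq q.1 a (u.1 : F)
  have hl : ∀ u v, l (u * v) = l u + l v := fun u v => by
    funext i
    rcases i with φ | q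
    · change hs (φ.1 a) (φ.1 ((u.1 : F) * v.1)) = hs _ _ + hs _ _
      rw [map_mul, hs_real_mul_right ((map_ne_zero _).2 ha) ((map_ne_zero _).2 u.1.ne_zero)
        ((map_ne_zero _).2 v.1.ne_zero)]
    · change hs (emb q.1 a) (emb q.1 ((u.1 : F) * v.1)) = hs _ _ + hs _ _
      rw [map_mul, (isLoc_wv q.1).hs_mul_right (emb_ne _ ha) (emb_ne _ u.1.ne_zero)
        (emb_ne _ v.1.ne_zero)]
  have h1 := two_pow_le l hl fun c hc => by
    obtain ⟨d, hd1, hd2⟩ := ann E h2 hcl hSK hram hclK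
      (fun φ => if h : φ ∈ T1 then c (Sum.inl ⟨φ, h⟩) else 0)
      (fun q => if h : q ∈ T2 then c (Sum.inr ⟨q, h⟩) else 0) fun u hu => by
        rw [sum_ext (Finset.subset_univ T1) fun φ => c (Sum.inl φ),
          sum_ext (Finset.filter_subset _ S : T2 ⊆ S) fun q => c (Sum.inr q)]
        have := hc ⟨u, hu⟩
        rwa [Fintype.sum_sum_type] at this
    have key : ∀ i, c i = d := by
      rintro (φ | q)
      · simpa using hd1 φ.1 (Finset.mem_filter.1 φ.2).2
      · simpa using hd2 q.1 (Finset.mem_filter.1 q.2).1 (Finset.mem_filter.1 q.2).2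
    exact (zmod2_cases d).imp (fun e => funext fun i => (key i).trans e)
      fun e => funext fun i => (key i).trans e
  rw [Fintype.card_sum, Fintype.card_coe, Fintype.card_coe, ← hN] at h1
  have hle : (E.normSU SK).subgroupOf (SU S) ≤ (mh l hl).ker := by
    rintro u ⟨z, -, hz⟩
    have h0 := hs_of_norm E hz
    refine mem_ker_mh.2 (funext ?_)
    rintro (φ | q)
    · exact hs_map φ.1 h0
    · exact hs_map (emb q.1) h0
  have : ((E.normSU SK).subgroupOf (SU S)).FiniteIndex := ⟨fun h0 => by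
    rw [Subgroup.relIndex, h0] at hN
    exact (pow_ne_zero _ two_ne_zero) hN.symm⟩
  have heq : (E.normSU SK).subgroupOf (SU S) = (mh l hl).ker := by
    refine hle.eq_or_lt.resolve_right fun hlt => ?_
    have := Subgroup.index_strictAnti hlt
    rw [Subgroup.relIndex] at h1
    omega
  have hm : (⟨y, hy⟩ : SU S) ∈ (mh l hl).ker := by
    refine mem_ker_mh.2 (funext ?_)
    rintro (φ | q)
    · exact hr φ.1
    · exact hf q.1
  obtain ⟨z, -, hz⟩ := heq.ge hm
  exact hs_of_norm E hz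

end DualAux

open DualAux in
theorem hasse_norm {a y : F} (ha : a ≠ 0) (hy : y ≠ 0) (hr : ∀ φ : F →+* ℝ, hs (φ a) (φ y) = 0)
    (hf : ∀ q : Pr F, hq q a y = 0) : hs a y = 0 := by
  classical
  by_cases hsq : IsSquare a
  · exact hs_of_isSquare_left two_ne_zero ha hsq y
  obtain ⟨K, _, _, _, ⟨E⟩⟩ := exists_quad hsq
  obtain ⟨P, hP⟩ := exists_finset (2 : F)
  obtain ⟨P', hP'⟩ := exists_finset y
  obtain ⟨SK0, -, hK0⟩ := exists_clTriv (∅ : Finset (Pr K))
  obtain ⟨S, hS, hcl⟩ := exists_clTriv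
    ((P ∪ P') ∪ ((ram_finite (F := F) (K := K)).toFinset ∪ SK0).image (below F))
  obtain ⟨SK, hSK⟩ := exists_above (K := K) S
  simp only [Finset.union_subset_iff, Finset.image_subset_iff, Finset.mem_union,
    Set.Finite.mem_toFinset] at hS
  exact hasse_aux E (fun q h => hP q fun h' => h (hS.1.1 h')) hcl hSK
    (fun Q h => by_contra fun h' => h (hS.2 Q (Or.inl h')))
    (hK0.mono fun Q h => (hSK Q).2 (hS.2 Q (Or.inr h))) (y := Units.mk0 y hy)
    (fun q h => hP' q fun h' => h (hS.1.2 h')) hr hf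

open DualAux in
theorem chr_eq_zero (S : Finset (Pr F)) {a : F} (ha : Good S a)
    (hns : (∃ φ : F →+* ℝ, φ a < 0) ∨ ∃ q ∈ S, ¬ LSq q a) {ψ : Pr F → ZMod 2} (hψ : ψ ∈ Chr S)
    (h : ∀ q ∉ S, LSq q a → ψ q = 0) : ψ = 0 := by
  obtain ⟨s, hs0, h1, h2, h3⟩ := exists_of_chr S hψ
  have hd := density ha.1 hs0 S fun q hq' hsq => by_contra fun hn => by
    obtain ⟨b, hb, h4⟩ := (isLoc_wv q).exists_hs_one (emb_ne q hs0) hn
    rw [h3 q hq' b hb, h q hq' hsq, zero_mul] at h4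
    exact zero_ne_one h4
  rcases hd with hd | hd
  · funext q
    by_cases hq' : q ∈ S
    · exact hψ.1 q hq'
    · obtain ⟨x, hx, hx1⟩ := (isLoc_wv q).exists_ord 1
      have := h3 q hq' x hx
      rw [hs_of_isSquare_left (isLoc_wv q).two (emb_ne q hs0) (hd.map _), hx1, Int.cast_one,
        mul_one] at this
      exact this.symm
  · exfalso
    rcases hns with ⟨φ, hφ⟩ | ⟨q, hq', hn⟩
    · have h4 := (hd.map φ).nonneg
      rw [map_mul] at h4
      nlinarith [h1 φ]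
    · exact hn (isSquare_of_mul (emb_ne q hs0) (h2 q hq') (map_mul (emb q) a s ▸ hd.map (emb q)))

end Pool.Agent.Stark
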