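import Pool.Agent.Lib.MP_ca56d1_nt.Base

/-! Index computations and valuation tools for the local theory. -/

namespace Pool.Agent.Stark.LocAux

/-- An index formula for the squaring map relative to a subgroup `K`. -/
theorem herb {G : Type*} [CommGroup G] {K A A' V : Subgroup G}
    (hA : A' = K ⊔ A.map (powMonoidHom 2)) (h1 : A' ≤ A) (h2 : A ≤ V)
    (h3 : K.comap (powMonoidHom 2) ≤ V) (h4 : A.relIndex V ≠ 0) :
    (K ⊔ V.map (powMonoidHom 2)).relIndex V =
      A'.relIndex A * A.relIndex (K.comap (powMonoidHom 2)) := by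
  set R := K.comap (powMonoidHom 2 : G →* G) with hR
  have hK : K ≤ A' := hA ▸ le_sup_left
  have e1 : ((QuotientGroup.mk' K).comp (powMonoidHom 2)).ker = R := by
    rw [hR, ← MonoidHom.comap_ker, QuotientGroup.ker_mk']
  have e2 := Subgroup.relIndex_map_map ((QuotientGroup.mk' K).comp (powMonoidHom 2)) A V
  rw [e1, ← Subgroup.map_map, ← Subgroup.map_map, Subgroup.relIndex_map_map,
    QuotientGroup.ker_mk', sup_eq_left.2 h3, sup_comm _ K, sup_comm _ K, ← hA] at e2
  have h5 : K ⊔ V.map (powMonoidHom 2) ≤ V := sup_le (hK.trans (h1.trans h2)) (by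
    rintro _ ⟨x, hx, rfl⟩
    exact pow_mem hx 2)
  have h6 : A' ≤ K ⊔ V.map (powMonoidHom 2) := hA ▸ sup_le_sup_left (Subgroup.map_mono h2) _
  have e3 := Subgroup.relIndex_mul_relIndex _ _ _ h6 h5
  have e4 := Subgroup.relIndex_mul_relIndex _ _ _ h1 h2
  have e5 := Subgroup.relIndex_mul_relIndex A (A ⊔ R) V le_sup_left (sup_le h2 h3)
  rw [Subgroup.relIndex_sup_left] at e5
  have h7 : (A ⊔ R).relIndex V ≠ 0 := fun h => h4 (by rw [← e5, h, mul_zero])
  refine mul_left_cancel₀ h7 ?_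
  rw [← e2, e3, ← e4, ← e5, e2]
  ring

theorem index_ne_zero {G X : Type*} [Group G] [Finite X] (H : Subgroup G) (g : G → X)
    (h : ∀ x y, g x = g y → x⁻¹ * y ∈ H) : H.index ≠ 0 :=
  Subgroup.index_ne_zero_iff_finite.2 (Finite.of_injective (fun c : G ⧸ H => g c.out) fun c d e => by
    rw [← c.out_eq, ← d.out_eq]
    exact QuotientGroup.eq.2 (h _ _ e))

theorem relIndex_eq {G A : Type*} [Group G] [AddGroup A] {H K : Subgroup G} {B C : AddSubgroup A}
    (g : G → A) (h1 : ∀ x ∈ K, g x ∈ C) (h2 : ∀ y ∈ C, ∃ x ∈ K, g x = y)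
    (h3 : ∀ x ∈ K, ∀ y ∈ K, x⁻¹ * y ∈ H ↔ -g x + g y ∈ B) : H.relIndex K = B.relIndex C := by
  have key : ∀ x y : K, QuotientGroup.leftRel (H.subgroupOf K) x y ↔
      QuotientAddGroup.leftRel (B.addSubgroupOf C) ⟨g x, h1 _ x.2⟩ ⟨g y, h1 _ y.2⟩ := fun x y => by
    rw [QuotientGroup.leftRel_apply, QuotientAddGroup.leftRel_apply]
    exact h3 _ x.2 _ y.2
  refine Nat.card_congr (Equiv.ofBijective
    (Quotient.map' (fun x : K => (⟨g x, h1 _ x.2⟩ : C)) fun x y => (key x y).1) ⟨?_, ?_⟩)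
  · rintro ⟨x⟩ ⟨y⟩ h
    exact Quotient.sound' ((key x y).2 (Quotient.exact' h))
  · rintro ⟨y⟩
    obtain ⟨x, hx, h⟩ := h2 y y.2
    exact ⟨Quotient.mk'' ⟨x, hx⟩, congrArg Quotient.mk'' (Subtype.ext h)⟩

variable {k : Type*} [Field k] {w : Valuation k (WithZero (Multiplicative ℤ))}

theorem anti {i j : ℤ} (h : j ≤ i) {x : k} (hx : x ∈ pw w i) : x ∈ pw w j :=
  mem_pw_iff.2 ((mem_pw_iff.1 hx).imp id h.trans)

theorem mem_of_le {j : ℤ} {x : k} (h : j ≤ ord w x) : x ∈ pw w j := mem_pw_iff.2 (Or.inr h)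

theorem pw_mul {i j l : ℤ} {x y : k} (hx : x ∈ pw w i) (hy : y ∈ pw w j) (h : l ≤ i + j) :
    x * y ∈ pw w l := by
  rcases eq_or_ne x 0 with rfl | hx0
  · simp
  rcases eq_or_ne y 0 with rfl | hy0
  · simp
  refine mem_of_le ?_
  rw [ord_mul hx0 hy0]
  have h1 := (mem_pw_iff.1 hx).resolve_left hx0
  have h2 := (mem_pw_iff.1 hy).resolve_left hy0
  omega

theorem pw_div {i l : ℤ} {x y : k} (hx : x ∈ pw w i) (h : l + ord w y ≤ i) : x / y ∈ pw w l := by
  rw [div_eq_mul_inv]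
  exact pw_mul hx (mem_of_le le_rfl) (by rw [ord_inv]; omega)

theorem pw_div_iff {i : ℤ} {x y : k} (hy : y ≠ 0) (h : ord w y = 0) :
    x / y ∈ pw w i ↔ x ∈ pw w i :=
  ⟨fun h1 => by
    rw [← div_mul_cancel₀ x hy]
    exact pw_mul h1 (mem_of_le le_rfl) (by omega), fun h1 => pw_div h1 (by omega)⟩

theorem not_mem {j : ℤ} {x : k} : x ∉ pw w j ↔ x ≠ 0 ∧ ord w x < j := by
  rw [mem_pw_iff]; push Not; rfl

theorem one_mem : (1 : k) ∈ pw w 0 := mem_of_le (by simp)

theorem one_not_mem : (1 : k) ∉ pw w 1 := not_mem.2 ⟨one_ne_zero, by simp⟩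

theorem add_high {x y : k} (hx : x ≠ 0) (hy : y ∈ pw w (ord w x + 1)) :
    x + y ≠ 0 ∧ ord w (x + y) = ord w x := by
  rcases eq_or_ne y 0 with rfl | hy0
  · simpa using hx
  exact ord_add_of_lt hx hy0 (by have := (mem_pw_iff.1 hy).resolve_left hy0; omega)

theorem one_add {y : k} (hy : y ∈ pw w 1) : 1 + y ≠ 0 ∧ ord w (1 + y) = 0 := by
  simpa using add_high (w := w) (y := y) one_ne_zero (by simpa using hy)

theorem two_mem : (2 : k) ∈ pw w 0 := by
  rw [← one_add_one_eq_two]; exact add_mem one_mem one_mem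

theorem two_nonneg : 0 ≤ ord w (2 : k) :=
  (mem_pw_iff.1 two_mem).elim (fun h => by simp [h]) id

theorem hens (L : IsLoc w) {x : k} (h : x - 1 ∈ pw w (2 * ord w (2 : k) + 1)) : IsSquare x := by
  refine L.hens x (lt_of_le_of_lt (mem_pw.1 h) ?_)
  have h4 : (4 : k) = 2 * 2 := by norm_num
  rw [val_eq_exp (w := w) (x := 4) (h4 ▸ mul_ne_zero L.two L.two), h4, ord_mul L.two L.two,
    WithZero.exp_lt_exp]
  omega

theorem half (L : IsLoc w) (c : k) : ∃ d : k, d ^ 2 = c ^ 2 ∧ 1 + d ∉ pw w (ord w (2 : k) + 1) := by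
  by_contra! h
  have := add_mem (h c rfl) (h (-c) (by ring))
  rw [show 1 + c + (1 + -c) = 2 by ring] at this
  exact not_mem.2 ⟨L.two, by omega⟩ this

theorem exists_ord (L : IsLoc w) (n : ℤ) : ∃ x : k, x ≠ 0 ∧ ord w x = n := by
  obtain ⟨π, hπ⟩ := L.surj
  have h0 : π ≠ 0 := by rintro rfl; simp at hπ; exact absurd hπ.symm (by simp)
  exact ⟨π ^ n, zpow_ne_zero _ h0, by rw [ord_zpow, ord, hπ, WithZero.log_exp]; ring⟩

theorem relIndex_pw (L : IsLoc w) (j : ℤ) (n : ℕ) :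
    (pw w (j + n)).relIndex (pw w j) = rc w ^ n := by
  have key : ∀ j : ℤ, (pw w (j + 1)).relIndex (pw w j) = rc w := fun j => by
    obtain ⟨x, hx, hj⟩ := exists_ord L j
    have h : ∀ i, (pw w i).map (AddMonoidHom.mulRight x) = pw w (j + i) := fun i => by
      ext y
      refine ⟨?_, fun hy => ⟨y / x, pw_div hy (by omega), div_mul_cancel₀ y hx⟩⟩
      rintro ⟨z, hz, rfl⟩
      exact pw_mul hz (mem_of_le le_rfl) (by omega)
    have := AddSubgroup.relIndex_map_map_of_injective (f := AddMonoidHom.mulRight x) (pw w 1)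
      (pw w 0) (mul_left_injective₀ hx)
    rwa [h, h, add_zero] at this
  induction n with
  | zero => simp
  | succ n ih =>
    rw [pow_succ', ← ih, ← key (j + n), Nat.cast_succ, ← add_assoc]
    exact (AddSubgroup.relIndex_mul_relIndex _ _ _ (fun _ => anti (by omega))
      fun _ => anti (by omega)).symm

theorem fin_pw (L : IsLoc w) (i j : ℤ) : Finite (pw w i ⧸ (pw w j).addSubgroupOf (pw w i)) := by
  refine AddSubgroup.index_ne_zero_iff_finite.1 ?_
  have := relIndex_pw L i (j - i).toNat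
  refine fun h => pow_ne_zero _ L.fin (this.symm.trans ?_)
  exact AddSubgroup.relIndex_eq_zero_of_le_left (fun _ => anti (by omega)) h

variable (w) in
/-- The units. -/
def V : Subgroup kˣ where
  carrier := {x | ord w (x : k) = 0}
  mul_mem' := fun {a b} ha hb => by
    simp only [Set.mem_ofPred_eq] at ha hb ⊢
    rw [Units.val_mul, ord_mul a.ne_zero b.ne_zero, ha, hb, add_zero]
  one_mem' := by simp
  inv_mem' := fun {a} ha => by
    simp only [Set.mem_ofPred_eq] at ha ⊢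
    rw [Units.val_inv_eq_inv_val, ord_inv, ha, neg_zero]

theorem mem_V {x : kˣ} : x ∈ V w ↔ ord w (x : k) = 0 := Iff.rfl

theorem unit_of {j : ℤ} (hj : 1 ≤ j) {x : k} (hx : x - 1 ∈ pw w j) : ord w x = 0 := by
  simpa using (one_add (anti hj hx)).2

theorem inv_mul_sub {x y : kˣ} (hx : ord w (x : k) = 0) {j : ℤ} :
    ((x⁻¹ * y : kˣ) : k) - 1 ∈ pw w j ↔ -(x : k) + y ∈ pw w j := by
  have h : ((x⁻¹ * y : kˣ) : k) - 1 = (-(x : k) + y) / x := by
    rw [Units.val_mul, Units.val_inv_eq_inv_val]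
    field_simp
    ring
  rw [h, pw_div_iff x.ne_zero hx]

variable (w) in
/-- The higher units. -/
def U (j : ℤ) (hj : 1 ≤ j) : Subgroup kˣ where
  carrier := {x | (x : k) - 1 ∈ pw w j}
  mul_mem' := fun {a b} ha hb => by
    simp only [Set.mem_ofPred_eq] at ha hb ⊢
    rw [Units.val_mul, show (a : k) * b - 1 = (a - 1) * (b - 1) + ((a - 1) + (b - 1)) by ring]
    exact add_mem (pw_mul ha hb (by omega)) (add_mem ha hb)
  one_mem' := by simp
  inv_mem' := fun {a} ha => by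
    simp only [Set.mem_ofPred_eq] at ha ⊢
    rw [← mul_one a⁻¹, inv_mul_sub (unit_of hj ha), ← neg_mem_iff]
    simpa [sub_eq_add_neg, add_comm] using ha

theorem mem_U {j : ℤ} {hj : 1 ≤ j} {x : kˣ} : x ∈ U w j hj ↔ (x : k) - 1 ∈ pw w j := Iff.rfl

theorem units_index (L : IsLoc w) :
    (powMonoidHom 2 : kˣ →* kˣ).range.relIndex (V w) = 2 * rc w ^ (ord w (2 : k)).toNat := by
  have he := two_nonneg (w := w) (k := k)
  have h2 : (2 : k) ∉ pw w (ord w (2 : k) + 1) := not_mem.2 ⟨L.two, by omega⟩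
  have hR : ∀ x : kˣ, x ∈ (⊥ : Subgroup kˣ).comap (powMonoidHom 2) → x = 1 ∨ x = -1 :=
    fun x hx => by
      have h : (x : k) ^ 2 = 1 := by simpa using congrArg Units.val (Subgroup.mem_bot.1 hx)
      exact (sq_eq_one_iff.1 h).imp Units.ext Units.ext
  have H := herb (K := ⊥) (A := U w (ord w (2 : k) + 1) (by omega))
    (A' := U w (2 * ord w (2 : k) + 1) (by omega)) (V := V w) ?_ (fun _ => anti (by omega))
    (fun x hx => unit_of (by omega) hx) (fun x hx => by rcases hR x hx with rfl | rfl <;> simp [mem_V])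
    ?_
  · have e1 : ⊥ ⊔ (V w).map (powMonoidHom 2) = (powMonoidHom 2 : kˣ →* kˣ).range ⊓ V w := by
      rw [bot_sup_eq]
      ext x
      constructor
      · rintro ⟨y, hy, rfl⟩
        exact ⟨⟨y, rfl⟩, pow_mem hy 2⟩
      · rintro ⟨⟨y, rfl⟩, hy⟩
        refine ⟨y, ?_, rfl⟩
        have : ord w ((y : k) ^ 2) = 0 := by simpa using mem_V.1 hy
        rw [ord_pow] at this
        exact mem_V.2 (by omega)
    rw [e1, Subgroup.inf_relIndex_right] at H
    rw [H, mul_comm, ← relIndex_pw L (ord w (2 : k) + 1)]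
    congr 1
    · refine Subgroup.relIndex_eq_two_iff_exists_notMem_and.2 ⟨-1, by simp, fun h => h2 ?_, ?_⟩
      · rw [← neg_mem_iff]
        convert mem_U.1 h using 1
        simp
        ring
      · intro b hb
        rcases hR b hb with rfl | rfl <;> simp
    · refine relIndex_eq (fun x => (x : k) - 1) (fun x hx => hx) (fun y hy => ?_) fun x hx y _ => ?_
      · refine ⟨Units.mk0 _ (one_add (anti (by omega) hy)).1, ?_, by simp⟩
        simpa [mem_U] using hy
      · rw [mem_U, inv_mul_sub (unit_of (by omega) hx), Int.toNat_of_nonneg he,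
          show -((x : k) - 1) + (y - 1) = -x + y by ring,
          show ord w (2 : k) + 1 + ord w (2 : k) = 2 * ord w (2 : k) + 1 by ring]
  · rw [bot_sup_eq]
    ext x
    constructor
    · intro hx
      obtain ⟨c, hc⟩ := hens L hx
      obtain ⟨d, h3, h4⟩ := half L c
      have h5 : (x : k) = d ^ 2 := by rw [h3, hc, sq]
      have h6 : d ≠ 0 := by rintro rfl; simp at h5
      refine ⟨Units.mk0 d h6, ?_, Units.ext (by simp [h5])⟩
      have h7 := not_mem.1 h4
      have h8 : d - 1 = ((x : k) - 1) / (1 + d) := by rw [h5, eq_div_iff h7.1]; ring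
      refine mem_U.2 ?_
      rw [Units.val_mk0, h8]
      exact pw_div hx (by omega)
    · rintro ⟨y, hy, rfl⟩
      rw [mem_U, powMonoidHom_apply, Units.val_pow_eq_pow_val,
        show (y : k) ^ 2 - 1 = (y - 1) * (y - 1) + 2 * (y - 1) by ring]
      exact add_mem (pw_mul hy hy (by omega)) (pw_mul (mem_of_le le_rfl) hy (by omega))
  · have := fin_pw L 0 (ord w (2 : k) + 1)
    refine index_ne_zero _ (fun x : V w => (QuotientAddGroup.mk ⟨x.1, mem_of_le x.2.ge⟩ :
      pw w 0 ⧸ (pw w (ord w (2 : k) + 1)).addSubgroupOf (pw w 0))) fun x y h => ?_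
    have h1 := QuotientAddGroup.eq.1 h
    exact (inv_mul_sub x.2).2 h1

theorem sq_index (L : IsLoc w) :
    (powMonoidHom 2 : kˣ →* kˣ).range.index = 4 * rc w ^ (ord w (2 : k)).toNat := by
  have h1 : ∀ x : kˣ, x ∈ V w ⊔ (powMonoidHom 2 : kˣ →* kˣ).range ↔ Even (ord w (x : k)) := by
    intro x
    rw [Subgroup.mem_sup]
    constructor
    · rintro ⟨y, hy, _, ⟨z, rfl⟩, rfl⟩
      refine ⟨ord w (z : k), ?_⟩
      rw [Units.val_mul, ord_mul y.ne_zero (Units.ne_zero _), mem_V.1 hy, powMonoidHom_apply,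
        Units.val_pow_eq_pow_val, ord_pow]
      ring
    · rintro ⟨m, hm⟩
      obtain ⟨z, hz, h⟩ := exists_ord L m
      refine ⟨x / Units.mk0 z hz ^ 2, mem_V.2 ?_, _, ⟨Units.mk0 z hz, rfl⟩, by simp⟩
      rw [Units.val_div_eq_div_val, ord_div x.ne_zero (Units.ne_zero _), Units.val_pow_eq_pow_val,
        ord_pow, Units.val_mk0, h, hm]
      ring
  have h2 : (V w ⊔ (powMonoidHom 2 : kˣ →* kˣ).range).index = 2 := by
    obtain ⟨z, hz, h⟩ := exists_ord L 1
    refine Subgroup.index_eq_two_iff.2 ⟨Units.mk0 z hz, fun b => ?_⟩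
    rw [h1, h1, Units.val_mul, ord_mul b.ne_zero (Units.ne_zero _), Units.val_mk0, h,
      Int.even_add_one]
    exact xor_not_left.2 Iff.rfl
  rw [← Subgroup.relIndex_mul_index (le_sup_right : _ ≤ V w ⊔ _), Subgroup.relIndex_sup_right,
    units_index L, h2]
  ring

end Pool.Agent.Stark.LocAux
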