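import Pool.Agent.Lib.MP_ca56d1_nt.Base

/-! Completions, approximation, units and divisors of a number field. -/

set_option linter.unusedSectionVars false

namespace Pool.Agent.Stark

open NumberField IsDedekindDomain

namespace ComplAux

section Gen

variable {k : Type*} [Field k] {w : Valuation k (WithZero (Multiplicative ℤ))}

theorem pw_mono {i j : ℤ} (h : i ≤ j) {x : k} (hx : x ∈ pw w j) : x ∈ pw w i :=
  mem_pw_iff.2 ((mem_pw_iff.1 hx).imp id h.trans)

theorem pw_div {x c : k} {j : ℤ} (hc : c ≠ 0) (hx : x ∈ pw w (ord w c + j)) :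
    x / c ∈ pw w j := by
  by_cases h0 : x = 0
  · simp [h0]
  rw [mem_pw_iff] at hx ⊢
  rw [ord_div h0 hc]
  exact Or.inr (by have := hx.resolve_left h0; omega)

theorem mem_pw_zero {x : k} : x ∈ pw w 0 ↔ 0 ≤ ord w x := by
  rw [mem_pw_iff]
  exact ⟨fun h => h.elim (fun h => by simp [h]) id, Or.inr⟩

theorem exists_root {E : Type*} [NormedField E] [CompleteSpace E] [IsUltrametricDist E] {u : E}
    (hu : ‖u‖ < 1) : ∃ t : E, u - t ^ 2 = t := by
  have h0 := norm_nonneg u
  have hm : Set.MapsTo (fun t : E => u - t ^ 2) (Metric.closedBall 0 ‖u‖)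
      (Metric.closedBall 0 ‖u‖) := fun t ht => by
    rw [mem_closedBall_zero_iff] at ht ⊢
    rw [show (fun t : E => u - t ^ 2) t = u + -t ^ 2 from sub_eq_add_neg _ _]
    refine (IsUltrametricDist.norm_add_le_max _ _).trans (max_le le_rfl ?_)
    rw [norm_neg, norm_pow]
    nlinarith [norm_nonneg t]
  have hc : ContractingWith ‖u‖₊ (hm.restrict _ _ _) := by
    refine ⟨hu, LipschitzWith.of_dist_le_mul fun s t => ?_⟩
    have hs := mem_closedBall_zero_iff.1 s.2
    have ht := mem_closedBall_zero_iff.1 t.2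
    change dist (u - s.1 ^ 2) (u - t.1 ^ 2) ≤ ‖u‖ * dist s.1 t.1
    rw [dist_eq_norm, dist_eq_norm,
      show u - s.1 ^ 2 - (u - t.1 ^ 2) = -((s.1 + t.1) * (s.1 - t.1)) by ring, norm_neg, norm_mul]
    gcongr
    exact (IsUltrametricDist.norm_add_le_max _ _).trans (max_le hs ht)
  obtain ⟨t, -, ht, -⟩ := hc.exists_fixedPoint' Metric.isClosed_closedBall.isComplete hm
    (x := 0) (Metric.mem_closedBall_self h0) (edist_ne_top _ _)
  exact ⟨t, ht⟩

end Gen

variable {F : Type*} [Field F] [NumberField F]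

theorem wv_emb (q : Pr F) (x : F) : wv q (emb q x) = q.valuation F x :=
  q.valuedAdicCompletion_eq_valuation' x

theorem emb_mem_pw (q : Pr F) (x : F) (j : ℤ) :
    emb q x ∈ pw (wv q) j ↔ x ∈ pw (q.valuation F) j := by
  rw [mem_pw, mem_pw, wv_emb]

theorem int_mem_pw (q : Pr F) (x : 𝓞 F) (n : ℕ) :
    (x : F) ∈ pw (q.valuation F) n ↔ x ∈ q.asIdeal ^ n := by
  rw [mem_pw, ← q.intValuation_le_pow_iff_mem, ← q.valuation_of_algebraMap (K := F)]

open scoped Classical in
theorem og_int (q : Pr F) {x : 𝓞 F} (hx : x ≠ 0) : og q (x : F) =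
    ((Associates.mk q.asIdeal).count (Associates.mk (Ideal.span {x})).factors : ℕ) := by
  have h : q.valuation F (x : F) = q.intValuation x := q.valuation_of_algebraMap x
  rw [og, ord, h, q.intValuation_if_neg hx, WithZero.log_exp, neg_neg]

theorem span_eq_prod {x : 𝓞 F} (hx : x ≠ 0) (P : Finset (Pr F))
    (hP : ∀ q ∉ P, og q (x : F) = 0) :
    Ideal.span {x} = ∏ q ∈ P, q.asIdeal ^ (og q (x : F)).toNat := by
  have h1 : ∀ q : Pr F, q.maxPowDividing (Ideal.span {x}) = q.asIdeal ^ (og q (x : F)).toNat :=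
    fun q => by rw [og_int q hx, Int.toNat_natCast, HeightOneSpectrum.maxPowDividing]
  rw [← Ideal.finprod_heightOneSpectrum_factorization (I := Ideal.span {x}) (by simpa using hx),
    finprod_congr h1]
  refine finprod_eq_prod_of_mulSupport_subset _ fun q hq => by_contra fun h => hq ?_
  simp [hP q h]

open scoped nonZeroDivisors in
theorem count_span (q : Pr F) {x : F} (hx : x ≠ 0) :
    FractionalIdeal.count F q (FractionalIdeal.spanSingleton (𝓞 F)⁰ x) = og q x := by
  classical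
  have key : ∀ a : 𝓞 F, a ≠ 0 →
      FractionalIdeal.count F q (FractionalIdeal.spanSingleton (𝓞 F)⁰ (a : F)) = og q (a : F) :=
    fun a ha => by
      rw [og_int q ha, ← FractionalIdeal.count_coe F q (by simpa using ha),
        FractionalIdeal.coeIdeal_span_singleton]
  obtain ⟨a, b, hb, rfl⟩ := IsFractionRing.div_surjective (A := 𝓞 F) x
  have hb0 : b ≠ 0 := nonZeroDivisors.ne_zero hb
  have ha0 : a ≠ 0 := by rintro rfl; simp at hx
  have ha1 : (a : F) ≠ 0 := by simpa using ha0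
  have hb1 : (b : F) ≠ 0 := by simpa using hb0
  change FractionalIdeal.count F q (FractionalIdeal.spanSingleton (𝓞 F)⁰ ((a : F) / (b : F)))
    = og q ((a : F) / (b : F))
  rw [og, ord_div ha1 hb1, div_eq_mul_inv, ← FractionalIdeal.spanSingleton_mul_spanSingleton,
    ← FractionalIdeal.spanSingleton_inv, FractionalIdeal.count_mul, FractionalIdeal.count_inv,
    key a ha0, key b hb0, sub_eq_add_neg]
  · rfl
  · exact FractionalIdeal.spanSingleton_ne_zero_iff.2 ha1
  · exact inv_ne_zero (FractionalIdeal.spanSingleton_ne_zero_iff.2 hb1)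

open scoped nonZeroDivisors in
variable (F) in
/-- The divisor of a fractional ideal. -/
noncomputable def cnt : (FractionalIdeal (𝓞 F)⁰ F)ˣ →* Multiplicative (Dv F) where
  toFun I := Multiplicative.ofAdd (Finsupp.ofSupportFinite
    (fun q => FractionalIdeal.count F q I.1) (FractionalIdeal.finite_factors I.1))
  map_one' := congrArg Multiplicative.ofAdd (Finsupp.ext fun q => FractionalIdeal.count_one F q)
  map_mul' I J := congrArg Multiplicative.ofAdd
    (Finsupp.ext fun q => FractionalIdeal.count_mul F q I.ne_zero J.ne_zero)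

open scoped nonZeroDivisors in
theorem cnt_apply (I : (FractionalIdeal (𝓞 F)⁰ F)ˣ) (q : Pr F) :
    (cnt F I).toAdd q = FractionalIdeal.count F q I.1 := rfl

theorem cnt_inj : Function.Injective (cnt F) := fun I J h => by
  refine Units.ext ?_
  rw [← FractionalIdeal.finprod_heightOneSpectrum_factorization' F I.ne_zero,
    ← FractionalIdeal.finprod_heightOneSpectrum_factorization' F J.ne_zero]
  simp only [← cnt_apply, h]

theorem cnt_surj : Function.Surjective (cnt F) := fun D => by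
  refine ⟨Units.mk0 (D.toAdd.prod (HeightOneSpectrum.asIdeal · ^ ·)) ?_, ?_⟩
  · exact Finset.prod_ne_zero_iff.2 fun v _ =>
      zpow_ne_zero _ (FractionalIdeal.coeIdeal_ne_zero.2 v.ne_bot)
  · refine Multiplicative.toAdd.injective (Finsupp.ext fun q => ?_)
    rw [cnt_apply, Units.val_mk0, FractionalIdeal.count_finsuppProd]

theorem cnt_prin (x : Fˣ) : cnt F (toPrincipalIdeal (𝓞 F) F x) = Multiplicative.ofAdd (dv x.1) := by
  refine Multiplicative.toAdd.injective (Finsupp.ext fun q => ?_)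
  rw [cnt_apply, coe_toPrincipalIdeal, count_span q x.ne_zero]
  rfl

end ComplAux

open ComplAux

variable {F : Type*} [Field F] [NumberField F]

theorem og_nonneg (q : Pr F) (x : 𝓞 F) : 0 ≤ og q (x : F) :=
  mem_pw_zero.1 ((int_mem_pw q x 0).2 (by simp))

theorem le_og_iff (q : Pr F) {x : 𝓞 F} (hx : x ≠ 0) (n : ℕ) :
    (n : ℤ) ≤ og q (x : F) ↔ x ∈ q.asIdeal ^ n := by
  rw [← int_mem_pw, mem_pw_iff, og]
  simp [hx]

theorem og_pos_iff (q : Pr F) {x : 𝓞 F} (hx : x ≠ 0) : 0 < og q (x : F) ↔ x ∈ q.asIdeal := by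
  rw [← pow_one q.asIdeal, ← le_og_iff q hx 1]
  rfl

theorem exists_int_of_og {x : F} (h : ∀ q : Pr F, 0 ≤ og q x) : ∃ y : 𝓞 F, (y : F) = x :=
  HeightOneSpectrum.mem_integers_of_valuation_le_one F x fun q => by
    simpa [mem_pw] using mem_pw_zero.2 (h q)

theorem isU_iff {z : F} : IsU z ↔ ∃ u : (𝓞 F)ˣ, ((u : 𝓞 F) : F) = z := by
  constructor
  · rintro ⟨h0, h⟩
    obtain ⟨a, ha⟩ := exists_int_of_og fun q => (h q).ge
    obtain ⟨b, hb⟩ := exists_int_of_og (x := z⁻¹) fun q => by
      have := h q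
      rw [og] at this
      rw [og, ord_inv, this, neg_zero]
    have hab : a * b = 1 := RingOfIntegers.ext (by
      rw [RingOfIntegers.coe_eq_algebraMap, map_mul]
      change (a : F) * (b : F) = _
      rw [ha, hb, mul_inv_cancel₀ h0]; simp)
    exact ⟨Units.mkOfMulEqOne a b hab, ha⟩
  · rintro ⟨u, rfl⟩
    refine ⟨by simp, fun q => le_antisymm (not_lt.1 fun h => ?_) (og_nonneg q _)⟩
    exact q.isPrime.ne_top (Ideal.eq_top_of_isUnit_mem _ ((og_pos_iff q u.ne_zero).1 h) u.isUnit)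

theorem isU_of_isOfFinOrder {z : F} (h : IsOfFinOrder z) : IsU z := by
  obtain ⟨n, hn, hz⟩ := isOfFinOrder_iff_pow_eq_one.1 h
  refine ⟨h.isUnit.ne_zero, fun q => ?_⟩
  have h1 := ord_pow (w := q.valuation F) z n
  rw [hz, ord_one] at h1
  exact (mul_eq_zero.1 h1.symm).resolve_left (by exact_mod_cast hn.ne')

theorem finitePlace_eq_one {z : F} (h : IsU z) (Q : FinitePlace F) : Q z = 1 := by
  have h1 : Q.maximalIdeal.valuation F z = 1 := by
    have := h.2 Q.maximalIdeal
    rw [og] at this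
    rw [val_eq_exp h.1, this, neg_zero, WithZero.exp_zero]
  rw [← Q.norm_embedding_eq, FinitePlace.norm_embedding, HeightOneSpectrum.adicAbv_def, h1]
  simp

theorem mn_emb (q : Pr F) (t n : F) :
    mn (wv q) (emb q t) (emb q n) = mn (q.valuation F) t n := by
  rw [mn, mn, ord_emb, ord_emb, og, og]
  have h : emb q t ≠ 0 ↔ t ≠ 0 := map_ne_zero _
  split_ifs with h1 h2 h2
  · rfl
  · exact absurd ⟨h.1 h1.1, h1.2⟩ h2
  · exact absurd ⟨h.2 h2.1, h2.2⟩ h1
  · rfl

theorem exists_approx (q : Pr F) (x : Kc q) (j : ℤ) : ∃ y : F, emb q y - x ∈ pw (wv q) j := by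
  obtain ⟨c, hc⟩ := q.valuedAdicCompletion_surjective F (WithZero.exp (-j))
  have hc0 : c ≠ 0 := by rintro rfl; simp at hc; exact WithZero.exp_ne_zero hc.symm
  obtain ⟨y, hy⟩ := (q.denseRange_algebraMap F).exists_dist_lt x (norm_pos_iff.2 hc0)
  rw [dist_comm, dist_eq_norm] at hy
  exact ⟨y, (Valued.toNormedField.norm_le_iff.1 hy.le).trans hc.le⟩

/-- Strong approximation. -/
theorem approx_strong (P : Finset (Pr F)) (x : ∀ q : Pr F, Kc q) (j : ℤ) :
    ∃ y : F, (∀ q ∈ P, emb q y - x q ∈ pw (wv q) j) ∧ ∀ q ∉ P, 0 ≤ og q y := by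
  classical
  choose y hy using fun q => exists_approx q (x q) j
  obtain ⟨⟨c, hc⟩, h⟩ := IsLocalization.exist_integer_multiples (nonZeroDivisors (𝓞 F)) P y
  have hc0 : (c : F) ≠ 0 := by simpa using nonZeroDivisors.ne_zero hc
  choose! a ha using h
  obtain ⟨b, hb⟩ := IsDedekindDomain.exists_forall_sub_mem_ideal (s := P ∪ (dv (c : F)).support)
    (fun q : Pr F => q.asIdeal) (fun q => (og q (c : F) + j.toNat).toNat) (fun q _ => q.prime)
    (fun q _ q' _ hne h => hne (HeightOneSpectrum.ext h)) fun q => if q.1 ∈ P then a q.1 else 0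
  have hb' : ∀ q ∈ P ∪ (dv (c : F)).support,
      ((b - if q ∈ P then a q else 0 : 𝓞 F) : F) / c ∈ pw (q.valuation F) j.toNat := fun q hq =>
    pw_div hc0 (pw_mono (Int.self_le_toNat _) ((int_mem_pw q _ _).2 (hb q hq)))
  refine ⟨b / c, fun q hq => ?_, fun q hq => ?_⟩
  · have h1 := hb' q (Finset.mem_union_left _ hq)
    have h2 : ((b - a q : 𝓞 F) : F) / c = b / c - y q := by
      have h3 : ((a q : 𝓞 F) : F) = c * y q := (ha q hq).trans (Algebra.smul_def _ _)
      have h4 : ((b - a q : 𝓞 F) : F) = b - a q := map_sub (algebraMap (𝓞 F) F) _ _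
      rw [h4, h3]
      field_simp
    rw [if_pos hq, h2, ← emb_mem_pw, map_sub] at h1
    simpa using add_mem (pw_mono (Int.self_le_toNat j) h1) (hy q)
  · by_cases h1 : q ∈ (dv (c : F)).support
    · have h2 := hb' q (Finset.mem_union_right _ h1)
      rw [if_neg hq, sub_zero] at h2
      exact mem_pw_zero.1 (pw_mono (by positivity) h2)
    · have h2 : ord (q.valuation F) (c : F) = 0 := by simpa [og] using h1
      refine mem_pw_zero.1 (pw_div hc0 ?_)
      rw [h2, add_zero]
      exact mem_pw_zero.2 (og_nonneg q b)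

theorem rc_wv (q : Pr F) : rc (wv q) = Ideal.absNorm q.asIdeal := by
  let f : 𝓞 F →+ Kc q := ((emb q).comp (algebraMap (𝓞 F) F)).toAddMonoidHom
  have h1 : (pw (wv q) 1).comap f = q.asIdeal.toAddSubgroup := by
    ext x
    exact ((emb_mem_pw q (x : F) 1).trans (int_mem_pw q x 1)).trans (by simp)
  have h2 : f.range ⊔ pw (wv q) 1 = pw (wv q) 0 := by
    refine le_antisymm (sup_le ?_ fun x hx => pw_mono zero_le_one hx) fun x hx => ?_
    · rintro _ ⟨a, rfl⟩
      exact (emb_mem_pw q (a : F) 0).2 (mem_pw_zero.2 (og_nonneg q a))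
    · classical
      obtain ⟨y, h3, h4⟩ := approx_strong {q} (Function.update (fun _ => 0) q x) 1
      have h5 := h3 q (Finset.mem_singleton_self q)
      rw [Function.update_self] at h5
      obtain ⟨a, rfl⟩ := exists_int_of_og (x := y) fun q' => by
        by_cases h : q' = q
        · subst h
          refine mem_pw_zero.1 ((emb_mem_pw q' y 0).1 ?_)
          simpa using add_mem (pw_mono zero_le_one h5) hx
        · exact h4 q' (by simpa using h)
      have h6 := sub_mem (AddSubgroup.mem_sup_left (S := f.range) (T := pw (wv q) 1) ⟨a, rfl⟩)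
        (AddSubgroup.mem_sup_right h5)
      simpa [f] using h6
  rw [rc, ← h2, AddSubgroup.relIndex_sup_right, ← AddSubgroup.index_comap, h1]
  rfl

theorem isLoc_wv (q : Pr F) : IsLoc (wv q) := by
  have h2 : (2 : Kc q) ≠ 0 := by
    rw [← map_ofNat (emb q) 2]
    exact (map_ne_zero _).2 two_ne_zero
  refine ⟨q.valuedAdicCompletion_surjective F _, h2, ?_, fun x hx => ?_⟩
  · rw [rc_wv]
    exact Ideal.absNorm_eq_zero_iff.not.2 q.ne_bot
  · have h4 : (4 : Kc q) ≠ 0 := by
      rw [show (4 : Kc q) = 2 * 2 by norm_num]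
      exact mul_ne_zero h2 h2
    obtain ⟨t, ht⟩ := exists_root (u := (x - 1) / 4) (by
      rw [norm_div, div_lt_one (norm_pos_iff.2 h4)]
      exact Valued.toNormedField.norm_lt_iff.2 hx)
    refine ⟨1 + 2 * t, ?_⟩
    field_simp at ht
    linear_combination ht

theorem prod_absNorm_two (P : Finset (Pr F)) (hP : ∀ q ∉ P, og q (2 : F) = 0) :
    ∏ q ∈ P, Ideal.absNorm q.asIdeal ^ (og q (2 : F)).toNat = 2 ^ Module.finrank ℚ F := by
  have h0 : ((2 : 𝓞 F) : F) = 2 := map_ofNat (algebraMap (𝓞 F) F) 2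
  have h1 := congrArg Ideal.absNorm (span_eq_prod (x := (2 : 𝓞 F)) two_ne_zero P (by rwa [h0]))
  rw [map_prod, h0, Ideal.absNorm_span_singleton, ← map_ofNat (algebraMap ℤ (𝓞 F)) 2,
    Algebra.norm_algebraMap, RingOfIntegers.rank] at h1
  simp only [map_pow, Int.natAbs_pow] at h1
  exact h1.symm

theorem dv_mul {x y : F} (hx : x ≠ 0) (hy : y ≠ 0) : dv (x * y) = dv x + dv y :=
  Finsupp.ext fun _ => ord_mul hx hy

theorem dv_inv (x : F) : dv x⁻¹ = -dv x :=
  Finsupp.ext fun _ => ord_inv x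

theorem mem_prin {D : Dv F} : D ∈ prin F ↔ ∃ x : F, x ≠ 0 ∧ dv x = D := by
  have h1 : dv (1 : F) = 0 := Finsupp.ext fun _ => ord_one
  refine ⟨fun h => ?_, fun ⟨x, _, h⟩ => AddSubgroup.subset_closure ⟨x, h⟩⟩
  induction h using AddSubgroup.closure_induction with
  | mem D h =>
    obtain ⟨x, rfl⟩ := h
    by_cases hx : x = 0
    · exact ⟨1, one_ne_zero, h1.trans (Finsupp.ext fun _ => by simp [hx, og])⟩
    · exact ⟨x, hx, rfl⟩
  | zero => exact ⟨1, one_ne_zero, h1⟩
  | add _ _ _ _ h h' =>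
    obtain ⟨x, hx, rfl⟩ := h
    obtain ⟨y, hy, rfl⟩ := h'
    exact ⟨x * y, mul_ne_zero hx hy, dv_mul hx hy⟩
  | neg _ _ h =>
    obtain ⟨x, hx, rfl⟩ := h
    exact ⟨x⁻¹, inv_ne_zero hx, dv_inv x⟩

theorem index_prin : (prin F).index = classNumber F := by
  have h1 : (prin F).toSubgroup.comap (cnt F) = (toPrincipalIdeal (𝓞 F) F).range := by
    ext I
    constructor
    · intro h
      obtain ⟨x, hx, h⟩ := mem_prin.1 h
      exact ⟨Units.mk0 x hx, cnt_inj ((cnt_prin _).trans (congrArg Multiplicative.ofAdd h))⟩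
    · rintro ⟨x, rfl⟩
      rw [Subgroup.mem_comap, cnt_prin]
      exact mem_prin.2 ⟨x, x.ne_zero, rfl⟩
  rw [← AddSubgroup.index_toSubgroup, ← Subgroup.index_comap_of_surjective _ cnt_surj, h1,
    classNumber, ← Nat.card_eq_fintype_card, Nat.card_congr (ClassGroup.equiv F).toEquiv]
  rfl

theorem exists_clTriv (P : Finset (Pr F)) : ∃ S : Finset (Pr F), P ⊆ S ∧ ClTriv S := by
  classical
  have : Finite (Dv F ⧸ prin F) := Nat.finite_of_card_ne_zero (by
    change (prin F).index ≠ 0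
    rw [index_prin]
    exact (classNumber_pos F).ne')
  have := Fintype.ofFinite (Dv F ⧸ prin F)
  refine ⟨P ∪ Finset.univ.biUnion fun c : Dv F ⧸ prin F => c.out.support,
    Finset.subset_union_left, fun D => ?_⟩
  obtain ⟨x, hx, h⟩ := mem_prin.1
    (QuotientAddGroup.eq.1 (QuotientAddGroup.out_eq' (D : Dv F ⧸ prin F)))
  refine ⟨x, hx, fun q hq => ?_⟩
  have h1 : (D : Dv F ⧸ prin F).out q = 0 := by_contra fun h0 => hq
    (Finset.mem_union_right _ (Finset.mem_biUnion.2
      ⟨_, Finset.mem_univ _, Finsupp.mem_support_iff.2 h0⟩))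
  rw [← dv_apply, h]
  simp [h1]

theorem ClTriv.mono {S S' : Finset (Pr F)} (h : ClTriv S) (hS : S ⊆ S') : ClTriv S' := fun D =>
  (h D).imp fun _ hx => ⟨hx.1, fun q hq => hx.2 q fun h' => hq (hS h')⟩

theorem pair_add (ψ : Pr F → ZMod 2) (D D' : Dv F) : pair ψ (D + D') = pair ψ D + pair ψ D' :=
  Finsupp.sum_add_index' (fun _ => by simp) fun _ _ _ => by simp [add_mul]

theorem pair_eq_sum (ψ : Pr F → ZMod 2) (D : Dv F) (P : Finset (Pr F))
    (hP : ∀ q ∉ P, (D q : ZMod 2) * ψ q = 0) : pair ψ D = ∑ q ∈ P, (D q : ZMod 2) * ψ q := by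
  classical
  rw [pair, Finsupp.sum_of_support_subset _ (Finset.subset_union_right (s₁ := P)) _
    fun _ _ => by simp]
  exact (Finset.sum_subset Finset.subset_union_left fun q _ hq => hP q hq).symm

theorem plc_isReal (φ : F →+* ℝ) : (plc φ).IsReal :=
  InfinitePlace.isReal_mk_iff.2 (ComplexEmbedding.isReal_iff.2 (RingHom.ext fun x => by simp))

theorem plc_apply (φ : F →+* ℝ) (x : F) : plc φ x = |φ x| := by
  simp [plc]

theorem plc_injective : Function.Injective (plc : (F →+* ℝ) → InfinitePlace F) := fun φ ψ h => by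
  ext x
  rcases InfinitePlace.mk_eq_iff.1 h with h | h <;> simpa using RingHom.congr_fun h x

theorem exists_plc {u : InfinitePlace F} (hu : u.IsReal) : ∃ φ : F →+* ℝ, plc φ = u := by
  refine ⟨InfinitePlace.embedding_of_isReal hu, ?_⟩
  refine Eq.trans ?_ u.mk_embedding
  rw [plc]
  congr 1
  ext x
  simp

theorem card_realHom : Fintype.card (F →+* ℝ) = InfinitePlace.nrRealPlaces F := by
  classical
  refine Fintype.card_of_bijective (f := fun φ => (⟨plc φ, plc_isReal φ⟩ : {w // _}))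
    ⟨fun φ ψ h => plc_injective (congrArg Subtype.val h), fun u => ?_⟩
  exact (exists_plc u.2).imp fun _ h => Subtype.ext h

end Pool.Agent.Stark
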