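import Pool.Agent.Lib.MP_ca56d1_nt.Defs

/-! Elementary facts on the Hilbert symbol and on quadratic extensions. -/

namespace Pool.Agent.Stark

open NumberField IsDedekindDomain

section Hs

variable {k : Type*} [Field k]

theorem hs_eq_zero {a b : k} : hs a b = 0 ↔ ∃ x z : k, b = x ^ 2 - a * z ^ 2 := by
  unfold hs
  split_ifs with h <;> simp [h]

theorem hs_eq_one {a b : k} : hs a b = 1 ↔ ¬ ∃ x z : k, b = x ^ 2 - a * z ^ 2 := by
  unfold hs
  split_ifs with h <;> simp [h]

theorem zmod2_cases (c : ZMod 2) : c = 0 ∨ c = 1 := by revert c; decide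

theorem zmod2_ext {c d : ZMod 2} (h : c = 0 ↔ d = 0) : c = d := by
  revert c d; decide

theorem hs_norm (a x z : k) : hs a (x ^ 2 - a * z ^ 2) = 0 := hs_eq_zero.2 ⟨x, z, rfl⟩

theorem hs_of_isSquare_right (a : k) {b : k} (hb : IsSquare b) : hs a b = 0 := by
  obtain ⟨r, rfl⟩ := hb
  exact hs_eq_zero.2 ⟨r, 0, by ring⟩

theorem hs_of_isSquare_left (h2 : (2 : k) ≠ 0) {a : k} (ha0 : a ≠ 0) (ha : IsSquare a) (b : k) :
    hs a b = 0 := by
  obtain ⟨r, rfl⟩ := ha
  have hr : r ≠ 0 := by rintro rfl; simp at ha0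
  exact hs_eq_zero.2 ⟨(b + 1) / 2, (b - 1) / (2 * r), by field_simp; ring⟩

theorem hs_neg_self (a : k) : hs a (-a) = 0 := hs_eq_zero.2 ⟨0, 1, by ring⟩

theorem hs_one_sub (a : k) : hs a (1 - a) = 0 := hs_eq_zero.2 ⟨1, 1, by ring⟩

theorem hs_comm (h2 : (2 : k) ≠ 0) {a b : k} (ha : a ≠ 0) (hb : b ≠ 0) : hs a b = hs b a := by
  have key : ∀ {a b : k}, a ≠ 0 → b ≠ 0 → hs a b = 0 → hs b a = 0 := by
    intro a b ha hb h
    obtain ⟨x, z, h⟩ := hs_eq_zero.1 h
    by_cases hz : z = 0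
    · exact hs_of_isSquare_left h2 hb ⟨x, by rw [h, hz]; ring⟩ a
    · exact hs_eq_zero.2 ⟨x / z, 1 / z, by rw [h]; field_simp; ring⟩
  exact zmod2_ext ⟨key ha hb, key hb ha⟩

theorem hs_mul_norm (a b : k) {x z : k} (hn : x ^ 2 - a * z ^ 2 ≠ 0) :
    hs a (b * (x ^ 2 - a * z ^ 2)) = hs a b := by
  refine zmod2_ext ⟨fun h => ?_, fun h => ?_⟩
  · obtain ⟨u, v, h⟩ := hs_eq_zero.1 h
    refine hs_eq_zero.2 ⟨(u * x + a * v * z) / (x ^ 2 - a * z ^ 2),
      (u * z + v * x) / (x ^ 2 - a * z ^ 2), ?_⟩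
    have : b = (u ^ 2 - a * v ^ 2) / (x ^ 2 - a * z ^ 2) := by rw [← h]; field_simp
    rw [this]
    field_simp
    ring
  · obtain ⟨u, v, rfl⟩ := hs_eq_zero.1 h
    exact hs_eq_zero.2 ⟨u * x + a * v * z, u * z + v * x, by ring⟩

theorem hs_mul_sq_right (a b : k) {t : k} (ht : t ≠ 0) : hs a (b * t ^ 2) = hs a b := by
  have := hs_mul_norm a b (x := t) (z := 0) (by simpa using ht)
  simpa using this

theorem hs_mul_sq_left (a b : k) {t : k} (ht : t ≠ 0) : hs (a * t ^ 2) b = hs a b := by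
  refine zmod2_ext ⟨fun h => ?_, fun h => ?_⟩
  · obtain ⟨u, v, h⟩ := hs_eq_zero.1 h
    exact hs_eq_zero.2 ⟨u, t * v, by rw [h]; ring⟩
  · obtain ⟨u, v, h⟩ := hs_eq_zero.1 h
    exact hs_eq_zero.2 ⟨u, v / t, by rw [h]; field_simp⟩

theorem hs_congr_right (a : k) {b c : k} (hb : b ≠ 0) (hc : c ≠ 0) (h : IsSquare (b * c)) :
    hs a b = hs a c := by
  obtain ⟨r, hr⟩ := h
  have hr0 : r ≠ 0 := by rintro rfl; exact mul_ne_zero hb hc (by simpa using hr)
  rw [← hs_mul_sq_right a c (div_ne_zero hr0 hc)]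
  congr 1
  field_simp
  rw [hr]
  ring

theorem hs_congr_left (c : k) {a b : k} (ha : a ≠ 0) (hb : b ≠ 0) (h : IsSquare (a * b)) :
    hs a c = hs b c := by
  obtain ⟨r, hr⟩ := h
  have hr0 : r ≠ 0 := by rintro rfl; exact mul_ne_zero ha hb (by simpa using hr)
  rw [← hs_mul_sq_left b c (div_ne_zero hr0 hb)]
  congr 1
  field_simp
  rw [hr]
  ring

theorem hs_real {a b : ℝ} (ha : a ≠ 0) (_hb : b ≠ 0) :
    hs a b = if a < 0 ∧ b < 0 then 1 else 0 := by
  split_ifs with h
  · rw [hs_eq_one]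
    rintro ⟨x, z, hx⟩
    nlinarith [sq_nonneg x, sq_nonneg z, mul_nonneg (neg_nonneg.2 h.1.le) (sq_nonneg z), h.2]
  · rcases not_and_or.1 h with h | h
    · exact hs_of_isSquare_left two_ne_zero ha
        ⟨√a, (Real.mul_self_sqrt (not_lt.1 h)).symm⟩ b
    · exact hs_of_isSquare_right a ⟨√b, (Real.mul_self_sqrt (not_lt.1 h)).symm⟩

theorem hs_real_mul_right {a b c : ℝ} (ha : a ≠ 0) (hb : b ≠ 0) (hc : c ≠ 0) :
    hs a (b * c) = hs a b + hs a c := by
  rw [hs_real ha hb, hs_real ha hc, hs_real ha (mul_ne_zero hb hc)]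
  rcases lt_or_gt_of_ne ha with ha | ha <;> rcases lt_or_gt_of_ne hb with hb | hb <;>
    rcases lt_or_gt_of_ne hc with hc | hc <;>
    simp [ha, hb, hc, ha.not_gt, hb.not_gt, hc.not_gt, mul_neg_iff] <;> decide

theorem hs_real_mul_left {a b c : ℝ} (ha : a ≠ 0) (hb : b ≠ 0) (hc : c ≠ 0) :
    hs (a * b) c = hs a c + hs b c := by
  rw [hs_comm two_ne_zero (mul_ne_zero ha hb) hc, hs_real_mul_right hc ha hb,
    hs_comm two_ne_zero hc ha, hs_comm two_ne_zero hc hb]

end Hs

namespace Quad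

variable {F K : Type*} [Field F] [Field K] [Algebra F K] {a : F} (E : Quad F K a)

include E in
theorem a_ne : a ≠ 0 := fun h => E.ns (h ▸ ⟨0, by simp⟩)

theorem rt_ne : E.rt ≠ 0 := fun h => E.a_ne <| by
  have := E.sq
  rw [h] at this
  simpa using this.symm

theorem indep {g h : F} (H : algebraMap F K g + algebraMap F K h * E.rt = 0) : g = 0 ∧ h = 0 := by
  by_cases hh : h = 0
  · subst hh
    simpa using H
  · exfalso
    have h1 : E.rt = algebraMap F K (-g / h) := by
      have : algebraMap F K h ≠ 0 := by simpa using hh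
      rw [map_div₀, map_neg]
      field_simp
      linear_combination H
    refine E.ns ⟨-g / h, (algebraMap F K).injective ?_⟩
    rw [← E.sq, map_mul, ← h1, _root_.sq]

theorem tau_mk (g h : F) : E.tau (algebraMap F K g + algebraMap F K h * E.rt) =
    algebraMap F K g - algebraMap F K h * E.rt := by
  rw [map_add, map_mul, AlgEquiv.commutes, AlgEquiv.commutes, E.tau_rt]
  ring

@[simp] theorem tau_tau (z : K) : E.tau (E.tau z) = z := by
  obtain ⟨g, h, rfl⟩ := E.span z
  rw [tau_mk, map_sub, map_mul, AlgEquiv.commutes, AlgEquiv.commutes, E.tau_rt]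
  ring

theorem mul_tau_mk (g h : F) : (algebraMap F K g + algebraMap F K h * E.rt) *
    E.tau (algebraMap F K g + algebraMap F K h * E.rt) = algebraMap F K (g ^ 2 - a * h ^ 2) := by
  rw [tau_mk, map_sub, map_mul, map_pow, map_pow, ← E.sq]
  ring

theorem add_tau_mk (g h : F) : (algebraMap F K g + algebraMap F K h * E.rt) +
    E.tau (algebraMap F K g + algebraMap F K h * E.rt) = algebraMap F K (2 * g) := by
  rw [tau_mk, map_mul, map_ofNat]
  ring

theorem exists_norm (z : K) : ∃ n : F, algebraMap F K n = z * E.tau z := by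
  obtain ⟨g, h, rfl⟩ := E.span z
  exact ⟨_, (E.mul_tau_mk g h).symm⟩

include E in
theorem norm_ne {g h : F} (H : g ≠ 0 ∨ h ≠ 0) : g ^ 2 - a * h ^ 2 ≠ 0 := by
  intro h0
  have h1 := E.mul_tau_mk g h
  rw [h0, map_zero, mul_eq_zero, map_eq_zero] at h1
  have := E.indep (h1.elim id id)
  tauto

theorem fixed [CharZero F] {z : K} (hz : E.tau z = z) : ∃ t : F, z = algebraMap F K t := by
  obtain ⟨g, h, rfl⟩ := E.span z
  rw [tau_mk] at hz
  have h2 : algebraMap F K 0 + algebraMap F K (2 * h) * E.rt = 0 := by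
    rw [map_zero, map_mul, map_ofNat]
    linear_combination -hz
  have := (E.indep h2).2
  have h0 : h = 0 := by simpa using this
  exact ⟨g, by simp [h0]⟩

theorem tau_ne_one [CharZero F] : E.tau ≠ 1 := by
  intro h
  have h1 := E.tau_rt
  rw [h, AlgEquiv.one_apply] at h1
  have h2 : algebraMap F K 0 + algebraMap F K 2 * E.rt = 0 := by
    rw [map_zero, map_ofNat]
    linear_combination h1
  simpa using (E.indep h2).2

theorem aut_eq (σ : K ≃ₐ[F] K) : σ = 1 ∨ σ = E.tau := by
  have h1 : σ E.rt ^ 2 = E.rt ^ 2 := by rw [← map_pow, E.sq, AlgEquiv.commutes]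
  rcases sq_eq_sq_iff_eq_or_eq_neg.1 h1 with h | h
  · refine Or.inl (AlgEquiv.ext fun z => ?_)
    obtain ⟨g, h', rfl⟩ := E.span z
    simp [h]
  · refine Or.inr (AlgEquiv.ext fun z => ?_)
    obtain ⟨g, h', rfl⟩ := E.span z
    simp [h, E.tau_rt]

/-- The basis `1, √a`. -/
noncomputable def basis : Module.Basis (Fin 2) F K :=
  Module.Basis.mk (v := ![1, E.rt])
    (by
      rw [LinearIndependent.pair_iff]
      intro s t h
      exact E.indep (by simpa [Algebra.smul_def] using h))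
    (by
      intro z _
      obtain ⟨g, h, rfl⟩ := E.span z
      refine Submodule.add_mem _ ?_ ?_
      · rw [Algebra.algebraMap_eq_smul_one]
        exact Submodule.smul_mem _ _ (Submodule.subset_span ⟨0, rfl⟩)
      · rw [← Algebra.smul_def]
        exact Submodule.smul_mem _ _ (Submodule.subset_span ⟨1, rfl⟩))

include E in
theorem finrank_eq : Module.finrank F K = 2 := by
  simpa using Module.finrank_eq_card_basis E.basis

include E in
theorem isGalois [CharZero F] : IsGalois F K := by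
  have : FiniteDimensional F K := Module.Finite.of_basis E.basis
  have : Algebra.IsQuadraticExtension F K := ⟨E.finrank_eq⟩
  infer_instance

/-- Hilbert 90 for a quadratic extension. -/
theorem hilbert90 [CharZero F] {u : K} (hu : u * E.tau u = 1) :
    ∃ β : K, β ≠ 0 ∧ β = u * E.tau β := by
  by_cases h : 1 + u = 0
  · refine ⟨E.rt, E.rt_ne, ?_⟩
    rw [E.tau_rt]
    linear_combination E.rt * h
  · refine ⟨1 + u, h, ?_⟩
    rw [map_add, map_one]
    linear_combination -hu

end Quad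

/-- The standard model of `F(√a)`. -/
noncomputable def Quad.std {F : Type*} [Field F] {a : F} (ha : ¬ IsSquare a)
    [Fact (∀ r : F, r ^ 2 ≠ a + 0 * r)] : Quad F (QuadraticAlgebra F a 0) a where
  rt := ⟨0, 1⟩
  tau :=
    { starRingAut (R := QuadraticAlgebra F a 0) with
      commutes' := fun r => by ext <;> simp }
  sq := by ext <;> simp [_root_.sq]
  tau_rt := by ext <;> simp
  ns := ha
  span := fun z => ⟨z.re, z.im, by ext <;> simp⟩

theorem fact_of_not_isSquare {F : Type*} [Field F] {a : F} (ha : ¬ IsSquare a) :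
    Fact (∀ r : F, r ^ 2 ≠ a + 0 * r) :=
  ⟨fun r h => ha ⟨r, by rw [← _root_.sq, h]; ring⟩⟩

universe u in
/-- Every non-square of a number field has a quadratic extension attached to it. -/
theorem exists_quad {F : Type u} [Field F] [NumberField F] {a : F} (ha : ¬ IsSquare a) :
    ∃ (K : Type u) (_ : Field K) (_ : NumberField K) (_ : Algebra F K), Nonempty (Quad F K a) := by
  have := fact_of_not_isSquare ha
  have : NumberField (QuadraticAlgebra F a 0) := NumberField.of_module_finite F _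
  exact ⟨QuadraticAlgebra F a 0, inferInstance, inferInstance, inferInstance, ⟨Quad.std ha⟩⟩

end Pool.Agent.Stark
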