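import Mathlib

/-! Poisson summation for complex Gaussians on a lattice. -/

namespace Pool.Agent.Stark

open Complex Matrix Real

variable {ι : Type*} [Fintype ι] [DecidableEq ι]

/-- The lattice point with coordinates `k` in the basis given by the columns of `B`. -/
def lpt (B : Matrix ι ι ℝ) (k : ι → ℤ) : ι → ℝ := B.mulVec fun j => (k j : ℝ)

namespace PoissonAux

open MeasureTheory Set

/-- The integer point `k` as a real vector. -/
def zv (k : ι → ℤ) : ι → ℝ := fun j => (k j : ℝ)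

/-- The half open unit cube with corner `k`. -/
def cube (k : ι → ℤ) : Set (ι → ℝ) := {x | ∀ i, x i ∈ Ioc (k i : ℝ) ((k i : ℝ) + 1)}

omit [DecidableEq ι] in
lemma cube_meas (k : ι → ℤ) : MeasurableSet (cube k) :=
  MeasurableSet.univ_pi' fun _ => measurableSet_Ioc

omit [Fintype ι] [DecidableEq ι] in
lemma cube_disj : Pairwise (Function.onFun Disjoint (cube (ι := ι))) := by
  intro k l hkl
  rw [Function.onFun, Set.disjoint_left]
  intro x hk hl
  apply hkl
  funext i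
  have h1 := hk i
  have h2 := hl i
  simp only [mem_Ioc] at h1 h2
  have a1 : (k i : ℝ) < (l i : ℝ) + 1 := h1.1.trans_le h2.2
  have a2 : (l i : ℝ) < (k i : ℝ) + 1 := h2.1.trans_le h1.2
  have b1 : k i < l i + 1 := by exact_mod_cast a1
  have b2 : l i < k i + 1 := by exact_mod_cast a2
  omega

omit [Fintype ι] [DecidableEq ι] in
lemma cube_union : (⋃ k : ι → ℤ, cube k) = univ := by
  refine eq_univ_of_forall fun x => mem_iUnion.2 ⟨fun i => ⌈x i⌉ - 1, fun i => ?_⟩
  simp only [mem_Ioc]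
  push_cast
  constructor
  · linarith [Int.ceil_lt_add_one (x i)]
  · linarith [Int.le_ceil (x i)]

omit [DecidableEq ι] in
lemma cube_shift {E : Type*} [NormedAddCommGroup E] [NormedSpace ℝ E] (k : ι → ℤ)
    (H : (ι → ℝ) → E) : ∫ x in cube k, H x = ∫ x in cube (0 : ι → ℤ), H (zv k + x) := by
  have h := (measurePreserving_add_left (volume : Measure (ι → ℝ)) (zv k)).setIntegral_preimage_emb
    (measurableEmbedding_addLeft (zv k)) H (cube k)
  rw [← h]
  congr 2
  ext x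
  simp only [cube, mem_preimage, mem_ofPred_eq, mem_Ioc, Pi.add_apply, zv, Pi.zero_apply,
    Int.cast_zero]
  refine forall_congr' fun i => ?_
  constructor
  · rintro ⟨h1, h2⟩; constructor <;> linarith
  · rintro ⟨h1, h2⟩; constructor <;> linarith

omit [DecidableEq ι] in
lemma cube_sub (k : ι → ℤ) : cube k ⊆ Metric.closedBall (zv k) 1 := by
  intro x hx
  rw [Metric.mem_closedBall, dist_pi_le_iff zero_le_one]
  intro i
  have := hx i
  simp only [mem_Ioc] at this
  rw [Real.dist_eq, abs_le]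
  simp only [zv]
  constructor <;> linarith [this.1, this.2]

omit [DecidableEq ι] in
lemma cube_intOn {E : Type*} [NormedAddCommGroup E] (k : ι → ℤ) {H : (ι → ℝ) → E}
    (hH : Continuous H) : IntegrableOn H (cube k) :=
  (hH.continuousOn.integrableOn_compact (isCompact_closedBall _ _)).mono_set (cube_sub k)

omit [DecidableEq ι] in
lemma cube_vol : volume (cube (0 : ι → ℤ)) < ⊤ :=
  (measure_mono (cube_sub 0)).trans_lt (isCompact_closedBall _ _).measure_lt_top

omit [DecidableEq ι] in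
lemma norm_le_cube {x : ι → ℝ} (hx : x ∈ cube (0 : ι → ℤ)) : ‖x‖ ≤ 1 := by
  have := cube_sub 0 hx
  have e : zv (0 : ι → ℤ) = 0 := by funext i; simp [zv]
  rwa [e, mem_closedBall_zero_iff] at this

omit [DecidableEq ι] in
/-- Unfolding: the integral over the cube of the periodisation is the full integral. -/
lemma unfold_int {H : (ι → ℝ) → ℂ} (hH : Continuous H) {u : (ι → ℤ) → ℝ} (hu : Summable u)
    (hb : ∀ k x, ‖x‖ ≤ 1 → ‖H (zv k + x)‖ ≤ u k) :
    ∫ x in cube (0 : ι → ℤ), ∑' k, H (zv k + x) = ∫ x, H x := by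
  have hc : ∀ k : ι → ℤ, Continuous fun x => H (zv k + x) := fun k => by fun_prop
  have hs : Summable fun k : ι → ℤ => ∫ x in cube (0 : ι → ℤ), ‖H (zv k + x)‖ := by
    refine Summable.of_nonneg_of_le (fun k => integral_nonneg fun x => norm_nonneg _)
      (fun k => ?_) (hu.mul_right (volume.real (cube (0 : ι → ℤ))))
    have := norm_setIntegral_le_of_norm_le_const (μ := volume) (s := cube (0 : ι → ℤ))
      (f := fun x => ‖H (zv k + x)‖) (C := u k) cube_vol
      (fun x hx => by rw [norm_norm]; exact hb k x (norm_le_cube hx))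
    exact (le_abs_self _).trans this
  have h1 := hasSum_integral_of_summable_integral_norm
    (μ := volume.restrict (cube (0 : ι → ℤ))) (F := fun k x => H (zv k + x))
    (fun k => cube_intOn 0 (hc k)) hs
  have h2 : IntegrableOn H (⋃ k : ι → ℤ, cube k) := by
    refine integrableOn_iUnion_of_summable_integral_norm (fun k => cube_intOn k hH) ?_
    refine hs.congr fun k => ?_
    rw [cube_shift k fun x => ‖H x‖]
  have h3 := hasSum_integral_iUnion cube_meas cube_disj h2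
  rw [cube_union, Measure.restrict_univ] at h3
  simp only [cube_shift _ H] at h3
  exact h1.unique h3

/-- The character `x ↦ exp(-2 π i k·x)`. -/
noncomputable def chr (k : ι → ℤ) (x : ι → ℝ) : ℂ :=
  cexp (-(2 * π * I) * ((∑ j, (k j : ℝ) * x j : ℝ) : ℂ))

omit [DecidableEq ι] in
lemma norm_chr (k : ι → ℤ) (x : ι → ℝ) : ‖chr k x‖ = 1 := by
  have : chr k x = cexp (((-(2 * π) * ∑ j, (k j : ℝ) * x j : ℝ) : ℂ) * I) := by
    simp only [chr]; congr 1; push_cast; ring
  rw [this, Complex.norm_exp_ofReal_mul_I]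

omit [DecidableEq ι] in
lemma chr_shift (k l : ι → ℤ) (x : ι → ℝ) : chr k (zv l + x) = chr k x := by
  simp only [chr]
  rw [Complex.exp_eq_exp_iff_exists_int]
  refine ⟨-∑ j, k j * l j, ?_⟩
  simp only [Pi.add_apply, zv, mul_add, Finset.sum_add_distrib]
  push_cast
  ring

omit [DecidableEq ι] in
lemma chr_cont (k : ι → ℤ) : Continuous (chr k) := by
  unfold chr
  fun_prop

omit [DecidableEq ι] in
/-- Poisson summation for the standard lattice. -/
theorem poisson_std {f : (ι → ℝ) → ℂ} (hf : Continuous f)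
    (hb : ∀ R : ℝ, ∃ u : (ι → ℤ) → ℝ, Summable u ∧ ∀ k x, ‖x‖ ≤ R → ‖f (zv k + x)‖ ≤ u k)
    (hs : Summable fun k : ι → ℤ => ∫ x, chr k x * f x) :
    ∑' k : ι → ℤ, f (zv k) = ∑' k : ι → ℤ, ∫ x, chr k x * f x := by
  classical
  let F : (ι → ℝ) → ℂ := fun x => ∑' l : ι → ℤ, f (zv l + x)
  have hFc : Continuous F := by
    rw [continuous_iff_continuousAt]
    intro x0
    obtain ⟨u, hu, hub⟩ := hb (‖x0‖ + 1)
    have := continuousOn_tsum (s := Metric.ball x0 1)
      (f := fun (l : ι → ℤ) x => f (zv l + x)) (u := u)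
      (fun l => (hf.comp (by fun_prop)).continuousOn) hu
      (fun l x hx => hub l x (by
        have := Metric.mem_ball.1 hx
        rw [dist_eq_norm] at this
        linarith [norm_le_insert' x x0]))
    exact this.continuousAt (Metric.ball_mem_nhds x0 one_pos)
  have hFp : ∀ x (l : ι → ℤ), F (zv l + x) = F x := by
    intro x l
    simp only [F]
    rw [← (Equiv.addRight l).tsum_eq (fun l' : ι → ℤ => f (zv l' + x))]
    refine tsum_congr fun l' => ?_
    congr 1
    funext i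
    simp [zv, add_assoc]
  let rep : UnitAddTorus ι → (ι → ℝ) := fun τ j => (AddCircle.equivIoc 1 0 (τ j) : ℝ)
  let mk : (ι → ℝ) → UnitAddTorus ι := fun t j => (t j : UnitAddCircle)
  have hrep : ∀ t, F (rep (mk t)) = F t := by
    intro t
    have : ∀ j, ∃ n : ℤ, rep (mk t) j = n + t j := fun j => by
      have e : ((rep (mk t) j : ℝ) : UnitAddCircle) = (t j : ℝ) :=
        (AddCircle.equivIoc 1 0).symm_apply_apply _
      rw [QuotientAddGroup.eq] at e
      obtain ⟨n, hn⟩ := AddSubgroup.mem_zmultiples_iff.1 e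
      refine ⟨-n, ?_⟩
      simp only [zsmul_eq_mul, mul_one] at hn
      push_cast; linarith
    choose n hn using this
    have e : rep (mk t) = zv n + t := funext fun j => hn j
    rw [e, hFp]
  have hq : IsOpenQuotientMap mk :=
    IsOpenQuotientMap.piMap fun _ => QuotientAddGroup.isOpenQuotientMap_mk
  let g : C(UnitAddTorus ι, ℂ) := ⟨fun τ => F (rep τ), by
    rw [← hq.continuous_comp_iff]
    have : (fun τ => F (rep τ)) ∘ mk = F := by
      funext t; simp only [Function.comp, hrep]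
    rw [this]
    exact hFc⟩
  have hg : ∀ t, g (mk t) = F t := fun t => hrep t
  have hcoef : ∀ k : ι → ℤ, UnitAddTorus.mFourierCoeff g k = ∫ x, chr k x * f x := by
    intro k
    have hχ : ∀ t, UnitAddTorus.mFourier (-k) (mk t) = chr k t := by
      intro t
      simp only [UnitAddTorus.mFourier, ContinuousMap.coe_mk, mk, fourier_coe_apply, chr]
      rw [← Complex.exp_sum]
      congr 1
      push_cast
      rw [Finset.mul_sum]
      refine Finset.sum_congr rfl fun j _ => ?_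
      rw [Pi.neg_apply]
      push_cast
      ring
    obtain ⟨u, hu, hub⟩ := hb 1
    rw [← unfold_int (H := fun x => chr k x * f x) ((chr_cont k).mul hf) hu
      (fun l x hx => by rw [norm_mul, norm_chr, one_mul]; exact hub l x hx),
      UnitAddTorus.mFourierCoeff_eq_integral _ _ 0]
    have e1 : {x : ι → ℝ | ∀ i, x i ∈ Set.Ioc ((0 : ι → ℝ) i) ((0 : ι → ℝ) i + 1)} =
        cube (0 : ι → ℤ) := by
      ext t; simp [cube]
    rw [e1]
    refine integral_congr_ae (ae_of_all _ fun t => ?_)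
    have e2 := congrArg₂ (· * ·) (hχ t) (hg t)
    refine e2.trans ?_
    simp only [chr_shift, F]
    rw [tsum_mul_left]
  have hsum : Summable (UnitAddTorus.mFourierCoeff g) := hs.congr fun k => (hcoef k).symm
  have hS := UnitAddTorus.hasSum_mFourier_series_apply_of_summable hsum (mk 0)
  have e0 : ∀ m : ι → ℤ, UnitAddTorus.mFourier m (mk 0) = 1 := fun m => by
    simp [UnitAddTorus.mFourier, mk]
  simp only [hg, hcoef, e0, smul_eq_mul, mul_one, F, add_zero] at hS
  exact hS.tsum_eq.symm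

lemma summable_pi_prod {g : ℤ → ℝ} (hg : Summable g) (h0 : ∀ n, 0 ≤ g n) :
    Summable fun k : ι → ℤ => ∏ j, g (k j) := by
  refine summable_of_sum_le (c := ∏ _j : ι, ∑' n, g n)
    (fun k => Finset.prod_nonneg fun j _ => h0 _) fun s => ?_
  let t : Finset ℤ := s.biUnion fun k => Finset.univ.image k
  have hsub : s ⊆ Fintype.piFinset fun _ : ι => t := by
    intro k hk
    rw [Fintype.mem_piFinset]
    intro j
    exact Finset.mem_biUnion.2 ⟨k, hk, Finset.mem_image_of_mem k (Finset.mem_univ j)⟩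
  calc ∑ k ∈ s, ∏ j, g (k j) ≤ ∑ k ∈ Fintype.piFinset fun _ : ι => t, ∏ j, g (k j) :=
        Finset.sum_le_sum_of_subset_of_nonneg hsub fun k _ _ =>
          Finset.prod_nonneg fun j _ => h0 _
    _ = ∏ _j : ι, ∑ n ∈ t, g n := (Finset.prod_univ_sum _ _).symm
    _ ≤ ∏ _j : ι, ∑' n, g n :=
        Finset.prod_le_prod (fun _ _ => Finset.sum_nonneg fun n _ => h0 n)
          fun _ _ => hg.sum_le_tsum t fun n _ => h0 n

lemma summable_exp_sq {δ : ℝ} (hδ : 0 < δ) : Summable fun n : ℤ => rexp (-δ * (n : ℝ) ^ 2) := by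
  have h : Summable fun n : ℕ => rexp (-δ * (n : ℝ) ^ 2) := by
    have h1 : Summable fun n : ℕ => rexp (-δ) ^ n :=
      summable_geometric_of_lt_one (Real.exp_pos _).le (Real.exp_lt_one_iff.2 (by linarith))
    refine Summable.of_nonneg_of_le (fun n => (Real.exp_pos _).le) (fun n => ?_) h1
    rw [← Real.exp_nat_mul, Real.exp_le_exp]
    have : (n : ℝ) ≤ (n : ℝ) ^ 2 := by exact_mod_cast Nat.le_self_pow two_ne_zero n
    nlinarith
  refine Summable.of_nat_of_neg ?_ ?_
  · simpa using h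
  · simpa using h

/-- The Gaussian in the coordinates of the lattice. -/
noncomputable def gs (B : Matrix ι ι ℝ) (a : ι → ℂ) (c : ι → ℝ) (x : ι → ℝ) : ℂ :=
  cexp (-π * ∑ i, a i * ((B.mulVec x i + c i : ℝ) : ℂ) ^ 2)

omit [DecidableEq ι] in
lemma gs_cont (B : Matrix ι ι ℝ) (a : ι → ℂ) (c : ι → ℝ) : Continuous (gs B a c) := by
  unfold gs
  simp only [Matrix.mulVec, dotProduct]
  fun_prop

omit [DecidableEq ι] in
lemma norm_gs (B : Matrix ι ι ℝ) (a : ι → ℂ) (c : ι → ℝ) (x : ι → ℝ) :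
    ‖gs B a c x‖ = rexp (-π * ∑ i, (a i).re * (B.mulVec x i + c i) ^ 2) := by
  rw [gs, Complex.norm_exp]
  congr 1
  rw [← Complex.ofReal_neg, Complex.re_ofReal_mul, Complex.re_sum]
  congr 1
  refine Finset.sum_congr rfl fun i _ => ?_
  rw [← Complex.ofReal_pow, Complex.re_mul_ofReal]

lemma gs_bound (B : Matrix ι ι ℝ) (hB : B.det ≠ 0) (a : ι → ℂ) (ha : ∀ i, 0 < (a i).re)
    (c : ι → ℝ) (R : ℝ) :
    ∃ u : (ι → ℤ) → ℝ, Summable u ∧ ∀ k x, ‖x‖ ≤ R → ‖gs B a c (zv k + x)‖ ≤ u k := by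
  obtain ⟨m, hm, hma⟩ : ∃ m : ℝ, 0 < m ∧ ∀ i, m ≤ (a i).re := by
    rcases isEmpty_or_nonempty ι with h | h
    · exact ⟨1, one_pos, fun i => h.elim i⟩
    · obtain ⟨i, hi⟩ := Finite.exists_min fun i => (a i).re
      exact ⟨(a i).re, ha i, hi⟩
  let C : ℝ := ∑ j, ∑ i, (B⁻¹ j i) ^ 2 + 1
  have hC : 0 < C := by
    have : 0 ≤ ∑ j, ∑ i, (B⁻¹ j i) ^ 2 :=
      Finset.sum_nonneg fun j _ => Finset.sum_nonneg fun i _ => sq_nonneg _
    simp only [C]; linarith
  have hCy : ∀ y : ι → ℝ, ∑ j, (B⁻¹.mulVec y j) ^ 2 ≤ C * ∑ i, y i ^ 2 := by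
    intro y
    have hy : 0 ≤ ∑ i, y i ^ 2 := Finset.sum_nonneg fun i _ => sq_nonneg _
    calc ∑ j, (B⁻¹.mulVec y j) ^ 2 ≤ ∑ j, (∑ i, (B⁻¹ j i) ^ 2) * ∑ i, y i ^ 2 :=
          Finset.sum_le_sum fun j _ => Finset.sum_mul_sq_le_sq_mul_sq _ _ _
      _ = (∑ j, ∑ i, (B⁻¹ j i) ^ 2) * ∑ i, y i ^ 2 := by rw [Finset.sum_mul]
      _ ≤ C * ∑ i, y i ^ 2 := by simp only [C]; nlinarith
  let δ : ℝ := π * m / C
  have hδ : 0 < δ := by have := Real.pi_pos; positivity
  let T : ℝ := |R| + ‖B⁻¹.mulVec c‖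
  let g : ℤ → ℝ := fun n => rexp (δ * T ^ 2) * rexp (-(δ / 2) * (n : ℝ) ^ 2)
  refine ⟨fun k => ∏ j, g (k j), summable_pi_prod
    ((summable_exp_sq (half_pos hδ)).mul_left _) (fun n => by positivity), fun k x hx => ?_⟩
  rw [norm_gs]
  simp only [g, ← Real.exp_add, ← Real.exp_sum, Real.exp_le_exp]
  set y : ι → ℝ := B.mulVec (zv k + x) + c with hy
  have hz : B⁻¹.mulVec y = zv k + (x + B⁻¹.mulVec c) := by
    rw [hy, Matrix.mulVec_add, Matrix.mulVec_mulVec,
      Matrix.nonsing_inv_mul B (isUnit_iff_ne_zero.2 hB), Matrix.one_mulVec, add_assoc]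
  have h1 : m * ∑ i, y i ^ 2 ≤ ∑ i, (a i).re * (B.mulVec (zv k + x) i + c i) ^ 2 := by
    rw [Finset.mul_sum]
    exact Finset.sum_le_sum fun i _ => mul_le_mul_of_nonneg_right (hma i) (sq_nonneg _)
  have h2 := hCy y
  have h3 : ∑ j, (((k j : ℝ)) ^ 2 / 2 - T ^ 2) ≤ ∑ j, (B⁻¹.mulVec y j) ^ 2 := by
    refine Finset.sum_le_sum fun j _ => ?_
    rw [hz]
    have ht : |(x + B⁻¹.mulVec c) j| ≤ T := by
      have b1 := norm_le_pi_norm (x + B⁻¹.mulVec c) j
      have b2 := norm_add_le x (B⁻¹.mulVec c)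
      rw [Real.norm_eq_abs] at b1
      simp only [T]
      linarith [le_abs_self R]
    have ht2 : ((x + B⁻¹.mulVec c) j) ^ 2 ≤ T ^ 2 := by
      rw [← sq_abs]
      exact pow_le_pow_left₀ (abs_nonneg _) ht 2
    have e : (zv k + (x + B⁻¹.mulVec c)) j = (k j : ℝ) + (x + B⁻¹.mulVec c) j := rfl
    rw [e]
    nlinarith [sq_nonneg ((k j : ℝ) + 2 * (x + B⁻¹.mulVec c) j)]
  have h4 : ∑ j, (δ * T ^ 2 + -(δ / 2) * (k j : ℝ) ^ 2) =
      -δ * ∑ j, (((k j : ℝ)) ^ 2 / 2 - T ^ 2) := by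
    rw [Finset.mul_sum]
    exact Finset.sum_congr rfl fun j _ => by ring
  rw [h4]
  have h5 : δ * (C * ∑ i, y i ^ 2) = π * (m * ∑ i, y i ^ 2) := by
    simp only [δ]; field_simp
  have h6 := mul_le_mul_of_nonneg_left (h3.trans h2) hδ.le
  have h7 := mul_le_mul_of_nonneg_left h1 Real.pi_pos.le
  linarith

lemma gs_coeff (B : Matrix ι ι ℝ) (hB : B.det ≠ 0) (a : ι → ℂ) (ha : ∀ i, 0 < (a i).re)
    (c : ι → ℝ) (k : ι → ℤ) :
    ∫ x, chr k x * gs B a c x = ((1 / |B.det| : ℝ) : ℂ) * (∏ i, 1 / a i ^ (1 / 2 : ℂ)) *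
      cexp (-π * ∑ i, ((lpt (B⁻¹)ᵀ k i : ℝ) : ℂ) ^ 2 / a i +
          2 * π * I * ((∑ i, lpt (B⁻¹)ᵀ k i * c i : ℝ) : ℂ)) := by
  set ξ : ι → ℝ := lpt (B⁻¹)ᵀ k with hξ
  let G : (ι → ℝ) → ℂ := fun y =>
    cexp (-∑ i, (π * a i) * (y i : ℂ) ^ 2 + ∑ i, (-(2 * π * I) * ξ i) * y i)
  have hGc : Continuous G := by simp only [G]; fun_prop
  have hdot : ∀ x : ι → ℝ, ∑ j, (k j : ℝ) * x j = ∑ i, ξ i * B.mulVec x i := by
    intro x
    have e1 : ξ ⬝ᵥ B.mulVec x = zv k ⬝ᵥ x := by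
      rw [hξ, lpt, Matrix.mulVec_transpose, ← Matrix.dotProduct_mulVec, Matrix.mulVec_mulVec,
        Matrix.nonsing_inv_mul B (isUnit_iff_ne_zero.2 hB), Matrix.one_mulVec]
      rfl
    exact e1.symm
  have h1 : ∀ x, chr k x * gs B a c x =
      cexp (2 * π * I * ((∑ i, ξ i * c i : ℝ) : ℂ)) * G (Matrix.toLin' B x + c) := by
    intro x
    simp only [chr, gs, G, ← Complex.exp_add, hdot, Matrix.toLin'_apply, Pi.add_apply]
    congr 1
    push_cast
    simp only [Finset.mul_sum, ← Finset.sum_neg_distrib, ← Finset.sum_add_distrib]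
    refine Finset.sum_congr rfl fun i _ => ?_
    ring
  simp only [h1]
  rw [integral_const_mul]
  have h2 : ∫ x, G (Matrix.toLin' B x + c) = ((1 / |B.det| : ℝ) : ℂ) * ∫ y, G y := by
    have hm := Real.map_matrix_volume_pi_eq_smul_volume_pi hB
    have hc : Continuous fun y => G (y + c) := by fun_prop
    have := integral_map (μ := (volume : Measure (ι → ℝ))) (φ := Matrix.toLin' B)
      (LinearMap.continuous_on_pi _).measurable.aemeasurable
      (f := fun y => G (y + c)) hc.aestronglyMeasurable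
    rw [← this, hm, integral_smul_measure, integral_add_right_eq_self,
      ENNReal.toReal_ofReal (abs_nonneg _), Complex.real_smul, abs_inv, one_div]
  have hpa : ∀ i, 0 < ((π : ℂ) * a i).re := fun i => by
    rw [Complex.re_ofReal_mul]; exact mul_pos Real.pi_pos (ha i)
  have h3 := GaussianFourier.integral_cexp_neg_sum_mul_add hpa fun i => -(2 * π * I) * (ξ i : ℂ)
  have hπ : (π : ℂ) ≠ 0 := Complex.ofReal_ne_zero.2 Real.pi_ne_zero
  have h4 : ∀ i, ((π : ℂ) / (π * a i)) ^ (1 / 2 : ℂ) *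
      cexp ((-(2 * π * I) * (ξ i : ℂ)) ^ 2 / (4 * (π * a i))) =
      1 / a i ^ (1 / 2 : ℂ) * cexp (-π * ((ξ i : ℂ) ^ 2 / a i)) := by
    intro i
    have hne : a i ≠ 0 := fun h => by simpa [h] using ha i
    congr 1
    · rw [← div_div, div_self hπ, one_div, Complex.inv_cpow, ← one_div]
      rw [Ne, Complex.arg_eq_pi_iff, not_and_or, not_lt]
      exact Or.inl (ha i).le
    · congr 1
      field_simp
      ring_nf
      simp only [I_sq]
      ring
  rw [h2, h3]
  simp only [h4]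
  rw [Finset.prod_mul_distrib, ← Complex.exp_sum, ← Finset.mul_sum, Complex.exp_add]
  ring

end PoissonAux

open PoissonAux

theorem summable_gauss (B : Matrix ι ι ℝ) (hB : B.det ≠ 0) (a : ι → ℂ) (ha : ∀ i, 0 < (a i).re)
    (c : ι → ℝ) :
    Summable fun k : ι → ℤ => ‖cexp (-π * ∑ i, a i * ((lpt B k i + c i : ℝ) : ℂ) ^ 2)‖ := by
  obtain ⟨u, hu, hb⟩ := gs_bound B hB a ha c 0
  refine Summable.of_nonneg_of_le (fun k => norm_nonneg _) (fun k => ?_) hu
  have := hb k 0 (by simp)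
  rwa [add_zero] at this

theorem poisson_gauss (B : Matrix ι ι ℝ) (hB : B.det ≠ 0) (a : ι → ℂ) (ha : ∀ i, 0 < (a i).re)
    (c : ι → ℝ) :
    ∑' k : ι → ℤ, cexp (-π * ∑ i, a i * ((lpt B k i + c i : ℝ) : ℂ) ^ 2) =
      ((1 / |B.det| : ℝ) : ℂ) * (∏ i, 1 / a i ^ (1 / 2 : ℂ)) *
        ∑' k : ι → ℤ, cexp (-π * ∑ i, ((lpt (B⁻¹)ᵀ k i : ℝ) : ℂ) ^ 2 / a i +
          2 * π * I * ((∑ i, lpt (B⁻¹)ᵀ k i * c i : ℝ) : ℂ)) := by
  have hB' : ((B⁻¹)ᵀ).det ≠ 0 := by
    rw [Matrix.det_transpose, Matrix.det_nonsing_inv, Ring.inverse_eq_inv']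
    exact inv_ne_zero hB
  have ha' : ∀ i, 0 < ((a i)⁻¹).re := fun i => by
    have hne : a i ≠ 0 := fun h => by simpa [h] using ha i
    rw [Complex.inv_re]
    exact div_pos (ha i) (Complex.normSq_pos.2 hne)
  have hs : Summable fun k : ι → ℤ => ∫ x, chr k x * gs B a c x := by
    simp only [gs_coeff B hB a ha c]
    refine Summable.mul_left _ (Summable.of_norm ?_)
    refine (summable_gauss _ hB' _ ha' 0).congr fun k => ?_
    have e : (2 * π * I * ((∑ i, lpt (B⁻¹)ᵀ k i * c i : ℝ) : ℂ)) =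
        ((2 * π * ∑ i, lpt (B⁻¹)ᵀ k i * c i : ℝ) : ℂ) * I := by push_cast; ring
    rw [Complex.exp_add, norm_mul, e, Complex.norm_exp_ofReal_mul_I, mul_one]
    congr 3
    refine Finset.sum_congr rfl fun i _ => ?_
    simp [div_eq_mul_inv, mul_comm]
  have h := poisson_std (gs_cont B a c) (gs_bound B hB a ha c) hs
  simp only [gs_coeff B hB a ha c] at h
  rw [tsum_mul_left] at h
  exact h

end Pool.Agent.Stark
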