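import Pool.Agent.Lib.MP_ca56d1_nt.ClassNum1

/-! The relative class number formula for a quadratic extension with one split infinite place. -/

namespace Pool.Agent.Stark

open NumberField

variable {F K : Type*} [Field F] [NumberField F] [Field K] [NumberField K] [Algebra F K]
  {a : F} (E : Quad F K a) {v : InfinitePlace F} {w : InfinitePlace K}

namespace ClassNumAux

theorem pm_one {L : Type*} [Field L] (φ : L →+* ℝ) {ζ : L} (h : IsOfFinOrder ζ) :
    ζ = 1 ∨ ζ = -1 := by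
  obtain ⟨n, hn, e⟩ := isOfFinOrder_iff_pow_eq_one.1 h
  have h1 : φ ζ ^ n = 1 := by rw [← map_pow, e, map_one]
  rcases (pow_eq_one_iff_of_ne_zero hn.ne').1 h1 with h2 | h2
  · exact Or.inl (φ.injective (by rw [h2, map_one]))
  · exact Or.inr (φ.injective (by rw [h2.1, map_neg, map_one]))

theorem iact_ne (h : Sig v a) (hw : w.comap (algebraMap F K) = v) : E.iact w ≠ w := fun e => by
  obtain ⟨φ, h1, h2⟩ := (E.iact_eq_iff w).1 e
  exact lt_asymm h2 ((h.sign φ).2 (h1.trans hw))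

theorem iact_eq (h : Sig v a) {w' : InfinitePlace K} (hw' : w'.comap (algebraMap F K) ≠ v) :
    E.iact w' = w' := by
  obtain ⟨φ, hφ⟩ := exists_plc (h.other _ hw')
  exact (E.iact_eq_iff w').2 ⟨φ, hφ, lt_of_le_of_ne
    (not_lt.1 fun h0 => hw' (hφ.symm.trans ((h.sign φ).1 h0))) (by simpa using E.a_ne)⟩

theorem mul_iact {u : K} (hu : u * E.tau u = 1) (w' : InfinitePlace K) :
    w' u * E.iact w' u = 1 := by
  rw [E.iact_apply, ← map_mul, hu, map_one]

theorem other (h : Sig v a) {u : K} (hu : u * E.tau u = 1) (w' : InfinitePlace K)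
    (hw' : w'.comap (algebraMap F K) ≠ v) : w' u = 1 := by
  have h1 := mul_iact E hu w'
  rw [iact_eq E h hw'] at h1
  rcases mul_self_eq_one_iff.1 h1 with h2 | h2
  · exact h2
  · have := apply_nonneg w' u
    linarith

theorem vals (h : Sig v a) (hw : w.comap (algebraMap F K) = v) {u : K} (hu : u * E.tau u = 1)
    (w' : InfinitePlace K) : w' u = 1 ∨ w' u = w u ∨ w' u = (w u)⁻¹ := by
  by_cases h1 : w'.comap (algebraMap F K) = v
  · rcases (E.comap_eq_iff w w').1 (h1.trans hw.symm) with rfl | rfl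
    · exact Or.inr (Or.inl rfl)
    · exact Or.inr (Or.inr (eq_inv_of_mul_eq_one_right (mul_iact E hu w)))
  · exact Or.inl (other E h hu w' h1)

theorem tors (h : Sig v a) (hw : w.comap (algebraMap F K) = v) (ζ : K) (hζ : IsOfFinOrder ζ) :
    ζ * E.tau ζ = 1 := by
  obtain ⟨φ⟩ := h.real
  by_cases h0 : 0 < φ a
  · have h1 := E.mult_of_iact_ne (iact_ne E h hw)
    rw [hw, ← (h.sign φ).1 h0, (plc_isReal φ).mult_eq_one] at h1
    have h2 : w.IsReal := by
      by_contra h2
      rw [(InfinitePlace.not_isReal_iff_isComplex.1 h2).mult_eq_two] at h1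
      omega
    obtain ⟨ψ, -⟩ := exists_plc h2
    rcases pm_one ψ hζ with rfl | rfl <;> simp
  · obtain ⟨g, k, e⟩ := E.span ζ
    have h1 := E.mul_tau_mk g k
    rw [← e] at h1
    have h2 : IsOfFinOrder (ζ * E.tau ζ) := hζ.mul ((E.tau : K →* K).isOfFinOrder hζ)
    rw [h1] at h2 ⊢
    have h3 : IsOfFinOrder (g ^ 2 - a * k ^ 2) :=
      ((algebraMap F K).injective.isOfFinOrder_iff (f := (algebraMap F K : F →* K))).1 h2
    rcases pm_one φ h3 with h4 | h4
    · rw [h4, map_one]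
    · have h5 := congrArg φ h4
      rw [map_sub, map_mul, map_pow, map_pow, map_neg, map_one] at h5
      nlinarith [sq_nonneg (φ g), mul_nonneg (neg_nonneg.2 (not_lt.1 h0)) (sq_nonneg (φ k))]

theorem fin_set (h : Sig v a) (hw : w.comap (algebraMap F K) = v) {c : ℝ} (hc : 0 < c) :
    {x : Kˣ | x ∈ Um E ∧ c ≤ w x ∧ w x < 1}.Finite := by
  refine ((Embeddings.finite_of_norm_le K ℂ c⁻¹).preimage
    (Units.val_injective.injOn)).subset ?_
  rintro x ⟨h1, h2, h3⟩
  obtain ⟨u, hu⟩ := isU_iff.1 ((mem_Um E).1 h1).1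
  refine ⟨hu ▸ RingOfIntegers.isIntegral_coe _, (InfinitePlace.le_iff_le _ _).1 fun w' => ?_⟩
  have h4 : 1 ≤ c⁻¹ := (one_le_inv₀ hc).2 (h2.trans h3.le)
  rcases vals E h hw ((mem_Um E).1 h1).2 w' with e | e | e <;> rw [e]
  · exact h4
  · exact h3.le.trans h4
  · exact inv_anti₀ hc h2

theorem exists_lt (h : Sig v a) (hw : w.comap (algebraMap F K) = v) :
    ∃ x ∈ Um E, w (x : K) < 1 := by
  obtain ⟨u, hu⟩ := Units.dirichletUnitTheorem.exists_unit K (E.iact w)
  refine ⟨dl E (io K u), map_dl_le E ⟨_, ⟨u, rfl⟩, rfl⟩, ?_⟩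
  have h0 : ∀ w' : InfinitePlace K, 0 < w' ((u : 𝓞 K) : K) := fun w' =>
    InfinitePlace.pos_iff.2 (io K u).ne_zero
  rw [coe_dl, map_div₀, ← E.iact_apply, coe_io, div_lt_one (h0 _)]
  by_contra h1
  have h2 := hu w (iact_ne E h hw).symm
  refine (Finset.sum_neg (fun w' _ => mul_neg_of_pos_of_neg ?_ ?_) Finset.univ_nonempty).ne
    (Units.sum_mult_mul_log u)
  · exact Nat.cast_pos.2 InfinitePlace.mult_pos
  · by_cases h3 : w' = E.iact w
    · rw [h3]
      exact (Real.log_le_log (h0 _) (not_lt.1 h1)).trans_lt h2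
    · exact hu w' h3

theorem card_ne (v : InfinitePlace F) [Fintype {u // u ≠ v}] :
    Fintype.card {u // u ≠ v} = Units.rank F := by
  classical
  convert (Fintype.card_subtype_compl (· = v)).trans ?_
  rw [Fintype.card_subtype_eq, Units.rank]

theorem exists_equiv (h : Sig v a) (hw : w.comap (algebraMap F K) = v) :
    ∃ p : {u // u ≠ v} ⊕ Unit ≃ {w' // w' ≠ E.iact w},
      (∀ u, (p (Sum.inl u)).1.comap (algebraMap F K) = u.1) ∧ ∀ x, (p (Sum.inr x)).1 = w := by
  choose s hs using InfinitePlace.comap_surjective (k := F) (K := K)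
  have h0 : (E.iact w).comap (algebraMap F K) = v :=
    ((E.comap_eq_iff w _).2 (Or.inr rfl)).trans hw
  let f : {u // u ≠ v} ⊕ Unit → {w' // w' ≠ E.iact w} :=
    Sum.elim (fun u => ⟨s u, fun e => u.2 ((hs u).symm.trans (e ▸ h0))⟩)
      fun _ => ⟨w, (iact_ne E h hw).symm⟩
  have hf : ∀ u, (f (Sum.inl u)).1.comap (algebraMap F K) = u.1 := fun u => hs u
  refine ⟨Equiv.ofBijective f ⟨?_, ?_⟩, hf, fun _ => rfl⟩
  · rintro (u | x) (u' | x') e
    · exact congrArg Sum.inl (Subtype.ext ((hf u).symm.trans (e ▸ hf u')))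
    · exact (u.2 ((hf u).symm.trans (e ▸ hw))).elim
    · exact (u'.2 ((hf u').symm.trans (e ▸ hw))).elim
    · rfl
  · rintro ⟨w', hw'⟩
    by_cases h1 : w'.comap (algebraMap F K) = v
    · exact ⟨Sum.inr (), Subtype.ext
        (((E.comap_eq_iff w w').1 (h1.trans hw.symm)).resolve_right hw').symm⟩
    · refine ⟨Sum.inl ⟨_, h1⟩, Subtype.ext ?_⟩
      rcases (E.comap_eq_iff w' _).1 (hs _) with e | e
      · exact e
      · exact e.trans (iact_eq E h h1)

theorem reg_index (h : Sig v a) (hw : w.comap (algebraMap F K) = v) {η : K} (hη : E.Gen w η) :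
    ∃ S : Set (𝓞 K)ˣ,
      (∀ u, u ∈ S ↔ ((u : 𝓞 K) : K) = η ∨ ∃ i, u = jo F K (Units.fundSystem F i)) ∧
      ((Subgroup.closure S ⊔ Units.torsion K).index : ℝ) * Units.regulator K =
        2 ^ Units.rank F * Units.regulator F * (-(w.mult * Real.log (w η))) := by
  classical
  obtain ⟨p, hp, hp'⟩ := exists_equiv E h hw
  obtain ⟨η', rfl⟩ := isU_iff.1 hη.unit
  let eF := Fintype.equivFinOfCardEq (card_ne v)
  let eK := Fintype.equivFinOfCardEq (card_ne (E.iact w))
  let g : {u // u ≠ v} ⊕ Unit → (𝓞 K)ˣ :=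
    Sum.elim (fun u => jo F K (Units.fundSystem F (eF u))) fun _ => η'
  refine ⟨Set.range fun j => g (p.symm (eK.symm j)), fun u => ?_, ?_⟩
  · constructor
    · rintro ⟨j, rfl⟩
      beta_reduce
      rcases p.symm (eK.symm j) with x | x
      · exact Or.inr ⟨_, rfl⟩
      · exact Or.inl rfl
    · rintro (e | ⟨i, rfl⟩)
      · exact ⟨eK (p (Sum.inr ())), by
          simpa [g] using io_inj (Units.ext e.symm : io K η' = io K u)⟩
      · exact ⟨eK (p (Sum.inl (eF.symm i))), by simp [g]⟩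
  · rw [← Units.regOfFamily_div_regulator, div_mul_cancel₀ _ (Units.regulator_ne_zero K),
      Units.regOfFamily_eq_det _ _ eK, ← Matrix.det_submatrix_equiv_self p,
      Units.regulator_eq_det F v eF]
    have key : (Matrix.of fun i w' : {w' // w' ≠ E.iact w} => (w'.1.mult : ℝ) *
        Real.log (w'.1 ((g (p.symm (eK.symm (eK i))) : 𝓞 K) : K))).submatrix p p =
        Matrix.fromBlocks ((2 : ℝ) • Matrix.of fun i u : {u // u ≠ v} => (u.1.mult : ℝ) *
          Real.log (u.1 ((Units.fundSystem F (eF i) : 𝓞 F) : F)))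
          (Matrix.of fun i _ => (w.mult : ℝ) * Real.log (w ((g (Sum.inl i) : 𝓞 K) : K))) 0
          (Matrix.of fun _ _ => (w.mult : ℝ) * Real.log (w ((η' : 𝓞 K) : K))) := by
      ext i j
      rw [Matrix.submatrix_apply, Matrix.of_apply, Equiv.symm_apply_apply, Equiv.symm_apply_apply]
      rcases j with j | j
      · have h1 : (p (Sum.inl j)).1.comap (algebraMap F K) ≠ v := (hp j).symm ▸ j.2
        obtain ⟨-, h2, h3⟩ := E.mult_of_iact_eq (iact_eq E h h1)
        rcases i with i | i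
        · rw [Matrix.fromBlocks_apply₁₁, Matrix.smul_apply, Matrix.of_apply, ← hp j, h2, h3,
            InfinitePlace.comap_apply, ← coe_jo]
          simp [g]
        · rw [Matrix.fromBlocks_apply₂₁, Matrix.zero_apply,
            show (p (Sum.inl j)).1 ((g (Sum.inr i) : 𝓞 K) : K) = 1 from other E h hη.norm _ h1,
            Real.log_one, mul_zero]
      · rw [hp']
        rcases i with i | i <;> rfl
    rw [key, Matrix.det_fromBlocks_zero₂₁, Matrix.det_smul, card_ne, Matrix.det_unique (n := Unit),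
      Matrix.of_apply, abs_mul, abs_mul, abs_of_pos (pow_pos two_pos _), abs_of_nonpos
        (mul_nonpos_of_nonneg_of_nonpos (Nat.cast_nonneg _)
          (Real.log_nonpos (apply_nonneg _ _) hη.lt.le))]

end ClassNumAux

open ClassNumAux

theorem Sig.torsionOrder (h : Sig v a) : Units.torsionOrder F = 2 := by
  classical
  obtain ⟨φ⟩ := h.real
  let := Fintype.ofFinite (Units.torsion F)
  rw [Units.torsionOrder, Nat.card_eq_fintype_card]
  refine (Finset.card_eq_two.2 ⟨1, ⟨-1, neg_one_mem_torsion⟩,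
    by simp [← Subtype.coe_ne_coe], Finset.ext fun x ↦ ⟨fun _ ↦ ?_, fun _ ↦ Finset.mem_univ _⟩⟩)
  rw [Finset.mem_insert, Finset.mem_singleton, ← Subtype.val_inj, ← Subtype.val_inj]
  rcases pm_one φ ((fin_iff x.1).1 x.2) with e | e
  · exact Or.inl (io_inj (Units.ext e))
  · exact Or.inr (io_inj (Units.ext (e.trans (by simp [coe_io]))))

include E in
theorem Quad.rank_eq (h : Sig v a) : Units.rank K = Units.rank F + 1 := by
  classical
  obtain ⟨w, hw⟩ := InfinitePlace.comap_surjective (k := F) (K := K) v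
  obtain ⟨p, -⟩ := exists_equiv E h hw
  rw [← card_ne (E.iact w), ← card_ne v, ← Fintype.card_congr p, Fintype.card_sum,
    Fintype.card_unit]

theorem Quad.exists_gen (h : Sig v a) (hw : w.comap (algebraMap F K) = v) : ∃ η, E.Gen w η := by
  obtain ⟨x, hx, hx1⟩ := exists_lt E h hw
  have h0 : ∀ y : Kˣ, 0 < w y := fun y => InfinitePlace.pos_iff.2 y.ne_zero
  obtain ⟨η, ⟨h1, h2, h3⟩, hm⟩ := Set.exists_max_image _ (fun y : Kˣ => w y)
    (fin_set E h hw (h0 x)) ⟨x, hx, le_rfl, hx1⟩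
  refine ⟨η, ((mem_Um E).1 h1).1, ((mem_Um E).1 h1).2, h3, tors E h hw, fun u hu hu' => ?_⟩
  have h4 : Units.mk0 u hu.1 ∈ Um E := (mem_Um E).2 ⟨hu, hu'⟩
  obtain ⟨n, h5, h6⟩ := exists_mem_Ioc_zpow (h0 (Units.mk0 u hu.1)) ((one_lt_inv₀ (h0 η)).2 h3)
  have h7 := mul_mem h4 (zpow_mem h1 (n + 1))
  have h8 : w (Units.mk0 u hu.1 * η ^ (n + 1) : Kˣ) = w u * w η ^ (n + 1) := by simp
  rw [Units.val_mk0, inv_zpow] at h5 h6
  have h9 : w (Units.mk0 u hu.1 * η ^ (n + 1) : Kˣ) = 1 := by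
    have k1 : w η < w u * w η ^ (n + 1) := by
      rw [zpow_add_one₀ (h0 η).ne', ← mul_assoc]
      refine lt_mul_of_one_lt_left (h0 η) ?_
      rwa [inv_lt_iff_one_lt_mul₀ (zpow_pos (h0 η) _)] at h5
    have k2 : w u * w η ^ (n + 1) ≤ 1 := by
      rwa [← one_div, le_div_iff₀ (zpow_pos (h0 η) _)] at h6
    rw [← h8] at k1 k2
    by_contra k3
    exact (hm _ ⟨h7, h2.trans k1.le, lt_of_le_of_ne k2 k3⟩).not_gt k1
  obtain ⟨z, hz⟩ := isU_iff.1 ((mem_Um E).1 h7).1
  refine ⟨(Units.mk0 u hu.1 * η ^ (n + 1) : Kˣ), -(n + 1), ?_, ?_⟩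
  · refine hz ▸ (fin_iff z).1 ((Units.mem_torsion K).2 fun w' => (congrArg w' hz).trans ?_)
    rcases vals E h hw ((mem_Um E).1 h7).2 w' with e | e | e <;> rw [e]
    · exact h9
    · rw [h9, inv_one]
  · rw [Units.val_mul, Units.val_zpow_eq_zpow_val, Units.val_mk0, zpow_neg,
      mul_inv_cancel_right₀ (zpow_ne_zero _ η.ne_zero)]

theorem Quad.gen_other (h : Sig v a) {u : K} (hu : u * E.tau u = 1) (w' : InfinitePlace K)
    (hw' : w'.comap (algebraMap F K) ≠ v) : w' u = 1 :=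
  other E h hu w' hw'

theorem Quad.class_number (h : Sig v a) (hw : w.comap (algebraMap F K) = v) {η : K}
    (hη : E.Gen w η) (R : Finset (Pr K)) (hR : ∀ Q, Q ∈ R ↔ eI F Q = 2) :
    8 * (classNumber K : ℝ) * Units.regulator K =
      2 ^ (R.card + Fintype.card (InfinitePlace F)) * E.M * classNumber F * Units.regulator F *
        (-(w.mult * Real.log (w η))) := by
  obtain ⟨S, hS, h1⟩ := reg_index E h hw hη
  obtain ⟨A, h2, h3⟩ := amb_formula E R hR
  have h4 := unit_index E hη S hS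
  have h5 : Fintype.card (InfinitePlace F) = Units.rank F + 1 :=
    (Nat.sub_add_cancel Fintype.card_pos).symm
  generalize (Subgroup.closure S ⊔ Units.torsion K).index = Q at h1 h4
  generalize ((io K).range.map (dl E)).relIndex (Um E) = H at h3 h4
  have k2 : (A : ℝ) * E.M = classNumber K := by exact_mod_cast h2
  have k3 : (H : ℝ) * A = 2 ^ R.card * classNumber F := by exact_mod_cast h3
  have k4 : (Q : ℝ) * H = 4 := by exact_mod_cast h4
  rw [h5, ← k2, pow_add, pow_succ]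
  linear_combination (-2 * A * E.M * Units.regulator K) * k4 +
    (2 * E.M * Q * Units.regulator K) * k3 + (2 * E.M * 2 ^ R.card * classNumber F) * h1

end Pool.Agent.Stark
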