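import Pool.Agent.Lib.MP_ca56d1_nt.Split

/-! Index computations for ambiguous divisors and norm one units of a quadratic extension. -/

namespace Pool.Agent.Stark

namespace ClassNumAux

open NumberField

variable {F K : Type*} [Field F] [NumberField F] [Field K] [NumberField K] [Algebra F K]
  {a : F} (E : Quad F K a)

theorem og_mul (Q : Pr K) {x y : K} (hx : x ≠ 0) (hy : y ≠ 0) :
    og Q (x * y) = og Q x + og Q y := ord_mul hx hy

theorem og_div (Q : Pr K) {x y : K} (hx : x ≠ 0) (hy : y ≠ 0) :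
    og Q (x / y) = og Q x - og Q y := ord_div hx hy

variable (K) in
/-- Extension of divisors. -/
noncomputable def ext : Dv F →+ Dv K where
  toFun D := Finsupp.ofSupportFinite (fun Q => eI F Q * D (below F Q))
    ((D.support.finite_toSet.biUnion fun q _ => below_finite (K := K) q).subset fun Q hQ =>
      Set.mem_biUnion (x := below F Q)
        (Finsupp.mem_support_iff.2 (right_ne_zero_of_mul hQ)) rfl)
  map_zero' := Finsupp.ext fun Q => mul_zero _
  map_add' D D' := Finsupp.ext fun Q => mul_add _ _ _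

theorem ext_apply (D : Dv F) (Q : Pr K) : ext K D Q = eI F Q * D (below F Q) := rfl

theorem dv_alg (t : F) : dv (algebraMap F K t) = ext K (dv t) :=
  Finsupp.ext fun Q => og_algebraMap Q t

include E in
theorem eI_cases (Q : Pr K) : eI F Q = 1 ∨ (eI F Q = 2 ∧ E.act Q = Q) := by
  rcases E.efg Q with h | h | h
  · exact Or.inl h.2.1
  · exact Or.inl h.2.1
  · exact Or.inr ⟨h.2.1, h.1⟩

theorem eI_act (Q : Pr K) : eI F (E.act Q) = eI F Q := by
  rcases eI_cases E Q with h | h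
  · rcases eI_cases E (E.act Q) with h' | h'
    · rw [h, h']
    · rw [E.act_act] at h'
      rw [← h'.2]
  · rw [h.2]

include E in
theorem eI_ne (Q : Pr K) : (eI F Q : ℤ) ≠ 0 := by
  rcases eI_cases E Q with h | h
  · simp [h]
  · simp [h.1]

include E in
theorem ext_inj : Function.Injective (ext K : Dv F →+ Dv K) := fun D D' h => Finsupp.ext fun q => by
  obtain ⟨Q, rfl⟩ := below_surj (K := K) q
  exact mul_left_cancel₀ (eI_ne E Q) (DFunLike.congr_fun h Q)

theorem ext_amb (D : Dv F) : ext K D ∈ E.amb := fun Q => by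
  rw [ext_apply, ext_apply, eI_act, E.below_act]

theorem index_ext (R : Finset (Pr K)) (hR : ∀ Q, Q ∈ R ↔ eI F Q = 2) :
    ((⊤ : AddSubgroup (Dv F)).map (ext K)).relIndex E.amb = 2 ^ R.card := by
  classical
  let f : Dv K →+ (R → ZMod 2) :=
    { toFun := fun D Q => (D Q : ZMod 2)
      map_zero' := by ext; simp
      map_add' := fun D D' => by ext; simp }
  have h1 : (⊤ : AddSubgroup (Dv F)).map (ext K) = f.ker ⊓ E.amb := by
    ext D
    constructor
    · rintro ⟨D', -, rfl⟩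
      refine ⟨funext fun Q => ?_, ext_amb E D'⟩
      change ((eI F Q.1 * D' (below F Q.1) : ℤ) : ZMod 2) = 0
      rw [(hR Q.1).1 Q.2, Int.cast_mul]
      exact mul_eq_zero_of_left rfl _
    · rintro ⟨h1, h2⟩
      choose s hs using below_surj (F := F) (K := K)
      refine ⟨Finsupp.ofSupportFinite (fun q => D (s q) / eI F (s q))
        ((D.support.finite_toSet.image (below F)).subset fun q hq =>
          ⟨s q, Finsupp.mem_support_iff.2 fun h0 => hq (by simp [h0]), hs q⟩), trivial,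
        Finsupp.ext fun Q => ?_⟩
      change eI F Q * (D (s (below F Q)) / eI F (s (below F Q))) = D Q
      have h3 : D (s (below F Q)) = D Q ∧ eI F (s (below F Q)) = eI F Q := by
        rcases (E.below_eq_iff Q _).1 (hs (below F Q)) with h | h <;> rw [h]
        · exact ⟨rfl, rfl⟩
        · exact ⟨h2 Q, eI_act E Q⟩
      rw [h3.1, h3.2]
      refine Int.mul_ediv_cancel' ?_
      rcases eI_cases E Q with h | h
      · simp [h]
      · rw [h.1]
        exact (ZMod.intCast_zmod_eq_zero_iff_dvd _ 2).1 (congrFun h1 ⟨Q, (hR Q).2 h.1⟩)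
  have h2 : E.amb.map f = ⊤ := by
    rw [eq_top_iff]
    intro g _
    refine ⟨Finsupp.onFinset R (fun Q => if h : Q ∈ R then ((g ⟨Q, h⟩).val : ℤ) else 0)
      (fun Q hQ => by by_contra h; exact hQ (dif_neg h)), fun Q => ?_, funext fun Q => ?_⟩
    · by_cases h : Q ∈ R
      · rcases eI_cases E Q with h' | h'
        · rw [(hR Q).1 h] at h'; omega
        · rw [h'.2]
      · have h' : E.act Q ∉ R := by rwa [hR, eI_act, ← hR]
        simp [h, h']
    · change ((if h : Q.1 ∈ R then ((g ⟨Q.1, h⟩).val : ℤ) else 0 : ℤ) : ZMod 2) = g Q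
      simp [Q.2]
  rw [h1, AddSubgroup.inf_relIndex_right, AddSubgroup.relIndex_ker, h2, AddSubgroup.card_top]
  simp

/-- The conjugation on units. -/
noncomputable def tu : Kˣ →* Kˣ := Units.map (E.tau : K →* K)

@[simp] theorem coe_tu (x : Kˣ) : (tu E x : K) = E.tau x := rfl

/-- The map `x ↦ x / τ x`. -/
noncomputable def dl : Kˣ →* Kˣ where
  toFun x := x / tu E x
  map_one' := by simp
  map_mul' x y := by rw [map_mul, mul_div_mul_comm]

theorem coe_dl (x : Kˣ) : (dl E x : K) = x / E.tau x := by simp [dl]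

variable (K) in
/-- The inclusion of the units of the ring of integers. -/
noncomputable def io : (𝓞 K)ˣ →* Kˣ := Units.map (algebraMap (𝓞 K) K : 𝓞 K →* K)

omit [NumberField K] in
theorem coe_io (u : (𝓞 K)ˣ) : (io K u : K) = ((u : 𝓞 K) : K) := rfl

omit [NumberField K] in
theorem io_inj : Function.Injective (io K) :=
  Units.map_injective (FaithfulSMul.algebraMap_injective _ _)

theorem mem_io {x : Kˣ} : x ∈ (io K).range ↔ IsU (x : K) := by
  rw [isU_iff]
  exact ⟨fun ⟨u, hu⟩ => ⟨u, congrArg Units.val hu⟩, fun ⟨u, hu⟩ => ⟨u, Units.ext hu⟩⟩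

/-- Units of relative norm one. -/
noncomputable def Um : Subgroup Kˣ := (io K).range ⊓ (MonoidHom.id Kˣ * tu E).ker

theorem mem_Um {x : Kˣ} : x ∈ Um E ↔ IsU (x : K) ∧ (x : K) * E.tau x = 1 := by
  rw [Um, Subgroup.mem_inf, mem_io, MonoidHom.mem_ker, Units.ext_iff]
  rfl

theorem dl_of_mem {x : Kˣ} (h : x ∈ Um E) : dl E x = x ^ 2 := by
  refine Units.ext ?_
  have h1 := (mem_Um E).1 h
  rw [coe_dl, Units.val_pow_eq_pow_val, div_eq_iff (right_ne_zero_of_mul_eq_one h1.2)]
  linear_combination (-(x : K)) * h1.2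

theorem tau_ne {x : K} (hx : x ≠ 0) : E.tau x ≠ 0 := by simpa using hx

theorem isU_dl {x : Kˣ} : IsU (dl E x : K) ↔ dv (x : K) ∈ E.amb := by
  rw [coe_dl]
  refine ⟨fun h Q => ?_, fun h => ⟨div_ne_zero x.ne_zero (tau_ne E x.ne_zero), fun Q => ?_⟩⟩
  · have := h.2 Q
    rw [og_div Q x.ne_zero (tau_ne E x.ne_zero), ← E.og_act] at this
    exact (sub_eq_zero.1 this).symm
  · rw [og_div Q x.ne_zero (tau_ne E x.ne_zero), ← E.og_act]
    exact sub_eq_zero.2 (h Q).symm

theorem dl_norm (x : Kˣ) : (dl E x : K) * E.tau (dl E x) = 1 := by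
  have h1 := x.ne_zero
  have h2 := tau_ne E h1
  rw [coe_dl, map_div₀, E.tau_tau]
  field_simp

theorem dv_of_isU {x : K} (h : IsU x) : dv x = 0 := Finsupp.ext h.2

theorem dl_eq_one {x : Kˣ} (h : dl E x = 1) : ∃ t : F, t ≠ 0 ∧ (x : K) = algebraMap F K t := by
  have h1 := congrArg Units.val h
  rw [coe_dl, Units.val_one, div_eq_one_iff_eq (tau_ne E x.ne_zero)] at h1
  obtain ⟨t, ht⟩ := E.fixed h1.symm
  exact ⟨t, fun h0 => x.ne_zero (by rw [ht, h0, map_zero]), ht⟩

theorem dl_alg {x : Kˣ} {t : F} (h : (x : K) = algebraMap F K t) : dl E x = 1 := by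
  refine Units.ext ?_
  rw [coe_dl, Units.val_one, div_eq_one_iff_eq (tau_ne E x.ne_zero), h, AlgEquiv.commutes]

variable (K) in
/-- The divisor map on units. -/
noncomputable def dvm : Kˣ →* Multiplicative (Dv K) where
  toFun x := Multiplicative.ofAdd (dv (x : K))
  map_one' := congrArg Multiplicative.ofAdd (Finsupp.ext fun Q => ord_one)
  map_mul' x y := congrArg Multiplicative.ofAdd (dv_mul x.ne_zero y.ne_zero)

theorem map_dl_le : (io K).range.map (dl E) ≤ Um E := by
  rintro _ ⟨x, hx, rfl⟩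
  refine (mem_Um E).2 ⟨(isU_dl E).2 ?_, dl_norm E x⟩
  rw [dv_of_isU (mem_io.1 hx)]
  exact zero_mem _

theorem index_amb : ((prin F).map (ext K)).relIndex (prin K ⊓ E.amb) =
    ((io K).range.map (dl E)).relIndex (Um E) := by
  have h1 : (E.amb.toSubgroup.comap (dvm K)).map (dvm K) = (prin K ⊓ E.amb).toSubgroup := by
    ext D
    constructor
    · rintro ⟨x, hx, rfl⟩
      exact ⟨mem_prin.2 ⟨x, x.ne_zero, rfl⟩, hx⟩
    · rintro ⟨h1, h2⟩
      obtain ⟨x, hx, e⟩ := mem_prin.1 h1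
      refine ⟨Units.mk0 x hx, ?_, congrArg Multiplicative.ofAdd e⟩
      change dv x ∈ E.amb
      rw [e]
      exact h2
  have h2 : (E.amb.toSubgroup.comap (dvm K)).map (dl E) = Um E := by
    ext u
    constructor
    · rintro ⟨x, hx, rfl⟩
      exact (mem_Um E).2 ⟨(isU_dl E).2 hx, dl_norm E x⟩
    · intro hu
      obtain ⟨h1, h2⟩ := (mem_Um E).1 hu
      obtain ⟨β, hβ, e⟩ := E.hilbert90 h2
      have h3 : dl E (Units.mk0 β hβ) = u := by
        refine Units.ext ?_
        rw [coe_dl, Units.val_mk0, div_eq_iff (tau_ne E hβ)]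
        exact e
      exact ⟨_, (isU_dl E).1 (h3 ▸ h1), h3⟩
  have h3 : ((prin F).map (ext K)).toSubgroup.comap (dvm K) =
      ((io K).range.map (dl E)).comap (dl E) := by
    ext x
    constructor
    · rintro ⟨D, hD, e⟩
      obtain ⟨t, ht, rfl⟩ := mem_prin.1 hD
      have ht' : algebraMap F K t ≠ 0 := by simpa using ht
      refine ⟨x / Units.mk0 _ ht', mem_io.2 ⟨Units.ne_zero _, fun Q => ?_⟩, ?_⟩
      · rw [Units.val_div_eq_div_val, Units.val_mk0, og_div Q x.ne_zero ht', sub_eq_zero,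
          ← dv_apply, ← dv_apply, dv_alg, e]
        rfl
      · rw [map_div, dl_alg E (x := Units.mk0 _ ht') rfl, div_one]
    · rintro ⟨u, hu, e⟩
      obtain ⟨t, ht, e'⟩ := dl_eq_one E (x := x / u) (by rw [map_div, e, div_self'])
      refine ⟨dv t, mem_prin.2 ⟨t, ht, rfl⟩, ?_⟩
      change _ = dv (x : K)
      rw [← dv_alg, ← e', Units.val_div_eq_div_val]
      refine Finsupp.ext fun Q => ?_
      rw [dv_apply, dv_apply, og_div Q x.ne_zero u.ne_zero, (mem_io.1 hu).2 Q, sub_zero]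
  rw [← AddSubgroup.relIndex_toSubgroup, ← h1, ← h2, ← Subgroup.relIndex_comap,
    ← Subgroup.relIndex_comap, h3]

/-- The ambiguous class number formula. -/
theorem amb_formula (R : Finset (Pr K)) (hR : ∀ Q, Q ∈ R ↔ eI F Q = 2) :
    ∃ A : ℕ, A * E.M = classNumber K ∧
      ((io K).range.map (dl E)).relIndex (Um E) * A = 2 ^ R.card * classNumber F := by
  refine ⟨(prin K).relIndex E.amb, ?_, ?_⟩
  · rw [← index_prin, ← AddSubgroup.relIndex_mul_index (le_sup_left : prin K ≤ prin K ⊔ E.amb),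
      AddSubgroup.relIndex_sup_left]
    rfl
  · have h1 : (prin F).map (ext K) ≤ prin K ⊓ E.amb := by
      rintro _ ⟨D, hD, rfl⟩
      obtain ⟨t, ht, rfl⟩ := mem_prin.1 hD
      exact ⟨mem_prin.2 ⟨algebraMap F K t, by simpa using ht, dv_alg t⟩, ext_amb E _⟩
    have h2 : (⊤ : AddSubgroup (Dv F)).map (ext K) ≤ E.amb := by
      rintro _ ⟨D, -, rfl⟩
      exact ext_amb E D
    rw [← index_amb, ← AddSubgroup.inf_relIndex_right (prin K),
      AddSubgroup.relIndex_mul_relIndex _ _ _ h1 inf_le_right,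
      ← AddSubgroup.relIndex_mul_relIndex _ _ _ (AddSubgroup.map_mono le_top) h2,
      index_ext E R hR, AddSubgroup.relIndex_map_map_of_injective _ _ (ext_inj E),
      AddSubgroup.relIndex_top_right, index_prin, mul_comm]

omit [NumberField K] in
theorem fin_iff (u : (𝓞 K)ˣ) : u ∈ Units.torsion K ↔ IsOfFinOrder ((u : 𝓞 K) : K) := by
  rw [Units.torsion, CommGroup.mem_torsion, ← (io_inj (K := K)).isOfFinOrder_iff,
    ← Units.isOfFinOrder_val]
  rfl

theorem place_of_fin {ζ : K} (h : IsOfFinOrder ζ) (w : InfinitePlace K) : w ζ = 1 := by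
  obtain ⟨u, rfl⟩ := isU_iff.1 (isU_of_isOfFinOrder h)
  exact (Units.mem_torsion K).1 ((fin_iff u).2 h) w

variable {w : InfinitePlace K} {η : K}

theorem index_sq (hη : E.Gen w η) : ((Um E).map (powMonoidHom 2)).relIndex (Um E) = 4 := by
  let f : Units.torsion K × Multiplicative ℤ →* Kˣ :=
    ((io K).comp (Units.torsion K).subtype).coprod (zpowersHom Kˣ (Units.mk0 η hη.unit.1))
  have hf : ∀ p : Units.torsion K × Multiplicative ℤ,
      (f p : K) = ((p.1.1 : 𝓞 K) : K) * η ^ p.2.toAdd := fun p => by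
    simp [f, coe_io]
  have h0 : 0 < w η := InfinitePlace.pos_iff.2 hη.unit.1
  have h1 : Function.Injective f := by
    rw [injective_iff_map_eq_one]
    rintro ⟨ζ, n⟩ h
    have h2 := hf (ζ, n)
    rw [h, Units.val_one] at h2
    have h3 := congrArg w h2
    rw [map_one, map_mul, map_zpow₀, (Units.mem_torsion K).1 ζ.2 w, one_mul, eq_comm,
      zpow_eq_one_iff_right₀ h0.le hη.lt.ne] at h3
    simp only at h2 h3
    rw [h3, zpow_zero, mul_one] at h2
    refine Prod.ext (Subtype.ext (io_inj (Units.ext h2.symm))) ?_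
    exact toAdd_eq_zero.1 h3
  have h2 : (⊤ : Subgroup (Units.torsion K × Multiplicative ℤ)).map f = Um E := by
    ext x
    constructor
    · rintro ⟨⟨ζ, n⟩, -, rfl⟩
      refine mul_mem ((mem_Um E).2 ⟨mem_io.1 ⟨_, rfl⟩, hη.tors _ ((fin_iff _).1 ζ.2)⟩)
        (zpow_mem ((mem_Um E).2 ⟨hη.unit, hη.norm⟩) _)
    · intro hx
      obtain ⟨ζ, n, h3, h4⟩ := hη.gen x ((mem_Um E).1 hx).1 ((mem_Um E).1 hx).2
      obtain ⟨u, rfl⟩ := isU_iff.1 (isU_of_isOfFinOrder h3)
      exact ⟨(⟨u, (fin_iff u).2 h3⟩, Multiplicative.ofAdd n), trivial,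
        Units.ext ((hf _).trans h4.symm)⟩
  have h3 : (Um E).map (powMonoidHom 2) =
      (((powMonoidHom 2 : Units.torsion K →* Units.torsion K).range).prod
        (AddSubgroup.zmultiples (2 : ℤ)).toSubgroup).map f := by
    rw [← h2]
    ext x
    constructor
    · rintro ⟨_, ⟨p, -, rfl⟩, rfl⟩
      refine ⟨p ^ 2, ⟨⟨p.1, rfl⟩, ⟨p.2.toAdd, ?_⟩⟩, map_pow f p 2⟩
      simp [mul_comm]
    · rintro ⟨⟨_, m⟩, ⟨⟨ζ, rfl⟩, n, hn⟩, rfl⟩
      refine ⟨_, ⟨(ζ, Multiplicative.ofAdd n), trivial, rfl⟩, (map_pow f _ 2).symm.trans ?_⟩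
      refine congrArg f (Prod.ext rfl (Multiplicative.toAdd.injective ?_))
      rw [← show n • (2 : ℤ) = m.toAdd from hn]
      simp [mul_comm]
  rw [h3, ← h2, Subgroup.relIndex_map_map_of_injective _ _ h1, Subgroup.relIndex_top_right,
    Subgroup.index_prod, IsCyclic.index_powMonoidHom_range, AddSubgroup.index_toSubgroup,
    Int.index_zmultiples, Nat.gcd_eq_right
      (show 2 ∣ Nat.card (Units.torsion K) from (Units.even_torsionOrder K).two_dvd)]
  rfl

variable (F K) in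
/-- The inclusion of the units of the base field. -/
noncomputable def jo : (𝓞 F)ˣ →* (𝓞 K)ˣ := Units.map (algebraMap (𝓞 F) (𝓞 K) : 𝓞 F →* 𝓞 K)

omit [NumberField F] [NumberField K] in
theorem coe_jo (u : (𝓞 F)ˣ) : ((jo F K u : 𝓞 K) : K) = algebraMap F K ((u : 𝓞 F) : F) := rfl

theorem closure_eq (hη : E.Gen w η) (S : Set (𝓞 K)ˣ)
    (hS : ∀ u, u ∈ S ↔ ((u : 𝓞 K) : K) = η ∨ ∃ i, u = jo F K (Units.fundSystem F i)) :
    Subgroup.closure S ⊔ Units.torsion K =
      (((Um E).map (powMonoidHom 2)).comap (dl E)).comap (io K) := by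
  have key : ∀ u : (𝓞 K)ˣ, io K u ∈ Um E →
      u ∈ (((Um E).map (powMonoidHom 2)).comap (dl E)).comap (io K) :=
    fun u hu => ⟨_, hu, (dl_of_mem E hu).symm⟩
  refine le_antisymm (sup_le ((Subgroup.closure_le _).2 fun u hu => ?_) fun u hu => ?_) ?_
  · rcases (hS u).1 hu with h | ⟨i, rfl⟩
    · exact key u ((mem_Um E).2 (by rw [coe_io, h]; exact ⟨hη.unit, hη.norm⟩))
    · exact ⟨1, one_mem _, by rw [map_one, dl_alg E (coe_jo _)]⟩
  · exact key u ((mem_Um E).2 ⟨mem_io.1 ⟨_, rfl⟩, hη.tors _ ((fin_iff _).1 hu)⟩)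
  · rintro u ⟨z, hz, e⟩
    obtain ⟨t, ht, e'⟩ := dl_eq_one E (x := io K u / z) (by
      rw [map_div, ← e, dl_of_mem E hz]; exact div_self' _)
    obtain ⟨ζ, n, h3, h4⟩ := hη.gen z ((mem_Um E).1 hz).1 ((mem_Um E).1 hz).2
    obtain ⟨ζ', rfl⟩ := isU_iff.1 (isU_of_isOfFinOrder h3)
    obtain ⟨η', rfl⟩ := isU_iff.1 hη.unit
    have h5 : IsU t := ⟨ht, fun q => by
      obtain ⟨Q, rfl⟩ := below_surj (K := K) q
      have := (mem_io.1 (div_mem (⟨u, rfl⟩ : io K u ∈ (io K).range) hz.1)).2 Q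
      rw [e', og_algebraMap] at this
      exact (mul_eq_zero.1 this).resolve_left (eI_ne E Q)⟩
    obtain ⟨t', rfl⟩ := isU_iff.1 h5
    have h6 : u = jo F K t' * (ζ' * η' ^ n) := by
      refine io_inj (Units.ext ?_)
      rw [Units.val_div_eq_div_val, div_eq_iff z.ne_zero, h4] at e'
      rw [e', map_mul, map_mul, map_zpow]
      simp [coe_io, coe_jo]
    rw [h6]
    refine mul_mem ?_ (mul_mem (Subgroup.mem_sup_right ((fin_iff _).2 h3))
      (zpow_mem (Subgroup.mem_sup_left (Subgroup.subset_closure ((hS _).2 (Or.inl rfl)))) _))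
    have h7 : (⊤ : Subgroup (𝓞 F)ˣ) ≤ (Subgroup.closure S ⊔ Units.torsion K).comap (jo F K) := by
      rw [← Units.closure_fundSystem_sup_torsion_eq_top]
      refine sup_le ((Subgroup.closure_le _).2 ?_) fun x hx => ?_
      · rintro _ ⟨i, rfl⟩
        exact Subgroup.mem_sup_left (Subgroup.subset_closure ((hS _).2 (Or.inr ⟨i, rfl⟩)))
      · exact Subgroup.mem_sup_right ((jo F K).isOfFinOrder hx)
    exact h7 trivial

theorem unit_index (hη : E.Gen w η) (S : Set (𝓞 K)ˣ)
    (hS : ∀ u, u ∈ S ↔ ((u : 𝓞 K) : K) = η ∨ ∃ i, u = jo F K (Units.fundSystem F i)) :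
    (Subgroup.closure S ⊔ Units.torsion K).index *
      ((io K).range.map (dl E)).relIndex (Um E) = 4 := by
  rw [closure_eq E hη S hS, Subgroup.index_comap, Subgroup.relIndex_comap,
    Subgroup.relIndex_mul_relIndex _ _ _ ?_ (map_dl_le E), index_sq E hη]
  rintro _ ⟨z, hz, rfl⟩
  exact ⟨z, hz.1, dl_of_mem E hz⟩

end ClassNumAux

end Pool.Agent.Stark
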