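import Pool.Agent.Lib.MP_ca56d1_nt.EulerQuad
import Pool.Agent.Lib.MP_ca56d1_nt.ZetaZero
import Pool.Agent.Lib.MP_ca56d1_nt.ClassNum

/-! Continuation of quadratic `L`-functions and their derivatives at `s = 0`. -/

namespace Pool.Agent.Stark

open NumberField StarkStmt

namespace ContAux

open Asymptotics Filter Topology

theorem deriv_zero {Z : ℂ → ℂ} {n : ℕ} (hn : 2 ≤ n) (h : Z =O[𝓝 0] fun s => s ^ n) :
    deriv Z 0 = 0 := by
  have h1 : Z =o[𝓝 0] fun s => s := h.trans_isLittleO (isLittleO_pow_id (by omega))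
  have h0 : Z 0 = 0 := by
    have := (h1.bound one_pos).self_of_nhds
    simpa using this
  refine HasDerivAt.deriv (hasDerivAt_iff_isLittleO.2 ?_)
  simpa [h0] using h1

theorem big_one {f : ℂ → ℂ} (h : AnalyticAt ℂ f 0) : f =O[𝓝 0] fun _ => (1 : ℂ) :=
  h.continuousAt.tendsto.isBigO_one ℂ

theorem big_id {f : ℂ → ℂ} (h : AnalyticAt ℂ f 0) (h0 : f 0 = 0) : f =O[𝓝 0] fun s => s := by
  simpa [h0] using h.differentiableAt.isBigO_sub

theorem an_pow {F : Type*} [Field F] [NumberField F] (q : Pr F) (z : ℂ) :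
    AnalyticAt ℂ (fun s : ℂ => (Ideal.absNorm q.asIdeal : ℂ) ^ (-s)) z := by
  have h : (Ideal.absNorm q.asIdeal : ℂ) ≠ 0 :=
    Nat.cast_ne_zero.2 (Ideal.absNorm_eq_zero_iff.not.2 q.ne_bot)
  exact (differentiable_neg.const_cpow (Or.inl h)).analyticAt z

theorem deriv_one {G : ℂ → ℂ} (h : AnalyticAt ℂ G 0) : deriv (fun s => s ^ 1 * G s) 0 = G 0 := by
  have := ((hasDerivAt_id (0 : ℂ)).fun_mul h.differentiableAt.hasDerivAt).deriv
  simpa using this

variable {F K : Type*} [Field F] [NumberField F] [Field K] [NumberField K] [Algebra F K]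

theorem an_eul (a : F) (q : Pr F) (z : ℂ) : AnalyticAt ℂ (eul K a q) z := by
  unfold eul
  split_ifs
  · exact analyticAt_const.sub (an_pow q z)
  · exact analyticAt_const
  · exact analyticAt_const.add (an_pow q z)

theorem an_prod (a : F) (S : Finset (Pr F)) (z : ℂ) :
    AnalyticAt ℂ (fun s => ∏ q ∈ S, eul K a q s) z :=
  Finset.analyticAt_fun_prod S fun q _ => an_eul a q z

open scoped Classical in
theorem card_neg (a : F) (T : Finset (InfinitePlace F))
    (hT : ∀ u ∈ T, ∀ φ : F →+* ℝ, plc φ = u → 0 < φ a) :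
    (Finset.univ.filter fun φ : F →+* ℝ => φ a < 0).card + T.card
      ≤ Fintype.card (InfinitePlace F) := by
  rw [← Finset.card_image_of_injective _ plc_injective, ← Finset.card_union_of_disjoint]
  · exact Finset.card_le_univ _
  · refine Finset.disjoint_left.2 fun u hu hu' => ?_
    obtain ⟨φ, h1, h2⟩ := Finset.mem_image.1 hu
    exact (hT u hu' φ h2).not_gt (Finset.mem_filter.1 h1).2

theorem rank_ge {a : F} (E : Quad F K a) (T : Finset (InfinitePlace F))
    (hT : ∀ u ∈ T, ∀ φ : F →+* ℝ, plc φ = u → 0 < φ a) :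
    Units.rank F + T.card ≤ Units.rank K := by
  have h1 := card_neg a T hT
  have h2 := E.card_infinitePlace
  have h3 : 0 < Fintype.card (InfinitePlace F) := Fintype.card_pos
  unfold Units.rank
  omega

theorem prod_zero {a : F} (E : Quad F K a) (S : Finset (Pr F))
    (hram : ∀ Q : Pr K, below F Q ∉ S → eI F Q = 1) (hS : ∀ q ∈ S, ¬ LSq q a)
    (R : Finset (Pr K)) (hR : ∀ Q, Q ∈ R ↔ eI F Q = 2) :
    2 ^ R.card * ∏ q ∈ S, eul K a q 0 = 2 ^ S.card := by
  classical
  have h1 : ∀ q ∈ S, eul K a q 0 = if ∃ Q : Pr K, below F Q = q ∧ eI F Q = 2 then 1 else 2 := by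
    intro q hq
    rw [eul, if_neg (hS q hq)]
    split_ifs
    · rfl
    · rw [neg_zero, Complex.cpow_zero]; norm_num
  have h2 : R.card = (S.filter fun q => ∃ Q : Pr K, below F Q = q ∧ eI F Q = 2).card := by
    refine Finset.card_bij (fun Q _ => below F Q) (fun Q hQ => ?_) (fun Q hQ Q' _ e => ?_)
      fun q hq => ?_
    · refine Finset.mem_filter.2 ⟨by_contra fun h => ?_, Q, rfl, (hR Q).1 hQ⟩
      have := hram Q h
      have := (hR Q).1 hQ
      omega
    · have h3 := (hR Q).1 hQ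
      have h4 : E.act Q = Q := by
        rcases E.efg Q with h | h | h
        · omega
        · exact h.1
        · exact h.1
      rcases (E.below_eq_iff Q Q').1 e.symm with h | h
      · exact h.symm
      · rw [h, h4]
    · obtain ⟨Q, h3, h4⟩ := (Finset.mem_filter.1 hq).2
      exact ⟨Q, (hR Q).2 h4, h3⟩
  rw [Finset.prod_congr rfl h1, Finset.prod_ite, Finset.prod_const_one, one_mul, Finset.prod_const,
    ← pow_add, h2, Finset.card_filter_add_card_filter_not]

end ContAux

open ContAux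

variable {F K : Type*} [Field F] [NumberField F] [Field K] [NumberField K] [Algebra F K]

theorem cont_one (S : Finset (Pr F)) (h3 : 3 ≤ Fintype.card (InfinitePlace F) + S.card)
    (c : Ideal (𝓞 F) → ℂ) (hc : ∀ q ∉ S, c q.asIdeal = 1) :
    ∃ Z, IsCont (Lfun S c) Z ∧ deriv Z 0 = 0 := by
  obtain ⟨g, g1, g2, -, g4⟩ := zeta_zero F
  have hp : ∀ z, AnalyticAt ℂ
      (fun s : ℂ => ∏ q ∈ S, (1 - (Ideal.absNorm q.asIdeal : ℂ) ^ (-s))) z := fun z =>
    Finset.analyticAt_fun_prod S fun q _ => analyticAt_const.sub (an_pow q z)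
  refine ⟨fun s => s ^ Units.rank F * g s * ∏ q ∈ S, (1 - (Ideal.absNorm q.asIdeal : ℂ) ^ (-s)),
    ⟨fun z hz => (((analyticAt_id.pow _).meromorphicAt).mul (g1 z hz)).mul (hp z).meromorphicAt,
      ((analyticAt_id.pow _).mul g2).mul (hp 0), fun s hs => ?_⟩, ?_⟩
  · rw [Lfun_one S c hc hs, g4 s hs]
  · refine deriv_zero (n := Units.rank F + S.card) (by unfold Units.rank; omega) ?_
    have h1 := Asymptotics.IsBigO.finsetProd (s := S)
      (f := fun (q : Pr F) (s : ℂ) => 1 - (Ideal.absNorm q.asIdeal : ℂ) ^ (-s))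
      (g := fun _ s => s) fun q _ => big_id (analyticAt_const.sub (an_pow q 0)) (by simp)
    have h2 := ((Asymptotics.isBigO_refl (fun s : ℂ => s ^ Units.rank F) _).mul (big_one g2)).mul h1
    simpa [pow_add] using h2

theorem Quad.cont {a : F} (E : Quad F K a) (S : Finset (Pr F))
    (hram : ∀ Q : Pr K, below F Q ∉ S → eI F Q = 1) (c : Ideal (𝓞 F) → ℂ)
    (hc : ∀ q ∉ S, c q.asIdeal = chi a q) (v : InfinitePlace F)
    (hv : ∀ φ : F →+* ℝ, plc φ = v → 0 < φ a) :
    ∃ Z, IsCont (Lfun S c) Z ∧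
      (((∃ u, u ≠ v ∧ ∀ φ : F →+* ℝ, plc φ = u → 0 < φ a) ∨ ∃ q ∈ S, LSq q a) → deriv Z 0 = 0) ∧
      (Sig v a → (∀ q ∈ S, ¬ LSq q a) → ∀ (w : InfinitePlace K) (η : K),
        w.comap (algebraMap F K) = v → E.Gen w η →
        4 * (Units.torsionOrder K : ℂ) * deriv Z 0 =
          ((2 ^ (Fintype.card (InfinitePlace F) + S.card) * E.M *
            (-(w.mult * Real.log (w η))) : ℝ) : ℂ)) := by
  classical
  obtain ⟨f, f1, f2, f3, f4⟩ := zeta_zero F
  obtain ⟨g, g1, g2, g3, g4⟩ := zeta_zero K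
  have hF : (0 : ℝ) < classNumber F := Nat.cast_pos.2 (classNumber_pos F)
  have rF := Units.regulator_pos F
  have tF : (0 : ℝ) < Units.torsionOrder F := Nat.cast_pos.2 (Units.torsionOrder_pos F)
  have tK : (0 : ℝ) < Units.torsionOrder K := Nat.cast_pos.2 (Units.torsionOrder_pos K)
  have f0 : f 0 ≠ 0 := by
    rw [f3, neg_ne_zero, Complex.ofReal_ne_zero]
    positivity
  have r1 : Units.rank F + 1 ≤ Units.rank K :=
    rank_ge E {v} fun u hu φ h => hv φ (h.trans (Finset.mem_singleton.1 hu))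
  obtain ⟨m, hm⟩ : ∃ m, Units.rank K = Units.rank F + m := ⟨_, (Nat.add_sub_cancel' (by omega)).symm⟩
  have hG : AnalyticAt ℂ (fun s => g s / f s) 0 := g2.fun_div f2 f0
  have hp := an_prod (K := K) a S
  refine ⟨fun s => s ^ m * (g s / f s * ∏ q ∈ S, eul K a q s),
    ⟨fun z hz => ((analyticAt_id.pow _).meromorphicAt).mul
        (((g1 z hz).div (f1 z hz)).mul (hp z).meromorphicAt),
      (analyticAt_id.pow _).mul (hG.mul (hp 0)), fun s hs => ?_⟩, ?_, ?_⟩
  · have h1 := E.Lfun_mul S hram c hc hs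
    have h2 := zI_ne_zero (F := F) hs
    refine mul_right_cancel₀ h2 ?_
    rw [h1]
    rw [f4 s hs] at h2 ⊢
    rw [g4 s hs, hm, pow_add]
    have h3 := right_ne_zero_of_mul h2
    field_simp
  · rintro (⟨u, hu, hu'⟩ | ⟨q, hq, hq'⟩)
    · have r2 := rank_ge E {u, v} fun x hx φ h => by
        rcases Finset.mem_insert.1 hx with e | e
        · exact hu' φ (h.trans e)
        · exact hv φ (h.trans (Finset.mem_singleton.1 e))
      rw [Finset.card_pair hu] at r2
      refine deriv_zero (n := m) (by omega) ?_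
      simpa using (Asymptotics.isBigO_refl (fun s : ℂ => s ^ m) _).mul (big_one (hG.mul (hp 0)))
    · refine deriv_zero (n := m + 1) (by omega) ?_
      have h0 : g 0 / f 0 * ∏ q ∈ S, eul K a q 0 = 0 := by
        rw [Finset.prod_eq_zero hq (by simp [eul, hq']), mul_zero]
      simpa [pow_succ] using
        (Asymptotics.isBigO_refl (fun s : ℂ => s ^ m) _).mul (big_id (hG.mul (hp 0)) h0)
  · intro hsig hS w η hw hη
    have hm1 : m = 1 := by have := E.rank_eq hsig; omega
    have hfin : {Q : Pr K | eI F Q = 2}.Finite :=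
      (ram_finite (F := F) (K := K)).subset fun Q (hQ : eI F Q = 2) (h : eI F Q = 1) => by omega
    have hR : ∀ Q, Q ∈ hfin.toFinset ↔ eI F Q = 2 := fun Q => hfin.mem_toFinset
    have h1 := E.class_number hsig hw hη _ hR
    have h2 := prod_zero E S hram hS _ hR
    have h3 : (4 * Units.torsionOrder K * (-(classNumber K * Units.regulator K / Units.torsionOrder K)
        / -(classNumber F * Units.regulator F / Units.torsionOrder F)) : ℝ)
        = 2 ^ hfin.toFinset.card * (2 ^ Fintype.card (InfinitePlace F) * E.M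
          * (-(w.mult * Real.log (w η)))) := by
      rw [hsig.torsionOrder, neg_div_neg_eq]
      rw [pow_add] at h1
      field_simp
      push_cast
      linear_combination h1
    have h4 := congrArg (fun x : ℝ => (x : ℂ)) h3
    rw [hm1, deriv_one (hG.fun_mul (hp 0)), f3, g3, pow_add]
    push_cast at h4 ⊢
    rw [← h2, ← mul_assoc, h4]
    ring

end Pool.Agent.Stark
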