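import Pool.Agent.Lib.MP_ca56d1_nt.Split

/-! Frobenius elements and square roots. -/

namespace Pool.Agent.Stark

open NumberField StarkStmt

variable {F L : Type*} [Field F] [NumberField F] [Field L] [NumberField L] [Algebra F L]

namespace FrobAux

omit [NumberField F] [NumberField L] in
theorem liesOver_of_below {q : Pr F} {Q : Pr L} (h : below F Q = q) :
    Q.asIdeal.LiesOver q.asIdeal :=
  ⟨by rw [← h]; rfl⟩

omit [NumberField F] [NumberField L] in
theorem below_below (K : IntermediateField F L) (Q : Pr L) :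
    below F (below K Q) = below F Q := by
  apply IsDedekindDomain.HeightOneSpectrum.ext
  exact Ideal.under_under Q.asIdeal

theorem two_le_absNorm (q : Pr F) : 2 ≤ Ideal.absNorm q.asIdeal := by
  have h0 : Ideal.absNorm q.asIdeal ≠ 0 := by
    rw [Ne, Ideal.absNorm_eq_zero_iff]
    exact q.ne_bot
  have h1 : Ideal.absNorm q.asIdeal ≠ 1 := by
    rw [Ne, Ideal.absNorm_eq_one_iff]
    exact q.isPrime.ne_top
  omega

theorem exists_not_pow (Q : Pr L) {n : ℕ} (hn : 2 ≤ n) (hQ : Ideal.absNorm Q.asIdeal = n ^ 2) :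
    ∃ x : 𝓞 L, x - x ^ n ∉ Q.asIdeal := by
  by_contra hcon
  push Not at hcon
  have := Q.isMaximal
  let _ : Field (𝓞 L ⧸ Q.asIdeal) := Ideal.Quotient.field _
  have hfin : Finite (𝓞 L ⧸ Q.asIdeal) := Ideal.finiteQuotientOfFreeOfNeBot _ Q.ne_bot
  let _ : Fintype (𝓞 L ⧸ Q.asIdeal) := Fintype.ofFinite _
  have hc : Fintype.card (𝓞 L ⧸ Q.asIdeal) = n ^ 2 := by
    rw [← hQ, Ideal.absNorm_apply, Submodule.cardQuot_apply, Nat.card_eq_fintype_card]
  have h1 : ∀ u : (𝓞 L ⧸ Q.asIdeal)ˣ, u ^ (n - 1) = 1 := by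
    intro u
    obtain ⟨x, hx⟩ := Ideal.Quotient.mk_surjective (u : 𝓞 L ⧸ Q.asIdeal)
    have h2 := (Ideal.Quotient.eq).2 (hcon x)
    rw [map_pow, hx] at h2
    have h3 : u = u ^ n := Units.ext (by simpa using h2)
    have h4 : u ^ n = u ^ (n - 1) * u := by
      rw [← pow_succ]
      congr 1
      omega
    rw [h4] at h3
    exact (mul_eq_right.1 h3.symm)
  have h5 := (FiniteField.forall_pow_eq_one_iff (K := 𝓞 L ⧸ Q.asIdeal) (n - 1)).1 h1
  rw [hc] at h5
  have h6 := Nat.le_of_dvd (by omega) h5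
  have h7 : 2 * n ≤ n ^ 2 := by nlinarith
  omega

end FrobAux

open FrobAux

theorem isFrob_frob [IsGalois F L] (q : Pr F) : IsFrob F L q.asIdeal (frob F L q.asIdeal) := by
  apply Classical.epsilon_spec (p := IsFrob F L q.asIdeal)
  obtain ⟨Q, hQ⟩ := below_surj (K := L) q
  have := Q.isPrime
  have hfin : Finite (𝓞 L ⧸ Q.asIdeal) := Ideal.finiteQuotientOfFreeOfNeBot _ Q.ne_bot
  have hG := IsGaloisGroup.of_isFractionRing (L ≃ₐ[F] L) (𝓞 F) (𝓞 L) F L
  obtain ⟨σ, hσ⟩ := IsArithFrobAt.exists_of_isInvariant (𝓞 F) (L ≃ₐ[F] L) Q.asIdeal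
  refine ⟨σ, Q.asIdeal, Q.isPrime, liesOver_of_below hQ, fun x => ?_⟩
  have h1 := hσ x
  have h2 : Q.asIdeal.under (𝓞 F) = q.asIdeal := by rw [← hQ]; rfl
  rw [h2] at h1
  rw [Ideal.absNorm_apply, Submodule.cardQuot_apply]
  exact h1

/-- The subfield generated by a square root. -/
theorem exists_quad_sub {a : F} (ha : ¬ IsSquare a) {r : L} (hr : r ^ 2 = algebraMap F L a) :
    ∃ E : Quad F (IntermediateField.adjoin F {r}) a, (E.rt : L) = r := by
  have := fact_of_not_isSquare ha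
  let K := IntermediateField.adjoin F {r}
  let ρ : K := ⟨r, IntermediateField.mem_adjoin_simple_self F r⟩
  have hρ : ρ ^ 2 = algebraMap F K a := Subtype.ext (by simpa using hr)
  let φ : QuadraticAlgebra F a 0 →ₐ[F] K :=
    QuadraticAlgebra.lift ⟨ρ, by rw [← sq, hρ, Algebra.algebraMap_eq_smul_one]; simp⟩
  have hφ : φ (Quad.std ha).rt = ρ := by
    simp [φ, Quad.std, QuadraticAlgebra.lift]
  have hsurj : Function.Surjective φ := by
    have h1 : (φ.fieldRange.map K.val) = K := by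
      apply le_antisymm
      · rintro _ ⟨x, _, rfl⟩
        exact x.2
      · exact IntermediateField.adjoin_simple_le_iff.2 ⟨ρ, ⟨_, hφ⟩, rfl⟩
    intro z
    have h2 : (z : L) ∈ φ.fieldRange.map K.val := by rw [h1]; exact z.2
    obtain ⟨y, ⟨x, hx⟩, hy⟩ := h2
    exact ⟨x, hx.trans (Subtype.ext hy)⟩
  let e : QuadraticAlgebra F a 0 ≃ₐ[F] K := AlgEquiv.ofBijective φ ⟨φ.injective, hsurj⟩
  have he : e (Quad.std ha).rt = ρ := hφ
  refine ⟨⟨ρ, (e.symm.trans (Quad.std ha).tau).trans e, hρ, ?_, ha, fun z => ?_⟩, rfl⟩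
  · rw [AlgEquiv.trans_apply, AlgEquiv.trans_apply, ← he, AlgEquiv.symm_apply_apply,
      (Quad.std ha).tau_rt, map_neg]
  · obtain ⟨g, h, hz⟩ := (Quad.std ha).span (e.symm z)
    refine ⟨g, h, ?_⟩
    rw [← e.apply_symm_apply z, hz, map_add, map_mul, AlgEquiv.commutes, AlgEquiv.commutes, he]

theorem eI_sub (K : IntermediateField F L) (q : Pr F) (h : ∀ Q : Pr L, below F Q = q → eI F Q = 1)
    (Q : Pr K) (hQ : below F Q = q) : eI F Q = 1 := by
  obtain ⟨Q', hQ'⟩ := below_surj (K := L) Q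
  have h1 : below F Q' = q := by rw [← below_below K Q', hQ', hQ]
  obtain ⟨t, ht⟩ := q.valuation_exists_uniformizer F
  have h2 : og q t = 1 := by
    rw [og, ord, ht]
    simp
  have h3 := og_algebraMap (F := F) Q' t
  rw [h Q' h1, h1, h2, IsScalarTower.algebraMap_apply F K L, og_algebraMap (F := K) Q', hQ',
    og_algebraMap (F := F) Q, hQ, h2] at h3
  have h4 : eI K Q' * eI F Q = 1 := by
    have : ((eI K Q' * eI F Q : ℕ) : ℤ) = 1 := by
      push_cast
      simpa using h3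
    exact_mod_cast this
  exact Nat.eq_one_of_mul_eq_one_left h4

theorem unr_of_sqrt {a : F} (ha : a ≠ 0) {r : L} (hr : r ^ 2 = algebraMap F L a) (q : Pr F)
    (h : ∀ Q : Pr L, below F Q = q → eI F Q = 1) : Unr (wv q) (emb q a) := by
  by_cases hs : IsSquare a
  · intro y _ _
    exact hs_of_isSquare_left (isLoc_wv q).two (by simpa using ha) (hs.map (emb q)) y
  · obtain ⟨E, -⟩ := exists_quad_sub hs hr
    obtain ⟨Q, hQ⟩ := below_surj (K := IntermediateField.adjoin F {r}) q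
    have := E.unr Q (eI_sub _ q h Q hQ)
    rwa [hQ] at this

theorem frob_sqrt {a : F} (ha : a ≠ 0) {r : L} (hr : r ^ 2 = algebraMap F L a) (q : Pr F)
    (h : ∀ Q : Pr L, below F Q = q → eI F Q = 1) {σ : L ≃ₐ[F] L} (hσ : IsFrob F L q.asIdeal σ) :
    σ r = r ↔ LSq q a := by
  by_cases hs : IsSquare a
  · refine iff_of_true ?_ (hs.map (emb q))
    obtain ⟨t, ht⟩ := hs
    have h1 : r ^ 2 = (algebraMap F L t) ^ 2 := by rw [hr, ht, map_mul, sq]
    rcases sq_eq_sq_iff_eq_or_eq_neg.1 h1 with h2 | h2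
    · rw [h2, AlgEquiv.commutes]
    · rw [h2, map_neg, AlgEquiv.commutes]
  let K := IntermediateField.adjoin F {r}
  obtain ⟨E, hE⟩ : ∃ E : Quad F K a, (E.rt : L) = r := exists_quad_sub hs hr
  obtain ⟨Q0, hQ0, hover, hfr⟩ := hσ
  have hne : Q0 ≠ ⊥ := Ideal.ne_bot_of_liesOver_of_ne_bot q.ne_bot Q0
  let Q1 : Pr L := ⟨Q0, hQ0, hne⟩
  have hQ1 : below F Q1 = q := by
    apply IsDedekindDomain.HeightOneSpectrum.ext
    exact hover.over.symm
  let Q : Pr K := below K Q1
  have hQ : below F Q = q := by rw [← hQ1]; exact below_below K Q1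
  have hn := two_le_absNorm q
  have key : ∀ (ρ : K ≃ₐ[F] K), σ r = ρ E.rt → ∀ x : 𝓞 K,
      RingOfIntegers.mapRingEquiv ρ.toRingEquiv x - x ^ Ideal.absNorm q.asIdeal ∈ Q.asIdeal := by
    intro ρ hρ x
    have h1 : ∀ z : K, σ (z : L) = (ρ z : L) := by
      intro z
      obtain ⟨g, h', rfl⟩ := E.span z
      rw [map_add, map_mul, AlgEquiv.commutes, AlgEquiv.commutes]
      push_cast
      rw [map_add, map_mul, hE, hρ]
      simp
    have h2 := hfr (algebraMap (𝓞 K) (𝓞 L) x)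
    change algebraMap (𝓞 K) (𝓞 L) _ ∈ Q0
    rw [map_sub, map_pow]
    convert h2 using 2
    apply RingOfIntegers.ext
    exact (h1 x).symm
  have hsq : σ r = r ∨ σ r = -r := by
    apply sq_eq_sq_iff_eq_or_eq_neg.1
    rw [← map_pow, hr, AlgEquiv.commutes]
  rw [← hQ, ← E.split_iff Q]
  constructor
  · intro h1 h2
    rcases E.efg Q with h3 | h3 | h3
    · exact h3.1 h2
    · obtain ⟨x, hx⟩ := exists_not_pow Q hn (by rw [h3.2.2, hQ])
      apply hx
      have := key 1 (by rw [h1, AlgEquiv.one_apply, hE]) x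
      exact this
    · have := eI_sub K q h Q hQ
      omega
  · intro h1
    rcases hsq with h2 | h2
    · exact h2
    · exfalso
      apply h1
      have h3 := key E.tau (by rw [h2, E.tau_rt]; push_cast; rw [hE])
      apply IsDedekindDomain.HeightOneSpectrum.ext
      symm
      apply Q.isMaximal.eq_of_le (E.act Q).isPrime.ne_top
      intro x hx
      have h4 : x ^ Ideal.absNorm q.asIdeal ∈ Q.asIdeal :=
        Ideal.pow_mem_of_mem _ hx _ (by omega)
      have h5 := Q.asIdeal.add_mem (h3 x) h4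
      rw [sub_add_cancel] at h5
      exact h5

end Pool.Agent.Stark
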