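import Pool.Agent.Lib.MP_ca56d1_nt.Par
import Pool.Agent.Lib.MP_ca56d1_nt.Cont
import Pool.Agent.Lib.MP_ca56d1_nt.Frob

/-! The data attached to a quadratic subextension of `L / F`. -/

namespace Pool.Agent.Stark

open NumberField StarkStmt

variable {F L : Type*} [Field F] [NumberField F] [Field L] [NumberField L] [Algebra F L]

/-- `η = α ^ 2 / b` generates the relative units of `F(√a)` and `ζ = γ ^ 2 / c` its roots of
unity. -/
structure IsDat (S : Finset (Pr F)) (P : InfinitePlace L) (a c b : F) (w Mo : ℕ) (γ α : L) :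
    Prop where
  gd : GD S a c b Mo
  w_ne : w ≠ 0
  w_even : Even w
  γ_ne : γ ≠ 0
  α_ne : α ≠ 0
  fix : ∀ σ : L ≃ₐ[F] L, xs σ a = 0 → σ γ = γ ∧ σ α = α
  conj : ∀ σ : L ≃ₐ[F] L, xs σ a = 1 → γ * σ γ = algebraMap F L c ∧ α * σ α = algebraMap F L b
  prim : IsPrimitiveRoot (γ ^ 2 / algebraMap F L c) w
  unit : IsU (α ^ 2 / algebraMap F L b)
  other : ∀ w' : InfinitePlace L, w'.comap (algebraMap F L) ≠ P.comap (algebraMap F L) →
    w' (α ^ 2 / algebraMap F L b) = 1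
  alt : IsSquare (algebraMap F L b) ∨ ¬ IsSquare (algebraMap F L (c * b))

theorem good_of_sq (S : Finset (Pr F)) (hram : ∀ Q : Pr L, below F Q ∉ S → eI F Q = 1)
    (P : InfinitePlace L) (hP : P.IsUnramified F) {a : F} (ha0 : a ≠ 0)
    (ha : IsSquare (algebraMap F L a)) :
    Good S a ∧ IsSel S a ∧ ∀ φ : F →+* ℝ, plc φ = P.comap (algebraMap F L) → 0 < φ a := by
  obtain ⟨r, -, hr⟩ := exists_rt ha0 ha
  have hg : Good S a :=
    ⟨ha0, fun q hq => unr_of_sqrt ha0 hr q fun Q hQ => hram Q (by rw [hQ]; exact hq)⟩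
  refine ⟨hg, ⟨ha0, fun q hq => ?_⟩, fun φ hφ => ?_⟩
  · rw [← ord_emb]
    exact (isLoc_wv q).even_of_unr (by simpa using ha0) (hg.2 q hq)
  · have hreal : P.IsReal := by
      rcases InfinitePlace.isUnramified_iff.1 hP with h | h
      · exact h
      · rw [← hφ] at h
        exact absurd (plc_isReal φ) (InfinitePlace.not_isReal_iff_isComplex.2 h)
    obtain ⟨ψ, rfl⟩ := exists_plc hreal
    have h1 : φ = ψ.comp (algebraMap F L) := plc_injective (hφ.trans rfl)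
    have h2 : φ a = ψ r ^ 2 := by rw [h1, RingHom.comp_apply, ← hr, map_pow]
    have h3 : φ a ≠ 0 := by simpa using ha0
    rw [h2] at h3 ⊢
    exact lt_of_le_of_ne (sq_nonneg _) h3.symm

namespace DatAux

variable {K : Type*} [Field K] [NumberField K] [Algebra F K]

omit [NumberField F] in
theorem gen_mul {a : F} (E : Quad F K a) {w : InfinitePlace K} {η ζ : K} (hη : E.Gen w η)
    (hζ : IsOfFinOrder ζ) : E.Gen w (ζ * η) := by
  have hu := isU_of_isOfFinOrder hζ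
  obtain ⟨N, hN, hζN⟩ := isOfFinOrder_iff_pow_eq_one.1 hζ
  refine ⟨⟨mul_ne_zero hu.1 hη.unit.1, fun Q => ?_⟩, ?_, ?_, hη.tors, fun u h1 h2 => ?_⟩
  · have h1 := hu.2 Q
    have h2 := hη.unit.2 Q
    rw [og] at h1 h2 ⊢
    rw [ord_mul hu.1 hη.unit.1, h1, h2, add_zero]
  · rw [map_mul]
    linear_combination (η * E.tau η) * hη.tors ζ hζ + hη.norm
  · have h1 : w ζ ^ N = 1 := by rw [← map_pow, hζN, map_one]
    rw [map_mul, (pow_eq_one_iff_of_nonneg (apply_nonneg w ζ) hN.ne').1 h1, one_mul]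
    exact hη.lt
  · obtain ⟨ξ, n, hξ, rfl⟩ := hη.gen u h1 h2
    refine ⟨ξ * ζ ^ (-n), n, hξ.mul (isOfFinOrder_iff_pow_eq_one.2 ⟨N, hN, ?_⟩), ?_⟩
    · rw [← zpow_natCast, ← zpow_mul, mul_comm, zpow_mul, zpow_natCast, hζN, one_zpow]
    · have := zpow_ne_zero n hu.1
      rw [mul_zpow, zpow_neg]
      field_simp

theorem exists_ker {a : F} (E : Quad F K a) (S : Finset (Pr F))
    (hram : ∀ Q : Pr K, below F Q ∉ S → eI F Q = 1) {u γ : K} (hu : IsU u) (h0 : γ ≠ 0)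
    (hγ : γ = u * E.tau γ) {c : F} (hc : algebraMap F K c = γ * E.tau γ) :
    ∃ g h, c = g ^ 2 - a * h ^ 2 ∧ Ker S a g h := by
  obtain ⟨g, h, rfl⟩ := E.span γ
  have h1 : c = g ^ 2 - a * h ^ 2 :=
    (algebraMap F K).injective (hc.trans (E.mul_tau_mk g h))
  refine ⟨g, h, h1, E.ker_of_unit S hram hu ?_ hγ⟩
  intro h2
  rw [h1, h2, map_zero] at hc
  exact mul_ne_zero h0 ((map_ne_zero E.tau).2 h0) hc.symm

theorem inX_of_not (S : Finset (Pr F)) {v : InfinitePlace F} {a : F} (ha : ¬ IsSquare a)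
    (hv : ∀ φ : F →+* ℝ, plc φ = v → 0 < φ a)
    (hK : v.IsReal ∨ 2 ≤ Fintype.card (InfinitePlace F))
    (h : ¬ ((∃ u, u ≠ v ∧ ∀ φ : F →+* ℝ, plc φ = u → 0 < φ a) ∨ ∃ q ∈ S, LSq q a)) :
    InX S v a := by
  rw [not_or] at h
  have h1 : ∀ u, u ≠ v → ∃ φ : F →+* ℝ, plc φ = u ∧ ¬ 0 < φ a := by
    intro u hu
    by_contra h2
    exact h.1 ⟨u, hu, fun φ hφ => by_contra fun h3 => h2 ⟨φ, hφ, h3⟩⟩
  refine ⟨ha, ⟨?_, fun u hu => ?_, fun φ => ⟨fun hφ => ?_, hv φ⟩⟩, fun q hq h2 => h.2 ⟨q, hq, h2⟩⟩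
  · rcases hK with h2 | h2
    · exact ⟨(exists_plc h2).choose⟩
    · obtain ⟨u, hu⟩ := Fintype.exists_ne_of_one_lt_card h2 v
      exact ⟨(h1 u hu).choose⟩
  · obtain ⟨φ, rfl, -⟩ := h1 u hu
    exact plc_isReal φ
  · by_contra h2
    obtain ⟨φ', h3, h4⟩ := h1 _ h2
    rw [plc_injective h3] at h4
    exact h4 hφ

theorem main [Algebra K L] [IsScalarTower F K L] (S : Finset (Pr F))
    (hram : ∀ Q : Pr K, below F Q ∉ S → eI F Q = 1)
    (h3 : 3 ≤ Fintype.card (InfinitePlace F) + S.card) (P : InfinitePlace L)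
    {a : F} (E : Quad F K a) (hg : Good S a)
    (hX : InX S (P.comap (algebraMap F L)) a) :
    ∃ (η : K) (c b : F) (Mo : ℕ) (γ α : L), E.Gen (P.comap (algebraMap K L)) η ∧
      E.M = 2 ^ Module.finrank (ZMod 2) (Chr S) * Mo ∧
      α ^ 2 / algebraMap F L b = algebraMap K L η ∧
      IsDat S P a c b (Units.torsionOrder K) Mo γ α := by
  obtain ⟨-, hsig, hns⟩ := hX
  have hcomp : ∀ w' : InfinitePlace L, (w'.comap (algebraMap K L)).comap (algebraMap F K) =
      w'.comap (algebraMap F L) := fun w' => by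
    rw [← InfinitePlace.comap_comp, ← IsScalarTower.algebraMap_eq]
  have htow : ∀ t : F, algebraMap K L (algebraMap F K t) = algebraMap F L t := fun t =>
    (IsScalarTower.algebraMap_apply F K L t).symm
  obtain ⟨η0, hη0⟩ := E.exists_gen hsig (hcomp P)
  obtain ⟨ζ, hζp, hζ'⟩ := exists_prim K
  have hζ : IsOfFinOrder ζ := hζp.isOfFinOrder (Units.torsionOrder_ne_zero K)
  obtain ⟨γ, hγ0, hγ⟩ := E.hilbert90 (hη0.tors ζ hζ)
  obtain ⟨c, hc⟩ := E.exists_norm γ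
  obtain ⟨η, α, b, hη, hα0, hα, hb, halt⟩ : ∃ (η α : K) (b : F),
      E.Gen (P.comap (algebraMap K L)) η ∧ α ≠ 0 ∧ α = η * E.tau α ∧
      algebraMap F K b = α * E.tau α ∧
      (IsSquare (algebraMap F L b) ∨ ¬ IsSquare (algebraMap F L (c * b))) := by
    obtain ⟨α, hα0, hα⟩ := E.hilbert90 hη0.norm
    obtain ⟨b, hb⟩ := E.exists_norm α
    by_cases h : IsSquare (algebraMap F L (c * b))
    · refine ⟨ζ * η0, γ * α, c * b, gen_mul E hη0 hζ, mul_ne_zero hγ0 hα0, ?_, ?_, Or.inl h⟩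
      · rw [map_mul]
        linear_combination α * hγ + ζ * E.tau γ * hα
      · rw [map_mul, map_mul, hc, hb]
        ring
    · exact ⟨η0, α, b, hη0, hα0, hα, hb, Or.inr h⟩
  have hns' : (∃ φ : F →+* ℝ, φ a < 0) ∨ ∃ q ∈ S, ¬ LSq q a := by
    rcases S.eq_empty_or_nonempty with h | ⟨q, hq⟩
    · rw [h, Finset.card_empty] at h3
      obtain ⟨u, hu⟩ := Fintype.exists_ne_of_one_lt_card
        (show 1 < Fintype.card (InfinitePlace F) by omega) (P.comap (algebraMap F L))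
      obtain ⟨φ, rfl⟩ := exists_plc (hsig.other u hu)
      have h1 : φ a ≠ 0 := by simpa using hg.1
      exact Or.inl ⟨φ, lt_of_le_of_ne (not_lt.1 fun h2 => hu ((hsig.sign φ).1 h2)) h1⟩
    · exact Or.inr ⟨q, hq, hns q hq⟩
  obtain ⟨hind, Mo, hM, hodd⟩ := E.genus S hram hns hη hζ hζ' hγ0 hα0 hγ hα hc hb
    fun ψ hψ h => chr_eq_zero S hg hns' hψ h
  have hr : algebraMap K L E.rt ^ 2 = algebraMap F L a := by rw [← map_pow, E.sq, htow]
  have hfix : ∀ σ : L ≃ₐ[F] L, xs σ a = 0 → ∀ z : K,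
      σ (algebraMap K L z) = algebraMap K L z := by
    intro σ hσ z
    obtain ⟨g, h, rfl⟩ := E.span z
    have h1 := xs_spec σ hr
    rw [hσ, sg_zero, one_mul] at h1
    simp only [map_add, map_mul, htow, AlgEquiv.commutes, h1]
  have hconj : ∀ σ : L ≃ₐ[F] L, xs σ a = 1 → ∀ z : K,
      σ (algebraMap K L z) = algebraMap K L (E.tau z) := by
    intro σ hσ z
    obtain ⟨g, h, rfl⟩ := E.span z
    have h1 := xs_spec σ hr
    rw [hσ, sg_one] at h1
    rw [E.tau_mk]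
    simp only [map_add, map_sub, map_mul, htow, AlgEquiv.commutes, h1]
    ring
  have hdiv : ∀ {u z : K} {t : F}, z ≠ 0 → z = u * E.tau z → algebraMap F K t = z * E.tau z →
      algebraMap K L z ^ 2 / algebraMap F L t = algebraMap K L u := by
    intro u z t hz h1 h2
    have h4 : E.tau z ≠ 0 := by simpa using hz
    rw [← htow, ← map_pow, ← map_div₀, h2]
    congr 1
    field_simp
    linear_combination h1
  refine ⟨η, c, b, Mo, algebraMap K L γ, algebraMap K L α, hη, hM, hdiv hα0 hα hb,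
    ⟨exists_ker E S hram (isU_of_isOfFinOrder hζ) hγ0 hγ hc,
      exists_ker E S hram hη.unit hα0 hα hb, hind, hodd⟩,
    Units.torsionOrder_ne_zero K, Units.even_torsionOrder K, by simpa using hγ0,
    by simpa using hα0, fun σ hσ => ⟨hfix σ hσ _, hfix σ hσ _⟩, fun σ hσ => ⟨?_, ?_⟩, ?_, ?_, ?_,
    halt⟩
  · rw [hconj σ hσ, ← map_mul, ← hc, htow]
  · rw [hconj σ hσ, ← map_mul, ← hb, htow]
  · rw [hdiv hγ0 hγ hc]
    exact hζp.map_of_injective (algebraMap K L).injective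
  · rw [hdiv hα0 hα hb]
    refine ⟨by simpa using hη.unit.1, fun Q => ?_⟩
    rw [og_algebraMap, hη.unit.2, mul_zero]
  · intro w' hw'
    rw [hdiv hα0 hα hb, ← InfinitePlace.comap_apply]
    exact E.gen_other hsig hη.norm _ (by rw [hcomp]; exact hw')

end DatAux

theorem exists_dat [IsGalois F L] (S : Finset (Pr F))
    (hram : ∀ Q : Pr L, below F Q ∉ S → eI F Q = 1)
    (h3 : 3 ≤ Fintype.card (InfinitePlace F) + S.card) (P : InfinitePlace L)
    (hP : P.IsUnramified F) (hK : P.IsReal ∨ 2 ≤ Fintype.card (InfinitePlace F)) {a : F}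
    (ha0 : a ≠ 0) (ha : IsSquare (algebraMap F L a)) :
    ∃ Z, IsCont (Lfun S (cf L a)) Z ∧
      (¬ InX S (P.comap (algebraMap F L)) a → deriv Z 0 = 0) ∧
      (InX S (P.comap (algebraMap F L)) a → ∃ (c b : F) (w Mo : ℕ) (γ α : L),
        IsDat S P a c b w Mo γ α ∧ 4 * (w : ℂ) * deriv Z 0 =
          ((2 ^ (Fintype.card (InfinitePlace F) + S.card + Module.finrank (ZMod 2) (Chr S)) * Mo *
            (-(P.mult * Real.log (P (α ^ 2 / algebraMap F L b)))) : ℝ) : ℂ)) := by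
  obtain ⟨r, hr0, hr⟩ := exists_rt ha0 ha
  obtain ⟨hg, -, hv⟩ := good_of_sq S hram P hP ha0 ha
  by_cases hsq : IsSquare a
  · obtain ⟨Z, hZ, h0⟩ := cont_one S h3 (cf L a) fun q _ => by
      rw [cf, xs_of_isSquare _ ha0 hsq, sg_zero]
    exact ⟨Z, hZ, fun _ => h0, fun hX => absurd hsq hX.1⟩
  have hc : ∀ q ∉ S, cf L a q.asIdeal = chi a q := by
    intro q hq
    have h1 := frob_sqrt ha0 hr q (fun Q hQ => hram Q (by rw [hQ]; exact hq))
      (isFrob_frob (L := L) q)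
    have h2 := xs_spec (frob F L q.asIdeal) hr
    rw [cf, chi]
    split_ifs with h
    · rw [xs_eq _ hr hr0 (x := 0) (by rw [sg_zero, one_mul]; exact h1.2 h), sg_zero]
    · rcases zmod2_cases (xs (frob F L q.asIdeal) a) with h4 | h4
      · rw [h4, sg_zero, one_mul] at h2
        exact absurd (h1.1 h2) h
      · rw [h4, sg_one]
  obtain ⟨E, -⟩ := exists_quad_sub hsq hr
  have hramK : ∀ Q : Pr (IntermediateField.adjoin F {r}), below F Q ∉ S → eI F Q = 1 :=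
    fun Q hQ => eI_sub _ (below F Q) (fun Q' h => hram Q' (by rw [h]; exact hQ)) Q rfl
  obtain ⟨Z, hZ, h1, h2⟩ := E.cont S hramK (cf L a) hc _ hv
  refine ⟨Z, hZ, fun hX => h1 (by_contra fun h => hX (DatAux.inX_of_not S hsq hv ?_ h)),
    fun hX => ?_⟩
  · exact hK.imp_left fun h4 => h4.comap _
  · obtain ⟨η, c, b, Mo, γ, α, hη, hM, hα, hD⟩ := DatAux.main S hramK h3 P E hg hX
    refine ⟨c, b, _, Mo, γ, α, hD, ?_⟩
    rw [h2 hX.2.1 hX.2.2 _ η (by
      rw [← InfinitePlace.comap_comp, ← IsScalarTower.algebraMap_eq]) hη, hM, hα,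
      (hP.of_restrictScalars (IntermediateField.adjoin F {r})).eq, InfinitePlace.comap_apply]
    congr 1
    push_cast
    ring

end Pool.Agent.Stark
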