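import Pool.Agent.Lib.MP_ca56d1_nt.Stmt

/-! Common definitions for the multiquadratic case of the rank one Stark conjecture. -/

namespace Pool.Agent.Stark

open NumberField IsDedekindDomain

/-! ### Hilbert symbol and abstract local fields -/

section Local

variable {k : Type*} [Field k]

open scoped Classical in
/-- The Hilbert symbol, written additively: `0` iff `b` is a norm from `k(√a)`. -/
noncomputable def hs (a b : k) : ZMod 2 := if ∃ x z : k, b = x ^ 2 - a * z ^ 2 then 0 else 1

/-- The additive valuation attached to `w` (junk value `0` at `0`). -/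
noncomputable def ord (w : Valuation k (WithZero (Multiplicative ℤ))) (x : k) : ℤ :=
  -WithZero.log (w x)

/-- The fractional ideal `𝔭 ^ j` as an additive subgroup. -/
def pw (w : Valuation k (WithZero (Multiplicative ℤ))) (j : ℤ) : AddSubgroup k where
  carrier := {x | w x ≤ WithZero.exp (-j)}
  add_mem' := fun {a b} ha hb => (w.map_add a b).trans (max_le ha hb)
  zero_mem' := by simp
  neg_mem' := fun {a} ha => by simpa using ha

/-- The number of elements of the residue field. -/
noncomputable def rc (w : Valuation k (WithZero (Multiplicative ℤ))) : ℕ :=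
  (pw w 1).relIndex (pw w 0)

/-- The properties of a nonarchimedean local field of characteristic not two that are used. -/
structure IsLoc (w : Valuation k (WithZero (Multiplicative ℤ))) : Prop where
  surj : ∃ π : k, w π = WithZero.exp (-1)
  two : (2 : k) ≠ 0
  fin : rc w ≠ 0
  hens : ∀ x : k, w (x - 1) < w 4 → IsSquare x

/-- All units are norms from `k(√a)`. -/
def Unr (w : Valuation k (WithZero (Multiplicative ℤ))) (a : k) : Prop :=
  ∀ y : k, y ≠ 0 → ord w y = 0 → hs a y = 0

open scoped Classical in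
/-- The smaller slope of the Newton polygon of `X ^ 2 - t X + n`, when `ord n` is even. -/
noncomputable def mn (w : Valuation k (WithZero (Multiplicative ℤ))) (t n : k) : ℤ :=
  if t ≠ 0 ∧ 2 * ord w t < ord w n then ord w t else ord w n / 2

variable (k) in
/-- The group of square classes, written additively. -/
def SqCl : Type _ := Additive (kˣ ⧸ (powMonoidHom 2 : kˣ →* kˣ).range)

noncomputable instance : AddCommGroup (SqCl k) :=
  inferInstanceAs (AddCommGroup (Additive (kˣ ⧸ (powMonoidHom 2 : kˣ →* kˣ).range)))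

open scoped Classical in
/-- The square class of an element (junk value `0` at `0`). -/
noncomputable def cl (x : k) : SqCl k :=
  if h : x = 0 then 0 else
    (Additive.ofMul (QuotientGroup.mk (Units.mk0 x h)) :
      Additive (kˣ ⧸ (powMonoidHom 2 : kˣ →* kˣ).range))

theorem cl_surj (c : SqCl k) : ∃ x : k, x ≠ 0 ∧ cl x = c := by
  obtain ⟨u, hu⟩ := QuotientGroup.mk_surjective
    (Additive.toMul (c : Additive (kˣ ⧸ (powMonoidHom 2 : kˣ →* kˣ).range)))
  refine ⟨u, u.ne_zero, ?_⟩
  rw [cl, dif_neg u.ne_zero, Units.mk0_val, hu]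
  rfl

theorem cl_mul {x y : k} (hx : x ≠ 0) (hy : y ≠ 0) : cl (x * y) = cl x + cl y := by
  rw [cl, cl, cl, dif_neg hx, dif_neg hy, dif_neg (mul_ne_zero hx hy), Units.mk0_mul]
  rfl

theorem cl_eq_zero {x : k} (hx : x ≠ 0) : cl x = 0 ↔ IsSquare x := by
  rw [cl, dif_neg hx]
  change QuotientGroup.mk (Units.mk0 x hx) = (1 : kˣ ⧸ (powMonoidHom 2 : kˣ →* kˣ).range) ↔ _
  rw [QuotientGroup.eq_one_iff]
  constructor
  · rintro ⟨u, hu⟩
    exact ⟨u, by simpa [sq] using (congrArg Units.val hu).symm⟩
  · rintro ⟨r, hr⟩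
    have hr0 : r ≠ 0 := by rintro rfl; simp at hr; exact hx hr
    exact ⟨Units.mk0 r hr0, Units.ext (by simp [hr, sq])⟩

theorem SqCl.add_self (c : SqCl k) : c + c = 0 := by
  obtain ⟨x, hx, rfl⟩ := cl_surj c
  rw [← cl_mul hx hx, cl_eq_zero (mul_ne_zero hx hx)]
  exact ⟨x, rfl⟩

noncomputable instance : Module (ZMod 2) (SqCl k) :=
  AddCommGroup.zmodModule fun c => by rw [two_nsmul]; exact c.add_self

theorem cl_eq_cl {x y : k} (hx : x ≠ 0) (hy : y ≠ 0) : cl x = cl y ↔ IsSquare (x * y) := by
  rw [← cl_eq_zero (mul_ne_zero hx hy), cl_mul hx hy]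
  constructor
  · intro h
    rw [h, SqCl.add_self]
  · intro h
    rw [← add_zero (cl x), ← SqCl.add_self (cl y), ← add_assoc, h, zero_add]

variable {w : Valuation k (WithZero (Multiplicative ℤ))}

theorem mem_pw {j : ℤ} {x : k} : x ∈ pw w j ↔ w x ≤ WithZero.exp (-j) := Iff.rfl

theorem val_eq_exp {x : k} (hx : x ≠ 0) : w x = WithZero.exp (-ord w x) := by
  rw [ord, neg_neg, WithZero.exp_log (by simpa using hx)]

@[simp] theorem ord_zero : ord w 0 = 0 := by simp [ord]

@[simp] theorem ord_one : ord w 1 = 0 := by simp [ord]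

@[simp] theorem ord_neg (x : k) : ord w (-x) = ord w x := by simp [ord]

theorem ord_mul {x y : k} (hx : x ≠ 0) (hy : y ≠ 0) : ord w (x * y) = ord w x + ord w y := by
  rw [ord, ord, ord, map_mul, WithZero.log_mul (by simpa using hx) (by simpa using hy)]
  ring

theorem ord_inv (x : k) : ord w x⁻¹ = -ord w x := by
  rw [ord, ord, map_inv₀, WithZero.log_inv]

theorem ord_div {x y : k} (hx : x ≠ 0) (hy : y ≠ 0) : ord w (x / y) = ord w x - ord w y := by
  rw [div_eq_mul_inv, ord_mul hx (inv_ne_zero hy), ord_inv, sub_eq_add_neg]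

theorem ord_pow (x : k) (n : ℕ) : ord w (x ^ n) = n * ord w x := by
  rw [ord, ord, map_pow, WithZero.log_pow]
  simp

theorem ord_zpow (x : k) (n : ℤ) : ord w (x ^ n) = n * ord w x := by
  rw [ord, ord, map_zpow₀, WithZero.log_zpow]
  simp

theorem mem_pw_iff {j : ℤ} {x : k} : x ∈ pw w j ↔ x = 0 ∨ j ≤ ord w x := by
  by_cases hx : x = 0
  · simp [hx]
  · rw [mem_pw, val_eq_exp hx, WithZero.exp_le_exp]
    simp [hx]

theorem val_lt_val {x y : k} (hx : x ≠ 0) (hy : y ≠ 0) : w x < w y ↔ ord w y < ord w x := by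
  rw [val_eq_exp hx, val_eq_exp hy, WithZero.exp_lt_exp]
  omega

theorem val_le_val {x y : k} (hx : x ≠ 0) (hy : y ≠ 0) : w x ≤ w y ↔ ord w y ≤ ord w x := by
  rw [val_eq_exp hx, val_eq_exp hy, WithZero.exp_le_exp]
  omega

theorem min_le_ord_add {x y : k} (hx : x ≠ 0) (hy : y ≠ 0) (h : x + y ≠ 0) :
    min (ord w x) (ord w y) ≤ ord w (x + y) := by
  rcases le_max_iff.1 (w.map_add x y) with h1 | h1
  · exact (min_le_left _ _).trans ((val_le_val h hx).1 h1)
  · exact (min_le_right _ _).trans ((val_le_val h hy).1 h1)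

theorem ord_add_of_lt {x y : k} (hx : x ≠ 0) (hy : y ≠ 0) (h : ord w x < ord w y) :
    x + y ≠ 0 ∧ ord w (x + y) = ord w x := by
  have h1 : w (x + y) = w x := w.map_add_eq_of_lt_left ((val_lt_val hy hx).2 h)
  refine ⟨fun h0 => hx ?_, by rw [ord, ord, h1]⟩
  rw [h0, map_zero] at h1
  simpa using h1.symm

end Local

/-! ### Quadratic extensions -/

/-- The data of a quadratic extension `K = F(√a)`. -/
structure Quad (F K : Type*) [Field F] [Field K] [Algebra F K] (a : F) where
  /-- the square root of `a` -/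
  rt : K
  /-- the nontrivial automorphism -/
  tau : K ≃ₐ[F] K
  sq : rt ^ 2 = algebraMap F K a
  tau_rt : tau rt = -rt
  ns : ¬ IsSquare a
  span : ∀ z : K, ∃ g h : F, z = algebraMap F K g + algebraMap F K h * rt

/-! ### Primes, divisors, completions -/

/-- Nonzero primes of the ring of integers. -/
abbrev Pr (F : Type*) [Field F] : Type _ := HeightOneSpectrum (𝓞 F)

section Global

variable {F : Type*} [Field F] [NumberField F]

/-- The completion at `q`. -/
abbrev Kc (q : Pr F) : Type _ := q.adicCompletion F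

/-- The valuation of the completion at `q`. -/
noncomputable abbrev wv (q : Pr F) : Valuation (Kc q) (WithZero (Multiplicative ℤ)) := Valued.v

/-- The embedding into the completion at `q`. -/
noncomputable abbrev emb (q : Pr F) : F →+* Kc q := algebraMap F (Kc q)

/-- The additive valuation at `q`. -/
noncomputable def og (q : Pr F) (x : F) : ℤ := ord (q.valuation F) x

theorem ord_emb (q : Pr F) (x : F) : ord (wv q) (emb q x) = og q x := by
  rw [og, ord, ord]
  congr 2
  exact q.valuedAdicCompletion_eq_valuation' x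

theorem og_finite (x : F) : {q : Pr F | og q x ≠ 0}.Finite := by
  by_cases hx : x = 0
  · simp [hx, og]
  refine ((HeightOneSpectrum.Support.finite (𝓞 F) x).union
    (HeightOneSpectrum.Support.finite (𝓞 F) x⁻¹)).subset fun q hq => ?_
  have hq' : ord (q.valuation F) x ≠ 0 := hq
  simp only [HeightOneSpectrum.Support, Set.mem_union, Set.mem_ofPred_eq]
  rw [val_eq_exp hx, val_eq_exp (inv_ne_zero hx), ord_inv, ← WithZero.exp_zero,
    WithZero.exp_lt_exp, WithZero.exp_lt_exp]
  omega

variable (F) in
/-- Divisors (fractional ideals written additively). -/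
abbrev Dv : Type _ := Pr F →₀ ℤ

/-- The divisor of an element (junk value `0` at `0`). -/
noncomputable def dv (x : F) : Dv F := Finsupp.ofSupportFinite (fun q => og q x) (og_finite x)

@[simp] theorem dv_apply (x : F) (q : Pr F) : dv x q = og q x := rfl

/-- Half of the divisor of `n` (rounded down). -/
noncomputable def hD (n : F) : Dv F :=
  Finsupp.ofSupportFinite (fun q => og q n / 2)
    ((og_finite n).subset fun q hq h0 => hq (by simp [h0]))

@[simp] theorem hD_apply (n : F) (q : Pr F) : hD n q = og q n / 2 := rfl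

/-- The divisor of smaller Newton slopes of `X ^ 2 - t X + n`. -/
noncomputable def mD (t n : F) : Dv F :=
  Finsupp.ofSupportFinite (fun q => mn (q.valuation F) t n)
    (((og_finite t).union (og_finite n)).subset fun q hq => by
      by_contra h
      simp only [Set.mem_union, Set.mem_ofPred_eq, not_or, not_not, og] at h
      exact hq (by simp [mn, h.1, h.2]))

@[simp] theorem mD_apply (t n : F) (q : Pr F) : mD t n q = mn (q.valuation F) t n := rfl

variable (F) in
/-- Principal divisors. -/
noncomputable def prin : AddSubgroup (Dv F) := AddSubgroup.closure (Set.range dv)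

/-- The pairing of a function on primes with a divisor. -/
noncomputable def pair (ψ : Pr F → ZMod 2) (D : Dv F) : ZMod 2 :=
  D.sum fun q n => (n : ZMod 2) * ψ q

/-- Quadratic characters of the `S`-class group, as functions on primes. -/
noncomputable def Chr (S : Finset (Pr F)) : Submodule (ZMod 2) (Pr F → ZMod 2) where
  carrier := {ψ | (∀ q ∈ S, ψ q = 0) ∧ ∀ x : F, pair ψ (dv x) = 0}
  add_mem' := fun {ψ φ} h1 h2 => ⟨fun q hq => by simp [h1.1 q hq, h2.1 q hq], fun x => by
    have := congrArg₂ (· + ·) (h1.2 x) (h2.2 x)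
    simpa [pair, Finsupp.sum, mul_add, Finset.sum_add_distrib] using this⟩
  zero_mem' := ⟨fun _ _ => rfl, fun x => by simp [pair]⟩
  smul_mem' := fun c ψ h => ⟨fun q hq => by simp [h.1 q hq], fun x => by
    have := congrArg (c * ·) (h.2 x)
    simpa [pair, Finsupp.sum, Finset.mul_sum, mul_left_comm] using this⟩

/-- `x` is nonzero and has even valuation outside `S`. -/
def IsSel (S : Finset (Pr F)) (x : F) : Prop := x ≠ 0 ∧ ∀ q ∉ S, Even (og q x)

/-- The Selmer group of square classes with even valuation outside `S`. -/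
noncomputable def Sel (S : Finset (Pr F)) : Submodule (ZMod 2) (SqCl F) where
  carrier := {c | ∃ x, IsSel S x ∧ cl x = c}
  add_mem' := by
    rintro _ _ ⟨x, hx, rfl⟩ ⟨y, hy, rfl⟩
    exact ⟨x * y, ⟨mul_ne_zero hx.1 hy.1, fun q hq => by
      rw [og, ord_mul hx.1 hy.1]; exact (hx.2 q hq).add (hy.2 q hq)⟩, cl_mul hx.1 hy.1⟩
  zero_mem' := ⟨1, ⟨one_ne_zero, fun q _ => by simp [og]⟩, (cl_eq_zero one_ne_zero).2 ⟨1, by simp⟩⟩
  smul_mem' := by
    rintro c _ ⟨x, hx, rfl⟩
    have hc : c = 0 ∨ c = 1 := by revert c; decide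
    rcases hc with rfl | rfl
    · exact ⟨1, ⟨one_ne_zero, fun q _ => by simp [og]⟩, by
        rw [zero_smul]; exact (cl_eq_zero one_ne_zero).2 ⟨1, by simp⟩⟩
    · exact ⟨x, hx, (one_smul _ _).symm⟩

/-- The group of `S`-units. -/
def SU (S : Finset (Pr F)) : Subgroup Fˣ where
  carrier := {x | ∀ q ∉ S, og q (x : F) = 0}
  mul_mem' := fun {a b} ha hb q hq => by
    have h1 := ha q hq
    have h2 := hb q hq
    rw [og] at h1 h2
    rw [Units.val_mul, og, ord_mul a.ne_zero b.ne_zero, h1, h2, add_zero]
  one_mem' := fun q _ => by simp [og]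
  inv_mem' := fun {a} ha q hq => by
    have h1 := ha q hq
    rw [og] at h1
    rw [Units.val_inv_eq_inv_val, og, ord_inv, h1, neg_zero]

/-- The Hilbert symbol at a finite prime. -/
noncomputable def hq (q : Pr F) (a b : F) : ZMod 2 := hs (emb q a) (emb q b)

/-- `a` is a square in the completion at `q`. -/
def LSq (q : Pr F) (a : F) : Prop := IsSquare (emb q a)

/-- `a` is nonzero and `F(√a)` is unramified outside `S` (in terms of local norms). -/
def Good (S : Finset (Pr F)) (a : F) : Prop := a ≠ 0 ∧ ∀ q ∉ S, Unr (wv q) (emb q a)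

/-- The `S`-class group is trivial. -/
def ClTriv (S : Finset (Pr F)) : Prop := ∀ D : Dv F, ∃ x : F, x ≠ 0 ∧ ∀ q ∉ S, og q x = D q

/-- The infinite place attached to a real embedding. -/
noncomputable def plc (φ : F →+* ℝ) : InfinitePlace F :=
  InfinitePlace.mk (Complex.ofRealHom.comp φ)

variable {K : Type*} [Field K] [NumberField K] [Algebra F K]

variable (F) in
/-- The prime below `Q`. -/
noncomputable def below (Q : Pr K) : Pr F := Q.under (𝓞 F)

variable (F) in
/-- The ramification index. -/
noncomputable def eI (Q : Pr K) : ℕ := Q.asIdeal.ramificationIdx (𝓞 F)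

/-- The conjugate prime. -/
noncomputable def Quad.act {a : F} (E : Quad F K a) (Q : Pr K) : Pr K :=
  HeightOneSpectrum.comap (RingOfIntegers.mapRingEquiv E.tau.toRingEquiv).toRingHom
    (RingOfIntegers.mapRingEquiv E.tau.toRingEquiv).surjective Q

/-- The divisors fixed by the nontrivial automorphism. -/
def Quad.amb {a : F} (E : Quad F K a) : AddSubgroup (Dv K) where
  carrier := {D | ∀ Q, D (E.act Q) = D Q}
  add_mem' := fun {D D'} h h' Q => by simp [h Q, h' Q]
  zero_mem' := fun _ => rfl
  neg_mem' := fun {D} h Q => by simp [h Q]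

/-- The order of the class group modulo the classes of ambiguous ideals. -/
noncomputable def Quad.M {a : F} (E : Quad F K a) : ℕ := (prin K ⊔ E.amb).index

/-- `z` is a unit of the ring of integers. -/
def IsU (z : K) : Prop := z ≠ 0 ∧ ∀ Q : Pr K, og Q z = 0

/-- `η` generates the units of relative norm one modulo roots of unity and `|η|_w < 1`. -/
structure Quad.Gen {a : F} (E : Quad F K a) (w : InfinitePlace K) (η : K) : Prop where
  unit : IsU η
  norm : η * E.tau η = 1
  lt : w η < 1
  tors : ∀ ζ : K, IsOfFinOrder ζ → ζ * E.tau ζ = 1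
  gen : ∀ u : K, IsU u → u * E.tau u = 1 → ∃ (ζ : K) (n : ℤ), IsOfFinOrder ζ ∧ u = ζ * η ^ n

/-- The place `v` splits in `K = F(√a)`, all other infinite places of `F` are real and ramify,
and `F` has a real place. -/
structure Sig (v : InfinitePlace F) (a : F) : Prop where
  real : Nonempty (F →+* ℝ)
  other : ∀ u : InfinitePlace F, u ≠ v → u.IsReal
  sign : ∀ φ : F →+* ℝ, (0 < φ a ↔ plc φ = v)

/-! ### Dirichlet series -/

variable (F) in
/-- The Dedekind zeta function as a sum over ideals. -/
noncomputable def zI (s : ℂ) : ℂ :=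
  ∑' I : {I : Ideal (𝓞 F) // I ≠ ⊥}, (Ideal.absNorm I.1 : ℂ) ^ (-s)

/-- The completely multiplicative extension of `c`. -/
noncomputable def cm (c : Ideal (𝓞 F) → ℂ) (I : Ideal (𝓞 F)) : ℂ :=
  ((UniqueFactorizationMonoid.normalizedFactors I).map c).prod

/-- The `S`-truncated Dirichlet series of `c`. -/
noncomputable def Lfun (S : Finset (Pr F)) (c : Ideal (𝓞 F) → ℂ) (s : ℂ) : ℂ :=
  ∑' I : {I : Ideal (𝓞 F) // StarkStmt.PrimeTo S I}, cm c I.1 * (Ideal.absNorm I.1 : ℂ) ^ (-s)

open scoped Classical in
/-- The quadratic character of `a`. -/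
noncomputable def chi (a : F) (q : Pr F) : ℂ := if LSq q a then 1 else -1

end Global

end Pool.Agent.Stark
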