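import Pool.Agent.Lib.MP_ca56d1_nt.Base

/-! A parity lemma for determinants over the field with two elements. -/

namespace Pool.Agent.Stark

open Module

variable {A V : Type*} [AddCommGroup A] [Module (ZMod 2) A] [AddCommGroup V] [Module (ZMod 2) V]

theorem zmod2_add_self (x : ZMod 2) : x + x = 0 := by revert x; decide

omit [Module (ZMod 2) V] [AddCommGroup V] in
theorem add_self_mod (a : A) : a + a = 0 := by
  rw [← two_smul (ZMod 2) a, show (2 : ZMod 2) = 0 by decide, zero_smul]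

/-- A product of fewer than `dim A` affine functions has sum zero. -/
theorem sum_prod_affine [Fintype A] {ι : Type*} [Fintype ι] (h : Fintype.card ι < finrank (ZMod 2) A)
    (f : ι → A → ZMod 2) (hf : ∀ i a a', f i (a + a') + f i 0 = f i a + f i a') :
    ∑ a, ∏ i, f i a = 0 := by
  let l : A →+ (ι → ZMod 2) :=
    { toFun := fun a i => f i a - f i 0
      map_zero' := by ext i; simp
      map_add' := fun a a' => by
        ext i
        simp only [Pi.add_apply]
        linear_combination hf i a a' }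
  obtain ⟨a₀, h0, hne⟩ : ∃ a₀, l a₀ = 0 ∧ a₀ ≠ 0 := by
    have := LinearMap.ker_ne_bot_of_finrank_lt (f := l.toZModLinearMap 2) (by simpa using h)
    obtain ⟨a₀, h1, h2⟩ := (Submodule.ne_bot_iff _).1 this
    exact ⟨a₀, h1, h2⟩
  have inv : ∀ i a, f i (a + a₀) = f i a := fun i a => by
    have h1 : f i a₀ - f i 0 = 0 := congrFun h0 i
    linear_combination hf i a a₀ + h1
  refine Finset.sum_involution (fun a _ => a + a₀) (fun a _ => ?_) (fun a _ _ => ?_)
    (fun a _ => Finset.mem_univ _) fun a _ => ?_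
  · simp only [inv, zmod2_add_self]
  · simpa using hne
  · simp only [add_assoc, add_self_mod, add_zero]

theorem sum_det [Fintype A] {ι κ : Type*} [Fintype ι] [Fintype κ] [DecidableEq ι] [DecidableEq κ]
    (h : Fintype.card ι < finrank (ZMod 2) A) (M : A → Matrix (ι ⊕ κ) (ι ⊕ κ) (ZMod 2))
    (h1 : ∀ i j a a', M (a + a') (Sum.inl i) j + M 0 (Sum.inl i) j =
      M a (Sum.inl i) j + M a' (Sum.inl i) j)
    (h2 : ∀ i j a, M a (Sum.inr i) j = M 0 (Sum.inr i) j) : ∑ a, (M a).det = 0 := by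
  have e : ∀ a, (M a).det = ∑ σ : Equiv.Perm (ι ⊕ κ), ((Equiv.Perm.sign σ : ℤ) : ZMod 2) *
      ((∏ i, M a (Sum.inl i) (σ (Sum.inl i))) * ∏ i, M 0 (Sum.inr i) (σ (Sum.inr i))) := by
    intro a
    rw [← Matrix.det_transpose, Matrix.det_apply']
    refine Finset.sum_congr rfl fun σ _ => ?_
    rw [Fintype.prod_sum_type]
    simp only [Matrix.transpose_apply, h2 _ _ a]
  rw [Finset.sum_congr rfl fun a _ => e a, Finset.sum_comm]
  refine Finset.sum_eq_zero fun σ _ => ?_
  rw [← Finset.mul_sum, ← Finset.sum_mul,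
    sum_prod_affine h (fun i a => M a (Sum.inl i) (σ (Sum.inl i))) fun i a a' => h1 _ _ _ _]
  simp

theorem det_eq_zero_iff {ι : Type*} [Fintype ι] [DecidableEq ι] (B : Basis ι (ZMod 2) V)
    (l : ι → V →ₗ[ZMod 2] ZMod 2) :
    (Matrix.of fun i j => l i (B j)).det = 0 ↔ ∃ y : V, y ≠ 0 ∧ ∀ i, l i y = 0 := by
  rw [← Matrix.exists_mulVec_eq_zero_iff]
  have key : ∀ (v : ι → ZMod 2) (i : ι),
      (Matrix.of fun i j => l i (B j)).mulVec v i = l i (B.equivFun.symm v) := by
    intro v i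
    simp [Matrix.mulVec, dotProduct, Basis.equivFun_symm_apply, mul_comm]
  constructor
  · rintro ⟨v, hv, h⟩
    exact ⟨B.equivFun.symm v, fun h0 => hv (B.equivFun.symm.map_eq_zero_iff.1 h0), fun i => by rw [← key, h]; rfl⟩
  · rintro ⟨y, hy, h⟩
    exact ⟨B.equivFun y, by simpa using hy, funext fun i => by rw [key]; simpa using h i⟩

theorem det_of_row_dep {ι : Type*} [Fintype ι] [DecidableEq ι] (B : Basis ι (ZMod 2) V)
    (l : ι → V →ₗ[ZMod 2] ZMod 2) (s : Finset ι) (hs : s.Nonempty)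
    (h : ∀ y, ∑ i ∈ s, l i y = 0) : (Matrix.of fun i j => l i (B j)).det = 0 := by
  rw [← Matrix.exists_vecMul_eq_zero_iff]
  refine ⟨fun i => if i ∈ s then 1 else 0, fun h0 => ?_, funext fun j => ?_⟩
  · obtain ⟨i, hi⟩ := hs
    simpa [hi] using congrFun h0 i
  · simpa [Matrix.vecMul, dotProduct, Finset.sum_ite_mem] using h (B j)

open scoped Classical in
theorem det_of_ker {ι : Type*} [Fintype ι] [DecidableEq ι] (B : Basis (ι ⊕ Fin 2) (ZMod 2) V)
    (l : ι → V →ₗ[ZMod 2] ZMod 2) (x x' : V →ₗ[ZMod 2] ZMod 2) {c b : V}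
    (hi : LinearIndependent (ZMod 2) ![c, b]) (hc : ∀ i, l i c = 0) (hb : ∀ i, l i b = 0) :
    (Matrix.of fun i j => Sum.elim l ![x, x'] i (B j)).det =
      if ∀ y, (∀ i, l i y = 0) → y ∈ Submodule.span (ZMod 2) {c, b} then
        x c * x' b + x' c * x b else 0 := by
  have hi' := LinearIndependent.pair_iff.1 hi
  have hz := det_eq_zero_iff B (Sum.elim l ![x, x'])
  simp only [Sum.forall, Sum.elim_inl, Sum.elim_inr, Fin.forall_fin_two, Matrix.cons_val_zero,
    Matrix.cons_val_one] at hz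
  have comb : ∀ s t : ZMod 2, ∀ i, l i (s • c + t • b) = 0 := fun s t i => by simp [hc, hb]
  split_ifs with h
  · refine zmod2_ext (hz.trans ⟨?_, fun h0 => ?_⟩)
    · rintro ⟨y, hy, h1, h2, h3⟩
      obtain ⟨s, t, rfl⟩ := Submodule.mem_span_pair.1 (h y h1)
      have h4 : ¬ (s = 0 ∧ t = 0) := by rintro ⟨rfl, rfl⟩; simp at hy
      simp only [map_add, map_smul, smul_eq_mul] at h2 h3
      clear hy h1
      revert h2 h3 h4
      generalize x c = p, x b = q, x' c = p', x' b = q'
      revert s t p q p' q'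
      decide
    · obtain ⟨s, t, h1, h2, h3⟩ : ∃ s t : ZMod 2, ¬ (s = 0 ∧ t = 0) ∧ s * x c + t * x b = 0 ∧
          s * x' c + t * x' b = 0 := by
        revert h0
        generalize x c = p, x b = q, x' c = p', x' b = q'
        revert p q p' q'
        decide
      exact ⟨s • c + t • b, fun h0 => h1 (hi' s t h0), comb s t, by simpa using h2,
        by simpa using h3⟩
  · push Not at h
    obtain ⟨y, hy, hy'⟩ := h
    obtain ⟨r, s, t, h1, h2, h3⟩ : ∃ r s t : ZMod 2, ¬ (r = 0 ∧ s = 0 ∧ t = 0) ∧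
        r * x y + (s * x c + t * x b) = 0 ∧ r * x' y + (s * x' c + t * x' b) = 0 := by
      generalize x c = p, x b = q, x' c = p', x' b = q', x y = o, x' y = o'
      revert p q p' q' o o'
      decide
    refine hz.2 ⟨r • y + (s • c + t • b), fun h0 => ?_, fun i => by simp [hc, hb, hy],
      by simpa using h2, by simpa using h3⟩
    rcases zmod2_cases r with rfl | rfl
    · exact h1 ⟨rfl, hi' s t (by simpa using h0)⟩
    · refine hy' (Submodule.mem_span_pair.2 ⟨-s, -t, ?_⟩)
      rw [one_smul, add_eq_zero_iff_eq_neg] at h0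
      rw [h0, neg_smul, neg_smul, neg_add]

end Pool.Agent.Stark
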