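import Pool.Agent.Lib.MP_ca56d1_nt.Recip
import Pool.Agent.Lib.MP_ca56d1_nt.SUnit
import Pool.Agent.Lib.MP_ca56d1_nt.EulerQuad

/-! Linear algebra over the field with two elements and local lemmas for the duality theorem. -/

namespace Pool.Agent.Stark.DualAux

open NumberField

section Lin

variable {G E : Type*} [Group G] [AddCommGroup E]

/-- An additive map on a multiplicative group as a homomorphism. -/
def mh (l : G → E) (hl : ∀ u v, l (u * v) = l u + l v) : G →* Multiplicative E :=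
  MonoidHom.mk' (fun u => Multiplicative.ofAdd (l u)) fun u v => by rw [hl, ofAdd_add]

theorem mem_ker_mh {l : G → E} {hl : ∀ u v, l (u * v) = l u + l v} {u : G} :
    u ∈ (mh l hl).ker ↔ l u = 0 := Iff.rfl

theorem card_range (l : G → E) (hl : ∀ u v, l (u * v) = l u + l v) :
    Nat.card (Set.range l) = (mh l hl).ker.index := by
  rw [Subgroup.index_ker]
  rfl

variable [Module (ZMod 2) E]

/-- A symmetric biadditive map as a bilinear form. -/
def mkB (f : E → E → ZMod 2) (hs : ∀ x y, f x y = f y x)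
    (ha : ∀ x x' y, f (x + x') y = f x y + f x' y) : LinearMap.BilinForm (ZMod 2) E :=
  have h0 : ∀ y, f 0 y = 0 := fun y => by simpa using ha 0 0 y
  have h1 : ∀ (c : ZMod 2) x y, f (c • x) y = c • f x y := fun c x y => by
    rcases zmod2_cases c with rfl | rfl <;> simp [h0]
  LinearMap.mk₂ (ZMod 2) f ha h1 (fun x y y' => by rw [hs, ha, hs y, hs y'])
    fun c x y => by rw [hs, h1, hs y]

theorem card_orth [Finite E] (f : E → E → ZMod 2) (hs : ∀ x y, f x y = f y x)
    (ha : ∀ x x' y, f (x + x') y = f x y + f x' y) (hnd : ∀ x, (∀ y, f x y = 0) → x = 0)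
    (l : G → E) (hl : ∀ u v, l (u * v) = l u + l v) :
    Nat.card {x | ∀ u, f x (l u) = 0} * Nat.card (Set.range l) = Nat.card E := by
  let W : Submodule (ZMod 2) E :=
    AddSubgroup.toZModSubmodule 2 (Subgroup.toAddSubgroup' (mh l hl).range)
  have hW : ∀ x, x ∈ W ↔ x ∈ Set.range l := fun x => Iff.rfl
  have h1 : Nat.card (Set.range l) = Nat.card W := rfl
  have h2 : Nat.card {x | ∀ u, f x (l u) = 0} = Nat.card ((mkB f hs ha).orthogonal W) := by
    refine Nat.card_congr (Equiv.subtypeEquivRight fun x => ?_)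
    rw [LinearMap.BilinForm.mem_orthogonal_iff]
    constructor
    · rintro h _ ⟨u, rfl⟩
      exact (hs _ _).trans (h u)
    · intro h u
      exact (hs _ _).trans (h _ ((hW _).2 ⟨u, rfl⟩))
  have h3 := LinearMap.BilinForm.finrank_add_finrank_orthogonal' (B := mkB f hs ha) W
  have h4 : LinearMap.ker (mkB f hs ha) = ⊥ :=
    LinearMap.ker_eq_bot'.2 fun x hx => hnd x fun y => LinearMap.congr_fun hx y
  rw [h4, inf_bot_eq, finrank_bot, add_zero] at h3
  rw [h1, h2, Module.natCard_eq_pow_finrank (K := ZMod 2) (V := E),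
    Module.natCard_eq_pow_finrank (K := ZMod 2) (V := W),
    Module.natCard_eq_pow_finrank (K := ZMod 2) (V := (mkB f hs ha).orthogonal W), ← pow_add, ← h3,
    add_comm]

theorem mem_range_of_orth [Finite E] (f : E → E → ZMod 2) (hs : ∀ x y, f x y = f y x)
    (ha : ∀ x x' y, f (x + x') y = f x y + f x' y) (hnd : ∀ x, (∀ y, f x y = 0) → x = 0)
    (l : G → E) (hl : ∀ u v, l (u * v) = l u + l v) (hiso : ∀ u v, f (l u) (l v) = 0)
    (hc : Nat.card E = (mh l hl).ker.index * (mh l hl).ker.index) {x : E}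
    (hx : ∀ u, f x (l u) = 0) : ∃ u, l u = x := by
  have h1 := card_orth f hs ha hnd l hl
  have h2 := card_range l hl
  have h3 : (mh l hl).ker.index ≠ 0 := fun h => by
    rw [h] at hc
    exact (Nat.card_pos (α := E)).ne' hc
  rw [hc, h2] at h1
  have h4 : Set.range l = {x | ∀ u, f x (l u) = 0} := by
    refine Set.eq_of_subset_of_ncard_le ?_ ?_
    · rintro _ ⟨u, rfl⟩ v
      exact hiso u v
    · rw [← Nat.card_coe_set_eq, ← Nat.card_coe_set_eq, h2, mul_right_cancel₀ h3 h1]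
  exact (h4.ge hx : x ∈ Set.range l)

theorem two_pow_le {ι : Type*} [Fintype ι] (l : G → ι → ZMod 2)
    (hl : ∀ u v, l (u * v) = l u + l v)
    (h : ∀ c : ι → ZMod 2, (∀ u, ∑ i, c i * l u i = 0) → c = 0 ∨ c = 1) :
    2 ^ Fintype.card ι ≤ 2 * (mh l hl).ker.index := by
  classical
  have h1 := card_orth (fun x y : ι → ZMod 2 => ∑ i, x i * y i)
    (fun x y => Finset.sum_congr rfl fun i _ => mul_comm _ _)
    (fun x x' y => by simp [add_mul, Finset.sum_add_distrib])
    (fun x hx => funext fun i => by simpa [Pi.single_apply] using hx (Pi.single i 1)) l hl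
  rw [card_range l hl, Nat.card_fun, Nat.card_zmod, Nat.card_eq_fintype_card (α := ι)] at h1
  rw [← h1]
  refine Nat.mul_le_mul_right _ ?_
  rw [Nat.card_coe_set_eq]
  exact (Set.ncard_le_ncard (t := {0, 1}) fun c hc => h c hc).trans (Set.ncard_insert_le _ _ |>.trans
    (by simp))

theorem sum_ext {α : Type*} [DecidableEq α] {T s : Finset α} (hT : T ⊆ s) (c : T → ZMod 2)
    (g : α → ZMod 2) :
    ∑ a ∈ s, (if h : a ∈ T then c ⟨a, h⟩ else 0) * g a = ∑ x : T, c x * g x := by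
  rw [← Finset.sum_subset hT fun a _ ha => by simp [ha],
    ← Finset.sum_coe_sort T fun a => (if h : a ∈ T then c ⟨a, h⟩ else 0) * g a]
  exact Finset.sum_congr rfl fun x _ => by simp

end Lin

section Cl

variable {k : Type*} [Field k] {w : Valuation k (WithZero (Multiplicative ℤ))}

theorem isSquare_of_mul {a b : k} (hb0 : b ≠ 0) (hb : IsSquare b) (h : IsSquare (a * b)) :
    IsSquare a := by
  have := h.div hb
  rwa [mul_div_cancel_right₀ _ hb0] at this

/-- A representative of a square class. -/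
noncomputable def rp (c : SqCl k) : k := (cl_surj c).choose

theorem rp_ne (c : SqCl k) : rp c ≠ 0 := (cl_surj c).choose_spec.1

theorem cl_rp (c : SqCl k) : cl (rp c) = c := (cl_surj c).choose_spec.2

/-- The Hilbert symbol on square classes. -/
noncomputable def hc (c d : SqCl k) : ZMod 2 := hs (rp c) (rp d)

theorem hc_cl {a b : k} (ha : a ≠ 0) (hb : b ≠ 0) : hc (cl a) (cl b) = hs a b := by
  rw [hc, hs_congr_left _ (rp_ne _) ha ((cl_eq_cl (rp_ne _) ha).1 (cl_rp _)),
    hs_congr_right _ (rp_ne _) hb ((cl_eq_cl (rp_ne _) hb).1 (cl_rp _))]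

theorem hc_comm (L : IsLoc w) (c d : SqCl k) : hc c d = hc d c :=
  hs_comm L.two (rp_ne _) (rp_ne _)

theorem hc_add (L : IsLoc w) (c c' d : SqCl k) : hc (c + c') d = hc c d + hc c' d := by
  obtain ⟨a, ha, rfl⟩ := cl_surj c
  obtain ⟨b, hb, rfl⟩ := cl_surj c'
  obtain ⟨y, hy, rfl⟩ := cl_surj d
  rw [← cl_mul ha hb, hc_cl (mul_ne_zero ha hb) hy, hc_cl ha hy, hc_cl hb hy,
    L.hs_mul_left ha hb hy]

theorem hc_zero (L : IsLoc w) (c : SqCl k) : hc c 0 = 0 := by
  have := hc_add L 0 0 c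
  rw [hc_comm L]
  simpa using this

theorem hc_nd (L : IsLoc w) {c : SqCl k} (h : ∀ d, hc c d = 0) : c = 0 := by
  obtain ⟨a, ha, rfl⟩ := cl_surj c
  rw [cl_eq_zero ha]
  by_contra hn
  obtain ⟨b, hb, h1⟩ := L.exists_hs_one ha hn
  rw [← hc_cl ha hb, h] at h1
  exact zero_ne_one h1

theorem hs_one_left (h2 : (2 : k) ≠ 0) (b : k) : hs 1 b = 0 :=
  hs_of_isSquare_left h2 one_ne_zero IsSquare.one b

/-- An element whose symbol is a given multiple of the valuation. -/
theorem exists_unr (L : IsLoc w) (c : ZMod 2) : ∃ x : k, x ≠ 0 ∧ (c = 0 → x = 1) ∧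
    ∀ y : k, y ≠ 0 → hs x y = c * (ord w y : ZMod 2) := by
  rcases zmod2_cases c with rfl | rfl
  · exact ⟨1, one_ne_zero, fun _ => rfl, fun y _ => by rw [hs_one_left L.two, zero_mul]⟩
  · obtain ⟨t, n, -, -, -, h1, -, h2, h3⟩ := L.exists_aniso
    exact ⟨_, h1, fun h => absurd h one_ne_zero, fun y hy => by
      rw [L.hs_of_unr h1 h3 hy, if_neg h2, one_mul]⟩

end Cl

/-- The sign of a real number, written additively. -/
noncomputable def sg (x : ℝ) : ZMod 2 := if x < 0 then 1 else 0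

theorem hs_sg {a b : ℝ} (ha : a ≠ 0) (hb : b ≠ 0) : hs a b = sg a * sg b := by
  rw [hs_real ha hb, sg, sg]
  by_cases h1 : a < 0 <;> by_cases h2 : b < 0 <;> simp [h1, h2]

theorem sg_mul {a b : ℝ} (ha : a ≠ 0) (hb : b ≠ 0) : sg (a * b) = sg a + sg b := by
  unfold sg
  rcases lt_or_gt_of_ne ha with ha | ha <;> rcases lt_or_gt_of_ne hb with hb | hb <;>
    simp [ha, hb, ha.not_gt, hb.not_gt, mul_neg_iff]
  decide

theorem pos_of_sg {a : ℝ} (ha : a ≠ 0) (h : sg a = 0) : 0 < a := by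
  unfold sg at h
  split_ifs at h with h1
  · exact absurd h one_ne_zero
  · exact lt_of_le_of_ne (not_lt.1 h1) ha.symm

theorem mul_pos_of_sg {a b : ℝ} (ha : a ≠ 0) (hb : b ≠ 0) (h : sg a = sg b) : 0 < a * b :=
  pos_of_sg (mul_ne_zero ha hb) (by rw [sg_mul ha hb, h, CharTwo.add_self_eq_zero])

theorem hs_pos {a : ℝ} (ha : 0 < a) (b : ℝ) : hs a b = 0 :=
  hs_of_isSquare_left two_ne_zero ha.ne' ⟨√a, (Real.mul_self_sqrt ha.le).symm⟩ b

theorem hs_of_mul_pos {a b : ℝ} (h : 0 < a * b) (c : ℝ) : hs a c = hs b c :=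
  hs_congr_left c (left_ne_zero_of_mul h.ne') (right_ne_zero_of_mul h.ne')
    ⟨√(a * b), (Real.mul_self_sqrt h.le).symm⟩

variable {F : Type*} [Field F] [NumberField F]

theorem emb_ne (q : Pr F) {x : F} (hx : x ≠ 0) : emb q x ≠ 0 := (map_ne_zero _).2 hx

theorem ord_two (q : Pr F) : ord (wv q) (2 : Kc q) = og q (2 : F) := by
  rw [← ord_emb, map_ofNat]

theorem og_mul (q : Pr F) {x y : F} (hx : x ≠ 0) (hy : y ≠ 0) :
    og q (x * y) = og q x + og q y := ord_mul hx hy

open scoped Classical in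
theorem hs_unr (q : Pr F) (h2 : og q (2 : F) = 0) {u : F} (hu : u ≠ 0) (he : og q u = 0)
    {y : Kc q} (hy : y ≠ 0) :
    hs (emb q u) y = (if LSq q u then 0 else 1) * (ord (wv q) y : ZMod 2) := by
  have L := isLoc_wv q
  rw [L.hs_of_unr (emb_ne q hu) (L.unr_of_odd ((ord_two q).trans h2) (emb_ne q hu)
    (by rw [ord_emb, he]; exact Even.zero)) hy]
  unfold LSq
  split_ifs <;> simp

theorem exists_pi {S : Finset (Pr F)} (hcl : ClTriv S) {q : Pr F} (hq' : q ∉ S) :
    ∃ p : F, p ≠ 0 ∧ og q p = 1 ∧ ∀ q' ∉ S, q' ≠ q → og q' p = 0 := by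
  obtain ⟨p, h0, h⟩ := hcl (Finsupp.single q 1)
  exact ⟨p, h0, by rw [h q hq', Finsupp.single_eq_same], fun q' h1 h2 => by
    rw [h q' h1, Finsupp.single_eq_of_ne h2]⟩

open scoped Classical in
/-- Reciprocity for an `S`-unit and an element with one prime outside `S`. -/
theorem recip_pi {S : Finset (Pr F)} (h2 : ∀ q ∉ S, og q (2 : F) = 0) {u p : F} (hu : u ≠ 0)
    (hp : p ≠ 0) (hu' : ∀ q ∉ S, og q u = 0) {q : Pr F} (hq' : q ∉ S) (h1 : og q p = 1)
    (h0 : ∀ q' ∉ S, q' ≠ q → og q' p = 0) :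
    ∑ φ : F →+* ℝ, hs (φ u) (φ p) + ∑ q' ∈ S, hq q' u p = if LSq q u then 0 else 1 := by
  have h := reciprocity hu hp (insert q S) fun q' h => by
    rw [Finset.mem_insert, not_or] at h
    exact hq_eq_zero q' (h2 q' h.2) hu hp (by rw [hu' q' h.2]; exact Even.zero)
      (by rw [h0 q' h.2 h.1]; exact Even.zero)
  rw [Finset.sum_insert hq', hq, hs_unr q (h2 q hq') hu (hu' q hq') (emb_ne q hp), ord_emb, h1,
    Int.cast_one, mul_one] at h
  have key : ∀ x y z : ZMod 2, x + (z + y) = 0 → x + y = z := by decide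
  exact key _ _ _ h

theorem lsq_of_recip {S : Finset (Pr F)} (h2 : ∀ q ∉ S, og q (2 : F) = 0) {u p : F} (hu : u ≠ 0)
    (hp : p ≠ 0) (hu' : ∀ q ∉ S, og q u = 0) {q : Pr F} (hq' : q ∉ S) (h1 : og q p = 1)
    (h0 : ∀ q' ∉ S, q' ≠ q → og q' p = 0) (hr : ∀ φ : F →+* ℝ, hs (φ u) (φ p) = 0)
    (hf : ∀ q' ∈ S, hq q' u p = 0) : LSq q u := by
  have h := recip_pi h2 hu hp hu' hq' h1 h0
  rw [Finset.sum_eq_zero fun φ _ => hr φ, Finset.sum_eq_zero hf, add_zero] at h
  by_contra hn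
  rw [if_neg hn] at h
  exact zero_ne_one h

/-- An `S`-unit that is a square at all places of `S` is a square. -/
theorem isSquare_of_loc {S : Finset (Pr F)} (h2 : ∀ q ∉ S, og q (2 : F) = 0) (hcl : ClTriv S)
    {u : F} (hu : u ≠ 0) (hu' : ∀ q ∉ S, og q u = 0) (hr : ∀ φ : F →+* ℝ, 0 < φ u)
    (hf : ∀ q ∈ S, LSq q u) : IsSquare u := by
  have h := density one_ne_zero hu S fun q hq' _ => by
    obtain ⟨p, hp, h1, h0⟩ := exists_pi hcl hq'
    exact lsq_of_recip h2 hu hp hu' hq' h1 h0 (fun φ => hs_pos (hr φ) _) fun q' h =>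
      hs_of_isSquare_left (isLoc_wv q').two (emb_ne q' hu) (hf q' h) _
  simpa using h

theorem card_loc (S : Finset (Pr F)) (h2 : ∀ q ∉ S, og q (2 : F) = 0) :
    Nat.card (((F →+* ℝ) → ZMod 2) × ∀ q : S, SqCl (Kc q.1)) =
      2 ^ (Fintype.card (InfinitePlace F) + S.card) *
        2 ^ (Fintype.card (InfinitePlace F) + S.card) := by
  have h1 : ∀ q : S, Nat.card (SqCl (Kc q.1)) =
      4 * Ideal.absNorm q.1.asIdeal ^ (og q.1 (2 : F)).toNat := fun q => by
    rw [(isLoc_wv q.1).card_sqCl, rc_wv, ord_two]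
  rw [Nat.card_prod, Nat.card_fun, Nat.card_zmod, Nat.card_pi, Finset.prod_congr rfl fun q _ => h1 q,
    Finset.prod_coe_sort S fun q => 4 * Ideal.absNorm q.asIdeal ^ (og q (2 : F)).toNat,
    Finset.prod_mul_distrib, prod_absNorm_two S h2, Finset.prod_const, Nat.card_eq_fintype_card,
    card_realHom, ← InfinitePlace.card_add_two_mul_card_eq_rank,
    InfinitePlace.card_eq_nrRealPlaces_add_nrComplexPlaces, show (4 : ℕ) = 2 ^ 2 from rfl,
    ← pow_mul, ← pow_add, ← pow_add, ← pow_add]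
  congr 1
  ring

theorem exists_finset (x : F) : ∃ P : Finset (Pr F), ∀ q ∉ P, og q x = 0 :=
  ⟨(og_finite x).toFinset, fun q h => by simpa using h⟩

end Pool.Agent.Stark.DualAux
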