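import Pool.Agent.Lib.MP_ca56d1_nt.SUnit

/-! The two-part of the class group modulo ambiguous ideals. -/

namespace Pool.Agent.Stark

open NumberField

variable {F K : Type*} [Field F] [NumberField F] [Field K] [NumberField K] [Algebra F K]

/-- The element `g + h √a` has even norm valuations outside `S` and its ideal class invariant
vanishes. -/
def Ker (S : Finset (Pr F)) (a g h : F) : Prop :=
  IsSel S (g ^ 2 - a * h ^ 2) ∧
    ∀ ψ ∈ Chr S, pair ψ (mD (2 * g) (g ^ 2 - a * h ^ 2) - hD (g ^ 2 - a * h ^ 2)) = 0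

namespace GenusAux

theorem odd_relIndex {G : Type*} [AddCommGroup G] (H L : AddSubgroup G)
    (hfin : H.relIndex L ≠ 0) : Odd (H.relIndex L) ↔ ∀ x ∈ L, 2 • x ∈ H → x ∈ H := by
  have hc : H.relIndex L = Nat.card (L ⧸ H.addSubgroupOf L) := rfl
  have : Finite (L ⧸ H.addSubgroupOf L) := Nat.finite_of_card_ne_zero (hc ▸ hfin)
  have key : ∀ x : L, (QuotientAddGroup.mk x : L ⧸ H.addSubgroupOf L) = 0 ↔ (x : G) ∈ H :=
    fun x => by rw [QuotientAddGroup.eq_zero_iff, AddSubgroup.mem_addSubgroupOf]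
  rw [hc]
  constructor
  · rintro ⟨m, hm⟩ x hx h2
    have h1 := card_nsmul_eq_zero'
      (x := (QuotientAddGroup.mk (⟨x, hx⟩ : L) : L ⧸ H.addSubgroupOf L))
    have h3 : 2 • (QuotientAddGroup.mk (⟨x, hx⟩ : L) : L ⧸ H.addSubgroupOf L) = 0 := by
      rw [← QuotientAddGroup.mk_nsmul, key]
      exact h2
    rw [hm, add_nsmul, mul_nsmul, h3, nsmul_zero, zero_add, one_nsmul, key] at h1
    exact h1
  · intro h
    by_contra hodd
    have : Fact (Nat.Prime 2) := ⟨Nat.prime_two⟩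
    obtain ⟨z, hz⟩ := exists_prime_addOrderOf_dvd_card' (G := L ⧸ H.addSubgroupOf L) 2
      (even_iff_two_dvd.1 (Nat.not_odd_iff_even.1 hodd))
    obtain ⟨x, rfl⟩ := QuotientAddGroup.mk_surjective z
    have h2 := addOrderOf_nsmul_eq_zero (QuotientAddGroup.mk x : L ⧸ H.addSubgroupOf L)
    rw [hz, ← QuotientAddGroup.mk_nsmul, key] at h2
    rw [(key x).2 (h x x.2 h2), addOrderOf_zero] at hz
    omega

section Cl

variable {k : Type*} [Field k]

theorem cl_one : cl (1 : k) = 0 := (cl_eq_zero one_ne_zero).2 ⟨1, by simp⟩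

theorem smul_cl (s : ZMod 2) (x : k) : s • cl x = cl (x ^ s.val) := by
  rcases zmod2_cases s with rfl | rfl
  · simp [cl_one]
  · rw [one_smul, show (1 : ZMod 2).val = 1 from rfl, pow_one]

theorem cl_pow_mem {V : Submodule (ZMod 2) (SqCl k)} {x : k} (hx : x ≠ 0) (h : cl x ∈ V) (n : ℕ) :
    cl (x ^ n) ∈ V := by
  induction n with
  | zero => rw [pow_zero, cl_one]; exact V.zero_mem
  | succ n ih => rw [pow_succ, cl_mul (pow_ne_zero n hx) hx]; exact V.add_mem ih h

theorem cl_zpow_mem {V : Submodule (ZMod 2) (SqCl k)} {x : k} (hx : x ≠ 0) (h : cl x ∈ V)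
    (n : ℤ) : cl (x ^ n) ∈ V := by
  obtain ⟨m, rfl | rfl⟩ := n.eq_nat_or_neg
  · rw [zpow_natCast]; exact cl_pow_mem hx h m
  · have h0 := pow_ne_zero m hx
    rw [zpow_neg, zpow_natCast, (cl_eq_cl (inv_ne_zero h0) h0).2 ⟨1, by field_simp⟩]
    exact cl_pow_mem hx h m

end Cl

theorem og_mul (q : Pr F) {x y : F} (hx : x ≠ 0) (hy : y ≠ 0) :
    og q (x * y) = og q x + og q y := ord_mul hx hy

theorem og_div (q : Pr F) {x y : F} (hx : x ≠ 0) (hy : y ≠ 0) :
    og q (x / y) = og q x - og q y := ord_div hx hy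

theorem og_pow (q : Pr F) (x : F) (n : ℕ) : og q (x ^ n) = n * og q x := ord_pow x n

theorem cast_eq {m n : ℤ} (h : (2 : ℤ) ∣ n - m) : (m : ZMod 2) = n :=
  (ZMod.intCast_eq_intCast_iff_dvd_sub m n 2).2 h

variable {a : F} (E : Quad F K a)

open scoped Classical in
/-- The function on primes of `K` attached to `ψ`. -/
noncomputable def up (ψ : Pr F → ZMod 2) (Q : Pr K) : ZMod 2 :=
  if E.act Q = Q then 0 else ψ (below F Q)

open scoped Classical in
theorem pair_up {S : Finset (Pr F)} {ψ : Pr F → ZMod 2} (hψ : ∀ q ∈ S, ψ q = 0) (D : Dv K)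
    (D0 : Dv F) (h : ∀ Q, below F Q ∉ S →
      (2 : ℤ) ∣ D0 (below F Q) - if E.act Q = Q then 0 else D Q + D (E.act Q)) :
    pair (up E ψ) D = pair ψ D0 := by
  obtain ⟨PK, hPK⟩ := exists_above (K := K) (D0.support ∪ D.support.image (below F))
  rw [pair_eq_sum ψ D0 (D0.support ∪ D.support.image (below F)) fun q hq => by
      rw [Finsupp.notMem_support_iff.1 fun h0 => hq (Finset.mem_union_left _ h0)]; simp,
    pair_eq_sum (up E ψ) D PK fun Q hQ => by
      rw [Finsupp.notMem_support_iff.1 fun h0 => hQ ((hPK Q).2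
        (Finset.mem_union_right _ (Finset.mem_image_of_mem _ h0)))]; simp,
    ← Finset.sum_fiberwise_of_maps_to (g := below F) fun Q hQ => (hPK Q).1 hQ]
  refine Finset.sum_congr rfl fun q hq => ?_
  obtain ⟨Q, rfl⟩ := below_surj (K := K) q
  have hf : PK.filter (fun Q' => below F Q' = below F Q) = {Q, E.act Q} := by
    ext Q'
    simp only [Finset.mem_filter, Finset.mem_insert, Finset.mem_singleton, ← E.below_eq_iff, hPK]
    exact ⟨fun h => h.2, fun h => ⟨h ▸ hq, h⟩⟩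
  rw [hf]
  by_cases hS : below F Q ∈ S
  · rw [hψ _ hS, mul_zero]
    refine Finset.sum_eq_zero fun Q' hQ' => ?_
    have : below F Q' = below F Q := (E.below_eq_iff Q Q').2 (by simpa using hQ')
    simp [up, this, hψ _ hS]
  have h1 := cast_eq (h Q hS)
  by_cases hQ : E.act Q = Q
  · rw [if_pos hQ] at h1
    rw [← h1, hQ]
    simp [up, hQ]
  · rw [if_neg hQ] at h1
    rw [← h1, Finset.sum_pair (Ne.symm hQ)]
    simp [up, hQ, Ne.symm hQ, add_mul]

theorem pair_zero (ψ : Pr F → ZMod 2) : pair ψ 0 = 0 := by simp [pair]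

theorem pair_amb (ψ : Pr F → ZMod 2) {D : Dv K} (hD : D ∈ E.amb) : pair (up E ψ) D = 0 := by
  classical
  rw [pair_up E (S := ∅) (by simp) D 0 fun Q _ => ?_, pair_zero]
  have : D (E.act Q) = D Q := hD Q
  simp only [Finsupp.coe_zero, Pi.zero_apply]
  split_ifs <;> omega

theorem tau_ne {z : K} (hz : z ≠ 0) : E.tau z ≠ 0 := by simpa using hz

theorem og_norm {z : K} (hz : z ≠ 0) {y : F} (hy : algebraMap F K y = z * E.tau z) {Q : Pr K}
    (he : eI F Q = 1) : og (below F Q) y = og Q z + og (E.act Q) z := by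
  have := og_algebraMap Q y
  rw [he, hy, og_mul Q hz (tau_ne E hz), ← E.og_act] at this
  simpa using this.symm

theorem pair_prin {S : Finset (Pr F)} (hram : ∀ Q : Pr K, below F Q ∉ S → eI F Q = 1)
    {ψ : Pr F → ZMod 2} (hψ : ψ ∈ Chr S) {D : Dv K} (hD : D ∈ prin K) : pair (up E ψ) D = 0 := by
  classical
  obtain ⟨z, hz, rfl⟩ := mem_prin.1 hD
  obtain ⟨y, hy⟩ := E.exists_norm z
  rw [pair_up E hψ.1 (dv z) (dv y) fun Q hQ => ?_, hψ.2]
  simp only [dv_apply, og_norm E hz hy (hram Q hQ)]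
  split_ifs with h
  · rw [h]; omega
  · omega

theorem mk_ne {g h : F} (h0 : g ^ 2 - a * h ^ 2 ≠ 0) :
    algebraMap F K g + algebraMap F K h * E.rt ≠ 0 := fun hz => by
  obtain ⟨rfl, rfl⟩ := E.indep hz
  simp at h0

/-- The invariant of an element whose divisor is twice a divisor up to an ambiguous one. -/
theorem inv_eq {S : Finset (Pr F)} (hram : ∀ Q : Pr K, below F Q ∉ S → eI F Q = 1) {g h : F}
    (h0 : g ^ 2 - a * h ^ 2 ≠ 0) (A : Dv K)
    (hA : ∀ Q, og Q (algebraMap F K g + algebraMap F K h * E.rt)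
      - og (E.act Q) (algebraMap F K g + algebraMap F K h * E.rt) = 2 * (A Q - A (E.act Q))) :
    IsSel S (g ^ 2 - a * h ^ 2) ∧ ∀ ψ ∈ Chr S, pair (up E ψ) A =
      pair ψ (mD (2 * g) (g ^ 2 - a * h ^ 2) - hD (g ^ 2 - a * h ^ 2)) := by
  classical
  have hn := fun Q hQ => og_norm E (mk_ne E h0) (E.mul_tau_mk g h).symm (hram Q hQ)
  have hev : ∀ Q : Pr K, below F Q ∉ S → Even (og (below F Q) (g ^ 2 - a * h ^ 2)) := fun Q hQ => by
    rw [hn Q hQ, Int.even_iff]
    have := hA Q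
    omega
  refine ⟨⟨h0, fun q hq => ?_⟩, fun ψ hψ => pair_up E hψ.1 _ _ fun Q hQ => ?_⟩
  · obtain ⟨Q, rfl⟩ := below_surj (K := K) q
    exact hev Q hq
  · have := hA Q
    simp only [Finsupp.coe_sub, Pi.sub_apply, mD_apply, hD_apply,
      E.mn_eq Q (hram Q hQ) h0 (hev Q hQ), hn Q hQ]
    split_ifs with h
    · rw [h]; omega
    · omega

theorem og_of_unit {δ u : K} (hδ : δ ≠ 0) (hu : IsU u) (h : δ = u * E.tau δ) (Q : Pr K) :
    og (E.act Q) δ = og Q δ := by
  have := og_mul Q hu.1 (tau_ne E hδ)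
  rw [← h, hu.2 Q, ← E.og_act] at this
  omega

theorem og_base (t : F) (Q : Pr K) :
    og (E.act Q) (algebraMap F K t) = og Q (algebraMap F K t) := by
  rw [E.og_act, AlgEquiv.commutes]

theorem place_tors (w : InfinitePlace K) {ζ : K} (hζ : IsOfFinOrder ζ) : w ζ = 1 := by
  obtain ⟨n, hn, h⟩ := isOfFinOrder_iff_pow_eq_one.1 hζ
  have := congrArg w h
  rw [map_pow, map_one] at this
  exact (pow_eq_one_iff_of_nonneg (apply_nonneg w ζ) hn.ne').1 this

variable {E} {w : InfinitePlace K} {η ζ γ α : K} {c b : F}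

theorem nrm_ne {z : K} (hz : z ≠ 0) {y : F} (hy : algebraMap F K y = z * E.tau z) : y ≠ 0 :=
  fun h => mul_ne_zero hz (tau_ne E hz) (by rw [← hy, h, map_zero])

/-- Norms of elements with ambiguous divisor. -/
theorem cl_mem (hη : E.Gen w η) (hζ' : ∀ ξ : K, IsOfFinOrder ξ → ∃ n : ℕ, ξ = ζ ^ n)
    (hγ0 : γ ≠ 0) (hα0 : α ≠ 0) (hγ : γ = ζ * E.tau γ) (hα : α = η * E.tau α)
    (hc : algebraMap F K c = γ * E.tau γ) (hb : algebraMap F K b = α * E.tau α) {δ : K}
    (hδ : δ ≠ 0) (h : ∀ Q, og (E.act Q) δ = og Q δ) {y : F}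
    (hy : algebraMap F K y = δ * E.tau δ) :
    cl y ∈ Submodule.span (ZMod 2) {cl c, cl b} := by
  have hδ' := tau_ne E hδ
  have hγ' := tau_ne E hγ0
  have hα' := tau_ne E hα0
  obtain ⟨ξ, n, hξ, hu⟩ := hη.gen (δ / E.tau δ)
    ⟨div_ne_zero hδ hδ', fun Q => by rw [og_div Q hδ hδ', ← E.og_act, h, sub_self]⟩
    (by rw [map_div₀, E.tau_tau]; field_simp)
  obtain ⟨m, rfl⟩ := hζ' ξ hξ
  have e1 : ζ = γ / E.tau γ := by rw [eq_div_iff hγ']; exact hγ.symm
  have e2 : η = α / E.tau α := by rw [eq_div_iff hα']; exact hα.symm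
  have n1 := pow_ne_zero m hγ0
  have n2 := pow_ne_zero m hγ'
  have n3 := zpow_ne_zero n hα0
  have n4 := zpow_ne_zero n hα'
  rw [e1, e2, div_pow, div_zpow, div_mul_div_comm, div_eq_div_iff hδ' (mul_ne_zero n2 n4)] at hu
  obtain ⟨t, ht⟩ := E.fixed (z := δ / (γ ^ m * α ^ n)) (by
    rw [map_div₀, map_mul, map_pow, map_zpow₀, div_eq_div_iff (mul_ne_zero n2 n4)
      (mul_ne_zero n1 n3)]
    linear_combination -hu)
  rw [div_eq_iff (mul_ne_zero n1 n3)] at ht
  have ht0 : t ≠ 0 := by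
    rintro rfl
    exact hδ (by simpa using ht)
  have hc0 := nrm_ne hγ0 hc
  have hb0 := nrm_ne hα0 hb
  have hy' : y = t * t * (c ^ m * b ^ n) := by
    refine (algebraMap F K).injective ?_
    rw [hy, map_mul, map_mul, map_mul, map_pow, map_zpow₀, hc, hb, ht, map_mul, map_mul, map_pow,
      map_zpow₀, AlgEquiv.commutes, mul_pow, mul_zpow]
    ring
  rw [hy', cl_mul (mul_ne_zero ht0 ht0) (mul_ne_zero (pow_ne_zero _ hc0) (zpow_ne_zero _ hb0)),
    cl_mul ht0 ht0, SqCl.add_self, zero_add, cl_mul (pow_ne_zero _ hc0) (zpow_ne_zero _ hb0)]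
  exact Submodule.add_mem _ (cl_pow_mem hc0 (Submodule.subset_span (by simp)) m)
    (cl_zpow_mem hb0 (Submodule.subset_span (by simp)) n)

theorem lin_indep (hη : E.Gen w η) (hζ : IsOfFinOrder ζ)
    (hζ' : ∀ ξ : K, IsOfFinOrder ξ → ∃ n : ℕ, ξ = ζ ^ n)
    (hγ0 : γ ≠ 0) (hα0 : α ≠ 0) (hγ : γ = ζ * E.tau γ) (hα : α = η * E.tau α)
    (hc : algebraMap F K c = γ * E.tau γ) (hb : algebraMap F K b = α * E.tau α) :
    LinearIndependent (ZMod 2) ![cl c, cl b] := by
  rw [LinearIndependent.pair_iff]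
  intro s t hst
  have hc0 := nrm_ne hγ0 hc
  have hb0 := nrm_ne hα0 hb
  have hζU := isU_of_isOfFinOrder hζ
  rw [smul_cl, smul_cl, ← cl_mul (pow_ne_zero _ hc0) (pow_ne_zero _ hb0),
    cl_eq_zero (mul_ne_zero (pow_ne_zero _ hc0) (pow_ne_zero _ hb0))] at hst
  obtain ⟨r, hr⟩ := hst
  have hr0 : r ≠ 0 := by
    rintro rfl
    exact mul_ne_zero (pow_ne_zero _ hc0) (pow_ne_zero _ hb0) (hr.trans (mul_zero _))
  have hr1 : algebraMap F K r ≠ 0 := by simpa using hr0
  have hr2 := congrArg (algebraMap F K) hr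
  rw [map_mul, map_mul, map_pow, map_pow, hc, hb, mul_pow, mul_pow] at hr2
  set ρ := γ ^ s.val * α ^ t.val / algebraMap F K r with hρ
  have hρ0 : ρ ≠ 0 := div_ne_zero (mul_ne_zero (pow_ne_zero _ hγ0) (pow_ne_zero _ hα0)) hr1
  have h1 : ρ * E.tau ρ = 1 := by
    rw [hρ, map_div₀, map_mul, map_pow, map_pow, AlgEquiv.commutes]
    field_simp
    linear_combination hr2
  have h2 : ρ ^ 2 = ζ ^ s.val * η ^ t.val := by
    have e1 : γ ^ s.val = ζ ^ s.val * E.tau γ ^ s.val := by rw [← mul_pow, ← hγ]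
    have e2 : α ^ t.val = η ^ t.val * E.tau α ^ t.val := by rw [← mul_pow, ← hα]
    rw [hρ, div_pow, div_eq_iff (pow_ne_zero _ hr1), sq (algebraMap F K r), ← hr2]
    linear_combination (γ ^ s.val * α ^ t.val * α ^ t.val) * e1
      + (γ ^ s.val * α ^ t.val * ζ ^ s.val * E.tau γ ^ s.val) * e2
  have h3 : IsU ρ := ⟨hρ0, fun Q => by
    have := og_pow Q ρ 2
    rw [h2, og_mul Q (pow_ne_zero _ hζU.1) (pow_ne_zero _ hη.unit.1), og_pow, og_pow, hζU.2,
      hη.unit.2] at this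
    omega⟩
  obtain ⟨ξ, n, hξ, hu⟩ := hη.gen ρ h3 h1
  obtain ⟨m, rfl⟩ := hζ' ξ hξ
  have hw0 : 0 < w η := InfinitePlace.pos_iff.2 hη.unit.1
  have h4 := congrArg w h2
  rw [hu, map_pow, map_mul, map_mul, map_pow, map_pow, map_pow, map_zpow₀, place_tors w hζ,
    one_pow, one_pow, one_mul, one_mul, ← zpow_natCast, ← zpow_natCast, ← zpow_mul] at h4
  have h5 := zpow_right_injective₀ hw0 hη.lt.ne h4
  have ht := ZMod.val_lt t
  have ht0 : t.val = 0 := by omega
  have hn : n = 0 := by omega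
  refine ⟨?_, (ZMod.val_eq_zero t).1 ht0⟩
  rcases zmod2_cases s with rfl | rfl
  · rfl
  exfalso
  rw [hu, hn, ht0, show (1 : ZMod 2).val = 1 from rfl, zpow_zero, pow_zero, mul_one, mul_one,
    pow_one] at h2
  obtain ⟨j, hj⟩ := hζ' (-1) (isOfFinOrder_iff_pow_eq_one.2 ⟨2, two_pos, by ring⟩)
  have h6 : ((ζ ^ j) ^ 2) ^ m = ζ ^ j := by
    conv_rhs => rw [← h2]
    ring
  rw [← hj] at h6
  norm_num at h6

variable (E) in
/-- The genus characters. -/
noncomputable def gen (S : Finset (Pr F)) : Dv K →+ Module.Dual (ZMod 2) (Chr S) where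
  toFun D :=
    { toFun := fun ψ => pair (up E ψ) D
      map_add' := fun ψ φ => by
        simp only [pair, Finsupp.sum, ← Finset.sum_add_distrib]
        refine Finset.sum_congr rfl fun Q _ => ?_
        unfold up
        split_ifs <;> simp [mul_add]
      map_smul' := fun s ψ => by
        simp only [pair, Finsupp.sum, smul_eq_mul, Finset.mul_sum, RingHom.id_apply]
        refine Finset.sum_congr rfl fun Q _ => ?_
        unfold up
        split_ifs <;> simp [mul_left_comm] }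
  map_zero' := LinearMap.ext fun ψ => pair_zero (up E ψ)
  map_add' D D' := LinearMap.ext fun ψ => pair_add (up E ψ) D D'

theorem mem_ker_gen {S : Finset (Pr F)} {D : Dv K} :
    D ∈ (gen E S).ker ↔ ∀ ψ ∈ Chr S, pair (up E ψ) D = 0 :=
  ⟨fun h ψ hψ => LinearMap.congr_fun (AddMonoidHom.mem_ker.1 h) ⟨ψ, hψ⟩,
    fun h => AddMonoidHom.mem_ker.2 (LinearMap.ext fun ψ => h ψ.1 ψ.2)⟩

theorem index_ker_gen {S : Finset (Pr F)}
    (hsurj : ∀ ψ ∈ Chr S, (∀ q ∉ S, LSq q a → ψ q = 0) → ψ = 0) :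
    (gen E S).ker.index = 2 ^ Module.finrank (ZMod 2) (Chr S) := by
  have : Fact (Nat.Prime 2) := ⟨Nat.prime_two⟩
  have := finite_Chr S
  have hW : AddSubgroup.toZModSubmodule 2 (gen E S).range = ⊤ := by
    set W := AddSubgroup.toZModSubmodule 2 (gen E S).range
    have h0 : W.dualCoannihilator = ⊥ := by
      rw [eq_bot_iff]
      intro ψ hψ
      rw [Submodule.mem_dualCoannihilator] at hψ
      refine Subtype.ext (hsurj ψ.1 ψ.2 fun q _ hq => ?_)
      obtain ⟨Q, rfl⟩ := below_surj (K := K) q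
      have h1 : pair (up E ψ) (Finsupp.single Q 1) = 0 :=
        hψ (gen E S (Finsupp.single Q 1)) ⟨_, rfl⟩
      simpa [pair, up, (E.split_iff Q).2 hq] using h1
    rw [← Subspace.dualCoannihilator_dualAnnihilator_eq (W := W), h0,
      Submodule.dualAnnihilator_bot]
  have hR : (gen E S).range = ⊤ := by
    rw [eq_top_iff]
    intro f _
    have : f ∈ AddSubgroup.toZModSubmodule 2 (gen E S).range := hW ▸ Submodule.mem_top
    exact this
  rw [AddSubgroup.index_ker, hR, AddSubgroup.card_top,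
    Module.natCard_eq_pow_finrank (K := ZMod 2), Nat.card_zmod, Subspace.dual_finrank_eq]

end GenusAux

open GenusAux

theorem Quad.ker_of_unit {a : F} (E : Quad F K a) (S : Finset (Pr F))
    (hram : ∀ Q : Pr K, below F Q ∉ S → eI F Q = 1) {g h : F} {u : K} (hu : IsU u)
    (h0 : g ^ 2 - a * h ^ 2 ≠ 0) (hgh : algebraMap F K g + algebraMap F K h * E.rt =
      u * E.tau (algebraMap F K g + algebraMap F K h * E.rt)) : Ker S a g h := by
  obtain ⟨h1, h2⟩ := inv_eq E hram h0 0 fun Q => by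
    rw [og_of_unit E (mk_ne E h0) hu hgh]; simp
  exact ⟨h1, fun ψ hψ => by rw [← h2 ψ hψ, pair_zero]⟩

theorem Quad.genus {a : F} (E : Quad F K a) (S : Finset (Pr F))
    (hram : ∀ Q : Pr K, below F Q ∉ S → eI F Q = 1) (hns : ∀ q ∈ S, ¬ LSq q a)
    {w : InfinitePlace K} {η : K} (hη : E.Gen w η) {ζ : K} (hζ : IsOfFinOrder ζ)
    (hζ' : ∀ ξ : K, IsOfFinOrder ξ → ∃ n : ℕ, ξ = ζ ^ n) {γ α : K} (hγ0 : γ ≠ 0) (hα0 : α ≠ 0)
    (hγ : γ = ζ * E.tau γ) (hα : α = η * E.tau α) {c b : F}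
    (hc : algebraMap F K c = γ * E.tau γ) (hb : algebraMap F K b = α * E.tau α)
    (hsurj : ∀ ψ ∈ Chr S, (∀ q ∉ S, LSq q a → ψ q = 0) → ψ = 0) :
    LinearIndependent (ZMod 2) ![cl c, cl b] ∧
    ∃ M' : ℕ, E.M = 2 ^ Module.finrank (ZMod 2) (Chr S) * M' ∧
      (Odd M' ↔ ∀ g h : F, Ker S a g h →
        cl (g ^ 2 - a * h ^ 2) ∈ Submodule.span (ZMod 2) {cl c, cl b}) := by
  refine ⟨lin_indep hη hζ hζ' hγ0 hα0 hγ hα hc hb, ?_⟩
  have hle : prin K ⊔ E.amb ≤ (gen E S).ker :=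
    sup_le (fun D hD => mem_ker_gen.2 fun ψ hψ => pair_prin E hram hψ hD)
      fun D hD => mem_ker_gen.2 fun ψ _ => pair_amb E ψ hD
  have hM := AddSubgroup.relIndex_mul_index hle
  have hM0 : (prin K ⊔ E.amb).index ≠ 0 := fun h0 => by
    have := AddSubgroup.index_dvd_of_le (le_sup_left : prin K ≤ prin K ⊔ E.amb)
    rw [h0, zero_dvd_iff, index_prin] at this
    exact (classNumber_pos K).ne' this
  refine ⟨(prin K ⊔ E.amb).relIndex (gen E S).ker, ?_, ?_⟩
  · rw [Quad.M, ← hM, index_ker_gen hsurj, mul_comm]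
  rw [odd_relIndex _ _ fun h0 => hM0 (by rw [← hM, h0, zero_mul])]
  constructor
  · rintro H g h ⟨⟨h0, hev⟩, hK⟩
    have hz := mk_ne E h0
    have hN := (E.mul_tau_mk g h).symm
    have hinv := inv_eq E hram h0
    set z := algebraMap F K g + algebraMap F K h * E.rt
    have hd : ∀ Q, (2 : ℤ) ∣ og Q z - og (E.act Q) z := fun Q => by
      by_cases hQ : E.act Q = Q
      · rw [hQ]; simp
      · have hS : below F Q ∉ S := fun hS => hns _ hS ((E.split_iff Q).1 hQ)
        have := hev _ hS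
        rw [GenusAux.og_norm E hz hN (hram Q hS), Int.even_iff] at this
        omega
    let A : Dv K := Finsupp.ofSupportFinite (fun Q => max ((og Q z - og (E.act Q) z) / 2) 0)
      (((og_finite z).union (og_finite (E.tau z))).subset fun Q hQ => by
        by_contra hn
        simp only [Set.mem_union, Set.mem_ofPred_eq, not_or, not_not, ← E.og_act] at hn
        exact hQ (by simp [hn.1, hn.2]))
    have hA : ∀ Q, og Q z - og (E.act Q) z = 2 * (A Q - A (E.act Q)) := fun Q => by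
      have e1 : A Q = max ((og Q z - og (E.act Q) z) / 2) 0 := rfl
      have e2 : A (E.act Q) = max ((og (E.act Q) z - og (E.act (E.act Q)) z) / 2) 0 := rfl
      rw [E.act_act] at e2
      have := hd Q
      omega
    have hmem := H A (mem_ker_gen.2 fun ψ hψ => by rw [(hinv A hA).2 ψ hψ, hK ψ hψ])
      (AddSubgroup.mem_sup.2 ⟨dv z, mem_prin.2 ⟨z, hz, rfl⟩, 2 • A - dv z, fun Q => by
        have := hA Q
        simp only [two_nsmul, Finsupp.coe_sub, Finsupp.coe_add, Pi.sub_apply, Pi.add_apply,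
          dv_apply]
        omega, by abel⟩)
    obtain ⟨_, hD, B, hB, hAB⟩ := AddSubgroup.mem_sup.1 hmem
    obtain ⟨β, hβ, rfl⟩ := mem_prin.1 hD
    have hβ' := tau_ne E hβ
    refine cl_mem hη hζ' hγ0 hα0 hγ hα hc hb (δ := z * E.tau β / β)
      (div_ne_zero (mul_ne_zero hz hβ') hβ) (fun Q => ?_) ?_
    · have e1 := hA Q
      have e2 : B (E.act Q) = B Q := hB Q
      rw [← hAB] at e1
      simp only [Finsupp.coe_add, Pi.add_apply, dv_apply] at e1
      rw [og_div _ (mul_ne_zero hz hβ') hβ, og_div _ (mul_ne_zero hz hβ') hβ, og_mul _ hz hβ',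
        og_mul _ hz hβ', ← E.og_act, ← E.og_act, E.act_act]
      omega
    · rw [hN, map_div₀, map_mul, E.tau_tau]
      field_simp
  · intro H A hA h2
    obtain ⟨_, hD, B, hB, hAB⟩ := AddSubgroup.mem_sup.1 h2
    obtain ⟨z, hz, rfl⟩ := mem_prin.1 hD
    obtain ⟨g, h, rfl⟩ := E.span z
    have hN := (E.mul_tau_mk g h).symm
    have h0 := nrm_ne hz hN
    have hinv := inv_eq E hram h0 A
    set z := algebraMap F K g + algebraMap F K h * E.rt
    have hA' : ∀ Q, og Q z - og (E.act Q) z = 2 * (A Q - A (E.act Q)) := fun Q => by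
      have e1 := DFunLike.congr_fun hAB Q
      have e2 := DFunLike.congr_fun hAB (E.act Q)
      have e3 : B (E.act Q) = B Q := hB Q
      simp only [two_nsmul, Finsupp.coe_add, Pi.add_apply, dv_apply] at e1 e2
      omega
    obtain ⟨s, t, hst⟩ := Submodule.mem_span_pair.1 (H g h ⟨(hinv hA').1, fun ψ hψ => by
      rw [← (hinv hA').2 ψ hψ, mem_ker_gen.1 hA ψ hψ]⟩)
    have hc0 := nrm_ne hγ0 hc
    have hb0 := nrm_ne hα0 hb
    have n0 := mul_ne_zero (pow_ne_zero s.val hc0) (pow_ne_zero t.val hb0)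
    rw [smul_cl, smul_cl, ← cl_mul (pow_ne_zero _ hc0) (pow_ne_zero _ hb0), cl_eq_cl n0 h0] at hst
    obtain ⟨r, hr⟩ := hst
    have hr0 : r ≠ 0 := by
      rintro rfl
      exact mul_ne_zero n0 h0 (hr.trans (mul_zero _))
    have hr1 : algebraMap F K r ≠ 0 := by simpa using hr0
    have hr2 := congrArg (algebraMap F K) hr
    rw [map_mul, map_mul, map_mul, map_pow, map_pow, hc, hb, hN, mul_pow, mul_pow] at hr2
    have n1 := pow_ne_zero s.val hγ0
    have n2 := pow_ne_zero t.val hα0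
    have n3 := mul_ne_zero hz (mul_ne_zero n1 n2)
    obtain ⟨β, hβ, hβ1⟩ := E.hilbert90 (u := z * (γ ^ s.val * α ^ t.val) / algebraMap F K r) (by
      rw [map_div₀, map_mul, map_mul, map_pow, map_pow, AlgEquiv.commutes]
      field_simp
      linear_combination hr2)
    have hρ : ∀ Q, og Q β - og (E.act Q) β
        = og Q z + (s.val * og Q γ + t.val * og Q α) - og Q (algebraMap F K r) := fun Q => by
      have := og_mul Q (div_ne_zero n3 hr1) (tau_ne E hβ)
      rw [← hβ1, og_div Q n3 hr1, og_mul Q hz (mul_ne_zero n1 n2), og_mul Q n1 n2, og_pow, og_pow,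
        ← E.og_act] at this
      omega
    refine AddSubgroup.mem_sup.2 ⟨dv β, mem_prin.2 ⟨β, hβ, rfl⟩, A - dv β, fun Q => ?_, by abel⟩
    have e1 := hρ Q
    have e2 := hρ (E.act Q)
    have e3 := hA' Q
    rw [E.act_act, og_of_unit E hγ0 (isU_of_isOfFinOrder hζ) hγ, og_of_unit E hα0 hη.unit hα,
      og_base] at e2
    simp only [Finsupp.coe_sub, Pi.sub_apply, dv_apply]
    omega

end Pool.Agent.Stark
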