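import Pool.Agent.Lib.MP_ca56d1_nt.Loc1

/-! The local norm index of a quadratic extension. -/

namespace Pool.Agent.Stark.LocAux

variable {k : Type*} [Field k] {w : Valuation k (WithZero (Multiplicative ℤ))} {a : k}

/-- The units of `k(√a)`. -/
abbrev Eu (a : k) : Type _ := (QuadraticAlgebra k a 0)ˣ

/-- The unit `x + y √a`. -/
def mkU (x y : k) (h : x ^ 2 - a * y ^ 2 ≠ 0) : Eu a where
  val := ⟨x, y⟩
  inv := ⟨x / (x ^ 2 - a * y ^ 2), -y / (x ^ 2 - a * y ^ 2)⟩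
  val_inv := by
    ext
    · simp only [QuadraticAlgebra.re_mul, QuadraticAlgebra.re_one]; field_simp; ring
    · simp only [QuadraticAlgebra.im_mul, QuadraticAlgebra.im_one]; field_simp; ring
  inv_val := by
    ext
    · simp only [QuadraticAlgebra.re_mul, QuadraticAlgebra.re_one]; field_simp; ring
    · simp only [QuadraticAlgebra.im_mul, QuadraticAlgebra.im_one]; field_simp; ring

@[simp] theorem mkU_re (x y : k) (h : x ^ 2 - a * y ^ 2 ≠ 0) : (mkU x y h).val.re = x := rfl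

@[simp] theorem mkU_im (x y : k) (h : x ^ 2 - a * y ^ 2 ≠ 0) : (mkU x y h).val.im = y := rfl

theorem re_mul (z u : Eu a) : (z * u).val.re = z.val.re * u.val.re + a * z.val.im * u.val.im := rfl

theorem im_mul (z u : Eu a) : (z * u).val.im = z.val.re * u.val.im + z.val.im * u.val.re := by
  simp

theorem eu_ext {z u : Eu a} (h1 : z.val.re = u.val.re) (h2 : z.val.im = u.val.im) : z = u :=
  Units.ext (QuadraticAlgebra.ext h1 h2)

theorem re_ne_or (z : Eu a) : z.val.re ≠ 0 ∨ z.val.im ≠ 0 := by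
  by_contra! h
  have := re_mul z z⁻¹
  rw [mul_inv_cancel, h.1, h.2] at this
  simp [QuadraticAlgebra.re_one] at this

/-- The slope of a unit. -/
def T (z : Eu a) : k := z.val.im / z.val.re

theorem T_mul {z u : Eu a} (hz : z.val.re ≠ 0) (hu : u.val.re ≠ 0) (h : 1 + a * T z * T u ≠ 0) :
    (z * u).val.re ≠ 0 ∧ T (z * u) = (T z + T u) / (1 + a * T z * T u) := by
  have h1 : (z * u).val.re = z.val.re * u.val.re * (1 + a * T z * T u) := by
    rw [re_mul, T, T]; field_simp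
  have h2 : (z * u).val.im = z.val.re * u.val.re * (T z + T u) := by
    rw [im_mul, T, T]; field_simp; ring
  refine ⟨h1 ▸ mul_ne_zero (mul_ne_zero hz hu) h, ?_⟩
  rw [T, h1, h2, mul_div_mul_left _ _ (mul_ne_zero hz hu)]

theorem T_inv {z : Eu a} (hz : z.val.re ≠ 0) : z⁻¹.val.re ≠ 0 ∧ T z⁻¹ = -T z := by
  have h1 := im_mul z z⁻¹
  rw [mul_inv_cancel, Units.val_one, QuadraticAlgebra.im_one] at h1
  have h2 : z⁻¹.val.re ≠ 0 := fun h => by
    rw [h, mul_zero, add_zero, eq_comm, mul_eq_zero] at h1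
    exact (re_ne_or z⁻¹).elim (fun h' => h' h) fun h' => h' (h1.resolve_left hz)
  refine ⟨h2, ?_⟩
  rw [T, T]
  field_simp
  linear_combination -h1

theorem small {M : ℤ} (hM : 1 ≤ ord w a + 2 * M) {s t : k} (hs : s ∈ pw w M) (ht : t ∈ pw w M) :
    1 + a * s * t ≠ 0 ∧ ord w (1 + a * s * t) = 0 :=
  one_add (pw_mul (pw_mul (mem_of_le le_rfl) hs le_rfl) ht (by omega))

variable (w a) in
/-- Units of small slope. -/
def Asm (M : ℤ) (hM : 1 ≤ ord w a + 2 * M) : Subgroup (Eu a) where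
  carrier := {z | z.val.re ≠ 0 ∧ T z ∈ pw w M}
  mul_mem' := fun {z u} hz hu => by
    have h1 := small hM hz.2 hu.2
    have h2 := T_mul hz.1 hu.1 h1.1
    exact ⟨h2.1, h2.2 ▸ (pw_div_iff h1.1 h1.2).2 (add_mem hz.2 hu.2)⟩
  one_mem' := by simp [T, QuadraticAlgebra.re_one, QuadraticAlgebra.im_one]
  inv_mem' := fun {z} hz => ⟨(T_inv hz.1).1, (T_inv hz.1).2 ▸ neg_mem hz.2⟩

theorem mem_A {M : ℤ} {hM : 1 ≤ ord w a + 2 * M} {z : Eu a} :
    z ∈ Asm w a M hM ↔ z.val.re ≠ 0 ∧ T z ∈ pw w M := Iff.rfl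

variable (a) in
/-- The image of the units of the base field. -/
def Kb : Subgroup (Eu a) where
  carrier := {z | z.val.im = 0}
  mul_mem' := fun {z u} hz hu => by
    simp only [Set.mem_ofPred_eq] at hz hu ⊢
    rw [im_mul, hz, hu, mul_zero, zero_mul, add_zero]
  one_mem' := rfl
  inv_mem' := fun {z} hz => by
    simp only [Set.mem_ofPred_eq] at hz ⊢
    have h1 := T_inv ((re_ne_or z).resolve_right fun h => h hz)
    have h2 := h1.2
    rw [T, T, hz, zero_div, neg_zero, div_eq_zero_iff] at h2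
    exact h2.resolve_right h1.1

theorem mem_Kb {z : Eu a} : z ∈ Kb a ↔ z.val.im = 0 := Iff.rfl

theorem Kb_le {M : ℤ} {hM : 1 ≤ ord w a + 2 * M} : Kb a ≤ Asm w a M hM := fun z hz =>
  ⟨(re_ne_or z).resolve_right fun h => h hz, by simp [T, mem_Kb.1 hz]⟩

theorem norm_ne (hn : ¬ IsSquare a) {x y : k} (h : x ≠ 0 ∨ y ≠ 0) : x ^ 2 - a * y ^ 2 ≠ 0 := by
  intro h0
  rcases eq_or_ne y 0 with rfl | hy
  · simp at h0; simp [h0] at h
  · exact hn ⟨x / y, by field_simp; linear_combination -h0⟩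

/-- An element whose norm is a square is a scalar multiple of a square. -/
theorem split_sq (h2 : (2 : k) ≠ 0) (hn : ¬ IsSquare a) {z : Eu a} {c : k}
    (hc : c ^ 2 = z.val.re ^ 2 - a * z.val.im ^ 2) (h : z.val.re + c ≠ 0) :
    ∃ y ∈ Kb a, y * mkU (z.val.re + c) z.val.im (norm_ne hn (Or.inl h)) ^ 2 = z := by
  refine ⟨mkU (1 / (2 * (z.val.re + c))) 0 (norm_ne hn (Or.inl (by simp [h2, h]))), rfl,
    eu_ext ?_ ?_⟩
  · rw [sq, re_mul, re_mul, im_mul]
    simp only [mkU_re, mkU_im]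
    field_simp
    linear_combination hc
  · rw [sq, im_mul, re_mul, im_mul]
    simp only [mkU_re, mkU_im]
    field_simp
    ring

theorem A_sq (L : IsLoc w) (hn : ¬ IsSquare a) {M : ℤ} (hM : 1 ≤ ord w a + 2 * M)
    (hM' : 1 ≤ ord w a + 2 * (M + ord w (2 : k))) :
    Asm w a (M + ord w (2 : k)) hM' = Kb a ⊔ (Asm w a M hM).map (powMonoidHom 2) := by
  refine le_antisymm (fun z hz => ?_) (sup_le Kb_le ?_)
  · obtain ⟨c, hc⟩ := hens L (x := 1 - a * T z * T z) (by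
      rw [sub_sub_cancel_left, neg_mem_iff]
      exact pw_mul (pw_mul (mem_of_le le_rfl) hz.2 le_rfl) hz.2 (by omega))
    obtain ⟨d, h3, h4⟩ := half L c
    have h5 := not_mem.1 h4
    have h6 : z.val.re + z.val.re * d = z.val.re * (1 + d) := by ring
    have h7 : z.val.re + z.val.re * d ≠ 0 := h6 ▸ mul_ne_zero hz.1 h5.1
    obtain ⟨y, hy, h8⟩ := split_sq L.two hn (z := z) (c := z.val.re * d) (by
      have := hz.1
      rw [mul_pow, h3, sq c, ← hc, T]; field_simp) h7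
    refine Subgroup.mem_sup.2 ⟨y, hy, _, ⟨_, ⟨h7, ?_⟩, rfl⟩, h8⟩
    rw [T, mkU_re, mkU_im, h6, ← div_div]
    exact pw_div hz.2 (by omega)
  · rintro _ ⟨z, hz, rfl⟩
    have h1 := small hM hz.2 hz.2
    have h2 := T_mul hz.1 hz.1 h1.1
    rw [powMonoidHom_apply, sq]
    refine ⟨h2.1, h2.2 ▸ (pw_div_iff h1.1 h1.2).2 ?_⟩
    rw [← two_mul]
    exact pw_mul (mem_of_le le_rfl) hz.2 (by omega)

theorem T_inv_mul {z u : Eu a} (hz : z.val.re ≠ 0) (hu : u.val.re ≠ 0)
    (h : 1 + a * -T z * T u ≠ 0) :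
    (z⁻¹ * u).val.re ≠ 0 ∧ T (z⁻¹ * u) = (-T z + T u) / (1 + a * -T z * T u) := by
  have h1 := T_inv hz
  rw [← h1.2] at h ⊢
  exact T_mul h1.1 hu h

theorem A_rel (L : IsLoc w) (hn : ¬ IsSquare a) {M : ℤ} (hM : 1 ≤ ord w a + 2 * M) (n : ℕ)
    (hM' : 1 ≤ ord w a + 2 * (M + n)) :
    (Asm w a (M + n) hM').relIndex (Asm w a M hM) = rc w ^ n := by
  rw [← relIndex_pw L M]
  refine relIndex_eq T (fun z hz => hz.2) (fun y hy => ?_) fun z hz u hu => ?_
  · exact ⟨mkU 1 y (norm_ne hn (Or.inl one_ne_zero)), ⟨one_ne_zero, by simpa [T] using hy⟩,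
      by simp [T]⟩
  · have h1 := small hM (neg_mem hz.2) hu.2
    have h2 := T_inv_mul hz.1 hu.1 h1.1
    rw [mem_A, h2.2, pw_div_iff h1.1 h1.2]
    simp only [h2.1, ne_eq, not_false_eq_true, true_and]

theorem close (L : IsLoc w) (hn : ¬ IsSquare a) {M c : ℤ} (hM : 1 ≤ ord w a + 2 * M) {z u : Eu a}
    (hz : z.val.re ≠ 0) (hu : u.val.re ≠ 0) (hz' : T z ∈ pw w c)
    (h : -T z + T u ∈ pw w (max (M + 2 * ord w (2 : k)) (2 * ord w (2 : k) + 1 - c - ord w a))) :
    z⁻¹ * u ∈ Asm w a M hM := by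
  have h1 : 1 + a * -T z * T u ∉ pw w (2 * ord w (2 : k) + 1) := fun h2 => by
    have h3 : a * T z * (-T z + T u) ∈ pw w (2 * ord w (2 : k) + 1) :=
      pw_mul (pw_mul (mem_of_le le_rfl) hz' le_rfl) h (by omega)
    obtain ⟨r, hr⟩ := hens L (x := a * T z ^ 2) (by
      rw [← neg_mem_iff]
      convert add_mem h2 h3 using 1
      ring)
    rcases eq_or_ne (T z) 0 with h0 | h0
    · rw [h0] at h2
      have h4 : (1 : k) ∈ pw w (2 * ord w (2 : k) + 1) := by simpa using h2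
      exact one_not_mem (anti (by have := two_nonneg (w := w) (k := k); omega) h4)
    · exact hn ⟨r / T z, by field_simp; rw [hr, sq]⟩
  have h4 := not_mem.1 h1
  have h5 := T_inv_mul hz hu h4.1
  exact ⟨h5.1, h5.2 ▸ pw_div h (by omega)⟩

theorem A_index (L : IsLoc w) (hn : ¬ IsSquare a) {M : ℤ} (hM : 1 ≤ ord w a + 2 * M) :
    (Asm w a M hM).index ≠ 0 := by
  classical
  have ha : a ≠ 0 := fun h => hn (h ▸ IsSquare.zero)
  obtain ⟨c, hc⟩ : ∃ c : ℤ, ord w a + 2 * c ≤ 1 := ⟨-|ord w a|, by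
    have := le_abs_self (ord w a); have := abs_nonneg (ord w a); omega⟩
  have key : ∀ z : Eu a, ∃ b : Bool, ∃ z' : Eu a,
      z' = z * (bif b then 1 else mkU 0 1 (norm_ne hn (Or.inr one_ne_zero))) ∧
      z'.val.re ≠ 0 ∧ T z' ∈ pw w c := fun z => by
    by_cases h : z.val.re ≠ 0 ∧ T z ∈ pw w c
    · exact ⟨true, z, by simp, h⟩
    have h1 : z.val.im ≠ 0 := fun h1 =>
      h ⟨(re_ne_or z).resolve_right fun h' => h' h1, by simp [T, h1]⟩
    refine ⟨false, _, rfl, by simp [ha, h1], ?_⟩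
    have h2 : T (z * mkU 0 1 (norm_ne hn (Or.inr one_ne_zero))) = z.val.re / (a * z.val.im) := by
      simp [T]
    rw [cond_false, h2]
    rcases eq_or_ne z.val.re 0 with h3 | h3
    · simp [h3]
    have h4 := not_mem.1 fun h' => h ⟨h3, h'⟩
    rw [T, ord_div h1 h3] at h4
    exact pw_div (mem_of_le le_rfl) (by rw [ord_mul ha h1]; omega)
  choose b f h1 h2 h3 using key
  have := fin_pw L c (max (M + 2 * ord w (2 : k)) (2 * ord w (2 : k) + 1 - c - ord w a))
  refine index_ne_zero _ (fun z => (b z, (QuotientAddGroup.mk ⟨T (f z), h3 z⟩ : pw w c ⧸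
    (pw w (max (M + 2 * ord w (2 : k)) (2 * ord w (2 : k) + 1 - c - ord w a))).addSubgroupOf
      (pw w c)))) fun z u h => ?_
  have h4 := QuotientAddGroup.eq.1 (Prod.ext_iff.1 h).2
  have h5 := close L hn hM (h2 z) (h2 u) (h3 z) h4
  have h6 : b z = b u := (Prod.ext_iff.1 h).1
  rwa [h1, h1, h6, mul_inv_rev, mul_comm _ z⁻¹, mul_mul_mul_comm, inv_mul_cancel, mul_one] at h5

variable (a) in
/-- The norm map on units. -/
def nm : Eu a →* kˣ := Units.map QuadraticAlgebra.norm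

theorem nm_val (z : Eu a) : (nm a z : k) = z.val.re ^ 2 - a * z.val.im ^ 2 := by
  simp [nm, QuadraticAlgebra.norm_def]; ring

theorem mem_nm {b : k} (hb : b ≠ 0) : Units.mk0 b hb ∈ (nm a).range ↔ hs a b = 0 := by
  rw [hs_eq_zero]
  constructor
  · rintro ⟨z, hz⟩
    exact ⟨_, _, (congrArg Units.val hz).symm.trans (nm_val z)⟩
  · rintro ⟨x, z, rfl⟩
    exact ⟨mkU x z hb, Units.ext (nm_val _)⟩

theorem norm_index (L : IsLoc w) (hn : ¬ IsSquare a) : (nm a).range.index = 2 := by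
  have he := two_nonneg (w := w) (k := k)
  obtain ⟨M, hM⟩ : ∃ M : ℤ, 1 ≤ ord w a + 2 * M := ⟨|ord w a| + 1, by
    have := neg_abs_le (ord w a); have := abs_nonneg (ord w a); omega⟩
  have hM' : 1 ≤ ord w a + 2 * (M + ord w (2 : k)) := by omega
  have H := herb (V := ⊤) (A_sq L hn hM hM') (fun z hz => ⟨hz.1, anti (by omega) hz.2⟩) le_top
    le_top (by rw [Subgroup.relIndex_top_right]; exact A_index L hn hM)
  have e1 : (Asm w a (M + ord w (2 : k)) hM').relIndex (Asm w a M hM)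
      = rc w ^ (ord w (2 : k)).toNat := by
    rw [← A_rel L hn hM _ (by omega)]
    simp only [Int.toNat_of_nonneg he]
  have e2 : (Asm w a M hM).relIndex ((Kb a).comap (powMonoidHom 2)) = 2 := by
    refine Subgroup.relIndex_eq_two_iff_exists_notMem_and.2
      ⟨mkU 0 1 (norm_ne hn (Or.inr one_ne_zero)), ?_, fun h => h.1 rfl, fun z hz => ?_⟩
    · rw [Subgroup.mem_comap, powMonoidHom_apply, sq, mem_Kb, im_mul]; simp
    · rw [Subgroup.mem_comap, powMonoidHom_apply, sq, mem_Kb, im_mul, mul_comm z.val.im, ← two_mul,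
        mul_eq_zero, mul_eq_zero] at hz
      refine (hz.resolve_left L.two).imp (fun h => Kb_le ?_) fun h => Kb_le h
      rw [mem_Kb, im_mul, h]; simp
  have e3 : Kb a ⊔ (⊤ : Subgroup (Eu a)).map (powMonoidHom 2)
      = (powMonoidHom 2 : kˣ →* kˣ).range.comap (nm a) := by
    refine le_antisymm (sup_le (fun z hz => ?_) ?_) fun z hz => ?_
    · refine ⟨Units.mk0 z.val.re ((re_ne_or z).resolve_right fun h => h hz), Units.ext ?_⟩
      simp [nm_val, mem_Kb.1 hz]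
    · rintro _ ⟨z, -, rfl⟩
      exact ⟨nm a z, by simp⟩
    · obtain ⟨c, hc⟩ := hz
      have h1 : (c : k) ^ 2 = z.val.re ^ 2 - a * z.val.im ^ 2 := by
        rw [← nm_val, ← hc]; simp
      obtain ⟨d, h2, h3⟩ : ∃ d : k, d ^ 2 = z.val.re ^ 2 - a * z.val.im ^ 2 ∧ z.val.re + d ≠ 0 := by
        by_contra! h
        have h4 := h c h1
        have h5 := h (-c) (by rw [← h1]; ring)
        exact mul_ne_zero L.two c.ne_zero (by linear_combination h4 - h5)
      obtain ⟨y, hy, h4⟩ := split_sq L.two hn h2 h3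
      exact Subgroup.mem_sup.2 ⟨y, hy, _, ⟨_, trivial, rfl⟩, h4⟩
  rw [e1, e2, e3, Subgroup.relIndex_top_right, Subgroup.index_comap] at H
  have e4 : (powMonoidHom 2 : kˣ →* kˣ).range ≤ (nm a).range := by
    rintro _ ⟨c, rfl⟩
    exact ⟨mkU c 0 (norm_ne hn (Or.inl c.ne_zero)), Units.ext (by simp [nm_val])⟩
  have e5 := Subgroup.relIndex_mul_index e4
  rw [H, sq_index L] at e5
  refine mul_left_cancel₀ (mul_ne_zero (pow_ne_zero (ord w (2 : k)).toNat L.fin) two_ne_zero) ?_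
  rw [e5]
  ring

end Pool.Agent.Stark.LocAux
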