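import Pool.Agent.Lib.MP_ca56d1_nt.LocE2

/-! The local factor of the Redei symbol at an inert prime. -/

namespace Pool.Agent.Stark

variable {k : Type*} [Field k] {w : Valuation k (WithZero (Multiplicative ℤ))}

/-- The properties of the local factor `lam (x, z) y` for `α = x + z √s`. -/
structure IsLam (w : Valuation k (WithZero (Multiplicative ℤ))) (s : k)
    (lam : k → k → k → ZMod 2) : Prop where
  mul_left : ∀ x z x' z' y : k, x ^ 2 - s * z ^ 2 ≠ 0 → Unr w (x ^ 2 - s * z ^ 2) →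
    x' ^ 2 - s * z' ^ 2 ≠ 0 → Unr w (x' ^ 2 - s * z' ^ 2) → y ≠ 0 → Even (ord w y) →
    lam (x * x' + s * z * z') (x * z' + z * x') y = lam x z y + lam x' z' y
  mul_right : ∀ x z y y' : k, x ^ 2 - s * z ^ 2 ≠ 0 → Unr w (x ^ 2 - s * z ^ 2) →
    y ≠ 0 → Even (ord w y) → y' ≠ 0 → Even (ord w y') →
    lam x z (y * y') = lam x z y + lam x z y'
  sq_right : ∀ x z y t : k, x ^ 2 - s * z ^ 2 ≠ 0 → Unr w (x ^ 2 - s * z ^ 2) →
    y ≠ 0 → Even (ord w y) → t ≠ 0 → lam x z (y * t ^ 2) = lam x z y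
  base : ∀ u v t y : k, u ^ 2 - s * v ^ 2 ≠ 0 → t ≠ 0 → y ≠ 0 → Even (ord w y) →
    lam (t * (u ^ 2 + s * v ^ 2)) (t * (2 * u * v)) y = hs t y
  unit : ord w (2 : k) = 0 → ∀ x z y : k, x ^ 2 - s * z ^ 2 ≠ 0 → ord w (x ^ 2 - s * z ^ 2) = 0 →
    ord w s = 0 → y ≠ 0 → Even (ord w y) → lam x z y = 0
  recip : ∀ x z g h : k, x ^ 2 - s * z ^ 2 ≠ 0 → Unr w (x ^ 2 - s * z ^ 2) → z ≠ 0 → h ≠ 0 →
    g - h * x ≠ 0 → g ^ 2 - (x ^ 2 - s * z ^ 2) * h ^ 2 ≠ 0 →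
    Even (ord w (g ^ 2 - (x ^ 2 - s * z ^ 2) * h ^ 2)) →
    hs (-2 * h * (g - h * x)) (g ^ 2 - (x ^ 2 - s * z ^ 2) * h ^ 2) + hs s (g - h * x) =
      lam x z (g ^ 2 - (x ^ 2 - s * z ^ 2) * h ^ 2) +
        (mn w (2 * g) (g ^ 2 - (x ^ 2 - s * z ^ 2) * h ^ 2) : ZMod 2)

namespace LocEAux

open QuadraticAlgebra

variable {s : k}

theorem mn_of_not_isSquare (L : IsLoc w) {a g h : k} (ha : ¬ IsSquare a) (hh : h ≠ 0)
    (hy : g ^ 2 - a * h ^ 2 ≠ 0) :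
    mn w (2 * g) (g ^ 2 - a * h ^ 2) = ord w (g ^ 2 - a * h ^ 2) / 2 := by
  rw [mn, if_neg]
  rintro ⟨h1, h2⟩
  have hg : g ≠ 0 := right_ne_zero_of_mul h1
  have key := sq_sub_isSquare L (n := g ^ 2 - a * h ^ 2) hg (by
    rw [← map_pow, ← map_mul, show 4 * g ^ 2 = (2 * g) ^ 2 by ring,
      val_lt_val hy (pow_ne_zero _ h1), ord_pow]
    exact_mod_cast h2)
  obtain ⟨r, hr⟩ := key.2
  exact ha ⟨r / h, by rw [div_mul_div_comm, eq_div_iff (mul_ne_zero hh hh)]; linear_combination hr⟩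

theorem mn_split {g1 g2 : k} (h1 : g1 ≠ 0) (h2 : g2 ≠ 0) (he : Even (ord w (g1 * g2))) :
    (mn w (g1 + g2) (g1 * g2) : ZMod 2) = (ord w g1 : ZMod 2) := by
  rw [ord_mul h1 h2] at he
  obtain ⟨m, hm⟩ := he
  refine (ZMod.intCast_eq_intCast_iff_dvd_sub _ _ 2).2 ?_
  rw [mn, ord_mul h1 h2]
  rcases lt_trichotomy (ord w g1) (ord w g2) with h | h | h
  · obtain ⟨h3, h4⟩ := ord_add_of_lt h1 h2 h
    rw [if_pos ⟨h3, by omega⟩, h4]
    simp
  · rw [if_neg]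
    · push_cast
      omega
    · rintro ⟨h3, h4⟩
      have := min_le_ord_add (w := w) h1 h2 h3
      omega
  · obtain ⟨h3, h4⟩ := ord_add_of_lt h2 h1 h
    rw [add_comm g2 g1] at h3 h4
    rw [if_pos ⟨h3, by omega⟩, h4]
    push_cast
    omega

theorem recip_sq (H : Hyp w s) {x z g h ρ : k} (hρ : ρ ≠ 0) (ha : x ^ 2 - s * z ^ 2 = ρ * ρ)
    (hz : z ≠ 0) (hh : h ≠ 0) (hD : g - h * x ≠ 0) (hy : (g + h * ρ) * (g - h * ρ) ≠ 0) :
    hs (-2 * h * (g - h * x)) ((g + h * ρ) * (g - h * ρ)) + hs s (g - h * x) =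
      hs (2 * (x - ρ)) ((g + h * ρ) * (g - h * ρ)) + hs s (g + h * ρ) := by
  have L := H.L
  have h2 := L.two
  have s0 := H.s0
  have hg1 : g + h * ρ ≠ 0 := left_ne_zero_of_mul hy
  have hd : x - ρ ≠ 0 := fun h0 => by
    have : s * z ^ 2 = 0 := by linear_combination -ha + (x + ρ) * h0
    exact mul_ne_zero s0 (pow_ne_zero _ hz) this
  generalize hyy : (g + h * ρ) * (g - h * ρ) = y at hy ⊢
  have n2 : (-2 : k) ≠ 0 := neg_ne_zero.2 h2
  have r1 : hs y (2 * ρ * h * (g + h * ρ)) = 0 :=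
    hs_eq_zero.2 ⟨g + h * ρ, 1, by rw [← hyy]; ring⟩
  have r2 : hs (y * s) (-2 * ρ * (x - ρ) * ((g - h * x) * (g + h * ρ))) = 0 :=
    hs_eq_zero.2 ⟨(g + h * ρ) * (x - ρ), z, by
      rw [← hyy]; linear_combination (-(g + h * ρ) * (g - h * ρ)) * ha⟩
  have r3 : hs s (-2 * ρ * (x - ρ)) = 0 := hs_eq_zero.2 ⟨x - ρ, z, by linear_combination -ha⟩
  have a1 : -2 * ρ * (x - ρ) ≠ 0 := mul_ne_zero (mul_ne_zero n2 hρ) hd
  have a2 : (g - h * x) * (g + h * ρ) ≠ 0 := mul_ne_zero hD hg1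
  have a3 : 2 * ρ * h * (g + h * ρ) ≠ 0 := mul_ne_zero (mul_ne_zero (mul_ne_zero h2 hρ) hh) hg1
  have a4 : -2 * h * (g - h * x) ≠ 0 := mul_ne_zero (mul_ne_zero n2 hh) hD
  have a5 : 2 * (x - ρ) ≠ 0 := mul_ne_zero h2 hd
  rw [L.hs_mul_left hy s0 (mul_ne_zero a1 a2), L.hs_mul_right s0 a1 a2, r3, zero_add,
    L.hs_mul_right s0 hD hg1] at r2
  have r4 := L.hs_mul_right hy (mul_ne_zero a1 a2) a3
  rw [r1, add_zero, show -2 * ρ * (x - ρ) * ((g - h * x) * (g + h * ρ)) *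
    (2 * ρ * h * (g + h * ρ)) = (-2 * h * (g - h * x)) * (2 * (x - ρ)) * (ρ * (g + h * ρ)) ^ 2 by
      ring, hs_mul_sq_right _ _ (mul_ne_zero hρ hg1), L.hs_mul_right hy a4 a5,
    hs_comm h2 hy a4, hs_comm h2 hy a5] at r4
  rw [← r4] at r2
  revert r2
  generalize hs (-2 * h * (g - h * x)) y = c1
  generalize hs (2 * (x - ρ)) y = c2
  generalize hs s (g - h * x) = c3
  generalize hs s (g + h * ρ) = c4
  revert c1 c2 c3 c4
  decide

variable [hF : Fact (∀ r : k, r ^ 2 ≠ s + 0 * r)]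

theorem recip_ns (H : Hyp w s) {x z g h κ : k} (hκ : κ ≠ 0) (ha : x ^ 2 - s * z ^ 2 = s * κ ^ 2)
    (hz : z ≠ 0) (hh : h ≠ 0) (hD : g - h * x ≠ 0) :
    hs (-2 * h * (g - h * x)) (g ^ 2 - s * (h * κ) ^ 2) + hs s (g - h * x) =
      hs (⟨x, z⟩ : E s) ⟨g, h * κ⟩ := by
  have L := H.L
  have LE := isLocE H
  have h2 := L.two
  have s0 := H.s0
  have hα : (⟨x, z⟩ : E s) ≠ 0 := fun h0 => hz (congrArg QuadraticAlgebra.im h0)
  have hγ : (⟨g, h * κ⟩ : E s) ≠ 0 := fun h0 =>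
    mul_ne_zero hh hκ (congrArg QuadraticAlgebra.im h0)
  have hδ : (⟨2 * x, 2 * κ⟩ : E s) ≠ 0 := fun h0 =>
    mul_ne_zero h2 hκ (congrArg QuadraticAlgebra.im h0)
  have e1 : hs (⟨x, z⟩ : E s) ⟨g, h * κ⟩ = hs (⟨2 * x, 2 * κ⟩ : E s) ⟨g, h * κ⟩ := by
    refine hs_congr_left _ hα hδ ⟨⟨x, z + κ⟩, ?_⟩
    ext
    · simp only [re_mul]
      linear_combination ha
    · simp only [im_mul]
      ring
  have hp : -h / (2 * (g - h * x)) ≠ 0 := div_ne_zero (neg_ne_zero.2 hh) (mul_ne_zero h2 hD)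
  have hr : (g - h * x)⁻¹ ≠ 0 := inv_ne_zero hD
  have e2 := hs_one_sub (algebraMap k (E s) (-h / (2 * (g - h * x))) * (⟨2 * x, 2 * κ⟩ : E s))
  have e3 : 1 - algebraMap k (E s) (-h / (2 * (g - h * x))) * (⟨2 * x, 2 * κ⟩ : E s) =
      algebraMap k (E s) (g - h * x)⁻¹ * ⟨g, h * κ⟩ := by
    ext
    · simp only [re_sub, re_one, re_mul, algebraMap_re, algebraMap_im]
      field_simp
      ring
    · simp only [im_sub, im_one, im_mul, algebraMap_re, algebraMap_im]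
      field_simp
      ring
  rw [e3, LE.hs_mul_left (alg_ne hp) hδ (mul_ne_zero (alg_ne hr) hγ),
    LE.hs_mul_right (alg_ne hp) (alg_ne hr) hγ, LE.hs_mul_right hδ (alg_ne hr) hγ,
    proj H hp (alg_ne hr), proj H hp hγ, proj' H hr hδ, QuadraticAlgebra.norm_algebraMap,
    hs_of_isSquare_right _ ⟨_, sq _⟩, nrm_mk, nrm_mk, ← e1] at e2
  have e4 : hs (-h / (2 * (g - h * x))) (g ^ 2 - s * (h * κ) ^ 2) =
      hs (-2 * h * (g - h * x)) (g ^ 2 - s * (h * κ) ^ 2) :=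
    hs_congr_left _ hp (mul_ne_zero (mul_ne_zero (neg_ne_zero.2 h2) hh) hD) ⟨h, by field_simp⟩
  have e5 : hs ((2 * x) ^ 2 - s * (2 * κ) ^ 2) (g - h * x)⁻¹ = hs s (g - h * x) := by
    rw [show (2 * x) ^ 2 - s * (2 * κ) ^ 2 = s * (2 * z) ^ 2 by linear_combination 4 * ha,
      hs_mul_sq_left _ _ (mul_ne_zero h2 hz)]
    exact hs_congr_right _ hr hD ⟨1, by field_simp⟩
  rw [e4, e5] at e2
  revert e2
  generalize hs (-2 * h * (g - h * x)) (g ^ 2 - s * (h * κ) ^ 2) = c1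
  generalize hs s (g - h * x) = c2
  generalize hs (⟨x, z⟩ : E s) ⟨g, h * κ⟩ = c3
  revert c1 c2 c3
  decide

theorem isLam (H : Hyp w s) : IsLam w s (lam w s) where
  mul_left := fun x z x' z' y h hu h' hu' hy he => by
    obtain ⟨γ, rfl⟩ := exists_nrm H hy he
    have hγ := ne_of_nrm hy
    have e : (x * x' + s * z * z') ^ 2 - s * (x * z' + z * x') ^ 2 =
        (x ^ 2 - s * z ^ 2) * (x' ^ 2 - s * z' ^ 2) := by ring
    have e' : (⟨x * x' + s * z * z', x * z' + z * x'⟩ : E s) = ⟨x, z⟩ * ⟨x', z'⟩ := by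
      ext <;> simp
    rw [lam_eq H h hu hγ, lam_eq H h' hu' hγ, lam_eq H (by rw [e]; exact mul_ne_zero h h')
      (by rw [e]; exact H.L.unr_mul h h' hu hu') hγ, e, e', io_mul H.L h h' hu hu',
      (isLocE H).hs_mul_left (mk_ne h) (mk_ne h') hγ]
    ring
  mul_right := fun x z y y' h hu hy he hy' he' => by
    obtain ⟨γ, rfl⟩ := exists_nrm H hy he
    obtain ⟨γ', rfl⟩ := exists_nrm H hy' he'
    have hγ := ne_of_nrm hy
    have hγ' := ne_of_nrm hy'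
    rw [← map_mul, lam_eq H h hu hγ, lam_eq H h hu hγ', lam_eq H h hu (mul_ne_zero hγ hγ'),
      (isLocE H).hs_mul_right (mk_ne h) hγ hγ', ord_mul hγ hγ']
    push_cast
    ring
  sq_right := fun x z y t h hu hy he ht => by
    obtain ⟨γ, rfl⟩ := exists_nrm H hy he
    have hγ := ne_of_nrm hy
    rw [← QuadraticAlgebra.norm_algebraMap (a := s) (b := 0), ← map_mul, lam_eq H h hu hγ,
      lam_eq H h hu (mul_ne_zero hγ (alg_ne ht)),
      (isLocE H).hs_mul_right (mk_ne h) hγ (alg_ne ht), ord_mul hγ (alg_ne ht), ordE_alg,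
      proj' H ht (mk_ne h), nrm_mk, hs_unr H.L h hu ht]
    push_cast
    linear_combination zmod2_add_self (io (x ^ 2 - s * z ^ 2) * (ord w t : ZMod 2))
  base := fun u v t y h ht hy he => by
    have e : (t * (u ^ 2 + s * v ^ 2)) ^ 2 - s * (t * (2 * u * v)) ^ 2 =
        (t * (u ^ 2 - s * v ^ 2)) * (t * (u ^ 2 - s * v ^ 2)) := by ring
    have e' : (⟨t * (u ^ 2 + s * v ^ 2), t * (2 * u * v)⟩ : E s) =
        algebraMap k (E s) t * ⟨u, v⟩ ^ 2 := by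
      ext <;> simp [sq] <;> ring_nf <;> simp
    have hg := nrm_gam H hy he
    rw [lam, e, e', io, if_pos ⟨_, rfl⟩, zero_mul, add_zero, hs_mul_sq_left _ _ (mk_ne h),
      proj H ht (ne_of_nrm (by rwa [hg])), hg]
  unit := fun h2 x z y h h0 _ hy he => by
    obtain ⟨γ, rfl⟩ := exists_nrm H hy he
    have hγ := ne_of_nrm hy
    have LE := isLocE H
    have hu : Unr w (x ^ 2 - s * z ^ 2) := H.L.unr_of_odd h2 h (by simp [h0])
    have huE : Unr (wE H) (⟨x, z⟩ : E s) :=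
      LE.unr_of_odd (by rw [← alg_two, ordE_alg, h2]) (mk_ne h) (by simp [ordE, nrm_mk, h0])
    obtain ⟨π, hπ, h1⟩ := H.L.exists_ord 1
    have e := proj' H hπ (mk_ne h)
    rw [hs_unr LE (mk_ne h) huE (alg_ne hπ), nrm_mk, hs_unr H.L h hu hπ, ordE_alg, h1,
      Int.cast_one, mul_one, mul_one] at e
    rw [lam_eq H h hu hγ, hs_unr LE (mk_ne h) huE hγ, e, zmod2_add_self]
  recip := fun x z g h ha hu hz hh hD hy he => by
    by_cases hsq : IsSquare (x ^ 2 - s * z ^ 2)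
    · obtain ⟨ρ, hρ⟩ := hsq
      have hρ0 : ρ ≠ 0 := fun h0 => ha (by rw [hρ, h0, mul_zero])
      have hd : x - ρ ≠ 0 := fun h0 => by
        have : s * z ^ 2 = 0 := by linear_combination -hρ + (x + ρ) * h0
        exact mul_ne_zero H.s0 (pow_ne_zero _ hz) this
      have e : g ^ 2 - (x ^ 2 - s * z ^ 2) * h ^ 2 = (g + h * ρ) * (g - h * ρ) := by
        rw [hρ]; ring
      rw [e] at hy he ⊢
      have hg1 : g + h * ρ ≠ 0 := left_ne_zero_of_mul hy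
      have hg := nrm_gam H hy he
      have h2 : 2 * (x - ρ) ≠ 0 := mul_ne_zero H.L.two hd
      have e1 : hs (⟨x, z⟩ : E s) (gam s ((g + h * ρ) * (g - h * ρ))) =
          hs (algebraMap k (E s) (2 * (x - ρ))) (gam s ((g + h * ρ) * (g - h * ρ))) := by
        refine hs_congr_left _ (mk_ne ha) (alg_ne h2) ⟨⟨x - ρ, z⟩, ?_⟩
        ext
        · simp only [re_mul, algebraMap_re, algebraMap_im]
          linear_combination hρ
        · simp only [im_mul, algebraMap_re, algebraMap_im]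
          ring
      rw [recip_sq H hρ0 hρ hz hh hD hy, lam, io, if_pos ⟨ρ, hρ⟩, zero_mul, add_zero, e1,
        proj H h2 (ne_of_nrm (by rwa [hg])), hg,
        show 2 * g = (g + h * ρ) + (g - h * ρ) by ring,
        mn_split hg1 (right_ne_zero_of_mul hy) he, H.L.hs_of_unr H.s0 H.u hg1, if_neg H.ns]
    · obtain ⟨r, hr⟩ := H.L.isSquare_mul_of_unr ha H.s0 hu H.u hsq H.ns
      have s0 := H.s0
      have hr0 : r ≠ 0 := fun h0 => mul_ne_zero ha s0 (by rw [hr, h0, mul_zero])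
      have hκ : x ^ 2 - s * z ^ 2 = s * (r / s) ^ 2 := by
        field_simp
        linear_combination hr
      have e : g ^ 2 - (x ^ 2 - s * z ^ 2) * h ^ 2 = norm (⟨g, h * (r / s)⟩ : E s) := by
        rw [nrm_mk, hκ]; ring
      rw [mn_of_not_isSquare H.L hsq hh hy]
      rw [e] at hy ⊢
      rw [lam_eq H ha hu (ne_of_nrm hy), ← ordE H, io, if_neg hsq, one_mul, add_assoc,
        zmod2_add_self, add_zero, nrm_mk]
      exact recip_ns H (div_ne_zero hr0 s0) hκ hz hh hD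

end LocEAux

theorem IsLoc.exists_lam (L : IsLoc w) {s : k} (hs0 : s ≠ 0) (hn : ¬ IsSquare s) (hu : Unr w s) :
    ∃ lam, IsLam w s lam := by
  have := fact_of_not_isSquare hn
  exact ⟨_, LocEAux.isLam ⟨L, hs0, hn, hu⟩⟩

end Pool.Agent.Stark
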