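import Pool.Agent.Lib.MP_ca56d1_nt.Loc

/-! The unramified quadratic extension of an abstract local field is an abstract local field. -/

namespace Pool.Agent.Stark.LocEAux

open QuadraticAlgebra

variable {k : Type*} [Field k] {w : Valuation k (WithZero (Multiplicative ℤ))} {s : k}

/-- The standing hypotheses. -/
structure Hyp (w : Valuation k (WithZero (Multiplicative ℤ))) (s : k) : Prop where
  L : IsLoc w
  s0 : s ≠ 0
  ns : ¬ IsSquare s
  u : Unr w s

/-- The quadratic extension. -/
abbrev E (s : k) : Type _ := QuadraticAlgebra k s 0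

theorem nrm_eq (z : E s) : norm z = z.re ^ 2 - s * z.im ^ 2 := by
  rw [norm_def]; ring

theorem nrm_mk (x z : k) : norm (⟨x, z⟩ : E s) = x ^ 2 - s * z ^ 2 := nrm_eq _

theorem val_two_le : w (2 : k) ≤ 1 := by
  have h := w.map_add 1 1
  rw [one_add_one_eq_two] at h
  simpa using h

theorem val_four : w (4 : k) = w 2 * w 2 := by
  rw [← map_mul]; norm_num

theorem val_four_le : w (4 : k) ≤ 1 := by
  rw [val_four]; exact mul_le_one' val_two_le val_two_le

theorem four_ne (L : IsLoc w) : (4 : k) ≠ 0 := by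
  have := mul_ne_zero L.two L.two
  norm_num at this ⊢
  exact this

theorem hs_even (H : Hyp w s) {y : k} (hy : y ≠ 0) : hs s y = 0 ↔ Even (ord w y) := by
  rw [H.L.hs_of_unr H.s0 H.u hy, if_neg H.ns, ZMod.intCast_eq_zero_iff_even]

/-- A Hensel type criterion. -/
theorem sq_sub_isSquare (L : IsLoc w) {t n : k} (ht : t ≠ 0) (h : w n < w 4 * w t ^ 2) :
    t ^ 2 - n ≠ 0 ∧ IsSquare (t ^ 2 - n) := by
  have hwt : w t ≠ 0 := by simpa using ht
  have h1 : w (n / t ^ 2) < w 4 := by
    rw [map_div₀, map_pow, div_lt_iff₀ (pow_pos (zero_lt_iff.2 hwt) 2)]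
    exact h
  have h2 : t ^ 2 - n = t ^ 2 * (1 - n / t ^ 2) := by field_simp
  rw [h2]
  constructor
  · refine mul_ne_zero (pow_ne_zero _ ht) fun h0 => ?_
    have : n / t ^ 2 = 1 := by linear_combination -h0
    rw [this, map_one] at h1
    exact absurd val_four_le (not_le.2 h1)
  · refine IsSquare.mul ⟨t, sq t⟩ (L.hens _ ?_)
    rw [show 1 - n / t ^ 2 - 1 = -(n / t ^ 2) by ring, Valuation.map_neg]
    exact h1

variable [hF : Fact (∀ r : k, r ^ 2 ≠ s + 0 * r)]

theorem nrm_ne {z : E s} (hz : z ≠ 0) : norm z ≠ 0 := fun h =>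
  hz (norm_eq_zero_iff_eq_zero.1 h)

theorem nrm_even (H : Hyp w s) {z : E s} (hz : z ≠ 0) : Even (ord w (norm z)) := by
  rw [← hs_even H (nrm_ne hz), nrm_eq]
  exact hs_norm _ _ _

theorem nrm_div (a b : E s) : norm (a / b) = norm a / norm b := by
  by_cases hb : b = 0
  · simp [hb]
  · rw [eq_div_iff (nrm_ne hb), ← map_mul, div_mul_cancel₀ _ hb]

omit hF in
theorem tr_int (H : Hyp w s) {z : E s} (hz : w (norm z) ≤ 1) : w (2 * z.re) ≤ 1 := by
  by_contra h
  rw [not_le] at h
  have ht : 2 * z.re ≠ 0 := fun h0 => by simp [h0] at h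
  have h4 : w (4 : k) ≠ 0 := by simpa using four_ne H.L
  have key := sq_sub_isSquare H.L (n := 4 * norm z) ht (by
    rw [map_mul]
    refine mul_lt_mul_of_pos_left (hz.trans_lt (one_lt_pow₀ h two_ne_zero)) (zero_lt_iff.2 h4))
  have e : (2 * z.re) ^ 2 - 4 * norm z = s * (2 * z.im) ^ 2 := by rw [nrm_eq]; ring
  rw [e] at key
  have him : 2 * z.im ≠ 0 := fun h0 => key.1 (by rw [h0]; ring)
  obtain ⟨r, hr⟩ := key.2
  exact H.ns ⟨r / (2 * z.im), by
    rw [div_mul_div_comm, eq_div_iff (mul_ne_zero him him)]; linear_combination hr⟩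

open scoped Classical in
/-- The underlying function of the extended valuation. -/
noncomputable def wf (w : Valuation k (WithZero (Multiplicative ℤ))) (z : E s) :
    WithZero (Multiplicative ℤ) :=
  if z = 0 then 0 else WithZero.exp (-(ord w (norm z) / 2))

theorem wf_sq (H : Hyp w s) (z : E s) : wf w z * wf w z = w (norm z) := by
  by_cases hz : z = 0
  · simp [wf, hz]
  · rw [wf, if_neg hz, ← WithZero.exp_add, val_eq_exp (nrm_ne hz)]
    obtain ⟨m, hm⟩ := nrm_even H hz
    congr 1
    omega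

omit hF in
theorem le_of_mul_self_le {a b : WithZero (Multiplicative ℤ)} (h : a * a ≤ b * b) : a ≤ b := by
  by_contra hab
  rw [not_le] at hab
  exact absurd h (not_le.2 (mul_lt_mul'' hab hab zero_le zero_le))

omit hF in
theorem eq_of_mul_self_eq {a b : WithZero (Multiplicative ℤ)} (h : a * a = b * b) : a = b :=
  le_antisymm (le_of_mul_self_le h.le) (le_of_mul_self_le h.ge)

theorem wf_mul (H : Hyp w s) (a b : E s) : wf w (a * b) = wf w a * wf w b := by
  apply eq_of_mul_self_eq
  rw [wf_sq H, map_mul, map_mul, ← wf_sq H, ← wf_sq H]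
  exact mul_mul_mul_comm _ _ _ _

theorem wf_add_aux (H : Hyp w s) {a b : E s} (h : wf w a ≤ wf w b) : wf w (a + b) ≤ wf w b := by
  by_cases hb : b = 0
  · subst hb
    simpa using h
  have hN : w (norm a) ≤ w (norm b) := by
    rw [← wf_sq H, ← wf_sq H]; exact mul_le_mul' h h
  have hwb : w (norm b) ≠ 0 := by simpa using nrm_ne hb
  have h1 : w (norm (a / b)) ≤ 1 := by
    rw [nrm_div, map_div₀]; exact div_le_one_of_le₀ hN zero_le
  have h2 := tr_int H h1
  have h3 : norm (a / b + 1) = norm (a / b) + 2 * (a / b).re + 1 := by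
    rw [nrm_eq, nrm_eq]; simp; ring
  have h4 : w (norm (a / b + 1)) ≤ 1 := by
    rw [h3]
    exact w.map_add_le (w.map_add_le h1 h2) (by simp)
  have h5 : a + b = (a / b + 1) * b := by field_simp
  apply le_of_mul_self_le
  rw [wf_sq H, wf_sq H, h5, map_mul, map_mul]
  exact mul_le_of_le_one_left' h4

/-- The extended valuation. -/
noncomputable def wE (H : Hyp w s) : Valuation (E s) (WithZero (Multiplicative ℤ)) where
  toFun := wf w
  map_zero' := by simp [wf]
  map_one' := by simp [wf]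
  map_mul' := wf_mul H
  map_add_le_max' := fun a b => by
    rcases le_total (wf w a) (wf w b) with h | h
    · exact (wf_add_aux H h).trans (le_max_right _ _)
    · rw [add_comm]
      exact (wf_add_aux H h).trans (le_max_left _ _)

theorem wE_sq (H : Hyp w s) (z : E s) : wE H z * wE H z = w (norm z) := wf_sq H z

theorem wE_alg (H : Hyp w s) (t : k) : wE H (algebraMap k (E s) t) = w t := by
  apply eq_of_mul_self_eq
  rw [wE_sq, QuadraticAlgebra.norm_algebraMap, sq, map_mul]

theorem wE_star (H : Hyp w s) (z : E s) : wE H (star z) = wE H z := by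
  apply eq_of_mul_self_eq
  rw [wE_sq, wE_sq, QuadraticAlgebra.norm_star]

theorem ordE (H : Hyp w s) (z : E s) : ord (wE H) z = ord w (norm z) / 2 := by
  by_cases hz : z = 0
  · simp [hz]
  · change -WithZero.log (wf w z) = _
    rw [wf, if_neg hz, WithZero.log_exp, neg_neg]

theorem ordE_alg (H : Hyp w s) (t : k) : ord (wE H) (algebraMap k (E s) t) = ord w t := by
  rw [ord, ord, wE_alg]

theorem tr_le (H : Hyp w s) (z : E s) : w (2 * z.re) ≤ wE H z := by
  have e : algebraMap k (E s) (2 * z.re) = z + star z := by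
    ext <;> simp [two_mul]
  rw [← wE_alg H, e]
  exact (wE H).map_add_le le_rfl (wE_star H z).le

theorem alg_two : algebraMap k (E s) 2 = 2 := map_ofNat _ 2

theorem alg_four : algebraMap k (E s) 4 = 4 := map_ofNat _ 4

theorem alg_ne {t : k} (ht : t ≠ 0) : algebraMap k (E s) t ≠ 0 := by simpa using ht

omit hF in
theorem relIndex_pw_ne (L : IsLoc w) (i j : ℤ) : (pw w i).relIndex (pw w j) ≠ 0 := by
  rcases le_total i j with h | h
  · rw [AddSubgroup.relIndex_eq_one.2 (pw_anti h)]
    exact one_ne_zero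
  · obtain ⟨n, rfl⟩ := Int.le.dest h
    rw [L.relIndex_pw]
    exact pow_ne_zero _ L.fin

theorem rc_ne (H : Hyp w s) : rc (wE H) ≠ 0 := by
  let re : E s →+ k := (reₗ s 0).toAddMonoidHom
  let im : E s →+ k := (imₗ s 0).toAddMonoidHom
  let rt : E s := ⟨0, 1⟩
  have hrt : rt ≠ 0 := fun h => by simpa [rt] using congrArg QuadraticAlgebra.im h
  have h1 : (pw w 1).comap re ⊓ (pw w (1 - ord (wE H) rt)).comap im ≤ pw (wE H) 1 := by
    rintro z ⟨hz1, hz2⟩
    have e : z = algebraMap k (E s) z.re + algebraMap k (E s) z.im * rt := by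
      ext <;> simp [rt]
    have hz1' : w z.re ≤ WithZero.exp (-1) := hz1
    have hz2' : w z.im ≤ WithZero.exp (-(1 - ord (wE H) rt)) := hz2
    rw [mem_pw, e]
    refine (wE H).map_add_le (by rwa [wE_alg]) ?_
    rw [map_mul, wE_alg, val_eq_exp hrt]
    refine (mul_le_mul_left hz2' _).trans ?_
    rw [← WithZero.exp_add]
    exact le_of_eq (by congr 1; ring)
  refine fun h0 => ?_
  have h2 : ((pw w 1).comap re ⊓ (pw w (1 - ord (wE H) rt)).comap im).relIndex
      (pw (wE H) 0) = 0 := AddSubgroup.relIndex_eq_zero_of_le_left h1 h0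
  refine AddSubgroup.relIndex_inf_ne_zero ?_ ?_ h2
  · rw [AddSubgroup.relIndex_comap]
    refine fun h => relIndex_pw_ne H.L 1 (-ord w (2 : k))
      (AddSubgroup.relIndex_eq_zero_of_le_right ?_ h)
    rintro _ ⟨z, hz, rfl⟩
    have hz' : wE H z ≤ 1 := by simpa using mem_pw.1 hz
    have h3 := (tr_le H z).trans hz'
    change z.re ∈ _
    rw [mem_pw_iff]
    by_cases h4 : z.re = 0
    · exact Or.inl h4
    right
    rw [← map_one w, val_le_val (mul_ne_zero H.L.two h4) one_ne_zero, ord_mul H.L.two h4,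
      ord_one] at h3
    omega
  · rw [AddSubgroup.relIndex_comap]
    refine fun h => relIndex_pw_ne H.L _ (ord (wE H) rt - ord w (2 * s))
      (AddSubgroup.relIndex_eq_zero_of_le_right ?_ h)
    rintro _ ⟨z, hz, rfl⟩
    have hz' : wE H z ≤ 1 := by simpa using mem_pw.1 hz
    have h3 := tr_le H (z * rt)
    have e : 2 * (z * rt).re = 2 * s * z.im := by simp [rt]; ring
    rw [e, map_mul (wE H)] at h3
    have h5 := h3.trans (mul_le_of_le_one_left' hz')
    change z.im ∈ _
    rw [mem_pw_iff]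
    by_cases h4 : z.im = 0
    · exact Or.inl h4
    right
    have h6 : 2 * s ≠ 0 := mul_ne_zero H.L.two H.s0
    rw [val_eq_exp (mul_ne_zero h6 h4), val_eq_exp hrt, WithZero.exp_le_exp, ord_mul h6 h4] at h5
    omega

theorem hens_aux (H : Hyp w s) {v : E s} (hv : wE H v < w 4) {c : k} (hc : norm (1 + v) = c * c)
    (hc1 : w (c - 1) < w 2) : IsSquare (1 + v) := by
  have h2 : w (c + 1) = w 2 := by
    rw [show c + 1 = 2 + (c - 1) by ring]
    exact w.map_add_eq_of_lt_left hc1
  have hw2 : w (2 : k) ≠ 0 := by simpa using H.L.two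
  have hc0 : c + 1 ≠ 0 := fun h => hw2 (by rw [← h2, h, map_zero])
  have key := sq_sub_isSquare H.L (n := norm v) hc0 (by
    rw [h2, sq, ← val_four, ← wE_sq H]
    exact mul_lt_mul'' hv hv zero_le zero_le)
  obtain ⟨r, hr⟩ := key.2
  have hr0 : r ≠ 0 := fun h => key.1 (by rw [hr, h, mul_zero])
  rw [nrm_eq] at hc hr
  have e : (1 + v) * algebraMap k (E s) (r * r) =
      (1 + v + algebraMap k (E s) c) * (1 + v + algebraMap k (E s) c) := by
    rw [← hr]
    simp only [re_add, im_add, re_one, im_one] at hc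
    ext
    · simp only [re_mul, re_add, im_add, re_one, im_one, algebraMap_re, algebraMap_im]
      linear_combination (-v.re) * hc
    · simp only [im_mul, re_add, im_add, re_one, im_one, algebraMap_re, algebraMap_im]
      linear_combination (-v.im) * hc
  have hr1 := alg_ne (s := s) hr0
  refine ⟨(1 + v + algebraMap k (E s) c) / algebraMap k (E s) r, ?_⟩
  rw [div_mul_div_comm, ← e, ← map_mul, mul_div_assoc, div_self (alg_ne (mul_ne_zero hr0 hr0)),
    mul_one]

theorem hensE (H : Hyp w s) (z : E s) (hz : wE H (z - 1) < wE H 4) : IsSquare z := by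
  obtain ⟨v, rfl⟩ : ∃ v, z = 1 + v := ⟨z - 1, by ring⟩
  rw [add_sub_cancel_left, ← alg_four, wE_alg] at hz
  have e : norm (1 + v) - 1 = 2 * v.re + norm v := by
    rw [nrm_eq, nrm_eq]; simp; ring
  have h1 : w (norm (1 + v) - 1) < w 4 := by
    rw [e]
    refine w.map_add_lt ((tr_le H v).trans_lt hz) ?_
    rw [← wE_sq H]
    exact (mul_le_of_le_one_left' (hz.le.trans val_four_le)).trans_lt hz
  obtain ⟨c, hc⟩ := H.L.hens _ h1
  by_cases h2 : w (c - 1) < w 2
  · exact hens_aux H hz hc h2
  · refine hens_aux H hz (c := -c) (by rw [hc]; ring) ?_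
    by_contra h3
    rw [not_lt] at h2 h3
    rw [hc, show c * c - 1 = -((c - 1) * (-c - 1)) by ring, Valuation.map_neg, map_mul,
      val_four] at h1
    exact absurd (mul_le_mul' h2 h3) (not_le.2 h1)

theorem isLocE (H : Hyp w s) : IsLoc (wE H) where
  surj := by
    obtain ⟨π, hπ⟩ := H.L.surj
    exact ⟨algebraMap k (E s) π, by rw [wE_alg, hπ]⟩
  two := by rw [← alg_two]; exact alg_ne H.L.two
  fin := rc_ne H
  hens := hensE H

end Pool.Agent.Stark.LocEAux
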