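import Pool.Agent.Lib.MP_ca56d1_nt.Dat

/-! The rank one abelian Stark conjecture for multiquadratic extensions: assembly. -/

namespace Pool.Agent.Stark

open NumberField StarkStmt Module

theorem isCont_sum {ι : Type*} [Fintype ι] (k : ℂ) (e : ι → ℂ) (f Z : ι → ℂ → ℂ)
    (h : ∀ i, IsCont (f i) (Z i)) (g : ℂ → ℂ)
    (hg : ∀ s : ℂ, 1 < s.re → g s = k * ∑ i, e i * f i s) :
    IsCont g (fun s => k * ∑ i, e i * Z i s) ∧
      deriv (fun s => k * ∑ i, e i * Z i s) 0 = k * ∑ i, e i * deriv (Z i) 0 := by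
  refine ⟨⟨fun x hx => ?_, ?_, fun s hs => ?_⟩, ?_⟩
  · exact (MeromorphicAt.const k x).fun_mul (MeromorphicAt.fun_sum fun i _ =>
      (MeromorphicAt.const (e i) x).fun_mul ((h i).1 x hx))
  · exact analyticAt_const.mul (Finset.analyticAt_fun_sum _ fun i _ =>
      analyticAt_const.mul (h i).2.1)
  · rw [hg s hs]
    simp only [(h _).2.2 s hs]
  · exact ((HasDerivAt.fun_sum fun i _ =>
      (h i).2.1.differentiableAt.hasDerivAt.const_mul (e i)).const_mul k).deriv

theorem add_mem_of_hyper {V : Type*} [AddCommGroup V] [Module (ZMod 2) V]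
    {A B : Submodule (ZMod 2) V} [Module.Finite (ZMod 2) B] (hAB : A ≤ B)
    (h : finrank (ZMod 2) A + 1 = finrank (ZMod 2) B) {y z : V} (hy : y ∈ B) (hz : z ∈ B)
    (hy' : y ∉ A) (hz' : z ∉ A) : y + z ∈ A := by
  have h1 : A ⊔ Submodule.span (ZMod 2) {y} ≤ B :=
    sup_le hAB ((Submodule.span_singleton_le_iff_mem _ _).2 hy)
  have : Module.Finite (ZMod 2) (A ⊔ Submodule.span (ZMod 2) {y} : Submodule (ZMod 2) V) :=
    Submodule.finiteDimensional_of_le h1
  have h2 : A < A ⊔ Submodule.span (ZMod 2) {y} :=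
    lt_of_le_of_ne le_sup_left fun e =>
      hy' (e ▸ Submodule.mem_sup_right (Submodule.mem_span_singleton_self y))
  have h3 := Submodule.finrank_lt_finrank_of_lt h2
  have h4 := Submodule.eq_of_le_of_finrank_le h1 (by omega)
  rw [← h4] at hz
  obtain ⟨a, ha, u, hu, rfl⟩ := Submodule.mem_sup.1 hz
  obtain ⟨t, rfl⟩ := Submodule.mem_span_singleton.1 hu
  rcases zmod2_cases t with rfl | rfl
  · exact absurd (by simpa using ha) hz'
  · rw [one_smul, add_left_comm, add_self_mod, add_zero]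
    exact ha

theorem act_div {F Ω : Type*} [Field F] [Field Ω] [Algebra F Ω] (σ : Ω ≃ₐ[F] Ω) {α s : Ω} {b : F}
    {e : ZMod 2} (hs : s ^ 2 = algebraMap F Ω b) (hs0 : s ≠ 0) (hα : α ≠ 0)
    (h0 : e = 0 → σ α = α) (h1 : e = 1 → α * σ α = algebraMap F Ω b) :
    σ (α / s) = sg Ω (xs σ b) * pm e (α / s) := by
  have h2 := sg_mul_self (R := Ω) (xs σ b)
  have h3 := sg_ne_zero (Ω := Ω) (xs σ b)
  rw [map_div₀, xs_spec σ hs]
  rcases zmod2_cases e with rfl | rfl
  · rw [h0 rfl, pm_zero]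
    field_simp
    linear_combination -h2
  · have h4 := (h1 rfl).trans hs.symm
    rw [pm_one]
    field_simp
    linear_combination h4 - s ^ 2 * h2

variable {F L : Type*} [Field F] [NumberField F] [Field L] [NumberField L] [Algebra F L]

namespace IsDat

variable {S : Finset (Pr F)} {P : InfinitePlace L} {a c b : F} {w Mo : ℕ} {γ α : L}
  (D : IsDat S P a c b w Mo γ α)

include D

theorem sel_b : IsSel S b := by
  obtain ⟨g, h, rfl, h1⟩ := D.gd.kb
  exact h1.1

theorem sel_c : IsSel S c := by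
  obtain ⟨g, h, rfl, h1⟩ := D.gd.kc
  exact h1.1

theorem act_eta (g : L ≃ₐ[F] L) :
    g (α ^ 2 / algebraMap F L b) = pm (xs g a) (α ^ 2 / algebraMap F L b) := by
  rw [map_div₀, map_pow, AlgEquiv.commutes]
  rcases zmod2_cases (xs g a) with h | h
  · rw [h, (D.fix g h).2, pm_zero]
  · have h1 := (D.conj g h).2
    have h2 := D.α_ne
    have h3 : algebraMap F L b ≠ 0 := by simpa using D.sel_b.1
    rw [h, pm_one]
    field_simp
    rw [← h1]
    ring

theorem log_eta (g : L ≃ₐ[F] L) :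
    Real.log (P (g (α ^ 2 / algebraMap F L b))) =
      sg ℝ (xs g a) * Real.log (P (α ^ 2 / algebraMap F L b)) := by
  rw [D.act_eta]
  rcases zmod2_cases (xs g a) with h | h
  · simp [h]
  · rw [h, pm_one, map_inv₀, Real.log_inv]
    simp

theorem not_sq_c (h : Odd (Units.torsionOrder L / w)) : ¬ IsSquare (algebraMap F L c) := by
  intro hc
  obtain ⟨r, -, hr⟩ := exists_rt D.sel_c.1 hc
  have h1 : IsPrimitiveRoot (γ / r) (2 * w) :=
    prim_of_sq D.w_even (by rw [div_pow, hr]; exact D.prim)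
  obtain ⟨j, hj⟩ := dvd_torsionOrder (mul_ne_zero two_ne_zero D.w_ne) h1
  rw [hj, mul_comm 2 w, mul_assoc, Nat.mul_div_cancel_left _ (Nat.pos_of_ne_zero D.w_ne)] at h
  exact Nat.not_even_iff_odd.2 h (even_two_mul j)

theorem omega [IsGalois F L] :
    ∃ φ : AlgebraicClosure L, φ ≠ 0 ∧
      (φ ^ w) ^ 2 = algebraMap L _ (α ^ 2 / algebraMap F L b) ∧
      (IsSquare (algebraMap F L b) → ∃ t : L, algebraMap L _ t = φ ^ w) ∧
      ∀ σ σ' : AlgebraicClosure L ≃ₐ[F] AlgebraicClosure L,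
        σ (σ' φ) = sg _ (xs σ c * xs σ' b + xs σ' c * xs σ b) * σ' (σ φ) := by
  obtain ⟨sb, hsb0, hsb⟩ := exists_rt (Ω := AlgebraicClosure L) D.sel_b.1
    (IsAlgClosed.exists_eq_mul_self _)
  obtain ⟨sc, hsc0, hsc⟩ := exists_rt (Ω := AlgebraicClosure L) D.sel_c.1
    (IsAlgClosed.exists_eq_mul_self _)
  have hα : algebraMap L (AlgebraicClosure L) α ≠ 0 := by simpa using D.α_ne
  have hγ : algebraMap L (AlgebraicClosure L) γ ≠ 0 := by simpa using D.γ_ne
  obtain ⟨φ, hφ⟩ := IsAlgClosed.exists_pow_nat_eq (algebraMap L (AlgebraicClosure L) α / sb)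
    (Nat.pos_of_ne_zero D.w_ne)
  have hφ0 : φ ≠ 0 := by
    rintro rfl
    rw [zero_pow D.w_ne] at hφ
    exact div_ne_zero hα hsb0 hφ.symm
  have hω : IsPrimitiveRoot (algebraMap L (AlgebraicClosure L) γ / sc) (2 * w) :=
    prim_of_sq D.w_even (by
      rw [div_pow, hsc, IsScalarTower.algebraMap_apply F L, ← map_pow, ← map_div₀]
      exact D.prim.map_of_injective (algebraMap L (AlgebraicClosure L)).injective)
  have act : ∀ σ : AlgebraicClosure L ≃ₐ[F] AlgebraicClosure L, ∃ e : ZMod 2,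
      σ (φ ^ w) = sg _ (xs σ b) * pm e (φ ^ w) ∧
      σ (algebraMap L _ γ / sc) = sg _ (xs σ c) * pm e (algebraMap L _ γ / sc) := by
    intro σ
    have hc : ∀ x, σ (algebraMap L _ x) = algebraMap L _ (σ.restrictNormal L x) :=
      fun x => (σ.restrictNormal_commutes L x).symm
    refine ⟨xs (σ.restrictNormal L) a, ?_, ?_⟩
    · rw [hφ]
      exact act_div σ hsb hsb0 hα (fun h => by rw [hc, (D.fix _ h).2]) fun h => by
        rw [hc, ← map_mul, (D.conj _ h).2, ← IsScalarTower.algebraMap_apply]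
    · exact act_div σ hsc hsc0 hγ (fun h => by rw [hc, (D.fix _ h).1]) fun h => by
        rw [hc, ← map_mul, (D.conj _ h).1, ← IsScalarTower.algebraMap_apply]
  refine ⟨φ, hφ0, ?_, fun hb => ?_, fun σ σ' => ?_⟩
  · rw [hφ, div_pow, hsb, IsScalarTower.algebraMap_apply F L, map_div₀, map_pow]
  · obtain ⟨r, -, hr⟩ := exists_rt D.sel_b.1 hb
    have h1 : sb ^ 2 = algebraMap L _ r ^ 2 := by
      rw [hsb, ← map_pow, hr, ← IsScalarTower.algebraMap_apply]
    rcases sq_eq_sq_iff_eq_or_eq_neg.1 h1 with h | h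
    · exact ⟨α / r, by rw [hφ, h, map_div₀]⟩
    · exact ⟨α / -r, by rw [hφ, h, map_div₀, map_neg]⟩
  · obtain ⟨e, h1, h2⟩ := act σ
    obtain ⟨e', h1', h2'⟩ := act σ'
    exact comm_phi σ σ' D.w_ne hω hφ0 h1 h2 h1' h2'

end IsDat

omit [NumberField F] [NumberField L] in
theorem comm_base [IsGalois F L] (hG : ∀ g : L ≃ₐ[F] L, g * g = 1)
    (σ σ' : AlgebraicClosure L ≃ₐ[F] AlgebraicClosure L) (x : L) :
    σ (σ' (algebraMap L _ x)) = σ' (σ (algebraMap L _ x)) := by
  have hc : ∀ (τ : AlgebraicClosure L ≃ₐ[F] AlgebraicClosure L) (x : L),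
      τ (algebraMap L _ x) = algebraMap L _ (τ.restrictNormal L x) :=
    fun τ x => (τ.restrictNormal_commutes L x).symm
  rw [hc, hc, hc, hc, ← AlgEquiv.mul_apply, comm_of_sq hG, AlgEquiv.mul_apply]

theorem abelRoot_of [IsGalois F L] (hG : ∀ g : L ≃ₐ[F] L, g * g = 1) {ε : L}
    {β₀ : AlgebraicClosure L} (h0 : β₀ ≠ 0)
    (h1 : β₀ ^ Units.torsionOrder L = algebraMap L _ ε)
    (h2 : ∀ σ σ' : AlgebraicClosure L ≃ₐ[F] AlgebraicClosure L, σ (σ' β₀) = σ' (σ β₀)) :
    AbelRoot F (Units.torsionOrder L) ε := by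
  intro β hβ
  refine abelian_of_comm β (comm_base hG) fun σ σ' => ?_
  obtain ⟨ζ, hζ, -⟩ := exists_prim L
  obtain ⟨j, -, hj⟩ := (hζ.map_of_injective
    (algebraMap L (AlgebraicClosure L)).injective).eq_pow_of_pow_eq_one (ξ := β / β₀)
    (by rw [div_pow, hβ, ← h1, div_self (pow_ne_zero _ h0)])
  have e : β = algebraMap L _ (ζ ^ j) * β₀ := by rw [map_pow, hj, div_mul_cancel₀ _ h0]
  rw [e, map_mul, map_mul, map_mul, map_mul, comm_base hG, h2]

theorem stark_main [IsGalois F L] (hG : ∀ g : L ≃ₐ[F] L, g * g = 1) (S : Finset (Pr F))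
    (hram : ∀ Q : Pr L, below F Q ∉ S → eI F Q = 1)
    (h3 : 3 ≤ Fintype.card (InfinitePlace F) + S.card) (P : InfinitePlace L)
    (hP : P.IsUnramified F) (hK : P.IsReal ∨ 2 ≤ Fintype.card (InfinitePlace F))
    (hy : ∃ y, IsSel S y ∧ ¬ IsSquare (algebraMap F L y)) : Stark F S P := by
  classical
  have hAS : SqA F L ≤ Sel S := by
    rintro _ ⟨a, ha0, ha, rfl⟩
    exact ⟨a, (good_of_sq S hram P hP ha0 ha).2.1, rfl⟩
  have hlt : SqA F L < Sel S := by
    obtain ⟨y, hy1, hy2⟩ := hy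
    exact lt_of_le_of_ne hAS fun e => hy2 ((cl_mem_SqA hy1.1).1 (e ▸ ⟨y, hy1, rfl⟩))
  have := finite_Sel S
  have : Module.Finite (ZMod 2) (SqA F L) := Submodule.finiteDimensional_of_le hAS
  have : Finite (SqA F L) := Module.finite_of_finite (ZMod 2)
  have := Fintype.ofFinite (SqA F L)
  obtain ⟨k, hk⟩ : ∃ k, finrank (ZMod 2) (Sel S) = finrank (ZMod 2) (SqA F L) + 1 + k :=
    Nat.exists_eq_add_of_le (Submodule.finrank_lt_finrank_of_lt hlt)
  have hcard : Fintype.card (SqA F L) = 2 ^ finrank (ZMod 2) (SqA F L) := by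
    rw [← Nat.card_eq_fintype_card, Module.natCard_eq_pow_finrank (K := ZMod 2), Nat.card_zmod]
  choose Z hZ hZ0 hZ1 using fun a : SqA F L =>
    exists_dat S hram h3 P hP hK (rep_ne a.1) (rep_sq a)
  choose! c b w Mo γ α hD hd using hZ1
  choose! φ hφ0 hφ2 hφL hφc using fun (a : SqA F L) (h : InX S (P.comap (algebraMap F L))
    (rep a.1)) => (hD a h).omega
  set W := Units.torsionOrder L with hW
  set X := Finset.univ.filter fun a : SqA F L => InX S (P.comap (algebraMap F L)) (rep a.1)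
    with hX
  have memX : ∀ a, a ∈ X → InX S (P.comap (algebraMap F L)) (rep a.1) := fun a ha =>
    (Finset.mem_filter.1 ha).2
  set η : SqA F L → L := fun a => α a ^ 2 / algebraMap F L (b a) with hη
  set E : SqA F L → ℕ := fun a => W / w a * (2 ^ k * Mo a) with hE
  have hdvd : ∀ a ∈ X, w a * (W / w a) = W := fun a ha =>
    Nat.mul_div_cancel' (dvd_torsionOrder (hD a (memX a ha)).w_ne (hD a (memX a ha)).prim)
  have hex : ∀ a ∈ X, ∃ e : L, algebraMap L (AlgebraicClosure L) e = (φ a ^ w a) ^ E a := by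
    intro a ha
    have D := hD a (memX a ha)
    rcases Nat.even_or_odd (E a) with ⟨j, hj⟩ | ho
    · exact ⟨η a ^ j, by rw [hj, ← two_mul, pow_mul, hφ2 a (memX a ha), map_pow]⟩
    · have h1 := Nat.odd_mul.1 ho
      have hk0 : k = 0 := by
        by_contra h
        exact Nat.not_even_iff_odd.2 (Nat.odd_mul.1 h1.2).1 (even_two.pow_of_ne_zero h)
      have hb : IsSquare (algebraMap F L (b a)) := by
        by_contra hb
        refine D.alt.elim hb fun h => h ?_
        rw [← cl_mem_SqA (mul_ne_zero D.sel_c.1 D.sel_b.1), cl_mul D.sel_c.1 D.sel_b.1]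
        exact add_mem_of_hyper hAS (by omega) ⟨_, D.sel_c, rfl⟩ ⟨_, D.sel_b, rfl⟩
          (fun h => D.not_sq_c h1.1 ((cl_mem_SqA D.sel_c.1).1 h))
          fun h => hb ((cl_mem_SqA D.sel_b.1).1 h)
      obtain ⟨t, ht⟩ := hφL a (memX a ha) hb
      exact ⟨t ^ E a, by rw [map_pow, ht]⟩
  choose! e he using hex
  have hβ : (∏ a ∈ X, φ a ^ (2 ^ k * Mo a)) ^ W = algebraMap L _ (∏ a ∈ X, e a) := by
    rw [map_prod, ← Finset.prod_pow]
    refine Finset.prod_congr rfl fun a ha => ?_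
    rw [he a ha, ← pow_mul, ← pow_mul, hE, ← mul_assoc, hdvd a ha, mul_comm]
  have hε2 : (∏ a ∈ X, e a) ^ 2 = ∏ a ∈ X, η a ^ E a := by
    apply (algebraMap L (AlgebraicClosure L)).injective
    rw [map_pow, map_prod, map_prod, ← Finset.prod_pow]
    refine Finset.prod_congr rfl fun a ha => ?_
    rw [he a ha, map_pow, ← hφ2 a (memX a ha), ← pow_mul, ← pow_mul, ← pow_mul, ← pow_mul]
    ring
  have hη0 : ∀ a ∈ X, η a ≠ 0 := fun a ha => (hD a (memX a ha)).unit.1
  have hε0 : ∏ a ∈ X, e a ≠ 0 := fun h0 => by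
    rw [h0, zero_pow two_ne_zero] at hε2
    exact Finset.prod_ne_zero_iff.2 (fun a ha => pow_ne_zero _ (hη0 a ha)) hε2.symm
  have cont := fun g : L ≃ₐ[F] L => isCont_sum (Fintype.card (SqA F L) : ℂ)⁻¹
    (fun a : SqA F L => sg ℂ (xs g (rep a.1))) _ Z hZ (pzeta F L S g)
    fun s hs => pzeta_eq hG S g hs
  refine ⟨_, ∏ a ∈ X, e a, fun g => (cont g).1, hε0, ⟨fun Q => ?_, fun w' hw' => ?_⟩,
    fun g => ?_, abelRoot_of hG
      (Finset.prod_ne_zero_iff.2 fun a ha => pow_ne_zero _ (hφ0 a (memX a ha))) hβ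
      fun σ σ' => ?_⟩
  · refine (pow_eq_one_iff_of_nonneg (apply_nonneg Q _) two_ne_zero).1 ?_
    rw [← map_pow, hε2, map_prod]
    exact Finset.prod_eq_one fun a ha => by
      rw [map_pow, finitePlace_eq_one (hD a (memX a ha)).unit, one_pow]
  · refine (pow_eq_one_iff_of_nonneg (apply_nonneg w' _) two_ne_zero).1 ?_
    rw [← map_pow, hε2, map_prod]
    exact Finset.prod_eq_one fun a ha => by
      rw [map_pow, (hD a (memX a ha)).other w' hw', one_pow]
  · have l1 : 2 * Real.log (P (g (∏ a ∈ X, e a))) =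
        ∑ a ∈ X, E a * (sg ℝ (xs g (rep a.1)) * Real.log (P (η a))) := by
      rw [show (2 : ℝ) = (2 : ℕ) by norm_num, ← Real.log_pow, ← map_pow, ← map_pow, hε2, map_prod,
        map_prod, Real.log_prod fun a ha => by simpa using fun h => absurd h (hη0 a ha)]
      exact Finset.sum_congr rfl fun a ha => by
        rw [map_pow, map_pow, Real.log_pow, (hD a (memX a ha)).log_eta]
    have l2 : ∀ a : SqA F L, -(W : ℂ) * ((Fintype.card (SqA F L) : ℂ)⁻¹ *
        (sg ℂ (xs g (rep a.1)) * deriv (Z a) 0)) = if a ∈ X then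
        ((P.mult / 2 * (E a * (sg ℝ (xs g (rep a.1)) * Real.log (P (η a)))) : ℝ) : ℂ) else 0 := by
      intro a
      split_ifs with ha
      · have h1 := hd a (memX a ha)
        rw [← finrank_Sel, hk] at h1
        have h2 : ((w a : ℂ)) * ((W / w a : ℕ) : ℂ) = W := by exact_mod_cast hdvd a ha
        have h4 : ((sg ℝ (xs g (rep a.1)) : ℝ) : ℂ) = sg ℂ (xs g (rep a.1)) :=
          map_sg Complex.ofRealHom _
        have h5 : (2 : ℂ) ^ finrank (ZMod 2) (SqA F L) ≠ 0 := pow_ne_zero _ two_ne_zero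
        rw [hcard, ← h2]
        simp only [hE, hη]
        push_cast at h1 ⊢
        rw [h4]
        field_simp
        linear_combination (-(sg ℂ (xs g (rep a.1)) * ((W / w a : ℕ) : ℂ)) / 2) * h1
      · rw [hZ0 a fun h => ha (Finset.mem_filter.2 ⟨Finset.mem_univ _, h⟩)]
        simp
    rw [(cont g).2, Finset.mul_sum, Finset.mul_sum, Finset.sum_congr rfl fun a _ => l2 a,
      Finset.sum_ite_mem, Finset.univ_inter, ← Complex.ofReal_sum, ← Finset.mul_sum, ← l1,
      Real.log_pow]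
    congr 1
    ring
  · have e1 : σ (σ' (∏ a ∈ X, φ a ^ (2 ^ k * Mo a))) =
        sg _ (∑ a ∈ X, ((2 ^ k * Mo a : ℕ) : ZMod 2) *
          (xs σ (c a) * xs σ' (b a) + xs σ' (c a) * xs σ (b a))) *
        σ' (σ (∏ a ∈ X, φ a ^ (2 ^ k * Mo a))) := by
      simp only [map_prod, map_pow]
      rw [sg_sum, ← Finset.prod_mul_distrib]
      exact Finset.prod_congr rfl fun a ha => by rw [hφc a (memX a ha), mul_pow, sg_pow]
    have e2 : ∑ a ∈ X, ((2 ^ k * Mo a : ℕ) : ZMod 2) *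
        (xs σ (c a) * xs σ' (b a) + xs σ' (c a) * xs σ (b a)) = 0 := by
      rcases Nat.eq_zero_or_pos k with rfl | hk0
      · simpa using parity S h3 _ (SqA F L)
          (fun a => ⟨(good_of_sq S hram P hP (rep_ne a.1) (rep_sq a)).1,
            (good_of_sq S hram P hP (rep_ne a.1) (rep_sq a)).2.2⟩) hk.symm c b Mo
          (fun a h => (hD a h).gd) (xs σ) (xs σ')
          (fun y y' h h' => xs_mul σ h h' (IsAlgClosed.exists_eq_mul_self _) (IsAlgClosed.exists_eq_mul_self _))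
          fun y y' h h' => xs_mul σ' h h' (IsAlgClosed.exists_eq_mul_self _) (IsAlgClosed.exists_eq_mul_self _)
      · refine Finset.sum_eq_zero fun a _ => ?_
        rw [(ZMod.natCast_eq_zero_iff_even).2 ((even_two.pow_of_ne_zero hk0.ne').mul_right _),
          zero_mul]
    rw [e1, e2, sg_zero, one_mul]

end Pool.Agent.Stark
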