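import Pool.Agent.Lib.MP_ca56d1_nt.Dual
import Pool.Agent.Lib.MP_ca56d1_nt.LocE

/-! A bilinear extension of the Redei symbol. -/

namespace Pool.Agent.Stark

open NumberField

variable {F : Type*} [Field F] [NumberField F]

set_option linter.unusedSectionVars false

namespace RedeiAux

/-- Local or global factors of the symbol attached to `x + z √s` and `y`. -/
structure Fac (S : Finset (Pr F)) (s : F) (H c : F → F → ZMod 2) (L : F → F → F → ZMod 2) :
    Prop where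
  mul_left : ∀ x z x' z' y, Good S (x ^ 2 - s * z ^ 2) → Good S (x' ^ 2 - s * z' ^ 2) →
    IsSel S y → L (x * x' + s * z * z') (x * z' + z * x') y = L x z y + L x' z' y
  mul_right : ∀ x z y y', Good S (x ^ 2 - s * z ^ 2) → IsSel S y → IsSel S y' →
    L x z (y * y') = L x z y + L x z y'
  sq_right : ∀ x z y t, Good S (x ^ 2 - s * z ^ 2) → IsSel S y → t ≠ 0 →
    L x z (y * t ^ 2) = L x z y
  base : ∀ u v t y, u ^ 2 - s * v ^ 2 ≠ 0 → t ≠ 0 → IsSel S y →
    L (t * (u ^ 2 + s * v ^ 2)) (t * (2 * u * v)) y = H t y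
  recip : ∀ x z g h, Good S (x ^ 2 - s * z ^ 2) → z ≠ 0 → h ≠ 0 → g - h * x ≠ 0 →
    IsSel S (g ^ 2 - (x ^ 2 - s * z ^ 2) * h ^ 2) →
    H (-2 * h * (g - h * x)) (g ^ 2 - (x ^ 2 - s * z ^ 2) * h ^ 2) + H s (g - h * x) =
      L x z (g ^ 2 - (x ^ 2 - s * z ^ 2) * h ^ 2) + c (2 * g) (g ^ 2 - (x ^ 2 - s * z ^ 2) * h ^ 2)

variable {S : Finset (Pr F)} {s : F}

theorem Fac.add {H H' c c' : F → F → ZMod 2} {L L' : F → F → F → ZMod 2} (A : Fac S s H c L)
    (B : Fac S s H' c' L') : Fac S s (fun a b => H a b + H' a b) (fun a b => c a b + c' a b)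
      fun x z y => L x z y + L' x z y where
  mul_left x z x' z' y h1 h2 h3 := by
    rw [A.mul_left x z x' z' y h1 h2 h3, B.mul_left x z x' z' y h1 h2 h3]; ring
  mul_right x z y y' h1 h2 h3 := by
    rw [A.mul_right x z y y' h1 h2 h3, B.mul_right x z y y' h1 h2 h3]; ring
  sq_right x z y t h1 h2 h3 := by rw [A.sq_right x z y t h1 h2 h3, B.sq_right x z y t h1 h2 h3]
  base u v t y h1 h2 h3 := by rw [A.base u v t y h1 h2 h3, B.base u v t y h1 h2 h3]
  recip x z g h h1 h2 h3 h4 h5 := by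
    linear_combination A.recip x z g h h1 h2 h3 h4 h5 + B.recip x z g h h1 h2 h3 h4 h5

theorem Fac.finsum {ι : Type*} {H c : ι → F → F → ZMod 2} {L : ι → F → F → F → ZMod 2}
    (A : ∀ i, Fac S s (H i) (c i) (L i)) (s0 : s ≠ 0)
    (fH : ∀ a b, a ≠ 0 → b ≠ 0 → {i | H i a b ≠ 0}.Finite) (fc : ∀ a b, {i | c i a b ≠ 0}.Finite)
    (fL : ∀ x z y, x ^ 2 - s * z ^ 2 ≠ 0 → IsSel S y → {i | L i x z y ≠ 0}.Finite) :
    Fac S s (fun a b => ∑ᶠ i, H i a b) (fun a b => ∑ᶠ i, c i a b) fun x z y => ∑ᶠ i, L i x z y where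
  mul_left x z x' z' y h1 h2 h3 := by
    rw [← finsum_add_distrib (fL x z y h1.1 h3) (fL x' z' y h2.1 h3)]
    exact finsum_congr fun i => (A i).mul_left x z x' z' y h1 h2 h3
  mul_right x z y y' h1 h2 h3 := by
    rw [← finsum_add_distrib (fL x z y h1.1 h2) (fL x z y' h1.1 h3)]
    exact finsum_congr fun i => (A i).mul_right x z y y' h1 h2 h3
  sq_right x z y t h1 h2 h3 := finsum_congr fun i => (A i).sq_right x z y t h1 h2 h3
  base u v t y h1 h2 h3 := finsum_congr fun i => (A i).base u v t y h1 h2 h3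
  recip x z g h h1 h2 h3 h4 h5 := by
    rw [← finsum_add_distrib (fL x z _ h1.1 h5) (fc _ _), ← finsum_add_distrib
      (fH _ _ (mul_ne_zero (mul_ne_zero (by norm_num) h3) h4) h5.1) (fH _ _ s0 h4)]
    exact finsum_congr fun i => (A i).recip x z g h h1 h2 h3 h4 h5

theorem root_ne {k : Type*} [Field k] (f : F →+* k) {σ : k} (hσ : f s = σ * σ) {x z : F}
    (h : x ^ 2 - s * z ^ 2 ≠ 0) : f x + f z * σ ≠ 0 := fun h0 => h (f.injective (by
  rw [map_zero, map_sub, map_mul, map_pow, map_pow, hσ]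
  linear_combination (f x - f z * σ) * h0))

theorem fac_split {k : Type*} [Field k] (f : F →+* k) {σ : k} (s0 : s ≠ 0) (hσ : f s = σ * σ)
    (hl : ∀ a b c : k, a ≠ 0 → b ≠ 0 → c ≠ 0 → hs (a * b) c = hs a c + hs b c)
    (hr : ∀ a b c : k, a ≠ 0 → b ≠ 0 → c ≠ 0 → hs a (b * c) = hs a b + hs a c) :
    Fac S s (fun a b => hs (f a) (f b)) (fun _ _ => 0) fun x z y => hs (f x + f z * σ) (f y) where
  mul_left x z x' z' y h1 h2 h3 := by
    rw [← hl _ _ _ (root_ne f hσ h1.1) (root_ne f hσ h2.1) ((map_ne_zero f).2 h3.1)]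
    congr 1
    simp only [map_add, map_mul, hσ]
    ring
  mul_right x z y y' h1 h2 h3 := by
    rw [map_mul, hr _ _ _ (root_ne f hσ h1.1) ((map_ne_zero f).2 h2.1) ((map_ne_zero f).2 h3.1)]
  sq_right x z y t _ _ h3 := by rw [map_mul, map_pow, hs_mul_sq_right _ _ ((map_ne_zero f).2 h3)]
  base u v t y h1 _ _ := by
    rw [← hs_mul_sq_left (f t) (f y) (root_ne f hσ h1)]
    congr 1
    simp only [map_add, map_mul, map_pow, map_ofNat, hσ]
    ring
  recip x z g h h1 _ h3 h4 h5 := by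
    have two : (2 : k) ≠ 0 := by rw [← map_ofNat f 2]; exact (map_ne_zero f).2 two_ne_zero
    have a0 := root_ne f hσ h1.1
    have y0 := (map_ne_zero f).2 h5.1
    have d0 : f (-2 * h * (g - h * x)) ≠ 0 :=
      (map_ne_zero f).2 (mul_ne_zero (mul_ne_zero (by norm_num) h3) h4)
    have e1 := hl _ _ _ d0 a0 y0
    have e2 : f (-2 * h * (g - h * x)) * (f x + f z * σ) = (f h * (f x + f z * σ) - f g) ^ 2
        - f (g ^ 2 - (x ^ 2 - s * z ^ 2) * h ^ 2) * 1 ^ 2 := by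
      simp only [map_sub, map_mul, map_pow, map_neg, map_ofNat, hσ]
      ring
    rw [hs_comm two (mul_ne_zero d0 a0) y0, e2, hs_norm] at e1
    rw [hs_of_isSquare_left two ((map_ne_zero f).2 s0) ⟨σ, hσ⟩, add_zero, add_zero]
    exact (add_eq_zero_iff_eq_neg.1 e1.symm).trans (ZMod.neg_eq_self_mod_two _)

theorem loc_good {q : Pr F} (hq : q ∉ S) {x z : F} (h : Good S (x ^ 2 - s * z ^ 2)) :
    emb q x ^ 2 - emb q s * emb q z ^ 2 ≠ 0 ∧
      Unr (wv q) (emb q x ^ 2 - emb q s * emb q z ^ 2) := by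
  have := h.2 q hq
  have h0 := (map_ne_zero (emb q)).2 h.1
  rw [map_sub, map_mul, map_pow, map_pow] at this h0
  exact ⟨h0, this⟩

theorem loc_sel {q : Pr F} (hq : q ∉ S) {y : F} (h : IsSel S y) :
    emb q y ≠ 0 ∧ Even (ord (wv q) (emb q y)) :=
  ⟨(map_ne_zero _).2 h.1, by rw [ord_emb]; exact h.2 q hq⟩

theorem fac_inert {q : Pr F} (hqS : q ∉ S) {lam : Kc q → Kc q → Kc q → ZMod 2}
    (A : IsLam (wv q) (emb q s) lam) :
    Fac S s (hq q) (fun t n => (mn (q.valuation F) t n : ZMod 2))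
      fun x z y => lam (emb q x) (emb q z) (emb q y) where
  mul_left x z x' z' y h1 h2 h3 := by
    simp only [map_add, map_mul]
    exact A.mul_left _ _ _ _ _ (loc_good hqS h1).1 (loc_good hqS h1).2 (loc_good hqS h2).1
      (loc_good hqS h2).2 (loc_sel hqS h3).1 (loc_sel hqS h3).2
  mul_right x z y y' h1 h2 h3 := by
    rw [map_mul]
    exact A.mul_right _ _ _ _ (loc_good hqS h1).1 (loc_good hqS h1).2 (loc_sel hqS h2).1
      (loc_sel hqS h2).2 (loc_sel hqS h3).1 (loc_sel hqS h3).2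
  sq_right x z y t h1 h2 h3 := by
    rw [map_mul, map_pow]
    exact A.sq_right _ _ _ _ (loc_good hqS h1).1 (loc_good hqS h1).2 (loc_sel hqS h2).1
      (loc_sel hqS h2).2 ((map_ne_zero _).2 h3)
  base u v t y h1 h2 h3 := by
    have h0 := (map_ne_zero (emb q)).2 h1
    simp only [map_add, map_sub, map_mul, map_pow, map_ofNat] at h0 ⊢
    exact A.base _ _ _ _ h0 ((map_ne_zero _).2 h2) (loc_sel hqS h3).1 (loc_sel hqS h3).2
  recip x z g h h1 h2 h3 h4 h5 := by
    have h6 := loc_sel hqS h5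
    have h7 := (map_ne_zero (emb q)).2 h4
    rw [← mn_emb]
    simp only [hq, map_sub, map_mul, map_pow, map_neg, map_ofNat] at h6 h7 ⊢
    exact A.recip _ _ _ _ (loc_good hqS h1).1 (loc_good hqS h1).2 ((map_ne_zero _).2 h2)
      ((map_ne_zero _).2 h3) h7 h6.1 h6.2

theorem ord_root {k : Type*} [Field k] {w : Valuation k (WithZero (Multiplicative ℤ))}
    {x z σ : k} (hx : ord w x = 0) (hz : ord w z = 0) (h0 : σ ≠ 0) (hσ : ord w (σ * σ) = 0)
    (hn : x ^ 2 - σ * σ * z ^ 2 ≠ 0) (ho : ord w (x ^ 2 - σ * σ * z ^ 2) = 0) :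
    ord w (x + z * σ) = 0 := by
  have e : x ^ 2 - σ * σ * z ^ 2 = (x + z * σ) * (x - z * σ) := by ring
  rw [e] at hn ho
  have h1 := left_ne_zero_of_mul hn
  have h2 := right_ne_zero_of_mul hn
  rw [ord_mul h0 h0] at hσ
  rw [ord_mul h1 h2] at ho
  have m1 : x ∈ pw w 0 := mem_pw_iff.2 (Or.inr hx.ge)
  have m2 : z * σ ∈ pw w 0 := mem_pw_iff.2 (by
    rcases eq_or_ne z 0 with h | h
    · exact Or.inl (by rw [h, zero_mul])
    · exact Or.inr (by rw [ord_mul h h0]; omega))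
  have h3 := (mem_pw_iff.1 (add_mem m1 m2)).resolve_left h1
  have h4 := (mem_pw_iff.1 (sub_mem m1 m2)).resolve_left h2
  omega

theorem two_ne (q : Pr F) : (2 : Kc q) ≠ 0 := (isLoc_wv q).two

theorem ord_two (q : Pr F) : ord (wv q) (2 : Kc q) = og q (2 : F) := by
  rw [← ord_emb, map_ofNat]

/-- The local factor at a finite prime. -/
theorem exists_fin {ψ : Pr F → ZMod 2} (hψ : ψ ∈ Chr S) (s0 : s ≠ 0) (h1 : ∀ q ∈ S, LSq q s)
    (h2 : ∀ q ∉ S, ∀ x : Kc q, x ≠ 0 → hs (emb q s) x = ψ q * (ord (wv q) x : ZMod 2)) (q : Pr F) :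
    ∃ L : F → F → F → ZMod 2, Fac S s (hq q) (fun t n => (mn (q.valuation F) t n : ZMod 2) * ψ q) L ∧
      ∀ x z y, q ∉ S → og q (2 : F) = 0 → og q s = 0 → og q x = 0 → og q z = 0 →
        x ^ 2 - s * z ^ 2 ≠ 0 → og q (x ^ 2 - s * z ^ 2) = 0 → IsSel S y → L x z y = 0 := by
  have Lq := isLoc_wv q
  have e0 : emb q s ≠ 0 := (map_ne_zero _).2 s0
  by_cases hq' : LSq q s
  · obtain ⟨σ, hσ⟩ := id hq'
    have p0 : ψ q = 0 := by
      by_cases hS : q ∈ S
      · exact hψ.1 q hS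
      · obtain ⟨π, π0, hπ⟩ := Lq.exists_ord 1
        have := h2 q hS π π0
        rw [hs_of_isSquare_left Lq.two e0 hq', hπ] at this
        simpa using this.symm
    refine ⟨fun x z y => hs (emb q x + emb q z * σ) (emb q y), ?_,
      fun x z y hS a1 a2 a3 a4 a5 a6 a7 => ?_⟩
    · simp only [p0, mul_zero]
      exact fac_split (emb q) s0 hσ (fun _ _ _ => Lq.hs_mul_left) fun _ _ _ => Lq.hs_mul_right
    · refine Lq.hs_units (by rw [ord_two, a1]) (root_ne _ hσ a5) (loc_sel hS a7).1 ?_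
        (loc_sel hS a7).2
      have n0 := (map_ne_zero (emb q)).2 a5
      rw [← ord_emb] at a2 a3 a4 a6
      rw [map_sub, map_mul, map_pow, map_pow, hσ] at a6 n0
      rw [hσ] at a2 e0
      rw [ord_root a3 a4 (left_ne_zero_of_mul e0) a2 n0 a6]
      exact Even.zero
  · have hS : q ∉ S := fun h => hq' (h1 q h)
    have p1 : ψ q = 1 := by
      obtain ⟨b, b0, hb⟩ := Lq.exists_hs_one e0 hq'
      refine (zmod2_cases _).resolve_left fun h => ?_
      rw [h2 q hS b b0, h, zero_mul] at hb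
      exact zero_ne_one hb
    obtain ⟨lam, A⟩ := Lq.exists_lam e0 hq' fun y y0 hy => by rw [h2 q hS y y0, hy]; simp
    refine ⟨fun x z y => lam (emb q x) (emb q z) (emb q y), ?_,
      fun x z y _ a1 a2 _ _ a5 a6 a7 => ?_⟩
    · simp only [p1, mul_one]
      exact fac_inert hS A
    · have n0 := (map_ne_zero (emb q)).2 a5
      rw [← ord_emb] at a2 a6
      rw [map_sub, map_mul, map_pow, map_pow] at a6 n0
      exact A.unit (by rw [ord_two, a1]) _ _ _ n0 a6 a2 (loc_sel hS a7).1 (loc_sel hS a7).2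

/-- The global symbol. -/
theorem exists_glob {ψ : Pr F → ZMod 2} (hψ : ψ ∈ Chr S) (s0 : s ≠ 0) (h0 : ∀ φ : F →+* ℝ, 0 < φ s)
    (h1 : ∀ q ∈ S, LSq q s)
    (h2 : ∀ q ∉ S, ∀ x : Kc q, x ≠ 0 → hs (emb q s) x = ψ q * (ord (wv q) x : ZMod 2)) :
    ∃ (H : F → F → ZMod 2) (L : F → F → F → ZMod 2),
      Fac S s H (fun t n => pair ψ (mD t n)) L ∧ ∀ a b, a ≠ 0 → b ≠ 0 → H a b = 0 := by
  classical
  choose L hL hL0 using exists_fin hψ s0 h1 h2
  have A := Fac.finsum (S := S) (fun φ : F →+* ℝ => fac_split φ s0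
    (Real.mul_self_sqrt (h0 φ).le).symm (fun _ _ _ => hs_real_mul_left)
    fun _ _ _ => hs_real_mul_right) s0 (fun _ _ _ _ => Set.toFinite _) (fun _ _ => Set.toFinite _)
    fun _ _ _ _ _ => Set.toFinite _
  have B := Fac.finsum hL s0 (fun a b => hq_finite) (fun a b => (mD a b).support.finite_toSet.subset
    fun q hq => by
      rw [Finset.mem_coe, Finsupp.mem_support_iff, mD_apply]
      exact fun h => hq (by simp [h])) fun x z y n0 hy =>
    (((((S.finite_toSet.union (og_finite (2 : F))).union (og_finite s)).union (og_finite x)).union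
      (og_finite z)).union (og_finite (x ^ 2 - s * z ^ 2))).subset fun q hq => by
        by_contra h
        simp only [Set.mem_union, Finset.mem_coe, Set.mem_ofPred_eq, not_or, not_not] at h
        exact hq (hL0 q x z y h.1.1.1.1.1 h.1.1.1.1.2 h.1.1.1.2 h.1.1.2 h.1.2 n0 h.2 hy)
  have e : (fun t n => pair ψ (mD t n)) = fun a b => ∑ᶠ _ : F →+* ℝ, (0 : ZMod 2)
      + ∑ᶠ q, (mn (q.valuation F) a b : ZMod 2) * ψ q := funext fun t => funext fun n => by
    rw [finsum_zero, zero_add, pair_eq_sum ψ _ (mD t n).support fun q hq => by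
      rw [Finsupp.notMem_support_iff.1 hq]; simp]
    refine (finsum_eq_sum_of_support_subset _ fun q hq => ?_).symm
    rw [Finset.mem_coe, Finsupp.mem_support_iff, mD_apply]
    exact fun h => hq (by simp [h])
  rw [e]
  refine ⟨_, _, A.add B, fun a b ha hb => ?_⟩
  rw [finsum_eq_sum_of_fintype, finsum_eq_sum_of_support_subset (s := (hq_finite ha hb).toFinset)
    _ fun q hq => by simpa using hq]
  exact reciprocity ha hb _ fun q hq => by simpa using hq

theorem good_sq {t : F} (ht : t ≠ 0) : Good S (t ^ 2) :=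
  ⟨pow_ne_zero _ ht, fun q _ y _ _ => hs_of_isSquare_left (two_ne q)
    ((map_ne_zero _).2 (pow_ne_zero _ ht)) ⟨emb q t, by rw [map_pow, sq]⟩ y⟩

theorem good_mul {a b : F} (ha : Good S a) (hb : Good S b) : Good S (a * b) :=
  ⟨mul_ne_zero ha.1 hb.1, fun q hq => by
    rw [map_mul]
    exact (isLoc_wv q).unr_mul ((map_ne_zero _).2 ha.1) ((map_ne_zero _).2 hb.1) (ha.2 q hq)
      (hb.2 q hq)⟩

variable {H c : F → F → ZMod 2} {L : F → F → F → ZMod 2}

theorem Fac.norm_one (A : Fac S s H c L) (hH : ∀ a b, a ≠ 0 → b ≠ 0 → H a b = 0) (s0 : s ≠ 0)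
    {p r y : F} (h : p ^ 2 - s * r ^ 2 = 1) (hy : IsSel S y) : L p r y = 0 := by
  by_cases hp : 1 + p = 0
  · have e1 : p = -1 := by linear_combination hp
    have e2 : r = 0 := by
      rw [e1] at h
      have : s * r ^ 2 = 0 := by linear_combination -h
      simpa [s0] using this
    have t0 : -s⁻¹ ≠ 0 := neg_ne_zero.2 (inv_ne_zero s0)
    rw [← hH _ y t0 hy.1, ← A.base 0 1 _ y (by simpa using s0) t0 hy, e1, e2]
    congr 1
    · field_simp; ring
    · ring
  · have n0 : (1 + p) ^ 2 - s * r ^ 2 ≠ 0 := by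
      rw [show (1 + p) ^ 2 - s * r ^ 2 = 2 * (1 + p) by linear_combination h]
      exact mul_ne_zero two_ne_zero hp
    have t0 : (2 * (1 + p))⁻¹ ≠ 0 := inv_ne_zero (mul_ne_zero two_ne_zero hp)
    rw [← hH _ y t0 hy.1, ← A.base (1 + p) r _ y n0 t0 hy]
    congr 1
    · field_simp; linear_combination h
    · field_simp

theorem Fac.indep (A : Fac S s H c L) (hH : ∀ a b, a ≠ 0 → b ≠ 0 → H a b = 0) (s0 : s ≠ 0)
    {x z x' z' y : F} (hg : Good S (x ^ 2 - s * z ^ 2))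
    (h : x' ^ 2 - s * z' ^ 2 = x ^ 2 - s * z ^ 2) (hy : IsSel S y) : L x' z' y = L x z y := by
  have a0 := hg.1
  have h1 : ((x * x' - s * z * z') / (x ^ 2 - s * z ^ 2)) ^ 2
      - s * ((x * z' - z * x') / (x ^ 2 - s * z ^ 2)) ^ 2 = 1 := by
    field_simp
    linear_combination (x ^ 2 - s * z ^ 2) * h
  have h2 := A.mul_left x z _ _ y hg (by rw [h1, ← one_pow 2]; exact good_sq one_ne_zero) hy
  rw [A.norm_one hH s0 h1 hy, add_zero] at h2
  rw [← h2]
  congr 1 <;> rw [eq_comm, ← mul_div_assoc, ← mul_div_assoc, ← add_div, div_eq_iff a0] <;> ring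

theorem pair_sq {ψ : Pr F → ZMod 2} (hψ : ψ ∈ Chr S) {g : F} (hg : g ≠ 0) :
    pair ψ (mD (2 * g) (g ^ 2)) = 0 := by
  rw [← hψ.2 g]
  congr 1
  ext q
  have := ord_two_nonneg (w := q.valuation F)
  rw [mD_apply, dv_apply, mn, ord_mul two_ne_zero hg, ord_pow, og, if_neg (by push_cast; omega)]
  push_cast
  omega

end RedeiAux

open RedeiAux in
theorem redei (S : Finset (Pr F)) {ψ : Pr F → ZMod 2} (hψ : ψ ∈ Chr S) :
    ∃ ρ : F → F → ZMod 2,
      (∀ a a' y, Good S a → Good S a' → IsSel S y → ρ (a * a') y = ρ a y + ρ a' y) ∧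
      (∀ a y y', Good S a → IsSel S y → IsSel S y' → ρ a (y * y') = ρ a y + ρ a y') ∧
      (∀ a y t, Good S a → IsSel S y → t ≠ 0 → ρ (a * t ^ 2) y = ρ a y) ∧
      (∀ a y t, Good S a → IsSel S y → t ≠ 0 → ρ a (y * t ^ 2) = ρ a y) ∧
      ∀ a g h, Good S a → ¬ IsSquare a → IsSel S (g ^ 2 - a * h ^ 2) →
        ρ a (g ^ 2 - a * h ^ 2) = pair ψ (mD (2 * g) (g ^ 2 - a * h ^ 2)) := by
  obtain ⟨s, s0, h0, h1, h2⟩ := exists_of_chr S hψ
  by_cases hsq : IsSquare s
  · have p0 : ψ = 0 := funext fun q => by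
      by_cases hS : q ∈ S
      · exact hψ.1 q hS
      · obtain ⟨π, π0, hπ⟩ := (isLoc_wv q).exists_ord 1
        have := h2 q hS π π0
        rw [hs_of_isSquare_left (two_ne q) ((map_ne_zero _).2 s0) (hsq.map (emb q)), hπ] at this
        simpa using this.symm
    exact ⟨fun _ _ => 0, by simp, by simp, by simp, by simp, by simp [p0, pair]⟩
  obtain ⟨H, L, A, hH⟩ := exists_glob hψ s0 h0 h1 h2
  have ex : ∀ a : F, ∃ p : F × F, Good S a → p.1 ^ 2 - s * p.2 ^ 2 = a := fun a => by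
    by_cases ha : Good S a
    · obtain ⟨x, z, h⟩ := hs_eq_zero.1 (hasse_norm s0 ha.1 (fun φ => by
        rw [hs_real (h0 φ).ne' ((map_ne_zero φ).2 ha.1), if_neg fun h => (h0 φ).not_gt h.1])
        fun q => by
          by_cases hS : q ∈ S
          · exact hs_of_isSquare_left (two_ne q) ((map_ne_zero _).2 s0) (h1 q hS) _
          · have a0 : emb q a ≠ 0 := (map_ne_zero _).2 ha.1
            rw [hq, h2 q hS _ a0, (ZMod.intCast_eq_zero_iff_even).2
              ((isLoc_wv q).even_of_unr a0 (ha.2 q hS)), mul_zero])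
      exact ⟨(x, z), fun _ => h.symm⟩
    · exact ⟨0, fun h => absurd h ha⟩
  choose p hp using ex
  have hg : ∀ a, Good S a → Good S ((p a).1 ^ 2 - s * (p a).2 ^ 2) := fun a ha => by rwa [hp a ha]
  have rep : ∀ x z y, Good S (x ^ 2 - s * z ^ 2) → IsSel S y →
      L (p (x ^ 2 - s * z ^ 2)).1 (p (x ^ 2 - s * z ^ 2)).2 y = L x z y := fun x z y h hy =>
    A.indep hH s0 h (hp _ h) hy
  have ml : ∀ a a' y, Good S a → Good S a' → IsSel S y →
      L (p (a * a')).1 (p (a * a')).2 y = L (p a).1 (p a).2 y + L (p a').1 (p a').2 y := by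
    intro a a' y ha ha' hy
    have e : ((p a).1 * (p a').1 + s * (p a).2 * (p a').2) ^ 2
        - s * ((p a).1 * (p a').2 + (p a).2 * (p a').1) ^ 2 = a * a' := by
      conv_rhs => rw [← hp a ha, ← hp a' ha']
      ring
    rw [← A.mul_left _ _ _ _ y (hg a ha) (hg a' ha') hy, ← e]
    exact rep _ _ y (e ▸ good_mul ha ha') hy
  refine ⟨fun a y => L (p a).1 (p a).2 y, ml, fun a y y' ha => A.mul_right _ _ y y' (hg a ha),
    fun a y t ha hy ht => ?_, fun a y t ha => A.sq_right _ _ y t (hg a ha),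
    fun a g h ha hn hy => ?_⟩
  · have e1 := rep t 0 y (by simpa using good_sq ht) hy
    have e2 := A.base 1 0 t y (by simp) ht hy
    rw [hH t y ht hy.1] at e2
    simp only [one_pow, zero_pow two_ne_zero, mul_zero, add_zero, sub_zero, mul_one] at e1 e2
    beta_reduce
    rw [ml a _ y ha (good_sq ht) hy, e1, e2, add_zero]
  rcases eq_or_ne h 0 with rfl | hh
  · have o1 : IsSel S (1 : F) := ⟨one_ne_zero, fun q _ => by simp [og]⟩
    simp only [zero_pow two_ne_zero, mul_zero, sub_zero] at hy ⊢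
    have g0 : g ≠ 0 := fun h => hy.1 (by simp [h])
    have e1 := A.sq_right _ _ 1 g (hg a ha) o1 g0
    have e2 := A.mul_right _ _ 1 1 (hg a ha) o1 o1
    rw [one_mul] at e1 e2
    rw [pair_sq hψ g0, e1]
    exact left_eq_add.1 e2
  obtain ⟨x, z, rfl, hD⟩ : ∃ x z, a = x ^ 2 - s * z ^ 2 ∧ g - h * x ≠ 0 := by
    have e := hp a ha
    generalize (p a).1 = x at e
    generalize (p a).2 = z at e
    by_cases d1 : g - h * x = 0
    · by_cases d2 : g - h * (-x) = 0
      · have g0 : g = 0 := by linear_combination (d1 + d2) / 2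
        have x0 : x = 0 := by simpa [g0, hh] using d1
        have s1 : 1 - s ≠ 0 := fun h => hsq ⟨1, by linear_combination -h⟩
        have z0 : z ≠ 0 := fun h => ha.1 (by rw [← e, x0, h]; ring)
        refine ⟨2 * s * z / (1 - s), z * (1 + s) / (1 - s), ?_, ?_⟩
        · rw [← e, x0]; field_simp; ring
        · simp [g0, hh, s0, z0, s1]
      · exact ⟨-x, z, by rw [← e]; ring, d2⟩
    · exact ⟨x, z, e.symm, d1⟩
  have z0 : z ≠ 0 := fun h => hn ⟨x, by rw [h]; ring⟩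
  have e := A.recip x z g h ha z0 hh hD hy
  rw [hH _ _ (mul_ne_zero (mul_ne_zero (by norm_num) hh) hD) hy.1, hH _ _ s0 hD, add_zero] at e
  beta_reduce
  rw [rep x z _ ha hy]
  exact (add_eq_zero_iff_eq_neg.1 e.symm).trans (ZMod.neg_eq_self_mod_two _)

end Pool.Agent.Stark
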