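import Pool.Agent.Lib.MP_ca56d1_nt.Kum
import Pool.Agent.Lib.MP_ca56d1_nt.Det
import Pool.Agent.Lib.MP_ca56d1_nt.Genus
import Pool.Agent.Lib.MP_ca56d1_nt.Redei

/-! The parity relation between the relative units of the quadratic subextensions. -/

namespace Pool.Agent.Stark

open NumberField Module

variable {F : Type*} [Field F] [NumberField F]

/-- The only place of `S ∪ ∞` that splits in `F(√a)` is `v`. -/
def InX (S : Finset (Pr F)) (v : InfinitePlace F) (a : F) : Prop :=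
  ¬ IsSquare a ∧ Sig v a ∧ ∀ q ∈ S, ¬ LSq q a

/-- The genus theoretic data attached to `a`. -/
structure GD (S : Finset (Pr F)) (a c b : F) (Mo : ℕ) : Prop where
  kc : ∃ g h, c = g ^ 2 - a * h ^ 2 ∧ Ker S a g h
  kb : ∃ g h, b = g ^ 2 - a * h ^ 2 ∧ Ker S a g h
  ind : LinearIndependent (ZMod 2) ![cl c, cl b]
  odd : Odd Mo ↔ ∀ g h : F, Ker S a g h →
    cl (g ^ 2 - a * h ^ 2) ∈ Submodule.span (ZMod 2) {cl c, cl b}

theorem exists_lin (S : Finset (Pr F)) (f : F → ZMod 2)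
    (hmul : ∀ y y', IsSel S y → IsSel S y' → f (y * y') = f y + f y')
    (hsq : ∀ y t, IsSel S y → t ≠ 0 → f (y * t ^ 2) = f y) :
    ∃ l : Sel S →ₗ[ZMod 2] ZMod 2, ∀ (y : F) (hy : IsSel S y), l ⟨cl y, y, hy, rfl⟩ = f y := by
  have sel : ∀ c : Sel S, IsSel S (rep c.1) := by
    rintro ⟨_, y, hy, rfl⟩
    obtain ⟨t, ht, h⟩ := rep_cl hy.1
    refine ⟨rep_ne _, fun q hq => ?_⟩
    change Even (og q (rep (cl y)))
    rw [h, og, ord_mul hy.1 (pow_ne_zero 2 ht), ord_pow]
    exact (hy.2 q hq).add (by simp)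
  have mul : ∀ y y', IsSel S y → IsSel S y' → IsSel S (y * y') := fun y y' hy hy' =>
    ⟨mul_ne_zero hy.1 hy'.1, fun q hq => by
      rw [og, ord_mul hy.1 hy'.1]; exact (hy.2 q hq).add (hy'.2 q hq)⟩
  let l : Sel S →+ ZMod 2 := AddMonoidHom.mk' (fun c => f (rep c.1)) fun c c' => by
    obtain ⟨t, ht, h⟩ := rep_add c.1 c'.1
    rw [Submodule.coe_add, h, hsq _ _ (mul _ _ (sel c) (sel c')) ht, hmul _ _ (sel c) (sel c')]
  refine ⟨l.toZModLinearMap 2, fun y hy => ?_⟩
  obtain ⟨t, ht, h⟩ := rep_cl hy.1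
  change f (rep (cl y)) = f y
  rw [h, hsq _ _ hy ht]

namespace ParAux

/-- The places of `S ∪ ∞` other than `v` (when these are real). -/
abbrev TT (S : Finset (Pr F)) (v : InfinitePlace F) : Type _ :=
  {φ : F →+* ℝ // plc φ ≠ v} ⊕ S

variable {S : Finset (Pr F)} {v : InfinitePlace F}

/-- The local Hilbert symbol at a place of `TT S v`. -/
noncomputable def hT (u : TT S v) (a y : F) : ZMod 2 :=
  Sum.elim (fun φ : {φ : F →+* ℝ // plc φ ≠ v} => hs (φ.1 a) (φ.1 y))
    (fun q : S => hq q.1 a y) u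

theorem hT_mul_right (u : TT S v) {a y y' : F} (ha : a ≠ 0) (hy : y ≠ 0) (hy' : y' ≠ 0) :
    hT u a (y * y') = hT u a y + hT u a y' := by
  rcases u with φ | q
  · simp only [hT, Sum.elim_inl, map_mul]
    exact hs_real_mul_right ((map_ne_zero _).2 ha) ((map_ne_zero _).2 hy) ((map_ne_zero _).2 hy')
  · simp only [hT, Sum.elim_inr, hq, map_mul]
    exact (isLoc_wv _).hs_mul_right ((map_ne_zero _).2 ha) ((map_ne_zero _).2 hy)
      ((map_ne_zero _).2 hy')

theorem hT_mul_left (u : TT S v) {a a' y : F} (ha : a ≠ 0) (ha' : a' ≠ 0) (hy : y ≠ 0) :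
    hT u (a * a') y = hT u a y + hT u a' y := by
  rcases u with φ | q
  · simp only [hT, Sum.elim_inl, map_mul]
    exact hs_real_mul_left ((map_ne_zero _).2 ha) ((map_ne_zero _).2 ha') ((map_ne_zero _).2 hy)
  · simp only [hT, Sum.elim_inr, hq, map_mul]
    exact (isLoc_wv _).hs_mul_left ((map_ne_zero _).2 ha) ((map_ne_zero _).2 ha')
      ((map_ne_zero _).2 hy)

theorem hT_sq_right (u : TT S v) (a y : F) {t : F} (ht : t ≠ 0) :
    hT u a (y * t ^ 2) = hT u a y := by
  rcases u with φ | q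
  · simp only [hT, Sum.elim_inl, map_mul, map_pow]
    exact hs_mul_sq_right _ _ ((map_ne_zero _).2 ht)
  · simp only [hT, Sum.elim_inr, hq, map_mul, map_pow]
    exact hs_mul_sq_right _ _ ((map_ne_zero _).2 ht)

theorem hT_sq_left (u : TT S v) (a y : F) {t : F} (ht : t ≠ 0) :
    hT u (a * t ^ 2) y = hT u a y := by
  rcases u with φ | q
  · simp only [hT, Sum.elim_inl, map_mul, map_pow]
    exact hs_mul_sq_left _ _ ((map_ne_zero _).2 ht)
  · simp only [hT, Sum.elim_inr, hq, map_mul, map_pow]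
    exact hs_mul_sq_left _ _ ((map_ne_zero _).2 ht)

theorem hT_norm (u : TT S v) (a g h : F) : hT u a (g ^ 2 - a * h ^ 2) = 0 := by
  rcases u with φ | q
  · simp only [hT, Sum.elim_inl, map_mul, map_pow, map_sub]
    exact hs_norm _ _ _
  · simp only [hT, Sum.elim_inr, hq, map_mul, map_pow, map_sub]
    exact hs_norm _ _ _

theorem hs_pos {a : ℝ} (ha : 0 < a) (y : ℝ) : hs a y = 0 :=
  hs_of_isSquare_left two_ne_zero ha.ne' ⟨√a, (Real.mul_self_sqrt ha.le).symm⟩ y

theorem hT_of_sq (u : TT S v) {a : F} (ha : a ≠ 0) (h : IsSquare a) (y : F) : hT u a y = 0 := by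
  rcases u with φ | q
  · exact hs_of_isSquare_left two_ne_zero ((map_ne_zero _).2 ha) (h.map φ.1) _
  · exact hs_of_isSquare_left (isLoc_wv _).two ((map_ne_zero _).2 ha) (h.map (emb q.1)) _

theorem hq_out {a y : F} (ha : Good S a) (hy : IsSel S y) {q : Pr F} (hq' : q ∉ S) :
    hq q a y = 0 := by
  rw [hq, (isLoc_wv q).hs_of_unr ((map_ne_zero _).2 ha.1) (ha.2 q hq') ((map_ne_zero _).2 hy.1)]
  split_ifs
  · rfl
  · rw [ord_emb]
    exact (ZMod.intCast_zmod_eq_zero_iff_dvd _ 2).2 (even_iff_two_dvd.1 (hy.2 q hq'))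

open scoped Classical in
theorem sum_hT {a y : F} (ha : Good S a) (hv : ∀ φ : F →+* ℝ, plc φ = v → 0 < φ a)
    (hy : IsSel S y) : ∑ u : TT S v, hT u a y = 0 := by
  rw [← reciprocity ha.1 hy.1 S fun q hq' => hq_out ha hy hq', Fintype.sum_sum_type]
  simp only [hT, Sum.elim_inl, Sum.elim_inr]
  rw [Finset.sum_coe_sort S fun q => hq q a y,
    ← Finset.sum_subtype (Finset.univ.filter fun φ : F →+* ℝ => plc φ ≠ v) (by simp)
      fun φ : F →+* ℝ => hs (φ a) (φ y), Finset.sum_filter_of_ne]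
  intro φ _ h e
  exact h (hs_pos (hv φ e) _)

theorem good_one : Good S (1 : F) :=
  ⟨one_ne_zero, fun q _ y _ _ => by
    rw [map_one]
    exact hs_of_isSquare_left (isLoc_wv q).two one_ne_zero ⟨1, by simp⟩ y⟩

theorem good_mul {a a' : F} (ha : Good S a) (ha' : Good S a') : Good S (a * a') :=
  ⟨mul_ne_zero ha.1 ha'.1, fun q hq' => by
    rw [map_mul]
    exact (isLoc_wv q).unr_mul ((map_ne_zero _).2 ha.1) ((map_ne_zero _).2 ha'.1) (ha.2 q hq')
      (ha'.2 q hq')⟩

theorem pair_congr {ψ : Pr F → ZMod 2} (hψ : ψ ∈ Chr S) {D D' : Dv F}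
    (h : ∀ q ∉ S, D q = D' q) : pair ψ D = pair ψ D' := by
  classical
  rw [pair_eq_sum ψ D (D.support ∪ D'.support) fun q hq' => by
      rw [Finset.mem_union, not_or, Finsupp.notMem_support_iff] at hq'
      simp [hq'.1],
    pair_eq_sum ψ D' (D.support ∪ D'.support) fun q hq' => by
      rw [Finset.mem_union, not_or, Finsupp.notMem_support_iff, Finsupp.notMem_support_iff] at hq'
      simp [hq'.2]]
  refine Finset.sum_congr rfl fun q _ => ?_
  by_cases hq' : q ∈ S
  · rw [hψ.1 q hq', mul_zero, mul_zero]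
  · rw [h q hq']

theorem pair_hD_mul {ψ : Pr F → ZMod 2} (hψ : ψ ∈ Chr S) {y y' : F} (hy : IsSel S y)
    (hy' : IsSel S y') : pair ψ (hD (y * y')) = pair ψ (hD y) + pair ψ (hD y') := by
  rw [← pair_add]
  refine pair_congr hψ fun q hq' => ?_
  obtain ⟨m, hm⟩ := hy.2 q hq'
  obtain ⟨m', hm'⟩ := hy'.2 q hq'
  have e : og q (y * y') = og q y + og q y' := ord_mul hy.1 hy'.1
  simp only [Finsupp.add_apply, hD_apply, e]
  omega

theorem pair_hD_sq {ψ : Pr F → ZMod 2} (hψ : ψ ∈ Chr S) {y t : F} (hy : y ≠ 0) (ht : t ≠ 0) :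
    pair ψ (hD (y * t ^ 2)) = pair ψ (hD y) := by
  have e : hD (y * t ^ 2) = hD y + dv t := by
    ext q
    have e : og q (y * t ^ 2) = og q y + 2 * og q t := by
      rw [og, ord_mul hy (pow_ne_zero 2 ht), ord_pow]; rfl
    simp only [Finsupp.add_apply, hD_apply, dv_apply, e]
    omega
  rw [e, pair_add, hψ.2 t, add_zero]

theorem pair_sub (ψ : Pr F → ZMod 2) (D D' : Dv F) :
    pair ψ (D - D') = pair ψ D + pair ψ D' := by
  have h := pair_add ψ (D - D') D'
  rw [sub_add_cancel] at h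
  rw [h, add_assoc, zmod2_add_self, add_zero]

theorem pair_basis {κ : Type*} (β : Basis κ (ZMod 2) (Chr S)) (D : Dv F)
    (h : ∀ i, pair (β i).1 D = 0) {ψ : Pr F → ZMod 2} (hψ : ψ ∈ Chr S) : pair ψ D = 0 := by
  let f : Chr S →ₗ[ZMod 2] ZMod 2 :=
    { toFun := fun ψ => pair ψ.1 D
      map_add' := fun ψ φ => by simp [pair, Finsupp.sum, mul_add, Finset.sum_add_distrib]
      map_smul' := fun c ψ => by simp [pair, Finsupp.sum, Finset.mul_sum, mul_left_comm] }
  have : f = 0 := β.ext fun i => h i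
  exact LinearMap.congr_fun this ⟨ψ, hψ⟩

open scoped Classical in
theorem card_TT (h : ∀ u : InfinitePlace F, u ≠ v → u.IsReal) :
    Fintype.card (TT S v) + 1 = Fintype.card (InfinitePlace F) + S.card := by
  have h1 : Fintype.card {φ : F →+* ℝ // plc φ ≠ v} = Fintype.card {u // u ≠ v} := by
    refine Fintype.card_of_bijective (f := fun φ => ⟨plc φ.1, φ.2⟩)
      ⟨fun φ ψ e => Subtype.ext (plc_injective (congrArg Subtype.val e)), fun u => ?_⟩
    obtain ⟨φ, hφ⟩ := exists_plc (h u.1 u.2)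
    exact ⟨⟨φ, hφ ▸ u.2⟩, Subtype.ext hφ⟩
  have h2 : Fintype.card {u // u ≠ v} = Fintype.card (InfinitePlace F) - 1 := by
    rw [Fintype.card_subtype_compl, Fintype.card_subtype_eq]
  have h3 : 0 < Fintype.card (InfinitePlace F) := Fintype.card_pos
  rw [Fintype.card_sum, h1, h2, Fintype.card_coe]
  omega

theorem exists_lin' (S : Finset (Pr F)) (x : F → ZMod 2)
    (hx : ∀ y y', y ≠ 0 → y' ≠ 0 → x (y * y') = x y + x y') :
    ∃ l : Sel S →ₗ[ZMod 2] ZMod 2, ∀ (y : F) (hy : IsSel S y), l ⟨cl y, y, hy, rfl⟩ = x y :=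
  exists_lin S x (fun y y' hy hy' => hx y y' hy.1 hy'.1) fun y t hy ht => by
    rw [hx y _ hy.1 (pow_ne_zero 2 ht), sq, hx t t ht ht, zmod2_add_self, add_zero]

end ParAux

open ParAux

open scoped Classical in
theorem parity (S : Finset (Pr F)) (h3 : 3 ≤ Fintype.card (InfinitePlace F) + S.card)
    (v : InfinitePlace F) (A : Submodule (ZMod 2) (SqCl F)) [Fintype A]
    (hA : ∀ c : A, Good S (rep c.1) ∧ ∀ φ : F →+* ℝ, plc φ = v → 0 < φ (rep c.1))
    (hdim : finrank (ZMod 2) A + 1 = finrank (ZMod 2) (Sel S))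
    (c b : A → F) (Mo : A → ℕ) (hD : ∀ a : A, InX S v (rep a.1) → GD S (rep a.1) (c a) (b a) (Mo a))
    (x x' : F → ZMod 2) (hx : ∀ y y', y ≠ 0 → y' ≠ 0 → x (y * y') = x y + x y')
    (hx' : ∀ y y', y ≠ 0 → y' ≠ 0 → x' (y * y') = x' y + x' y') :
    ∑ a : A with InX S v (rep a.1),
      (Mo a : ZMod 2) * (x (c a) * x' (b a) + x' (c a) * x (b a)) = 0 := by
  by_cases hne : ∃ a : A, InX S v (rep a.1)
  swap
  · exact Finset.sum_eq_zero fun a ha => (hne ⟨a, (Finset.mem_filter.1 ha).2⟩).elim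
  obtain ⟨a0, -, hSig, -⟩ := hne
  have hcard := card_TT (S := S) hSig.other
  obtain ⟨u0, u1, hu01⟩ : ∃ u0 u1 : TT S v, u1 ≠ u0 := by
    obtain ⟨u, u', h⟩ := Fintype.exists_pair_of_one_lt_card (α := TT S v) (by omega)
    exact ⟨u', u, h⟩
  have := finite_Chr S
  have := finite_Sel S
  let β := Module.finBasis (ZMod 2) (Chr S)
  choose ρ hρ1 hρ2 hρ3 hρ4 hρ5 using fun i => redei S (β i).2
  let ι := {u : TT S v // u ≠ u0} ⊕ Fin (finrank (ZMod 2) (Chr S))
  have hι : Fintype.card ι + 2 = finrank (ZMod 2) (Sel S) := by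
    have h2 : Fintype.card {u : TT S v // u ≠ u0} = Fintype.card (TT S v) - 1 := by
      rw [Fintype.card_subtype_compl, Fintype.card_subtype_eq]
    rw [finrank_Sel, Fintype.card_sum, h2, Fintype.card_fin]
    omega
  let R : ι → F → F → ZMod 2 :=
    Sum.elim (fun u => hT u.1) fun i a y => ρ i a y + pair (β i).1 (Stark.hD y)
  have R1 : ∀ i a y y', Good S a → IsSel S y → IsSel S y' →
      R i a (y * y') = R i a y + R i a y' := by
    rintro (u | i) a y y' ha hy hy'
    · exact hT_mul_right u.1 ha.1 hy.1 hy'.1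
    · simp only [R, Sum.elim_inr]
      rw [hρ2 i a y y' ha hy hy', pair_hD_mul (β i).2 hy hy']
      ring
  have R2 : ∀ i a y t, Good S a → IsSel S y → t ≠ 0 → R i a (y * t ^ 2) = R i a y := by
    rintro (u | i) a y t ha hy ht
    · exact hT_sq_right u.1 a y ht
    · simp only [R, Sum.elim_inr]
      rw [hρ4 i a y t ha hy ht, pair_hD_sq (β i).2 hy.1 ht]
  have R3 : ∀ i a a' y, Good S a → Good S a' → IsSel S y →
      R i (a * a') y + R i 1 y = R i a y + R i a' y := by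
    rintro (u | i) a a' y ha ha' hy
    · simp only [R, Sum.elim_inl]
      rw [hT_mul_left u.1 ha.1 ha'.1 hy.1, hT_of_sq u.1 one_ne_zero ⟨1, by simp⟩, add_zero]
    · simp only [R, Sum.elim_inr]
      have h1 := hρ1 i 1 1 y good_one good_one hy
      rw [mul_one, zmod2_add_self] at h1
      rw [hρ1 i a a' y ha ha' hy, h1]
      ring
  have R4 : ∀ i a y t, Good S a → IsSel S y → t ≠ 0 → R i (a * t ^ 2) y = R i a y := by
    rintro (u | i) a y t ha hy ht
    · exact hT_sq_left u.1 a y ht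
    · simp only [R, Sum.elim_inr]
      rw [hρ3 i a y t ha hy ht]
  choose l hl using fun (a : A) (i : ι) => exists_lin S (R i (rep a.1))
    (fun y y' => R1 i _ y y' (hA a).1) fun y t => R2 i _ y t (hA a).1
  obtain ⟨X, hX⟩ := exists_lin' S x hx
  obtain ⟨X', hX'⟩ := exists_lin' S x' hx'
  let B : Basis (ι ⊕ Fin 2) (ZMod 2) (Sel S) :=
    (Module.finBasis (ZMod 2) (Sel S)).reindex
      (Fintype.equivFinOfCardEq (by rw [Fintype.card_sum, Fintype.card_fin, hι])).symm
  let M : A → Matrix (ι ⊕ Fin 2) (ι ⊕ Fin 2) (ZMod 2) := fun a =>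
    Matrix.of fun i j => Sum.elim (l a) ![X, X'] i (B j)
  have hsum : ∑ a, (M a).det = 0 := by
    refine sum_det (by omega) M (fun i j a a' => ?_) fun i j a => rfl
    simp only [M, Matrix.of_apply, Sum.elim_inl]
    generalize B j = z
    obtain ⟨_, y, hy, rfl⟩ := z
    obtain ⟨t, ht, e⟩ := rep_add a.1 a'.1
    obtain ⟨t', ht', e'⟩ := rep_cl (one_ne_zero : (1 : F) ≠ 0)
    rw [cl_one] at e'
    rw [hl _ _ y hy, hl _ _ y hy, hl _ _ y hy, hl _ _ y hy, Submodule.coe_add, Submodule.coe_zero, e, e',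
      R4 i _ y t (good_mul (hA a).1 (hA a').1) hy ht, R4 i _ y t' good_one hy ht',
      R3 i _ _ y (hA a).1 (hA a').1 hy]
  have hsplit : ∀ (a : A) (y : F), IsSel S y →
      hT u0 (rep a.1) y + ∑ u : {u : TT S v // u ≠ u0}, hT u.1 (rep a.1) y = 0 := by
    intro a y hy
    rw [← sum_hT (hA a).1 (hA a).2 hy,
      ← Finset.sum_subtype (Finset.univ.erase u0) (by simp) fun u => hT u (rep a.1) y]
    exact Finset.add_sum_erase _ (fun u => hT u (rep a.1) y) (Finset.mem_univ u0)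
  rw [Finset.sum_filter]
  refine Eq.trans (Finset.sum_congr rfl fun a _ => ?_) hsum
  have ha := (hA a).1
  split_ifs with hin
  · obtain ⟨⟨g1, h1, ec, kc⟩, ⟨g2, h2, eb, kb⟩, hind, hodd⟩ := hD a hin
    have key1 : ∀ g h, Ker S (rep a.1) g h → ∀ i, R i (rep a.1) (g ^ 2 - rep a.1 * h ^ 2) = 0 := by
      rintro g h hK (u | i)
      · exact hT_norm u.1 _ g h
      · simp only [R, Sum.elim_inr]
        rw [hρ5 i _ g h ha hin.1 hK.1, ← pair_sub]
        exact hK.2 _ (β i).2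
    have key2 : ∀ y, IsSel S y → (∀ i, R i (rep a.1) y = 0) →
        ∃ g h, y = g ^ 2 - rep a.1 * h ^ 2 ∧ Ker S (rep a.1) g h := by
      intro y hy hR
      have hu : ∀ u : TT S v, hT u (rep a.1) y = 0 := by
        intro u
        by_cases e : u = u0
        · have := hsplit a y hy
          rw [Finset.sum_eq_zero (f := fun u : {u : TT S v // u ≠ u0} => hT u.1 (rep a.1) y)
            fun u _ => hR (Sum.inl u), add_zero] at this
          rwa [e]
        · exact hR (Sum.inl ⟨u, e⟩)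
      have hn := hasse_norm ha.1 hy.1 (fun φ => by
        by_cases e : plc φ = v
        · exact hs_pos ((hA a).2 φ e) _
        · exact hu (Sum.inl ⟨φ, e⟩)) fun q => by
        by_cases e : q ∈ S
        · exact hu (Sum.inr ⟨q, e⟩)
        · exact hq_out ha hy e
      obtain ⟨g, h, rfl⟩ := hs_eq_zero.1 hn
      refine ⟨g, h, rfl, hy, fun ψ hψ => pair_basis β _ (fun i => ?_) hψ⟩
      rw [pair_sub, ← hρ5 i _ g h ha hin.1 hy]
      exact hR (Sum.inr i)
    have sc : IsSel S (c a) := ec ▸ kc.1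
    have sb : IsSel S (b a) := eb ▸ kb.1
    let c' : Sel S := ⟨cl (c a), c a, sc, rfl⟩
    let b' : Sel S := ⟨cl (b a), b a, sb, rfl⟩
    have hi : LinearIndependent (ZMod 2) ![c', b'] := by
      refine LinearIndependent.of_comp (Sel S).subtype ?_
      convert hind using 1
      funext i
      fin_cases i <;> rfl
    have hsp : ∀ z : Sel S, z ∈ Submodule.span (ZMod 2) {c', b'} ↔
        z.1 ∈ Submodule.span (ZMod 2) {cl (c a), cl (b a)} := by
      intro z
      rw [Submodule.mem_span_pair, Submodule.mem_span_pair]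
      exact exists₂_congr fun s t => ⟨fun h => congrArg Subtype.val h, fun h => Subtype.ext h⟩
    have hdet := det_of_ker B (l a) X X' hi
      (fun i => by rw [hl _ _ _ sc, ec]; exact key1 _ _ kc i)
      (fun i => by rw [hl _ _ _ sb, eb]; exact key1 _ _ kb i)
    have hiff : (∀ y, (∀ i, l a i y = 0) → y ∈ Submodule.span (ZMod 2) {c', b'}) ↔ Odd (Mo a) := by
      rw [hodd]
      constructor
      · intro H g h hK
        exact (hsp ⟨_, _, hK.1, rfl⟩).1 (H _ fun i => by rw [hl _ _ _ hK.1]; exact key1 g h hK i)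
      · rintro H ⟨_, y, hy, rfl⟩ hR
        obtain ⟨g, h, e, hK⟩ := key2 y hy fun i => by rw [← hl a i y hy]; exact hR i
        rw [hsp]
        subst e
        exact H g h hK
    rw [show (M a).det = _ from hdet, hX _ sc, hX _ sb, hX' _ sc, hX' _ sb]
    split_ifs with h
    · rw [ZMod.natCast_eq_one_iff_odd.2 (hiff.1 h), one_mul]
    · rw [ZMod.natCast_eq_zero_iff_even.2 (Nat.not_odd_iff_even.1 fun h' => h (hiff.2 h')),
        zero_mul]
  · obtain ⟨u, hu⟩ : ∃ u : TT S v, ∀ y, hT u (rep a.1) y = 0 := by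
      by_cases e1 : IsSquare (rep a.1)
      · exact ⟨u0, hT_of_sq u0 ha.1 e1⟩
      by_cases e2 : ∃ q ∈ S, LSq q (rep a.1)
      · obtain ⟨q, hq', h⟩ := e2
        exact ⟨Sum.inr ⟨q, hq'⟩, fun y =>
          hs_of_isSquare_left (isLoc_wv q).two ((map_ne_zero _).2 ha.1) h _⟩
      by_cases e3 : ∃ φ : F →+* ℝ, 0 < φ (rep a.1) ∧ plc φ ≠ v
      · obtain ⟨φ, h, h'⟩ := e3
        exact ⟨Sum.inl ⟨φ, h'⟩, fun y => hs_pos h _⟩
      push Not at e2 e3
      exact (hin ⟨e1, ⟨hSig.real, hSig.other, fun φ => ⟨e3 φ, (hA a).2 φ⟩⟩, e2⟩).elim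
    symm
    by_cases e : u = u0
    · refine det_of_row_dep B (Sum.elim (l a) ![X, X'])
        (Finset.univ.map ⟨fun u => Sum.inl (Sum.inl u),
          Sum.inl_injective.comp Sum.inl_injective⟩)
        ⟨_, Finset.mem_map_of_mem _ (Finset.mem_univ ⟨u1, hu01⟩)⟩ ?_
      rintro ⟨_, y, hy, rfl⟩
      have := hsplit a y hy
      rw [← e, hu, zero_add] at this
      rw [Finset.sum_map, ← this]
      subst e
      exact Finset.sum_congr rfl fun u' _ => hl a (Sum.inl u') y hy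
    · refine det_of_row_dep B (Sum.elim (l a) ![X, X']) {Sum.inl (Sum.inl ⟨u, e⟩)}
        (Finset.singleton_nonempty _) ?_
      rintro ⟨_, y, hy, rfl⟩
      rw [Finset.sum_singleton]
      exact (hl a (Sum.inl ⟨u, e⟩) y hy).trans (hu y)

end Pool.Agent.Stark
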