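import Pool.Agent.Lib.MP_ca56d1_nt.Loc
import Pool.Agent.Lib.MP_ca56d1_nt.Rep

/-! The Weil index of a local field and the Hilbert symbol. -/

namespace Pool.Agent.Stark

variable {k : Type*} [Field k] {w : Valuation k (WithZero (Multiplicative ℤ))}

/-- `ψ` is a unitary additive character of conductor `𝔭 ^ j`. -/
structure IsCond (w : Valuation k (WithZero (Multiplicative ℤ))) (ψ : AddChar k ℂ) (j : ℤ) :
    Prop where
  norm : ∀ x, ‖ψ x‖ = 1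
  triv : ∀ x ∈ pw w j, ψ x = 1
  nontriv : ∃ x ∈ pw w (j - 1), ψ x ≠ 1

namespace WeilLocAux

open Finset

section Gen

variable {G : Type*} [AddCommGroup G] {Λ : ℤ → AddSubgroup G} {f f' : G → ℂ} {γ γ' : ℂ}

/-- `f` is a quadratic character with polar form `β`. -/
structure Bil (Λ : ℤ → AddSubgroup G) (f : G → ℂ) (β : G → G → ℂ) : Prop where
  add : ∀ x y, f (x + y) = f x * f y * β x y
  mul : ∀ x y z, β x (y + z) = β x y * β x z
  zero : ∀ x, β x 0 = 1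
  far : ∃ c : ℤ, ∀ i j, c ≤ i + j → ∀ x ∈ Λ j, ∀ h ∈ Λ i, β x h = 1

/-- The Gauss sum of `f` over the dual of an isotropic lattice is a positive multiple of `γ`. -/
def Dat (Λ : ℤ → AddSubgroup G) (f : G → ℂ) (γ : ℂ) : Prop :=
  ∃ (β : G → G → ℂ) (L L' : AddSubgroup G) (R : Finset G) (m : ℤ) (r : ℝ), Bil Λ f β ∧
    Λ m ≤ L ∧ L ≤ L' ∧ L' ≤ Λ (-m) ∧ (∀ x ∈ L, f x = 1) ∧
    (∀ x, x ∈ L' ↔ ∀ h ∈ L, β x h = 1) ∧ IsRep L L' R ∧ 0 < r ∧ ∑ x ∈ R, f x = r * γ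

theorem Dat.ph (hΛ : ∀ i j, j ≤ i → Λ i ≤ Λ j) (h : Dat Λ f γ) :
    ∃ J : ℤ, ∀ j i : ℤ, j ≤ -J → J ≤ i + j → ∀ R : Finset G, IsRep (Λ i) (Λ j) R →
      ∃ r : ℝ, 0 < r ∧ ∑ x ∈ R, f x = r * γ := by
  obtain ⟨β, L, L', R', m, r, hB, h1, h2, h3, h4, h5, h6, h7, h8⟩ := h
  obtain ⟨c, hc⟩ := hB.far
  refine ⟨max (max m c) 0, fun j i hj hi R hR => ?_⟩
  have a1 : Λ i ≤ L := (hΛ i m (by omega)).trans h1
  have a2 : L' ≤ Λ j := h3.trans (hΛ (-m) j (by omega))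
  have n1 : (Λ i).relIndex L ≠ 0 := fun h0 =>
    hR.relIndex_ne (AddSubgroup.relIndex_eq_zero_of_le_right (h2.trans a2) h0)
  refine ⟨(Λ i).relIndex L * r, mul_pos (Nat.cast_pos.2 (Nat.pos_of_ne_zero n1)) h7, ?_⟩
  rw [stab a1 h2 a2 f β hB.add hB.mul h4 (fun x _ => h5 x) (hc i j (by omega)) hR h6, h8]
  push_cast
  ring

theorem Dat.uniq (hΛ : ∀ i j, j ≤ i → Λ i ≤ Λ j)
    (hI : ∀ i j, j ≤ i → ∃ R, IsRep (Λ i) (Λ j) R) (h : Dat Λ f γ) (h' : Dat Λ f γ') :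
    ∃ r : ℝ, 0 < r ∧ γ = r * γ' := by
  obtain ⟨J, hJ⟩ := h.ph hΛ
  obtain ⟨J', hJ'⟩ := h'.ph hΛ
  obtain ⟨R, hR⟩ := hI (2 * max (max J J') 0) (-max (max J J') 0) (by omega)
  obtain ⟨r, h1, h2⟩ := hJ _ _ (by omega) (by omega) R hR
  obtain ⟨r', h3, h4⟩ := hJ' _ _ (by omega) (by omega) R hR
  refine ⟨r' / r, div_pos h3 h1, ?_⟩
  have h5 : (r : ℂ) ≠ 0 := by exact_mod_cast h1.ne'
  push_cast
  field_simp
  rw [mul_comm, ← h2, h4]

theorem Dat.scale (h : Dat Λ f γ) {s : ℝ} (hs : 0 < s) (e : γ = s * γ') : Dat Λ f γ' := by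
  obtain ⟨β, L, L', R', m, r, hB, h1, h2, h3, h4, h5, h6, h7, h8⟩ := h
  refine ⟨β, L, L', R', m, r * s, hB, h1, h2, h3, h4, h5, h6, mul_pos h7 hs, ?_⟩
  rw [h8, e]
  push_cast
  ring

theorem Dat.pull (g : G ≃+ G)
    (hg : ∃ c : ℤ, ∀ N, ∀ x ∈ Λ N, g x ∈ Λ (N - c) ∧ g.symm x ∈ Λ (N - c)) (h : Dat Λ f γ) :
    Dat Λ (fun x => f (g x)) γ := by
  obtain ⟨β, L, L', R', m, r, hB, h1, h2, h3, h4, h5, h6, h7, h8⟩ := h
  obtain ⟨c, hc⟩ := hg
  obtain ⟨c', hc'⟩ := hB.far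
  refine ⟨fun x y => β (g x) (g y), L.comap g.toAddMonoidHom, L'.comap g.toAddMonoidHom,
    R'.map g.symm.toEquiv.toEmbedding, m + c, r, ⟨fun x y => ?_, fun x y z => ?_, fun x => ?_,
      c' + 2 * c, fun i j hij x hx y hy => ?_⟩, fun x hx => ?_, fun x hx => h2 hx, fun x hx => ?_,
    fun x hx => h4 _ hx, fun x => ?_, ⟨fun x hx => ?_, fun y hy => ?_⟩, h7, ?_⟩
  · rw [map_add, hB.add]
  · rw [map_add, hB.mul]
  · rw [map_zero, hB.zero]
  · exact hc' (i - c) (j - c) (by omega) _ (hc j x hx).1 _ (hc i y hy).1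
  · have := (hc _ x hx).1
    rw [add_sub_cancel_right] at this
    exact h1 this
  · have := (hc _ _ (h3 hx)).2
    rw [show -m - c = -(m + c) by ring] at this
    simpa using this
  · refine (h5 (g x)).trans ⟨fun H y hy => H _ hy, fun H y hy => ?_⟩
    have := H (g.symm y) (by simpa using hy)
    simpa using this
  · obtain ⟨y, hy, rfl⟩ := mem_map.1 hx
    simpa using h6.1 y hy
  · obtain ⟨x, ⟨hx, hx'⟩, hu⟩ := h6.2 (g y) hy
    refine ⟨g.symm x, ⟨mem_map.2 ⟨x, hx, rfl⟩, by simpa using hx'⟩, ?_⟩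
    rintro z ⟨hz, hz'⟩
    obtain ⟨t, ht, rfl⟩ := mem_map.1 hz
    rw [hu t ⟨ht, by simpa using hz'⟩]
    rfl
  · rw [sum_map, ← h8]
    simp

theorem rep_prod {A B A' B' : AddSubgroup G} {R R' : Finset G} (h : IsRep A B R)
    (h' : IsRep A' B' R') : IsRep (A.prod A') (B.prod B') (R ×ˢ R') := by
  refine ⟨fun x hx => ⟨h.1 _ (mem_product.1 hx).1, h'.1 _ (mem_product.1 hx).2⟩, fun y hy => ?_⟩
  obtain ⟨x, ⟨h1, h2⟩, hu⟩ := h.2 y.1 hy.1
  obtain ⟨x', ⟨h1', h2'⟩, hu'⟩ := h'.2 y.2 hy.2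
  exact ⟨(x, x'), ⟨mem_product.2 ⟨h1, h1'⟩, h2, h2'⟩, fun z hz =>
    Prod.ext (hu _ ⟨(mem_product.1 hz.1).1, hz.2.1⟩) (hu' _ ⟨(mem_product.1 hz.1).2, hz.2.2⟩)⟩

theorem rep_self (A : AddSubgroup G) : IsRep A A {0} :=
  ⟨fun x hx => by rw [mem_singleton.1 hx]; exact A.zero_mem, fun y hy =>
    ⟨0, ⟨mem_singleton_self _, by simpa using hy⟩, fun z hz => mem_singleton.1 hz.1⟩⟩

theorem Dat.prod (hΛ : ∀ i j, j ≤ i → Λ i ≤ Λ j) (h : Dat Λ f γ) (h' : Dat Λ f' γ') :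
    Dat (fun N => (Λ N).prod (Λ N)) (fun p => f p.1 * f' p.2) (γ * γ') := by
  obtain ⟨β, L, M, R, m, r, hB, h1, h2, h3, h4, h5, h6, h7, h8⟩ := h
  obtain ⟨β', L', M', R', m', r', hB', h1', h2', h3', h4', h5', h6', h7', h8'⟩ := h'
  obtain ⟨c, hc⟩ := hB.far
  obtain ⟨c', hc'⟩ := hB'.far
  refine ⟨fun x y => β x.1 y.1 * β' x.2 y.2, L.prod L', M.prod M', R ×ˢ R', max m m', r * r',
    ⟨fun x y => ?_, fun x y z => ?_, fun x => ?_, max c c', fun i j hij x hx y hy => ?_⟩,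
    fun x hx => ⟨h1 (hΛ _ _ (by omega) hx.1), h1' (hΛ _ _ (by omega) hx.2)⟩,
    fun x hx => ⟨h2 hx.1, h2' hx.2⟩,
    fun x hx => ⟨hΛ _ _ (by omega) (h3 hx.1), hΛ _ _ (by omega) (h3' hx.2)⟩,
    fun x hx => ?_, fun x => ⟨fun hx y hy => ?_, fun H => ⟨(h5 _).2 fun y hy => ?_,
      (h5' _).2 fun y hy => ?_⟩⟩, rep_prod h6 h6', mul_pos h7 h7', ?_⟩
  · rw [Prod.fst_add, Prod.snd_add, hB.add, hB'.add]; ring
  · rw [Prod.fst_add, Prod.snd_add, hB.mul, hB'.mul]; ring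
  · rw [Prod.fst_zero, Prod.snd_zero, hB.zero, hB'.zero, mul_one]
  · rw [hc i j (by omega) _ hx.1 _ hy.1, hc' i j (by omega) _ hx.2 _ hy.2, mul_one]
  · simp only [h4 _ hx.1, h4' _ hx.2, mul_one]
  · simp only [(h5 _).1 hx.1 _ hy.1, (h5' _).1 hx.2 _ hy.2, mul_one]
  · have := H (y, 0) ⟨hy, L'.zero_mem⟩
    simpa [hB'.zero] using this
  · have := H (0, y) ⟨L.zero_mem, hy⟩
    simpa [hB.zero] using this
  · rw [sum_product, ← sum_mul_sum, h8, h8']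
    push_cast
    ring

theorem unit_eq {r : ℝ} (hr : 0 < r) (e : γ = r * γ') (h : ‖γ‖ = 1) (h' : ‖γ'‖ = 1) : γ = γ' := by
  have h1 : r = 1 := by
    rw [e, norm_mul, h', mul_one, Complex.norm_real, Real.norm_eq_abs, abs_of_pos hr] at h
    exact h
  rw [e, h1]
  simp

end Gen

theorem mul_pw {i j l : ℤ} {x y : k} (hx : x ∈ pw w i) (hy : y ∈ pw w j) (h : l ≤ i + j) :
    x * y ∈ pw w l := by
  by_cases h1 : x = 0
  · simp [h1]
  by_cases h2 : y = 0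
  · simp [h2]
  have a1 := (mem_pw_iff.1 hx).resolve_left h1
  have a2 := (mem_pw_iff.1 hy).resolve_left h2
  refine mem_pw_iff.2 (Or.inr ?_)
  rw [ord_mul h1 h2]
  omega

theorem self_pw (x : k) : x ∈ pw w (ord w x) := mem_pw_iff.2 (Or.inr le_rfl)

theorem of_mul_pw {i l : ℤ} {d x : k} (hd : d ≠ 0) (h : d * x ∈ pw w i) (hl : l ≤ i - ord w d) :
    x ∈ pw w l := by
  have := mul_pw (l := l) (self_pw d⁻¹) h (by rw [ord_inv]; omega)
  rwa [inv_mul_cancel_left₀ hd] at this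

theorem two_pw : (2 : k) ∈ pw w 0 := mem_pw_iff.2 (Or.inr ord_two_nonneg)

theorem mono (i j : ℤ) (h : j ≤ i) : pw w i ≤ pw w j := pw_anti h

theorem reps (L : IsLoc w) (i j : ℤ) (h : j ≤ i) : ∃ R, IsRep (pw w i) (pw w j) R := by
  refine exists_isRep ?_
  rw [show i = j + ((i - j).toNat : ℕ) by omega, L.relIndex_pw]
  exact pow_ne_zero _ L.fin

variable (w) in
/-- The standard lattices of the plane. -/
def lat (N : ℤ) : AddSubgroup (k × k) := (pw w N).prod (pw w N)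

theorem mono2 (i j : ℤ) (h : j ≤ i) : lat w i ≤ lat w j :=
  fun _ hx => ⟨pw_anti h hx.1, pw_anti h hx.2⟩

theorem reps2 (L : IsLoc w) (i j : ℤ) (h : j ≤ i) : ∃ R, IsRep (lat w i) (lat w j) R :=
  let ⟨_, hR⟩ := reps L i j h
  ⟨_, rep_prod hR hR⟩

theorem lin_bound (A B C D : k) : ∃ c : ℤ, ∀ c', c ≤ c' → ∀ N, ∀ x ∈ lat w N,
    (A * x.1 + B * x.2, C * x.1 + D * x.2) ∈ lat w (N - c') :=
  ⟨max (max (-ord w A) (-ord w B)) (max (-ord w C) (-ord w D)), fun _ h _ _ hx =>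
    ⟨add_mem (mul_pw (self_pw A) hx.1 (by omega)) (mul_pw (self_pw B) hx.2 (by omega)),
      add_mem (mul_pw (self_pw C) hx.1 (by omega)) (mul_pw (self_pw D) hx.2 (by omega))⟩⟩

theorem Dat.lin {f : k × k → ℂ} {γ : ℂ} (h : Dat (lat w) f γ) {A B C D : k}
    (hd : A * D - B * C ≠ 0) :
    Dat (lat w) (fun x => f (A * x.1 + B * x.2, C * x.1 + D * x.2)) γ := by
  obtain ⟨e, he⟩ : ∃ e, (A * D - B * C) * e = 1 := ⟨_, mul_inv_cancel₀ hd⟩
  let g : (k × k) ≃+ (k × k) :=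
    { toFun := fun x => (A * x.1 + B * x.2, C * x.1 + D * x.2)
      invFun := fun x => (D * e * x.1 + -B * e * x.2, -C * e * x.1 + A * e * x.2)
      left_inv := fun x => Prod.ext (by linear_combination x.1 * he) (by linear_combination x.2 * he)
      right_inv := fun x =>
        Prod.ext (by linear_combination x.1 * he) (by linear_combination x.2 * he)
      map_add' := fun x y => by ext <;> simp only [Prod.fst_add, Prod.snd_add] <;> ring }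
  obtain ⟨c, hc⟩ := lin_bound (w := w) A B C D
  obtain ⟨c', hc'⟩ := lin_bound (w := w) (D * e) (-B * e) (-C * e) (A * e)
  exact h.pull g ⟨max c c', fun N x hx =>
    ⟨hc _ (le_max_left _ _) N x hx, hc' _ (le_max_right _ _) N x hx⟩⟩

variable {ψ : AddChar k ℂ} {j₀ : ℤ}

theorem dual (hψ : IsCond w ψ j₀) (i : ℤ) (x : k) :
    (∀ h ∈ pw w i, ψ (x * h) = 1) ↔ x ∈ pw w (j₀ - i) := by
  refine ⟨fun H => ?_, fun hx h hh => hψ.triv _ (mul_pw hx hh (by omega))⟩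
  by_contra hx
  rw [mem_pw_iff, not_or] at hx
  obtain ⟨y, hy, hy1⟩ := hψ.nontriv
  refine hy1 ?_
  have := H (x⁻¹ * y) (mul_pw (self_pw _) hy (by rw [ord_inv]; omega))
  rwa [mul_inv_cancel_left₀ hx.1] at this

theorem dual2 (hψ : IsCond w ψ j₀) (i i' : ℤ) (u v : k) :
    (∀ h ∈ (pw w i).prod (pw w i'), ψ (u * h.1 + v * h.2) = 1) ↔
      u ∈ pw w (j₀ - i) ∧ v ∈ pw w (j₀ - i') := by
  refine ⟨fun H => ⟨(dual hψ i u).1 fun h hh => ?_, (dual hψ i' v).1 fun h hh => ?_⟩,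
    fun H h hh => ?_⟩
  · simpa using H (h, 0) ⟨hh, zero_mem _⟩
  · simpa using H (0, h) ⟨zero_mem _, hh⟩
  · rw [AddChar.map_add_eq_mul, (dual hψ i u).2 H.1 _ hh.1, (dual hψ i' v).2 H.2 _ hh.2, mul_one]

theorem dat_one (L : IsLoc w) (hψ : IsCond w ψ j₀) {d : k} (hd : d ≠ 0) :
    ∃ S : ℂ, Dat (pw w) (fun x => ψ (d * x ^ 2)) S := by
  have h2 : 2 * d ≠ 0 := mul_ne_zero L.two hd
  have h3 : ord w (2 * d) = ord w 2 + ord w d := ord_mul L.two hd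
  have h4 : 0 ≤ ord w (2 : k) := ord_two_nonneg
  obtain ⟨m, hm⟩ : ∃ m : ℤ, m = max (j₀ - ord w d) 0 := ⟨_, rfl⟩
  obtain ⟨R, hR⟩ := reps L m (j₀ - m - ord w (2 * d)) (by omega)
  refine ⟨_, fun x y => ψ (2 * d * x * y), pw w m, pw w (j₀ - m - ord w (2 * d)), R,
    max m (m + ord w (2 * d) - j₀), 1,
    ⟨fun x y => ?_, fun x y z => ?_, fun x => by simp, j₀ - ord w (2 * d),
      fun i j hij x hx y hy => ?_⟩, pw_anti (by omega), pw_anti (by omega), pw_anti (by omega),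
    fun x hx => ?_, fun x => ?_, hR, one_pos, by rw [Complex.ofReal_one, one_mul]⟩
  · rw [← AddChar.map_add_eq_mul, ← AddChar.map_add_eq_mul]
    congr 1
    ring
  · rw [← AddChar.map_add_eq_mul, mul_add]
  · exact hψ.triv _ (mul_pw (mul_pw (self_pw _) hx le_rfl) hy (by omega))
  · simp only [sq]
    exact hψ.triv _ (mul_pw (self_pw d) (mul_pw hx hx le_rfl) (by omega))
  · rw [dual hψ]
    exact ⟨fun hx => mul_pw (self_pw _) hx (by omega), fun hx => of_mul_pw h2 hx le_rfl⟩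

theorem bil (hψ : IsCond w ψ j₀) (A B C : k) :
    Bil (lat w) (fun p => ψ (A * p.1 ^ 2 + B * p.1 * p.2 + C * p.2 ^ 2))
      fun p h => ψ ((2 * A * p.1 + B * p.2) * h.1 + (B * p.1 + 2 * C * p.2) * h.2) := by
  obtain ⟨c, hc⟩ := lin_bound (w := w) (2 * A) B B (2 * C)
  refine ⟨fun x y => ?_, fun x y z => ?_, fun x => by simp, j₀ + c, fun i j hij x hx y hy => ?_⟩
  · rw [← AddChar.map_add_eq_mul, ← AddChar.map_add_eq_mul, Prod.fst_add, Prod.snd_add]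
    congr 1
    ring
  · rw [← AddChar.map_add_eq_mul, Prod.fst_add, Prod.snd_add]
    congr 1
    ring
  · have := hc c le_rfl j x hx
    exact hψ.triv _ (add_mem (mul_pw this.1 hy.1 (by omega)) (mul_pw this.2 hy.2 (by omega)))

theorem dat_hyp (L : IsLoc w) (hψ : IsCond w ψ j₀) {d : k} (hd : d ≠ 0) :
    Dat (lat w) (fun p => ψ (d * p.1 ^ 2) * ψ (-d * p.2 ^ 2)) 1 := by
  have h : Dat (lat w) (fun p => ψ (0 * p.1 ^ 2 + d * p.1 * p.2 + 0 * p.2 ^ 2)) 1 := by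
    refine ⟨_, (pw w 0).prod (pw w (j₀ - ord w d)), (pw w 0).prod (pw w (j₀ - ord w d)), {0},
      max (j₀ - ord w d) (ord w d - j₀), 1, bil hψ 0 d 0,
      fun x hx => ⟨pw_anti (by omega) hx.1, pw_anti (by omega) hx.2⟩, le_rfl,
      fun x hx => ⟨pw_anti (by omega) hx.1, pw_anti (by omega) hx.2⟩, fun x hx => ?_,
      fun x => ?_, rep_self _, one_pos, by simp⟩
    · simp only [zero_mul, zero_add, add_zero]
      exact hψ.triv _ (mul_pw (mul_pw (self_pw d) hx.1 le_rfl) hx.2 (by omega))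
    · rw [dual2 hψ, mul_zero, zero_mul, zero_mul, zero_add, add_zero]
      exact ⟨fun hx => ⟨mul_pw (self_pw d) hx.2 (by omega), mul_pw (self_pw d) hx.1 (by omega)⟩,
        fun hx => ⟨of_mul_pw hd hx.2 (by omega), of_mul_pw hd hx.1 (by omega)⟩⟩
  have h1 := h.lin (A := 1) (B := -1) (C := 1) (D := 1) (by
    rw [show (1 : k) * 1 - -1 * 1 = 2 by ring]; exact L.two)
  convert h1 using 2 with p
  rw [← AddChar.map_add_eq_mul]
  congr 1
  ring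

theorem exists_gam (L : IsLoc w) (hψ : IsCond w ψ j₀) {d : k} (hd : d ≠ 0) :
    ∃ γ : ℂ, ‖γ‖ = 1 ∧ Dat (pw w) (fun x => ψ (d * x ^ 2)) γ := by
  obtain ⟨S, hS⟩ := dat_one L hψ hd
  obtain ⟨S', hS'⟩ := dat_one L hψ (neg_ne_zero.2 hd)
  obtain ⟨r, -, hr⟩ := (dat_hyp L hψ hd).uniq mono2 (reps2 L) (hS.prod mono hS')
  have h0 : S ≠ 0 := by
    rintro rfl
    simp at hr
  have h1 : (‖S‖ : ℂ) ≠ 0 := by exact_mod_cast norm_ne_zero_iff.2 h0
  refine ⟨S / ‖S‖, ?_, hS.scale (norm_pos_iff.2 h0) (by field_simp)⟩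
  rw [norm_div, Complex.norm_real, norm_norm, div_self (norm_ne_zero_iff.2 h0)]

theorem char_sum (hψ : IsCond w ψ j₀) {R : Finset k} (hR : IsRep (pw w 1) (pw w 0) R) {y : k}
    (hy : y ∈ pw w (j₀ - 1)) (hy' : y ∉ pw w j₀) : ∑ u ∈ R, ψ (y * u) = 0 := by
  obtain ⟨b, hb, hb1⟩ : ∃ b ∈ pw w 0, ψ (y * b) ≠ 1 := by
    by_contra hc
    push Not at hc
    exact hy' (by simpa using (dual hψ 0 y).1 hc)
  have e2 := hR.sum_add (fun u => ψ (y * u)) (fun u _ a ha => by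
    simp only [mul_add, AddChar.map_add_eq_mul, (dual hψ 1 y).2 hy a ha, mul_one]) hb
  simp only [mul_add, AddChar.map_add_eq_mul, ← sum_mul] at e2
  by_contra hne
  exact hb1 (mul_left_cancel₀ hne (e2.trans (mul_one _).symm))

section Aniso

variable {t n : k} (ht : t ∈ pw w 0) (hn : n ∈ pw w 0) (h0 : t ^ 2 - 4 * n ≠ 0)
  (h1 : ord w (t ^ 2 - 4 * n) = 0)

include ht hn

theorem form_pw {i : ℤ} {p : k × k} (hp : p ∈ lat w i) :
    p.1 ^ 2 + t * p.1 * p.2 + n * p.2 ^ 2 ∈ pw w (2 * i) := by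
  rw [sq, sq]
  exact add_mem (add_mem (mul_pw hp.1 hp.1 (by omega))
    (mul_pw (mul_pw ht hp.1 le_rfl) hp.2 (by omega)))
    (mul_pw hn (mul_pw hp.2 hp.2 le_rfl) (by omega))

include h0 h1

theorem dat_aniso (hψ : IsCond w ψ j₀) {c : k} (hc : c ≠ 0) {i : ℤ} (hi : 0 ≤ i)
    (hci : ord w c = j₀ - i) {R : Finset (k × k)} (hR : IsRep (lat w i) (lat w 0) R) :
    Dat (lat w) (fun p => ψ (c * (p.1 ^ 2 + t * p.1 * p.2 + n * p.2 ^ 2)))
      (∑ p ∈ R, ψ (c * (p.1 ^ 2 + t * p.1 * p.2 + n * p.2 ^ 2))) := by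
  have hB := bil hψ c (c * t) (c * n)
  have e : (fun p : k × k => ψ (c * p.1 ^ 2 + c * t * p.1 * p.2 + c * n * p.2 ^ 2))
      = fun p => ψ (c * (p.1 ^ 2 + t * p.1 * p.2 + n * p.2 ^ 2)) := by
    funext p
    congr 1
    ring
  rw [e] at hB
  refine ⟨_, lat w i, lat w 0, R, i, 1, hB, le_rfl, mono2 _ _ hi, mono2 _ _ (by omega),
    fun x hx => hψ.triv _ (mul_pw (self_pw c) (form_pw ht hn hx) (by omega)), fun x => ?_, hR,
    one_pos, by rw [Complex.ofReal_one, one_mul]⟩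
  rw [lat, lat, dual2 hψ, show 2 * c * x.1 + c * t * x.2 = c * (2 * x.1 + t * x.2) by ring,
    show c * t * x.1 + 2 * (c * n) * x.2 = c * (t * x.1 + 2 * n * x.2) by ring]
  have h2n : 2 * n ∈ pw w 0 := mul_pw two_pw hn le_rfl
  refine ⟨fun hx => ⟨mul_pw (self_pw c) (add_mem (mul_pw two_pw hx.1 le_rfl)
    (mul_pw ht hx.2 le_rfl)) (by omega), mul_pw (self_pw c) (add_mem (mul_pw ht hx.1 le_rfl)
    (mul_pw h2n hx.2 le_rfl)) (by omega)⟩, fun hx => ?_⟩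
  have a1 : 2 * x.1 + t * x.2 ∈ pw w 0 := of_mul_pw hc hx.1 (by omega)
  have a2 : t * x.1 + 2 * n * x.2 ∈ pw w 0 := of_mul_pw hc hx.2 (by omega)
  refine ⟨of_mul_pw (i := 0) h0 ?_ (by omega), of_mul_pw (i := 0) h0 ?_ (by omega)⟩
  · rw [show (t ^ 2 - 4 * n) * x.1 = t * (t * x.1 + 2 * n * x.2) - 2 * n * (2 * x.1 + t * x.2) by
      ring]
    exact sub_mem (mul_pw ht a2 le_rfl) (mul_pw h2n a1 le_rfl)
  · rw [show (t ^ 2 - 4 * n) * x.2 = t * (2 * x.1 + t * x.2) - 2 * (t * x.1 + 2 * n * x.2) by ring]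
    exact sub_mem (mul_pw ht a1 le_rfl) (mul_pw two_pw a2 le_rfl)

end Aniso

section Gam

variable (L : IsLoc w) {gam : k → ℂ}
  (hg : ∀ d : k, d ≠ 0 → ‖gam d‖ = 1 ∧ Dat (pw w) (fun x => ψ (d * x ^ 2)) (gam d))

include L hg

omit L in
theorem dat_bin {a c : k} (ha : a ≠ 0) (hc : c ≠ 0) :
    ‖gam c * gam (-(a * c))‖ = 1 ∧
      Dat (lat w) (fun p => ψ (c * (p.1 ^ 2 - a * p.2 ^ 2))) (gam c * gam (-(a * c))) := by
  have h1 := hg c hc
  have h2 := hg _ (neg_ne_zero.2 (mul_ne_zero ha hc))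
  refine ⟨by rw [norm_mul, h1.1, h2.1, mul_one], ?_⟩
  convert h1.2.prod mono h2.2 using 2 with p
  · rfl
  · rw [← AddChar.map_add_eq_mul]
    congr 1
    ring

theorem gam_neg (hψ : IsCond w ψ j₀) {d : k} (hd : d ≠ 0) : gam d * gam (-d) = 1 := by
  have h1 := hg d hd
  have h2 := hg _ (neg_ne_zero.2 hd)
  obtain ⟨r, hr, e⟩ := (h1.2.prod mono h2.2).uniq mono2 (reps2 L) (dat_hyp L hψ hd)
  exact unit_eq hr e (by rw [norm_mul, h1.1, h2.1, mul_one]) norm_one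

theorem gam_norm {a c y : k} (ha : a ≠ 0) (hc : c ≠ 0) (hy : y ≠ 0) (h : hs a y = 0) :
    gam (c * y) * gam (-(a * (c * y))) = gam c * gam (-(a * c)) := by
  obtain ⟨p, s, rfl⟩ := hs_eq_zero.1 h
  have h1 := dat_bin hg ha hc
  have h2 := dat_bin hg ha (mul_ne_zero hc hy)
  have h3 := h1.2.lin (A := p) (B := a * s) (C := s) (D := p) (by
    rw [show p * p - a * s * s = p ^ 2 - a * s ^ 2 by ring]; exact hy)
  obtain ⟨r, hr, e⟩ := h2.2.uniq mono2 (reps2 L) (by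
    convert h3 using 3 with x
    ring)
  exact unit_eq hr e h2.1 h1.1

theorem gam_same {a b c : k} (ha : a ≠ 0) (hb : b ≠ 0) (hc : c ≠ 0) (h : hs a b = hs a c) :
    gam b * gam (-(a * b)) = gam c * gam (-(a * c)) := by
  have h1 : hs a (b * c) = 0 := by
    rw [L.hs_mul_right ha hb hc, h]
    exact CharTwo.add_self_eq_zero _
  have h2 : hs a (b * c * c⁻¹ ^ 2) = 0 := by rw [hs_mul_sq_right _ _ (inv_ne_zero hc), h1]
  have h3 := gam_norm L hg ha hc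
    (mul_ne_zero (mul_ne_zero hb hc) (pow_ne_zero 2 (inv_ne_zero hc))) h2
  rwa [show c * (b * c * c⁻¹ ^ 2) = b by field_simp] at h3

theorem gam_unr (hψ : IsCond w ψ j₀) : ∃ Δ b c : k, Δ ≠ 0 ∧ b ≠ 0 ∧ c ≠ 0 ∧ hs Δ b ≠ hs Δ c ∧
    gam b * gam (-(Δ * b)) = 1 ∧ gam c * gam (-(Δ * c)) = -1 := by
  classical
  obtain ⟨t, n, ht, hn, han, h0, h1, hns, hu⟩ := L.exists_aniso
  have h4 : (4 : k) ≠ 0 := by
    rw [show (4 : k) = 2 * 2 by ring]
    exact mul_ne_zero L.two L.two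
  have conv : ∀ c : k, c ≠ 0 →
      Dat (lat w) (fun p => ψ (c * (p.1 ^ 2 + t * p.1 * p.2 + n * p.2 ^ 2)))
        (gam (c / 4) * gam (-((t ^ 2 - 4 * n) * (c / 4)))) := fun c hc => by
    have h3 := (dat_bin hg h0 (div_ne_zero hc h4)).2.lin (A := 2) (B := t) (C := 0) (D := 1)
      (by simpa using L.two)
    convert h3 using 3 with x
    field_simp
    ring
  obtain ⟨b, hb, hb'⟩ := L.exists_ord j₀
  obtain ⟨c, hc, hc'⟩ := L.exists_ord (j₀ - 1)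
  refine ⟨_, b / 4, c / 4, h0, div_ne_zero hb h4, div_ne_zero hc h4, ?_, ?_, ?_⟩
  · rw [L.hs_of_unr h0 hu (div_ne_zero hb h4), L.hs_of_unr h0 hu (div_ne_zero hc h4), if_neg hns,
      if_neg hns, ord_div hb h4, ord_div hc h4, hb', hc']
    intro e
    push_cast at e
    exact one_ne_zero (α := ZMod 2) (by linear_combination e)
  · obtain ⟨r, hr, e⟩ := (conv b hb).uniq mono2 (reps2 L)
      (dat_aniso ht hn h0 h1 hψ hb le_rfl (by omega) (rep_self _))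
    exact unit_eq hr (by simpa using e) (dat_bin hg h0 (div_ne_zero hb h4)).1 norm_one
  obtain ⟨R, hR⟩ := reps L 1 0 zero_le_one
  obtain ⟨u₀, ⟨hu0, hu1⟩, -⟩ := hR.2 0 (zero_mem _)
  rw [zero_sub, neg_mem_iff] at hu1
  have only : ∀ x ∈ R, x ∈ pw w 1 → x = u₀ := fun x hx hx' => hR.eq_of_sub hx hu0 (sub_mem hx' hu1)
  have hq : (2 : ℝ) ≤ R.card := by
    rw [hR.card]
    exact_mod_cast L.two_le_rc
  have hQ : ∀ p ∈ R ×ˢ R, p.1 ^ 2 + t * p.1 * p.2 + n * p.2 ^ 2 ∈ pw w 0 := fun p hp =>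
    form_pw (i := 0) ht hn ((rep_prod hR hR).1 p hp)
  have tot : ∑ u ∈ R, ∑ p ∈ R ×ˢ R, ψ (c * u * (p.1 ^ 2 + t * p.1 * p.2 + n * p.2 ^ 2))
      = R.card := by
    rw [sum_comm, sum_eq_single_of_mem (u₀, u₀) (mem_product.2 ⟨hu0, hu0⟩)]
    · rw [sum_congr rfl fun u hu' => hψ.triv _ (mul_pw (mul_pw (self_pw c) (hR.1 u hu') le_rfl)
        (form_pw (i := 1) (p := (u₀, u₀)) ht hn ⟨hu1, hu1⟩) (by omega))]
      simp
    · intro p hp hne
      rw [sum_congr rfl fun u _ => by rw [mul_right_comm c u]]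
      refine char_sum hψ hR (mul_pw (self_pw c) (hQ p hp) (by omega)) fun hm => hne ?_
      obtain ⟨p1, p2⟩ := mem_product.1 hp
      have := han _ (hR.1 _ p1) _ (hR.1 _ p2) (of_mul_pw hc hm (by omega))
      exact Prod.ext (only _ p1 this.1) (only _ p2 this.2)
  have z0 : ∑ p ∈ R ×ˢ R, ψ (c * u₀ * (p.1 ^ 2 + t * p.1 * p.2 + n * p.2 ^ 2))
      = R.card * R.card := by
    rw [sum_congr rfl fun p hp => hψ.triv _ (mul_pw (mul_pw (self_pw c) hu1 le_rfl) (hQ p hp)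
      (by omega))]
    simp
  have hr : ∀ u ∈ R.erase u₀, ∃ r : ℝ, 0 < r ∧
      ∑ p ∈ R ×ˢ R, ψ (c * u * (p.1 ^ 2 + t * p.1 * p.2 + n * p.2 ^ 2))
        = r * (gam (c / 4) * gam (-((t ^ 2 - 4 * n) * (c / 4)))) := by
    intro u hu'
    obtain ⟨a1, a2⟩ := mem_erase.1 hu'
    have a3 : u ∉ pw w 1 := fun h => a1 (only u a2 h)
    have a4 := hR.1 u a2
    rw [mem_pw_iff] at a3 a4
    have a5 : u ≠ 0 := fun h => a3 (Or.inl h)
    have a6 : ord w u = 0 := by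
      have := a4.resolve_left a5
      have : ¬1 ≤ ord w u := fun h => a3 (Or.inr h)
      omega
    rw [← gam_norm L hg h0 (div_ne_zero hc h4) a5 (hu u a5 a6), div_mul_eq_mul_div]
    exact (dat_aniso ht hn h0 h1 hψ (mul_ne_zero hc a5) zero_le_one
      (by rw [ord_mul hc a5]; omega) (rep_prod hR hR)).uniq mono2 (reps2 L)
      (conv _ (mul_ne_zero hc a5))
  choose! r hr1 hr2 using hr
  rw [← add_sum_erase R _ hu0, z0, sum_congr rfl hr2, ← sum_mul, ← Complex.ofReal_sum] at tot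
  have hs0 : 0 ≤ ∑ u ∈ R.erase u₀, r u := sum_nonneg fun u hu' => (hr1 u hu').le
  generalize ∑ u ∈ R.erase u₀, r u = s at tot hs0
  have hp : (0 : ℝ) < R.card * R.card - R.card := by nlinarith
  have hp' : ((R.card * R.card - R.card : ℝ) : ℂ) ≠ 0 := by exact_mod_cast hp.ne'
  have hs1 : s ≠ 0 := by
    rintro rfl
    refine hp' ?_
    push_cast at tot ⊢
    linear_combination tot
  have hs2 : (s : ℂ) ≠ 0 := by exact_mod_cast hs1
  refine unit_eq (div_pos hp (lt_of_le_of_ne hs0 hs1.symm)) ?_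
    (dat_bin hg h0 (div_ne_zero hc h4)).1 (by simp)
  generalize gam (c / 4) * gam (-((t ^ 2 - 4 * n) * (c / 4))) = γ at tot
  push_cast
  field_simp
  linear_combination tot

end Gam

end WeilLocAux

open WeilLocAux in
theorem IsLoc.weil (L : IsLoc w) {ψ : AddChar k ℂ} {j₀ : ℤ} (hψ : IsCond w ψ j₀) :
    ∃ gam : k → ℂ,
      (∀ d : k, d ≠ 0 → ∃ J : ℤ, ∀ j i : ℤ, j ≤ -J → J ≤ i + j → ∀ R : Finset k,
        IsRep (pw w i) (pw w j) R →
          ∃ r : ℝ, 0 < r ∧ ∑ x ∈ R, ψ (d * x ^ 2) = r * gam d) ∧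
      ∀ a b : k, a ≠ 0 → b ≠ 0 →
        gam 1 * gam (-a) * gam (-b) * gam (a * b) = if hs a b = 0 then 1 else -1 := by
  choose! gam hg using fun (d : k) (hd : d ≠ 0) => exists_gam L hψ hd
  refine ⟨gam, fun d hd => (hg d hd).2.ph mono, ?_⟩
  obtain ⟨T, hT⟩ : ∃ T : k → k → ℂ, ∀ a b, T a b = gam 1 * gam (-a) * gam (-b) * gam (a * b) :=
    ⟨_, fun _ _ => rfl⟩
  simp only [← hT]
  have symm : ∀ a b, T a b = T b a := fun a b => by rw [hT, hT, mul_comm a b]; ring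
  have key : ∀ a b, a ≠ 0 → b ≠ 0 →
      T a b * (gam b * gam (-(a * b))) = gam 1 * gam (-(a * 1)) := fun a b ha hb => by
    have h1 := gam_neg L hg hψ hb
    have h2 := gam_neg L hg hψ (mul_ne_zero ha hb)
    rw [hT, mul_one]
    linear_combination (gam 1 * gam (-a) * gam (a * b) * gam (-(a * b))) * h1
      + gam 1 * gam (-a) * h2
  have ne : ∀ a b, a ≠ 0 → b ≠ 0 → gam b * gam (-(a * b)) ≠ 0 := fun a b ha hb e => by
    have := (dat_bin hg ha hb).1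
    rw [e, norm_zero] at this
    exact zero_ne_one this
  have same : ∀ a b c, a ≠ 0 → b ≠ 0 → c ≠ 0 → hs a b = hs a c → T a b = T a c :=
    fun a b c ha hb hc h => mul_right_cancel₀ (ne a c ha hc) (by
      rw [key a c ha hc, ← gam_same L hg ha hb hc h, key a b ha hb])
  have one : ∀ a : k, hs a 1 = 0 := fun a => hs_of_isSquare_right a IsSquare.one
  obtain ⟨Δ, e, hΔ, he, h1, h2⟩ : ∃ Δ e : k, Δ ≠ 0 ∧ e ≠ 0 ∧ hs Δ e = 1 ∧ T Δ e = -1 := by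
    obtain ⟨Δ, b, c, hΔ, hb, hc, hne, g1, g2⟩ := gam_unr L hg hψ
    rcases zmod2_cases (hs Δ b) with s1 | s1
    · have s2 : hs Δ c = 1 := (zmod2_cases _).resolve_left fun s => hne (s1.trans s.symm)
      have k1 := key Δ c hΔ hc
      rw [← gam_same L hg hΔ hb one_ne_zero (s1.trans (one Δ).symm), g1, g2] at k1
      exact ⟨Δ, c, hΔ, hc, s2, by linear_combination -k1⟩
    · have s2 : hs Δ c = 0 := (zmod2_cases _).resolve_right fun s => hne (s1.trans s.symm)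
      have k1 := key Δ b hΔ hb
      rw [← gam_same L hg hΔ hc one_ne_zero (s2.trans (one Δ).symm), g1, g2] at k1
      exact ⟨Δ, b, hΔ, hb, s1, by linear_combination k1⟩
  intro a b ha hb
  split_ifs with h
  · refine mul_right_cancel₀ (ne a b ha hb) ?_
    rw [key a b ha hb, one_mul]
    exact gam_same L hg ha one_ne_zero hb ((one a).trans h.symm)
  · have h3 : hs a b = 1 := (zmod2_cases _).resolve_left h
    obtain ⟨c, hc, c1, c2⟩ : ∃ c : k, c ≠ 0 ∧ hs a c = 1 ∧ hs Δ c = 1 := by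
      rcases zmod2_cases (hs Δ b) with s1 | s1
      · rcases zmod2_cases (hs a e) with s2 | s2
        · exact ⟨b * e, mul_ne_zero hb he, by rw [L.hs_mul_right ha hb he, h3, s2, add_zero],
            by rw [L.hs_mul_right hΔ hb he, h1, s1, zero_add]⟩
        · exact ⟨e, he, s2, h1⟩
      · exact ⟨b, hb, h3, s1⟩
    rw [same a b c ha hb hc (h3.trans c1.symm), symm a c, same c a Δ hc ha hΔ (by
      rw [hs_comm L.two hc ha, hs_comm L.two hc hΔ, c1, c2]), symm c Δ,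
      same Δ c e hΔ hc he (c2.trans h1.symm), h2]

end Pool.Agent.Stark
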