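import Pool.Agent.Lib.MP_ca56d1_nt.Compl
import Pool.Agent.Lib.MP_ca56d1_nt.WeilLoc
import Pool.Agent.Lib.MP_ca56d1_nt.Hecke

/-! Hilbert's reciprocity law. -/

namespace Pool.Agent.Stark

open NumberField

variable {F : Type*} [Field F] [NumberField F]

namespace RecipAAux

open ComplAux

/-- `y` has the same polar part as `x` at `q` and is integral elsewhere -/
def Ap (q : Pr F) (x : Kc q) (y : F) : Prop :=
  emb q y - x ∈ pw (wv q) 0 ∧ ∀ q', q' ≠ q → y ∈ pw (q'.valuation F) 0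

theorem approx (q : Pr F) (x : Kc q) (j : ℤ) :
    ∃ y : F, emb q y - x ∈ pw (wv q) j ∧ ∀ q', q' ≠ q → y ∈ pw (q'.valuation F) 0 := by
  classical
  obtain ⟨y, h1, h2⟩ := approx_strong {q} (Function.update (fun _ => 0) q x) j
  refine ⟨y, ?_, fun q' hq' => mem_pw_zero.2 (h2 q' (by simpa using hq'))⟩
  simpa only [Function.update_self] using h1 q (Finset.mem_singleton_self q)

theorem eTr_of_pw {x : F} (h : ∀ q : Pr F, x ∈ pw (q.valuation F) 0) : eTr x = 1 := by
  obtain ⟨y, rfl⟩ := exists_int_of_og fun q => mem_pw_zero.1 (h q)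
  exact eTr_int y

theorem eTr_congr {x y : F} (h : ∀ q : Pr F, x - y ∈ pw (q.valuation F) 0) : eTr x = eTr y := by
  rw [← sub_add_cancel x y, eTr_add, eTr_of_pw h, one_mul]

theorem Ap.eq {q : Pr F} {x : Kc q} {y y' : F} (h : Ap q x y) (h' : Ap q x y') : eTr y = eTr y' := by
  refine eTr_congr fun q' => ?_
  by_cases hq : q' = q
  · subst hq
    rw [← emb_mem_pw, map_sub, ← sub_sub_sub_cancel_right _ _ x]
    exact sub_mem h.1 h'.1
  · exact sub_mem (h.2 q' hq) (h'.2 q' hq)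

theorem eTr_zero : eTr (0 : F) = 1 := eTr_of_pw fun _ => zero_mem _

theorem ap_zero {q : Pr F} {x : Kc q} (hx : x ∈ pw (wv q) 0) : Ap q x 0 :=
  ⟨by rw [map_zero, zero_sub]; exact neg_mem hx, fun _ _ => zero_mem _⟩

/-- the local character -/
noncomputable def psi (q : Pr F) : AddChar (Kc q) ℂ where
  toFun x := eTr (approx q x 0).choose
  map_zero_eq_one' := (Ap.eq (approx q 0 0).choose_spec (ap_zero (zero_mem _))).trans eTr_zero
  map_add_eq_mul' x x' := by
    have h1 := (approx q x 0).choose_spec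
    have h2 := (approx q x' 0).choose_spec
    rw [← eTr_add]
    refine Ap.eq (approx q (x + x') 0).choose_spec ⟨?_, fun q' hq => add_mem (h1.2 q' hq) (h2.2 q' hq)⟩
    rw [map_add, add_sub_add_comm]
    exact add_mem h1.1 h2.1

theorem psi_eq {q : Pr F} {x : Kc q} {y : F} (h : Ap q x y) : psi q x = eTr y :=
  Ap.eq (approx q x 0).choose_spec h

theorem mul_int {q : Pr F} {y : F} {j : ℤ} (h : y ∈ pw (q.valuation F) j) (z : 𝓞 F) :
    y * z ∈ pw (q.valuation F) j := by
  have h1 : q.valuation F (z : F) ≤ 1 := by simpa [mem_pw] using mem_pw_zero.2 (og_nonneg q z)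
  rw [mem_pw, map_mul]
  exact (mul_le_of_le_one_right' h1).trans h

theorem bdd (q : Pr F) : ∃ b : ℤ, ∀ j : ℤ, (∀ x ∈ pw (wv q) j, psi q x = 1) → b ≤ j := by
  obtain ⟨c, hc0, hc⟩ := exists_codiff (F := F)
  refine ⟨-og q (c : F), fun j hj => ?_⟩
  by_contra hlt
  obtain ⟨x, hx⟩ := q.valuedAdicCompletion_surjective F (WithZero.exp (-j))
  obtain ⟨y, h1, h2⟩ := approx q x (j + 1)
  have h3 : x ∈ pw (wv q) j := le_of_eq hx
  have h4 : y ∈ pw (q.valuation F) j := by
    rw [← emb_mem_pw, ← sub_add_cancel (emb q y) x]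
    exact add_mem (pw_mono (by omega) h1) h3
  obtain ⟨z, hz⟩ := hc y fun u => by
    rw [← psi_eq (q := q) (x := emb q (y * u)) ⟨by rw [sub_self]; exact zero_mem _,
      fun q' hq => mul_int (h2 q' hq) u⟩]
    exact hj _ ((emb_mem_pw q _ j).2 (mul_int h4 u))
  have hc1 : (c : F) ≠ 0 := by simpa using hc0
  have h5 : (z : F) / c ∈ pw (q.valuation F) (-og q (c : F)) :=
    pw_div hc1 (by rw [og, add_neg_cancel]; exact mem_pw_zero.2 (og_nonneg q z))
  rw [hz, mul_div_cancel_left₀ _ hc1, ← emb_mem_pw] at h5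
  have h6 : x ∈ pw (wv q) (j + 1) := by
    rw [← sub_sub_cancel (emb q y) x]
    exact sub_mem (pw_mono (by omega) h5) h1
  rw [mem_pw, hx, WithZero.exp_le_exp] at h6
  omega

theorem eTr_sum {ι : Type*} (P : Finset ι) (y : ι → F) : eTr (∑ q ∈ P, y q) = ∏ q ∈ P, eTr (y q) := by
  classical
  induction P using Finset.induction_on with
  | empty => simpa using eTr_zero
  | insert a s ha ih => rw [Finset.sum_insert ha, Finset.prod_insert ha, eTr_add, ih]

end RecipAAux

open RecipAAux ComplAux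

theorem exists_localChar : ∃ (ψ : ∀ q : Pr F, AddChar (Kc q) ℂ) (j : Pr F → ℤ),
    (∀ q, IsCond (wv q) (ψ q) (j q)) ∧ (∀ q, j q ≤ 0) ∧
      ∀ (x : F) (P : Finset (Pr F)), (∀ q ∉ P, 0 ≤ og q x) →
        ∏ q ∈ P, ψ q (emb q x) = eTr x := by
  classical
  have h0 : ∀ q : Pr F, ∀ x ∈ pw (wv q) 0, psi q x = 1 := fun q x hx =>
    (psi_eq (ap_zero hx)).trans eTr_zero
  choose j h1 h2 using fun q : Pr F => Int.exists_least_of_bdd (bdd q) ⟨0, h0 q⟩
  refine ⟨psi, j, fun q => ⟨fun x => norm_eTr _, h1 q, ?_⟩, fun q => h2 q 0 (h0 q), fun x P hP => ?_⟩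
  · by_contra h
    push Not at h
    have h3 := h2 q _ h
    omega
  · choose y hy using fun q : Pr F => approx q (emb q x) 0
    rw [Finset.prod_congr rfl fun q _ => psi_eq (hy q), ← eTr_sum]
    refine eTr_congr fun q => ?_
    by_cases hq : q ∈ P
    · rw [← Finset.add_sum_erase P y hq, add_sub_right_comm]
      refine add_mem ?_ (sum_mem fun q' hq' => (hy q').2 q (Finset.ne_of_mem_erase hq').symm)
      rw [← emb_mem_pw, map_sub]
      exact (hy q).1
    · exact sub_mem (sum_mem fun q' hq' => (hy q').2 q fun h => hq (h ▸ hq'))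
        (mem_pw_zero.2 (hP q hq))

end Pool.Agent.Stark
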