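import Mathlib

/-! Definitions used in the statement of the rank one abelian Stark conjecture. -/

namespace Pool.Agent.StarkStmt

open NumberField IsDedekindDomain

variable (K H : Type*) [Field K] [NumberField K] [Field H] [NumberField H] [Algebra K H]

/-- `σ` is a Frobenius element at some prime of `H` above `P`. -/
def IsFrob (P : Ideal (𝓞 K)) (σ : H ≃ₐ[K] H) : Prop :=
  ∃ Q : Ideal (𝓞 H), Q.IsPrime ∧ Q.LiesOver P ∧
    ∀ x : 𝓞 H, σ • x - x ^ Ideal.absNorm P ∈ Q

/-- The Frobenius element of a prime `P` of `K`. -/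
noncomputable def frob (P : Ideal (𝓞 K)) : H ≃ₐ[K] H := Classical.epsilon (IsFrob K H P)

/-- The Artin symbol of an ideal: the product of the Frobenius elements of its prime factors. -/
noncomputable def artin (I : Ideal (𝓞 K)) : H ≃ₐ[K] H :=
  ((UniqueFactorizationMonoid.normalizedFactors I).toList.map (frob K H)).prod

variable {K} in
/-- `I` is a nonzero ideal prime to all primes of `S`. -/
def PrimeTo (S : Finset (HeightOneSpectrum (𝓞 K))) (I : Ideal (𝓞 K)) : Prop :=
  I ≠ ⊥ ∧ ∀ q ∈ S, IsCoprime I q.asIdeal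

/-- The Dirichlet series of the partial zeta function. -/
noncomputable def pzeta (S : Finset (HeightOneSpectrum (𝓞 K))) (g : H ≃ₐ[K] H) (s : ℂ) : ℂ :=
  ∑' I : {I : Ideal (𝓞 K) // PrimeTo S I ∧ artin K H I = g}, (Ideal.absNorm I.1 : ℂ) ^ (-s)

/-- `Z` is the meromorphic continuation of `f` from `Re s > 1`, holomorphic at `0`. -/
def IsCont (f Z : ℂ → ℂ) : Prop :=
  MeromorphicOn Z Set.univ ∧ AnalyticAt ℂ Z 0 ∧ ∀ s : ℂ, 1 < s.re → Z s = f s

variable {H} in
/-- `ε` has absolute value one at all places of `H` that do not lie over the place below `P`. -/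
def UnitAway (P : InfinitePlace H) (ε : H) : Prop :=
  (∀ Q : FinitePlace H, Q ε = 1) ∧
    ∀ w : InfinitePlace H, w.comap (algebraMap K H) ≠ P.comap (algebraMap K H) → w ε = 1

variable {H} in
/-- `H(ε^(1/W))` is an abelian extension of `K`. -/
def AbelRoot (W : ℕ) (ε : H) : Prop :=
  ∀ β : AlgebraicClosure H, β ^ W = algebraMap H (AlgebraicClosure H) ε →
    IsAbelianGalois K (IntermediateField.adjoin H {β})

variable {H} in
/-- The conclusion of the conjecture for an archimedean place `P` of `H` when `|S| ≥ 3`. -/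
def Stark (S : Finset (HeightOneSpectrum (𝓞 K))) (P : InfinitePlace H) : Prop :=
  ∃ (Z : (H ≃ₐ[K] H) → ℂ → ℂ) (ε : H), (∀ g, IsCont (pzeta K H S g) (Z g)) ∧
    ε ≠ 0 ∧ UnitAway K P ε ∧
    (∀ g : H ≃ₐ[K] H, (Real.log (P (g ε) ^ P.mult) : ℂ) =
      -(Units.torsionOrder H : ℂ) * deriv (Z g) 0) ∧
    AbelRoot K (Units.torsionOrder H) ε

end Pool.Agent.StarkStmt
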